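import Mathlib

/-!
# MP_33914b_an, file B1  (ROW ka-B1)
Paper: /team-store/kaut_paper.md

PROOF / HINTS:
hull: U = union of the basic open V with s cap V meagre; B = (closure s \ U) cup (s cap U). s cap U is meagre. If C is Baire measurable, s subset C and B\C is not meagre, then B\C =b O open, some basic V subset O is non meagre and B\C is comeagre in V; V cap s subset V cap C is meagre, so V subset U, so V cap (B\C) subset
(s cap U)\C = empty, V meagre: contradiction. Analytic: s = range of continuous phi : (N->N) -> X (or empty). For a finite sequence t let A_t = phi{cylinder t}, B_t its hull. A_t = union_n A_{t n}, so M_t = B_t \ union_n B_{t n} is meagre. If x in B_[] is in no M_t there is alpha with x in B_{alpha|k} subset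
closure(A_{alpha|k}) for all k, hence x = phi(alpha) (T2 + continuity). So B_[] \ s subset union M_t is meagre and s subset B_[]: s =b B_[].
-/
set_option autoImplicit false

open MeasureTheory Topology Filter Set

namespace KAut

/-- minimal Baire measurable hull: every set `s` is contained in a Baire measurable set `B ⊆ closure s` such that every
Baire measurable set containing `s` contains `B` up to a meagre set -/
theorem exists_baire_hull {X : Type*} [TopologicalSpace X] [SecondCountableTopology X] (s : Set X) :
    ∃ B : Set X, BaireMeasurableSet B ∧ s ⊆ B ∧ B ⊆ closure s ∧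
      ∀ C : Set X, BaireMeasurableSet C → s ⊆ C → IsMeagre (B \ C) := by
  classical
  let F : Set (Set X) := {V | V ∈ TopologicalSpace.countableBasis X ∧ IsMeagre (s ∩ V)}
  have hFc : F.Countable := (TopologicalSpace.countable_countableBasis X).mono fun V hV => hV.1
  let W : Set X := ⋃ V ∈ F, V
  have hWo : IsOpen W := isOpen_biUnion fun V hV =>
    TopologicalSpace.isOpen_of_mem_countableBasis hV.1
  have hsW : IsMeagre (s ∩ W) := by
    have h1 : s ∩ W = ⋃ V ∈ F, s ∩ V := by
      simp only [W, inter_iUnion]
    rw [h1]
    exact isMeagre_biUnion hFc fun V hV => hV.2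
  refine ⟨(closure s \ W) ∪ (s ∩ W), ?_, ?_, ?_, ?_⟩
  · exact ((isClosed_closure.isOpen_compl.baireMeasurableSet.of_compl).diff hWo.baireMeasurableSet).union
      hsW.baireMeasurableSet
  · intro x hx
    by_cases hxW : x ∈ W
    · exact Or.inr ⟨hx, hxW⟩
    · exact Or.inl ⟨subset_closure hx, hxW⟩
  · rintro x (hx | hx)
    · exact hx.1
    · exact subset_closure hx.1
  · intro C hC hsC
    set D : Set X := ((closure s \ W) ∪ (s ∩ W)) \ C with hD
    have hDm : BaireMeasurableSet D := by
      exact (((isClosed_closure.isOpen_compl.baireMeasurableSet.of_compl).diff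
        hWo.baireMeasurableSet).union hsW.baireMeasurableSet).diff hC
    obtain ⟨O, hO, hDO⟩ := hDm.residualEq_isOpen
    have h1 : IsMeagre (O \ D) := by
      show (O \ D)ᶜ ∈ residual X
      filter_upwards [hDO.mem_iff] with x hx
      intro hx2
      exact hx2.2 (hx.2 hx2.1)
    have h2 : IsMeagre (D \ O) := by
      show (D \ O)ᶜ ∈ residual X
      filter_upwards [hDO.mem_iff] with x hx
      intro hx2
      exact hx2.2 (hx.1 hx2.1)
    have h3 : ∀ V ∈ TopologicalSpace.countableBasis X, V ⊆ O → IsMeagre V := by
      intro V hV hVO
      have h4 : IsMeagre (s ∩ V) := by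
        refine h1.mono ?_
        rintro x ⟨hx, hxV⟩
        exact ⟨hVO hxV, fun hxD => hxD.2 (hsC hx)⟩
      have h5 : V ⊆ W := by
        intro x hx
        exact mem_biUnion (show V ∈ F from ⟨hV, h4⟩) hx
      refine h1.mono ?_
      intro x hx
      refine ⟨hVO hx, fun hxD => ?_⟩
      rcases hxD.1 with h6 | h6
      · exact h6.2 (h5 hx)
      · exact hxD.2 (hsC h6.1)
    have h4 : IsMeagre O := by
      have h5 : O = ⋃ V ∈ {V | V ∈ TopologicalSpace.countableBasis X ∧ V ⊆ O}, V := by
        apply Subset.antisymm
        · intro x hx
          obtain ⟨V, hV, hxV, hVO⟩ := (TopologicalSpace.isBasis_countableBasis X).exists_subset_of_mem_open hx hO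
          exact mem_biUnion (show V ∈ {V | V ∈ TopologicalSpace.countableBasis X ∧ V ⊆ O} from ⟨hV, hVO⟩) hxV
        · exact iUnion₂_subset fun V hV => hV.2
      rw [h5]
      exact isMeagre_biUnion ((TopologicalSpace.countable_countableBasis X).mono fun V hV => hV.1)
        fun V hV => h3 V hV.1 hV.2
    refine (h2.union h4).mono ?_
    intro x hx
    by_cases hxO : x ∈ O
    · exact Or.inr hxO
    · exact Or.inl ⟨hx, hxO⟩

/-- (E1) analytic sets have the Baire property -/
theorem analytic_baireMeasurable {X : Type*} [TopologicalSpace X] [T2Space X] [SecondCountableTopology X]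
    {s : Set X} (hs : AnalyticSet s) : BaireMeasurableSet s := by
  classical
  rw [AnalyticSet] at hs
  rcases hs with hs | ⟨f, hf, hfs⟩
  · rw [hs]; exact IsMeagre.empty.baireMeasurableSet
  · let cyl : List ℕ → Set (ℕ → ℕ) := fun t => {x | ∀ i (h : i < t.length), x i = t[i]}
    let A : List ℕ → Set X := fun t => f '' cyl t
    have hA0 : A [] = s := by
      rw [← hfs, ← image_univ]
      show f '' cyl [] = _
      congr 1
      ext x
      simp [cyl]
    have hAs : ∀ t, A t ⊆ ⋃ n, A (t ++ [n]) := by
      rintro t _ ⟨x, hx, rfl⟩
      refine mem_iUnion.2 ⟨x t.length, x, ?_, rfl⟩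
      intro i hi
      rw [List.length_append, List.length_singleton] at hi
      rcases Nat.lt_succ_iff_lt_or_eq.1 hi with h | h
      · rw [List.getElem_append_left h]
        exact hx i h
      · subst h
        rw [List.getElem_append_right (le_refl _)]
        simp
    choose B hB1 hB2 hB3 hB4 using fun t => exists_baire_hull (A t)
    have hM : ∀ t, IsMeagre (B t \ ⋃ n, B (t ++ [n])) := fun t =>
      hB4 t _ (BaireMeasurableSet.iUnion fun n => hB1 _)
        ((hAs t).trans (iUnion_mono fun n => hB2 _))
    have hN : IsMeagre (⋃ t, B t \ ⋃ n, B (t ++ [n])) := isMeagre_iUnion hM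
    have hmain : B [] \ s ⊆ ⋃ t, B t \ ⋃ n, B (t ++ [n]) := by
      rintro x ⟨hxB, hxs⟩
      by_contra hxN
      have hstep : ∀ t, ∃ n, x ∈ B t → x ∈ B (t ++ [n]) := by
        intro t
        by_cases hxt : x ∈ B t
        · by_contra hcon
          push Not at hcon
          exact hxN (mem_iUnion.2 ⟨t, hxt, fun h => by
            obtain ⟨n, hn⟩ := mem_iUnion.1 h
            exact (hcon n).2 hn⟩)
        · exact ⟨0, fun h => absurd h hxt⟩
      choose g hg using hstep
      let L : ℕ → List ℕ := fun k => Nat.rec [] (fun _ l => l ++ [g l]) k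
      have hL0 : L 0 = [] := rfl
      have hLs : ∀ k, L (k + 1) = L k ++ [g (L k)] := fun k => rfl
      have hLl : ∀ k, (L k).length = k := by
        intro k
        induction k with
        | zero => rfl
        | succ k ih => rw [hLs, List.length_append, ih]; rfl
      have hLB : ∀ k, x ∈ B (L k) := by
        intro k
        induction k with
        | zero => exact hxB
        | succ k ih => rw [hLs]; exact hg _ ih
      have hLg : ∀ k i (h : i < (L k).length), (L k)[i] = g (L i) := by
        intro k
        induction k with
        | zero => intro i h; exact absurd h (by simp [hL0])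
        | succ k ih =>
          intro i h
          have h' : i < (L k ++ [g (L k)]).length := by rw [← hLs]; exact h
          have e : (L (k + 1))[i] = (L k ++ [g (L k)])[i] := by
            congr 1
          rw [e]
          have hi : i < k + 1 := lt_of_lt_of_eq h (hLl (k + 1))
          rcases Nat.lt_succ_iff_lt_or_eq.1 hi with h1 | h1
          · rw [List.getElem_append_left (by rw [hLl]; exact h1)]
            exact ih i _
          · subst h1
            rw [List.getElem_append_right (by rw [hLl])]
            simp
      let α : ℕ → ℕ := fun k => g (L k)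
      have hx : x = f α := by
        by_contra hne
        obtain ⟨P, Q, hP, hQ, hxP, hαQ, hPQ⟩ := t2_separation hne
        have hop := hQ.preimage hf
        rw [isOpen_pi_iff] at hop
        obtain ⟨I, u, hu, hsub⟩ := hop α hαQ
        obtain ⟨k, hk⟩ : ∃ k, ∀ i ∈ I, i < k := ⟨I.sup id + 1, fun i hi =>
          Nat.lt_succ_of_le (Finset.le_sup (f := id) hi)⟩
        have hAQ : A (L k) ⊆ Q := by
          rintro _ ⟨y, hy, rfl⟩
          apply hsub
          intro i hi
          have hik := hk i hi
          have h1 : y i = α i := by
            have h2 := hy i (by rw [hLl]; exact hik)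
            rw [h2, hLg]
          rw [h1]
          exact (hu i hi).2
        have hxc : x ∈ closure Q := closure_mono hAQ (hB3 _ (hLB k))
        obtain ⟨z, hzP, hzQ⟩ := mem_closure_iff.1 hxc P hP hxP
        exact (disjoint_left.1 hPQ) hzP hzQ
      exact hxs (by rw [← hfs, hx]; exact mem_range_self _)
    have hsB : s ⊆ B [] := by rw [← hA0]; exact hB2 []
    have hmea : IsMeagre (B [] \ s) := hN.mono hmain
    refine (hB1 []).congr ?_
    rw [Filter.eventuallyEq_set]
    have h7 : (B [] \ s)ᶜ ∈ residual X := hmea
    filter_upwards [h7] with x hx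
    constructor
    · intro h
      by_contra h2
      exact hx ⟨h, h2⟩
    · exact fun h => hsB h

end KAut
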