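import Mathlib

/-!
# MP_33914b_an, file B2  (ROW ka-B2)
Paper: /team-store/kaut_paper.md

PROOF / HINTS:
dense open D: for every nonempty basic open V of Y the set {x : exists y in V, (x,y) in D} is open and dense; if x is in all of them D_x is dense open. Countable intersections. conv: s =b O open (BaireMeasurableSet.residualEq_isOpen); for comeagre many x: s_x =b O_x and s_x residual, so O_x residual, dense;
hence O is dense in X x Y (X Baire), residual, so s residual.
-/
set_option autoImplicit false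

open MeasureTheory Topology Filter Set

namespace KAut

/-- the section of a dense open set is dense open for comeagrely many points -/
theorem B2_aux {X Y : Type*} [TopologicalSpace X] [TopologicalSpace Y] [SecondCountableTopology Y]
    {t : Set (X × Y)} (ho : IsOpen t) (hd : Dense t) :
    ∀ᶠ x in residual X, ∀ᶠ y in residual Y, (x, y) ∈ t := by
  have h1 : ∀ᶠ x in residual X, ∀ V ∈ TopologicalSpace.countableBasis Y, ∃ y ∈ V, (x, y) ∈ t := by
    rw [eventually_countable_ball (TopologicalSpace.countable_countableBasis Y)]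
    intro V hV
    have hVo : IsOpen V := TopologicalSpace.isOpen_of_mem_countableBasis hV
    have hVne : V.Nonempty := TopologicalSpace.nonempty_of_mem_countableBasis hV
    have he : {x : X | ∃ y ∈ V, (x, y) ∈ t} = Prod.fst '' (t ∩ (univ ×ˢ V)) := by
      ext x
      simp only [mem_ofPred_eq, mem_image, mem_inter_iff, mem_prod, mem_univ, true_and,
        Prod.exists, exists_and_right, exists_eq_right]
      constructor
      · rintro ⟨y, hy, hxy⟩; exact ⟨y, hxy, hy⟩
      · rintro ⟨y, hxy, hy⟩; exact ⟨y, hy, hxy⟩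
    change {x : X | ∃ y ∈ V, (x, y) ∈ t} ∈ residual X
    apply residual_of_dense_open
    · rw [he]
      exact isOpenMap_fst _ (ho.inter (isOpen_univ.prod hVo))
    · rw [dense_iff_inter_open]
      intro U hU hUne
      obtain ⟨⟨x, y⟩, hxy1, hxy2⟩ := dense_iff_inter_open.1 hd (U ×ˢ V) (hU.prod hVo)
        (hUne.prod hVne)
      exact ⟨x, hxy1.1, y, hxy1.2, hxy2⟩
  filter_upwards [h1] with x hx
  change {y : Y | (x, y) ∈ t} ∈ residual Y
  apply residual_of_dense_open
  · exact ho.preimage (Continuous.prodMk_right x)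
  · rw [(TopologicalSpace.isBasis_countableBasis Y).dense_iff]
    intro V hV _
    obtain ⟨y, hy, hxy⟩ := hx V hV
    exact ⟨y, hy, hxy⟩

/-- (E2) Kuratowski-Ulam, first half -/
theorem kuratowski_ulam {X Y : Type*} [TopologicalSpace X] [TopologicalSpace Y] [SecondCountableTopology Y]
    {s : Set (X × Y)} (hs : s ∈ residual (X × Y)) : ∀ᶠ x in residual X, ∀ᶠ y in residual Y, (x, y) ∈ s := by
  obtain ⟨S, hSo, hSd, hSc, hSs⟩ := mem_residual_iff.1 hs
  have h1 : ∀ᶠ x in residual X, ∀ t ∈ S, ∀ᶠ y in residual Y, (x, y) ∈ t := by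
    rw [eventually_countable_ball hSc]
    intro t ht
    exact B2_aux (hSo t ht) (hSd t ht)
  filter_upwards [h1] with x hx
  have h2 : ∀ᶠ y in residual Y, ∀ t ∈ S, (x, y) ∈ t := by
    rw [eventually_countable_ball hSc]
    exact hx
  filter_upwards [h2] with y hy
  exact hSs (mem_sInter.2 hy)

/-- (E2) Kuratowski-Ulam with the coordinates exchanged -/
theorem kuratowski_ulam' {X Y : Type*} [TopologicalSpace X] [TopologicalSpace Y] [SecondCountableTopology X]
    {s : Set (X × Y)} (hs : s ∈ residual (X × Y)) : ∀ᶠ y in residual Y, ∀ᶠ x in residual X, (x, y) ∈ s := by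
  have h : (Prod.swap ⁻¹' s : Set (Y × X)) ∈ residual (Y × X) := by
    obtain ⟨S, hSo, hSd, hSc, hSs⟩ := mem_residual_iff.1 hs
    have h1 : ∀ᶠ p in residual (Y × X), ∀ t ∈ S, Prod.swap p ∈ t := by
      rw [eventually_countable_ball hSc]
      intro t ht
      change {p : Y × X | Prod.swap p ∈ t} ∈ residual (Y × X)
      apply residual_of_dense_open
      · exact (hSo t ht).preimage continuous_swap
      · exact (hSd t ht).preimage (Homeomorph.prodComm Y X).isOpenMap
    filter_upwards [h1] with p hp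
    exact hSs (mem_sInter.2 hp)
  exact kuratowski_ulam h

/-- (E2) Kuratowski-Ulam, second half -/
theorem kuratowski_ulam_conv {X Y : Type*} [TopologicalSpace X] [TopologicalSpace Y]
    [SecondCountableTopology Y] [BaireSpace X] [BaireSpace Y] {s : Set (X × Y)}
    (hs : BaireMeasurableSet s) (h : ∀ᶠ x in residual X, ∀ᶠ y in residual Y, (x, y) ∈ s) :
    s ∈ residual (X × Y) := by
  obtain ⟨u, hu, hsu⟩ := hs.residualEq_isOpen
  have h0 : {p : X × Y | (p ∈ s) = (p ∈ u)} ∈ residual (X × Y) := hsu
  have h1 := kuratowski_ulam h0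
  have h2 : ∀ᶠ x in residual X, ∀ᶠ y in residual Y, (x, y) ∈ u := by
    filter_upwards [h, h1] with x hx hx'
    filter_upwards [hx, hx'] with y hy hy'
    have h3 : ((x, y) ∈ s) = ((x, y) ∈ u) := hy'
    rw [← h3]; exact hy
  have hd : Dense u := by
    rw [dense_iff_inter_open]
    rintro O hO ⟨⟨x0, y0⟩, h00⟩
    obtain ⟨U, V, hU, hV, hx0, hy0, hUV⟩ := isOpen_prod_iff.1 hO x0 y0 h00
    obtain ⟨x, hxU, hx⟩ := (dense_of_mem_residual h2).inter_open_nonempty U hU ⟨x0, hx0⟩
    obtain ⟨y, hyV, hy⟩ := (dense_of_mem_residual hx).inter_open_nonempty V hV ⟨y0, hy0⟩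
    exact ⟨(x, y), hUV ⟨hxU, hyV⟩, hy⟩
  have hr : u ∈ residual (X × Y) := residual_of_dense_open hu hd
  filter_upwards [hr, h0] with p hp hp'
  have h3 : (p ∈ s) = (p ∈ u) := hp'
  rw [h3]; exact hp

end KAut
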