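import Mathlib
import Pool.Agent.Lib.MP_33914b_an.B2

/-!
# MP_33914b_an, file B3  (ROW ka-B3)
Paper: /team-store/kaut_paper.md

PROOF / HINTS:
first: s =b O; for comeagre many x, [forall* y in V, (x,y) in s] iff [forall* y in V, (x,y) in O] iff for all nonempty basic V' subset V exists y in V' with (x,y) in O (Baire): G_delta. second: class of measurable sets s such that for every open V the set is measurable; rectangles A x O... ; countable intersections trivial;
complement: forall* y in V not s(x,y) iff for all nonempty basic V' subset V not (forall* y in V', s(x,y)) (s_x is Borel, so it has the Baire property; Baire space). Generate the product sigma algebra by A x O, O basic open (generateFrom_prod..., induction MeasurableSpace.induction_on_inter or MeasurableSet.induction on generateFrom).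
-/
set_option autoImplicit false

open MeasureTheory Topology Filter Set

namespace KAut

/-- an open set contains generically all points of the open set `V` iff it meets every basic open subset of `V` -/
theorem B3_open_iff {Y : Type*} [TopologicalSpace Y] [SecondCountableTopology Y] [BaireSpace Y]
    {O V : Set Y} (hO : IsOpen O) (hV : IsOpen V) :
    (∀ᶠ y in residual Y, y ∈ V → y ∈ O) ↔
      ∀ B ∈ TopologicalSpace.countableBasis Y, B ⊆ V → (B ∩ O).Nonempty := by
  constructor
  · intro h B hB hBV
    have hd : Dense {y : Y | y ∈ V → y ∈ O} := dense_of_mem_residual h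
    obtain ⟨y, hy1, hy2⟩ := hd.inter_open_nonempty B (TopologicalSpace.isOpen_of_mem_countableBasis hB)
      (TopologicalSpace.nonempty_of_mem_countableBasis hB)
    exact ⟨y, hy1, hy2 (hBV hy1)⟩
  · intro h
    have hD : Dense (O ∪ (closure V)ᶜ) := by
      rw [dense_iff_inter_open]
      intro A hA hne
      by_cases hAV : (A ∩ V).Nonempty
      · obtain ⟨y, hy⟩ := hAV
        obtain ⟨B, hB, hyB, hBA⟩ := (TopologicalSpace.isBasis_countableBasis Y).exists_subset_of_mem_open
          hy (hA.inter hV)
        obtain ⟨z, hz1, hz2⟩ := h B hB (hBA.trans inter_subset_right)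
        exact ⟨z, (hBA hz1).1, Or.inl hz2⟩
      · obtain ⟨y, hy⟩ := hne
        refine ⟨y, hy, Or.inr fun hyc => hAV ?_⟩
        rw [mem_closure_iff] at hyc
        exact hyc A hA hy
    have hres : O ∪ (closure V)ᶜ ∈ residual Y :=
      residual_of_dense_open (hO.union isClosed_closure.isOpen_compl) hD
    filter_upwards [hres] with y hy hyV
    rcases hy with hy | hy
    · exact hy
    · exact absurd (subset_closure hyV) hy

/-- the category quantifier relative to an open set `V`: for comeagre many `y`, `y ∈ V → (x,y) ∈ s` -/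
theorem baireMeasurable_quantifier {X Y : Type*} [TopologicalSpace X] [TopologicalSpace Y]
    [SecondCountableTopology Y] [BaireSpace Y] {s : Set (X × Y)}
    (hs : BaireMeasurableSet s) (V : Set Y) (hV : IsOpen V) :
    BaireMeasurableSet {x | ∀ᶠ y in residual Y, y ∈ V → (x, y) ∈ s} := by
  obtain ⟨O, hO, hsO⟩ := hs.residualEq_isOpen
  have hku : ∀ᶠ x in residual X, ∀ᶠ y in residual Y, (x, y) ∈ {p : X × Y | p ∈ s ↔ p ∈ O} := by
    apply kuratowski_ulam
    have := Filter.eventuallyEq_set.1 hsO
    exact this
  have hOm : BaireMeasurableSet {x | ∀ᶠ y in residual Y, y ∈ V → (x, y) ∈ O} := by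
    have heq : {x : X | ∀ᶠ y in residual Y, y ∈ V → (x, y) ∈ O} =
        ⋂ B ∈ {B | B ∈ TopologicalSpace.countableBasis Y ∧ B ⊆ V}, {x : X | ∃ y ∈ B, (x, y) ∈ O} := by
      ext x
      have hx : IsOpen {y : Y | (x, y) ∈ O} := hO.preimage (Continuous.prodMk_right x)
      have h1 := B3_open_iff hx hV
      simp only [mem_ofPred_eq] at h1
      simp only [mem_ofPred_eq, mem_iInter]
      rw [h1]
      constructor
      · rintro h B ⟨hB, hBV⟩
        obtain ⟨y, hy1, hy2⟩ := h B hB hBV
        exact ⟨y, hy1, hy2⟩
      · intro h B hB hBV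
        obtain ⟨y, hy1, hy2⟩ := h B ⟨hB, hBV⟩
        exact ⟨y, hy1, hy2⟩
    rw [heq]
    refine BaireMeasurableSet.biInter ((TopologicalSpace.countable_countableBasis Y).mono fun B hB => hB.1) ?_
    intro B hB
    apply IsOpen.baireMeasurableSet
    have hB' : IsOpen B := TopologicalSpace.isOpen_of_mem_countableBasis hB.1
    have himg : {x : X | ∃ y ∈ B, (x, y) ∈ O} = Prod.fst '' (O ∩ Prod.snd ⁻¹' B) := by
      ext x
      constructor
      · rintro ⟨y, hy, hxy⟩
        exact ⟨(x, y), ⟨hxy, hy⟩, rfl⟩
      · rintro ⟨⟨x', y⟩, ⟨h1, h2⟩, rfl⟩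
        exact ⟨y, h2, h1⟩
    rw [himg]
    exact isOpenMap_fst _ (hO.inter (hB'.preimage continuous_snd))
  refine hOm.congr ?_
  rw [Filter.eventuallyEq_set]
  filter_upwards [hku] with x hx
  change (∀ᶠ y in residual Y, y ∈ V → (x, y) ∈ O) ↔ (∀ᶠ y in residual Y, y ∈ V → (x, y) ∈ s)
  have hx' : ∀ᶠ y in residual Y, ((x, y) ∈ s ↔ (x, y) ∈ O) := hx
  constructor
  · intro h
    filter_upwards [hx', h] with y h1 h2 h3
    exact h1.2 (h2 h3)
  · intro h
    filter_upwards [hx', h] with y h1 h2 h3
    exact h1.1 (h2 h3)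

/-- complement of a section: a Baire measurable set is generically disjoint from the open set `V` iff it is not
comeagre in any basic open subset of `V` -/
theorem B3_compl_iff {Y : Type*} [TopologicalSpace Y] [SecondCountableTopology Y] [BaireSpace Y]
    {s V : Set Y} (hs : BaireMeasurableSet s) (hV : IsOpen V) :
    (∀ᶠ y in residual Y, y ∈ V → y ∉ s) ↔
      ∀ B ∈ {B | B ∈ TopologicalSpace.countableBasis Y ∧ B ⊆ V}, ¬ ∀ᶠ y in residual Y, y ∈ B → y ∈ s := by
  obtain ⟨O, hO, hsO⟩ := hs.residualEq_isOpen
  have hsO' := Filter.eventuallyEq_set.1 hsO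
  constructor
  · rintro h B ⟨hB, hBV⟩ h2
    have h3 : ∀ᶠ y in residual Y, y ∉ B := by
      filter_upwards [h, h2] with y h4 h5 h6
      exact h4 (hBV h6) (h5 h6)
    have hd : Dense {y : Y | y ∉ B} := dense_of_mem_residual h3
    obtain ⟨y, hy1, hy2⟩ := hd.inter_open_nonempty B (TopologicalSpace.isOpen_of_mem_countableBasis hB)
      (TopologicalSpace.nonempty_of_mem_countableBasis hB)
    exact hy2 hy1
  · intro h
    by_cases hVO : (V ∩ O).Nonempty
    · exfalso
      obtain ⟨y, hy⟩ := hVO
      obtain ⟨B, hB, hyB, hBA⟩ := (TopologicalSpace.isBasis_countableBasis Y).exists_subset_of_mem_open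
        hy (hV.inter hO)
      apply h B ⟨hB, hBA.trans inter_subset_left⟩
      filter_upwards [hsO'] with z hz hzB
      exact hz.2 (hBA hzB).2
    · filter_upwards [hsO'] with z hz hzV hzs
      exact hVO ⟨z, hzV, hz.1 hzs⟩

/-- the category quantifier preserves Borel sets (Montgomery-Novikov) -/
theorem measurable_quantifier {X Y : Type*} [MeasurableSpace X] [TopologicalSpace Y] [MeasurableSpace Y]
    [BorelSpace Y] [SecondCountableTopology Y] [BaireSpace Y] {s : Set (X × Y)} (hs : MeasurableSet s)
    (V : Set Y) (hV : IsOpen V) : MeasurableSet {x | ∀ᶠ y in residual Y, y ∈ V → (x, y) ∈ s} := by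
  have hcompl : ∀ t : Set (X × Y), MeasurableSet t →
      (∀ V : Set Y, IsOpen V → MeasurableSet {x | ∀ᶠ y in residual Y, y ∈ V → (x, y) ∈ t}) →
      ∀ V : Set Y, IsOpen V → MeasurableSet {x | ∀ᶠ y in residual Y, y ∈ V → (x, y) ∈ tᶜ} := by
    intro t ht h V hV
    have heq : {x : X | ∀ᶠ y in residual Y, y ∈ V → (x, y) ∈ tᶜ} =
        ⋂ B ∈ {B | B ∈ TopologicalSpace.countableBasis Y ∧ B ⊆ V},
          {x : X | ∀ᶠ y in residual Y, y ∈ B → (x, y) ∈ t}ᶜ := by
      ext x
      have hx : MeasurableSet {y : Y | (x, y) ∈ t} := measurable_prodMk_left ht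
      have h1 := B3_compl_iff hx.baireMeasurableSet hV
      simp only [mem_ofPred_eq] at h1
      simp only [mem_compl_iff, mem_ofPred_eq, mem_iInter]
      exact h1
    rw [heq]
    refine MeasurableSet.biInter ((TopologicalSpace.countable_countableBasis Y).mono fun B hB => hB.1) ?_
    intro B hB
    exact (h B (TopologicalSpace.isOpen_of_mem_countableBasis hB.1)).compl
  have hinter : ∀ f : ℕ → Set (X × Y),
      (∀ i, ∀ V : Set Y, IsOpen V → MeasurableSet {x | ∀ᶠ y in residual Y, y ∈ V → (x, y) ∈ f i}) →
      ∀ V : Set Y, IsOpen V → MeasurableSet {x | ∀ᶠ y in residual Y, y ∈ V → (x, y) ∈ ⋂ i, f i} := by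
    intro f h V hV
    have heq : {x : X | ∀ᶠ y in residual Y, y ∈ V → (x, y) ∈ ⋂ i, f i} =
        ⋂ i, {x : X | ∀ᶠ y in residual Y, y ∈ V → (x, y) ∈ f i} := by
      ext x
      simp only [mem_ofPred_eq, mem_iInter]
      rw [← eventually_countable_forall]
      constructor
      · intro h
        filter_upwards [h] with y hy i hyV
        exact hy hyV i
      · intro h
        filter_upwards [h] with y hy hyV i
        exact hy i hyV
    rw [heq]
    exact MeasurableSet.iInter fun i => h i V hV
  have main : ∀ t : Set (X × Y), MeasurableSet t →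
      ∀ V : Set Y, IsOpen V → MeasurableSet {x | ∀ᶠ y in residual Y, y ∈ V → (x, y) ∈ t} := by
    intro t ht
    induction t, ht using MeasurableSpace.induction_on_inter generateFrom_prod.symm isPiSystem_prod with
    | empty =>
      intro V hV
      simp only [mem_empty_iff_false]
      exact MeasurableSet.const _
    | basic t ht =>
      obtain ⟨A, hA, D, hD, rfl⟩ := ht
      intro V hV
      have heq : {x : X | ∀ᶠ y in residual Y, y ∈ V → (x, y) ∈ A ×ˢ D} =
          (A ∩ {x : X | ∀ᶠ y in residual Y, y ∈ V → y ∈ D}) ∪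
          (Aᶜ ∩ {x : X | ∀ᶠ y in residual Y, y ∈ V → False}) := by
        ext x
        by_cases hx : x ∈ A
        · simp [hx]
        · simp [hx]
      rw [heq]
      exact ((hA : MeasurableSet A).inter (MeasurableSet.const _)).union
        ((hA : MeasurableSet A).compl.inter (MeasurableSet.const _))
    | compl t htm ih => exact hcompl t htm ih
    | iUnion f hd hfm ih =>
      have h1 := hinter (fun i => (f i)ᶜ) (fun i => hcompl (f i) (hfm i) (ih i))
      have h2 := hcompl (⋂ i, (f i)ᶜ) (MeasurableSet.iInter fun i => (hfm i).compl) h1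
      have h3 : (⋂ i, (f i)ᶜ)ᶜ = ⋃ i, f i := by
        rw [compl_iInter]
        simp only [compl_compl]
      rw [h3] at h2
      exact h2
  exact main s hs V hV

end KAut
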