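import Mathlib

/-!
# MP_33914b_an, file B4  (ROW ka-B4)
Paper: /team-store/kaut_paper.md

PROOF / HINTS:
for every O in a countable basis of Z: f^-1 O is Borel, =b U_O open; G = intersection of the complements of the symmetric differences; on G f^-1 O = U_O.
-/
set_option autoImplicit false

open MeasureTheory Topology Filter Set

namespace KAut

/-- a Borel function is continuous on a comeagre set: there is a residual set `G` such that for every `x ∈ G` and every
neighbourhood `O` of `f x` there is a neighbourhood of `x` whose points in `G` are mapped into `O` -/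
theorem exists_residual_continuousOn {X Z : Type*} [TopologicalSpace X] [MeasurableSpace X] [BorelSpace X]
    [TopologicalSpace Z] [SecondCountableTopology Z] [MeasurableSpace Z] [OpensMeasurableSpace Z]
    {f : X → Z} (hf : Measurable f) : ∃ G ∈ residual X, ContinuousOn f G := by
  have h1 : ∀ O : Set Z, ∃ U : Set X, O ∈ TopologicalSpace.countableBasis Z →
      IsOpen U ∧ f ⁻¹' O =ᵇ U := by
    intro O
    by_cases hO : O ∈ TopologicalSpace.countableBasis Z
    · have hm : MeasurableSet (f ⁻¹' O) :=
        hf (TopologicalSpace.isOpen_of_mem_countableBasis hO).measurableSet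
      obtain ⟨U, hU, hU'⟩ := hm.residualEq_isOpen
      exact ⟨U, fun _ => ⟨hU, hU'⟩⟩
    · exact ⟨∅, fun h => absurd h hO⟩
  choose U hU using h1
  refine ⟨{x | ∀ O ∈ TopologicalSpace.countableBasis Z, (x ∈ f ⁻¹' O) = (x ∈ U O)}, ?_, ?_⟩
  · change ∀ᶠ x in residual X, ∀ O ∈ TopologicalSpace.countableBasis Z,
      (x ∈ f ⁻¹' O) = (x ∈ U O)
    rw [eventually_countable_ball (TopologicalSpace.countable_countableBasis Z)]
    intro O hO
    exact (hU O hO).2
  · intro x hx
    have hb := (TopologicalSpace.isBasis_countableBasis Z).nhds_hasBasis (a := f x)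
    rw [ContinuousWithinAt, hb.tendsto_right_iff]
    rintro O ⟨hO, hxO⟩
    have h2 : x ∈ U O := by
      have := hx O hO
      rw [← this]; exact hxO
    have h3 : U O ∈ 𝓝 x := (hU O hO).1.mem_nhds h2
    filter_upwards [mem_nhdsWithin_of_mem_nhds h3, self_mem_nhdsWithin] with y hy hyG
    have h4 := hyG O hO
    rw [← h4] at hy
    exact hy

end KAut
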