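import Mathlib

/-!
# MP_33914b_an, file EntDef
Paper: /team-store/kaut_paper.md
-/
set_option autoImplicit false

open MeasureTheory Filter

namespace KAut

section
variable {Ω : Type*} [MeasurableSpace Ω]

/-- Shannon entropy of a finite valued map (finite partition) -/
noncomputable def shannon {ι : Type*} [Fintype ι] (μ : Measure Ω) (f : Ω → ι) : ℝ :=
  ∑ i, Real.negMulLog (μ.real (f ⁻¹' {i}))

/-- the `f`-name of length `n` of a point -/
def name {ι : Type*} (T : Ω → Ω) (f : Ω → ι) (n : ℕ) (x : Ω) : Fin n → ι := fun i => f (T^[i] x)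

/-- Kolmogorov-Sinai entropy of `T` with respect to the finite partition `f` -/
noncomputable def hPart {ι : Type*} [Fintype ι] (μ : Measure Ω) (T : Ω → Ω) (f : Ω → ι) : ℝ :=
  limsup (fun n : ℕ => shannon μ (name T f n) / n) atTop

/-- indicator of a set with values in `Bool` -/
noncomputable def ind (B : Set Ω) (x : Ω) : Bool := open Classical in decide (x ∈ B)

end

end KAut
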