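import Mathlib

/-!
# MP_33914b_an, file IEDef
Paper: /team-store/kaut_paper.md
-/
set_option autoImplicit false

open MeasureTheory

namespace KAut

/-- Lebesgue measure on `[0,1]`, as a measure on `ℝ` -/
noncomputable def lam : Measure ℝ := volume.restrict (Set.Icc (0 : ℝ) 1)

instance : IsProbabilityMeasure lam := ⟨by simp [lam]⟩

/-- index of the interval `[j/n,(j+1)/n)` containing `x` (for `x ∈ [0,1)`) -/
noncomputable def Y (n : ℕ) [NeZero n] (x : ℝ) : Fin n := Fin.ofNat n ⌊(n : ℝ) * x⌋₊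

/-- the interval exchange with permutation `π` -/
noncomputable def IE (n : ℕ) [NeZero n] (π : Equiv.Perm (Fin n)) (x : ℝ) : ℝ :=
  open Classical in
  if x ∈ Set.Ico (0 : ℝ) 1 then (((π (Y n x) : Fin n) : ℕ) + Int.fract ((n : ℝ) * x)) / n else x

/-- the lift of a permutation of `Fin n` to `Fin (n*m)` -/
def liftPerm {n : ℕ} (m : ℕ) (π : Equiv.Perm (Fin n)) : Equiv.Perm (Fin (n * m)) :=
  finProdFinEquiv.symm.trans ((Equiv.prodCongr π (Equiv.refl (Fin m))).trans finProdFinEquiv)

/-- the limit of an eventually constant sequence (identity where it is not eventually constant) -/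
noncomputable def evLim (Φ : ℕ → ℝ → ℝ) (x : ℝ) : ℝ :=
  open Classical in
  if h : ∃ k, ∀ j, k ≤ j → Φ j x = Φ k x then Φ (Classical.choose h) x else x

theorem evLim_eq {Φ : ℕ → ℝ → ℝ} {x : ℝ} {k : ℕ} (h : ∀ j, k ≤ j → Φ j x = Φ k x) :
    evLim Φ x = Φ k x := by
  have hex : ∃ k, ∀ j, k ≤ j → Φ j x = Φ k x := ⟨k, h⟩
  unfold evLim
  rw [dif_pos hex]
  have h1 := Classical.choose_spec hex (max k (Classical.choose hex)) (le_max_right _ _)
  have h2 := h (max k (Classical.choose hex)) (le_max_left _ _)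
  rw [← h1, h2]

end KAut
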