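import Mathlib
import Pool.Agent.Lib.MP_33914b_an.EntDef
import Pool.Agent.Lib.MP_33914b_an.IEDef

/-!
# MP_33914b_an, file Defs
Paper: /team-store/kaut_paper.md
-/
set_option autoImplicit false

open MeasureTheory Filter

namespace KAut

/-- invertible (mod null sets) measure preserving maps of `([0,1], Lebesgue)` -/
def AutMap : Type :=
  {T : ℝ → ℝ // MeasurePreserving T lam lam ∧
    ∃ S : ℝ → ℝ, MeasurePreserving S lam lam ∧ (∀ᵐ x ∂lam, S (T x) = x) ∧ (∀ᵐ x ∂lam, T (S x) = x)}

/-- equality mod null sets -/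
instance autSetoid : Setoid AutMap where
  r S T := ∀ᵐ x ∂lam, S.1 x = T.1 x
  iseqv := ⟨fun _ => ae_of_all _ fun _ => rfl, fun h => h.mono fun _ hx => hx.symm,
    fun h1 h2 => by filter_upwards [h1, h2] with x a b using a.trans b⟩

/-- `Aut([0,1], Lebesgue)`: invertible measure preserving maps modulo null sets -/
def Aut : Type := Quotient autSetoid

/-- `μ(A ∩ T⁻¹ B)` -/
noncomputable def Aut.corr (A B : Set ℝ) (T : Aut) : ENNReal :=
  Quotient.lift (fun T : AutMap => lam (A ∩ T.1 ⁻¹' B)) (by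
    intro S T h
    have h' : ∀ᵐ x ∂lam, S.1 x = T.1 x := h
    apply measure_congr
    filter_upwards [h'] with x hx
    apply propext
    change (x ∈ A ∧ S.1 x ∈ B) ↔ (x ∈ A ∧ T.1 x ∈ B)
    rw [hx]) T

/-- the weak topology: the coarsest topology for which `T ↦ μ(A ∩ T⁻¹ B)` is continuous for all measurable `A`, `B` -/
noncomputable instance : TopologicalSpace Aut :=
  ⨅ (A : Set ℝ) (_ : MeasurableSet A) (B : Set ℝ) (_ : MeasurableSet B),
    TopologicalSpace.induced (Aut.corr A B) inferInstance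

/-- the Borel structure of the weak topology -/
noncomputable instance : MeasurableSpace Aut := borel Aut

instance : BorelSpace Aut := ⟨rfl⟩

/-- `S ≅ T`: there is an invertible measure preserving `R` with `R S = T R` almost everywhere -/
def Aut.Iso (S T : Aut) : Prop :=
  ∃ s t r : AutMap, Quotient.mk autSetoid s = S ∧ Quotient.mk autSetoid t = T ∧
    ∀ᵐ x ∂lam, r.1 (s.1 x) = t.1 (r.1 x)

/-- `ℬ` is a factor of `T`: a sub-σ-algebra of the Borel sets, invariant mod null sets -/
def IsFactor (T : ℝ → ℝ) (ℬ : MeasurableSpace ℝ) : Prop :=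
  ℬ ≤ borel ℝ ∧ (∀ A, MeasurableSet[ℬ] A → ∃ B, MeasurableSet[ℬ] B ∧ T ⁻¹' A =ᵐ[lam] B) ∧
    (∀ B, MeasurableSet[ℬ] B → ∃ A, MeasurableSet[ℬ] A ∧ T ⁻¹' A =ᵐ[lam] B)

/-- `ℬ` is trivial: it contains only null and conull sets -/
def IsTrivialFactor (ℬ : MeasurableSpace ℝ) : Prop :=
  ∀ A, MeasurableSet[ℬ] A → lam A = 0 ∨ lam Aᶜ = 0

/-- Kolmogorov-Sinai entropy of `T` with respect to a finite partition, as an extended nonnegative real -/
noncomputable def hP (T : ℝ → ℝ) {n : ℕ} (f : ℝ → Fin n) : ENNReal := ENNReal.ofReal (hPart lam T f)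

/-- Kolmogorov-Sinai entropy of the restriction of `T` to the factor `ℬ`: supremum of the entropies of the finite
`ℬ`-measurable partitions -/
noncomputable def entropyOn (T : ℝ → ℝ) (ℬ : MeasurableSpace ℝ) : ENNReal :=
  ⨆ (n : ℕ) (f : ℝ → Fin n) (_ : @Measurable ℝ (Fin n) ℬ ⊤ f), hP T f

/-- `T` is a K-automorphism: the restriction of `T` to every non-trivial factor has positive entropy -/
def Aut.IsK (T : Aut) : Prop :=
  ∀ t : AutMap, Quotient.mk autSetoid t = T → ∀ ℬ : MeasurableSpace ℝ, IsFactor t.1 ℬ → ¬ IsTrivialFactor ℬ →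
    0 < entropyOn t.1 ℬ

/-- the set of K-automorphisms, with the Borel structure inherited from `Aut` -/
abbrev KAutos : Type := {T : Aut // T.IsK}

/-- the Borel structure of `S_∞`, the group of all permutations of `ℕ` (generated by the evaluations `σ ↦ σ n`) -/
instance : MeasurableSpace (Equiv.Perm ℕ) :=
  MeasurableSpace.comap (fun σ : Equiv.Perm ℕ => (σ : ℕ → ℕ)) inferInstance

end KAut
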