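import Mathlib
import Pool.Agent.Lib.MP_33914b_an.EntDef

/-!
# MP_33914b_an, file E1  (ROW ka-E1)
Paper: /team-store/kaut_paper.md

PROOF / HINTS:
shannon = sum of negMulLog of the measures of the atoms. comp_injective: the atoms of g o f are the atoms of f and empty sets. comp_le: negMulLog (x+y) <= negMulLog x + negMulLog y for x,y>=0 (sum over the fibres of g).
le_log_card: concavity (Jensen, Real.concaveOn_negMulLog) with weights 1/card, sum of measures = 1. comp_mp: measure of preimages.
-/
set_option autoImplicit false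

open MeasureTheory Filter

namespace KAut

section
variable {Ω : Type*} [MeasurableSpace Ω]

theorem shannon_nonneg {ι : Type*} [Fintype ι] (μ : Measure Ω) [IsProbabilityMeasure μ] (f : Ω → ι) :
    0 ≤ shannon μ f := by
  unfold shannon
  exact Finset.sum_nonneg fun i _ => Real.negMulLog_nonneg measureReal_nonneg measureReal_le_one

/-- entropy is invariant under an injective recoding -/
theorem shannon_comp_injective {ι κ : Type*} [Fintype ι] [Fintype κ] (μ : Measure Ω) [IsProbabilityMeasure μ]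
    (f : Ω → ι) (g : ι → κ) (hg : Function.Injective g) : shannon μ (g ∘ f) = shannon μ f := by
  classical
  unfold shannon
  have h1 : ∀ i : ι, (g ∘ f) ⁻¹' {g i} = f ⁻¹' {i} := by
    intro i
    ext x
    simp [hg.eq_iff]
  have h2 : ∑ i : ι, Real.negMulLog (μ.real (f ⁻¹' {i}))
      = ∑ k ∈ Finset.univ.image g, Real.negMulLog (μ.real ((g ∘ f) ⁻¹' {k})) := by
    rw [Finset.sum_image (fun a _ b _ h => hg h)]
    exact Finset.sum_congr rfl fun i _ => by rw [h1 i]
  rw [h2]
  symm
  apply Finset.sum_subset (Finset.subset_univ _)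
  intro k _ hk
  have h3 : (g ∘ f) ⁻¹' {k} = ∅ := by
    ext x
    simp only [Set.mem_preimage, Function.comp_apply, Set.mem_singleton_iff, Set.mem_empty_iff_false,
      iff_false]
    intro h
    exact hk (Finset.mem_image.2 ⟨f x, Finset.mem_univ _, h⟩)
  rw [h3]
  simp

theorem E1_negMulLog_add_le {x y : ℝ} (hx : 0 ≤ x) (hy : 0 ≤ y) :
    Real.negMulLog (x + y) ≤ Real.negMulLog x + Real.negMulLog y := by
  rcases hx.eq_or_lt with rfl | hx
  · simp
  rcases hy.eq_or_lt with rfl | hy
  · simp
  unfold Real.negMulLog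
  have h1 : Real.log x ≤ Real.log (x + y) := Real.log_le_log hx (by linarith)
  have h2 : Real.log y ≤ Real.log (x + y) := Real.log_le_log hy (by linarith)
  nlinarith [mul_le_mul_of_nonneg_left h1 hx.le, mul_le_mul_of_nonneg_left h2 hy.le]

theorem E1_negMulLog_sum_le {ι : Type*} (s : Finset ι) (a : ι → ℝ) (ha : ∀ i, 0 ≤ a i) :
    Real.negMulLog (∑ i ∈ s, a i) ≤ ∑ i ∈ s, Real.negMulLog (a i) := by
  classical
  induction s using Finset.induction_on with
  | empty => simp
  | insert i s hi ih =>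
    rw [Finset.sum_insert hi, Finset.sum_insert hi]
    exact (E1_negMulLog_add_le (ha i) (Finset.sum_nonneg fun j _ => ha j)).trans (by linarith)

/-- entropy of a function of `f` is at most the entropy of `f` -/
theorem shannon_comp_le {ι κ : Type*} [Fintype ι] [Fintype κ] (μ : Measure Ω) [IsProbabilityMeasure μ]
    (f : Ω → ι) (hf : ∀ i, MeasurableSet (f ⁻¹' {i})) (g : ι → κ) : shannon μ (g ∘ f) ≤ shannon μ f := by
  classical
  unfold shannon
  have h1 : ∀ k : κ, μ.real ((g ∘ f) ⁻¹' {k})
      = ∑ i ∈ Finset.univ.filter (fun i => g i = k), μ.real (f ⁻¹' {i}) := by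
    intro k
    have h2 : (g ∘ f) ⁻¹' {k} = ⋃ i ∈ Finset.univ.filter (fun i => g i = k), f ⁻¹' {i} := by
      ext x
      simp
    rw [h2]
    refine measureReal_biUnion_finset ?_ (fun i _ => hf i)
    intro i _ j _ hij
    refine Set.disjoint_left.2 ?_
    intro x hx hx'
    simp only [Set.mem_preimage, Set.mem_singleton_iff] at hx hx'
    exact hij (hx.symm.trans hx')
  calc ∑ k : κ, Real.negMulLog (μ.real ((g ∘ f) ⁻¹' {k}))
      ≤ ∑ k : κ, ∑ i ∈ Finset.univ.filter (fun i => g i = k), Real.negMulLog (μ.real (f ⁻¹' {i})) := by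
        refine Finset.sum_le_sum fun k _ => ?_
        rw [h1 k]
        exact E1_negMulLog_sum_le _ _ fun i => measureReal_nonneg
    _ = ∑ i : ι, Real.negMulLog (μ.real (f ⁻¹' {i})) :=
        Finset.sum_fiberwise _ _ _

theorem E1_sum_measure {ι : Type*} [Fintype ι] (μ : Measure Ω) [IsProbabilityMeasure μ]
    (f : Ω → ι) (hf : ∀ i, MeasurableSet (f ⁻¹' {i})) : ∑ i : ι, μ.real (f ⁻¹' {i}) = 1 := by
  classical
  have h2 : (Set.univ : Set Ω) = ⋃ i ∈ (Finset.univ : Finset ι), f ⁻¹' {i} := by
    ext x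
    simp
  have h3 : μ.real (Set.univ : Set Ω) = ∑ i : ι, μ.real (f ⁻¹' {i}) := by
    rw [h2]
    refine measureReal_biUnion_finset ?_ (fun i _ => hf i)
    intro i _ j _ hij
    refine Set.disjoint_left.2 ?_
    intro x hx hx'
    simp only [Set.mem_preimage, Set.mem_singleton_iff] at hx hx'
    exact hij (hx.symm.trans hx')
  rw [← h3]
  simp

theorem shannon_le_log_card {ι : Type*} [Fintype ι] [Nonempty ι] (μ : Measure Ω) [IsProbabilityMeasure μ]
    (f : Ω → ι) (hf : ∀ i, MeasurableSet (f ⁻¹' {i})) : shannon μ f ≤ Real.log (Fintype.card ι) := by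
  classical
  unfold shannon
  have hn : (0 : ℝ) < Fintype.card ι := by
    exact_mod_cast Fintype.card_pos
  have hJ := Real.concaveOn_negMulLog.le_map_sum (t := (Finset.univ : Finset ι))
    (w := fun _ => (1 : ℝ) / Fintype.card ι) (p := fun i => μ.real (f ⁻¹' {i}))
    (fun i _ => by positivity) (by simp [Finset.sum_const, Finset.card_univ, nsmul_eq_mul])
    (fun i _ => Set.mem_Ici.2 measureReal_nonneg)
  simp only [smul_eq_mul, ← Finset.mul_sum] at hJ
  rw [E1_sum_measure μ f hf, mul_one] at hJ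
  have h5 : Real.negMulLog (1 / (Fintype.card ι : ℝ))
      = 1 / (Fintype.card ι : ℝ) * Real.log (Fintype.card ι) := by
    unfold Real.negMulLog
    rw [one_div, Real.log_inv]
    ring
  rw [h5] at hJ
  have h6 : (0 : ℝ) < 1 / (Fintype.card ι : ℝ) := by positivity
  exact le_of_mul_le_mul_left hJ h6

theorem shannon_comp_mp {ι : Type*} [Fintype ι] (μ : Measure Ω) (T : Ω → Ω)
    (hT : MeasurePreserving T μ μ) (f : Ω → ι) (hf : ∀ i, MeasurableSet (f ⁻¹' {i})) :
    shannon μ (f ∘ T) = shannon μ f := by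
  unfold shannon
  refine Finset.sum_congr rfl fun i _ => ?_
  have h1 : (f ∘ T) ⁻¹' {i} = T ⁻¹' (f ⁻¹' {i}) := rfl
  rw [h1]
  congr 1
  unfold Measure.real
  rw [hT.measure_preimage (hf i).nullMeasurableSet]

end

end KAut
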