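import Mathlib
import Pool.Agent.Lib.MP_33914b_an.E1

/-!
# MP_33914b_an, file E2  (ROW ka-E2)
Paper: /team-store/kaut_paper.md

PROOF / HINTS:
submodularity H(f,g,k)+H(k) <= H(f,k)+H(g,k): for every fixed value z of k: log-sum / Gibbs: sum_{x,y} p(x,y,z) log( p(x,y,z) p(z) / (p(x,z) p(y,z)) ) >= 0, by log t <= t-1 applied to t = p(x,z)p(y,z)/(p(x,y,z)p(z)) on
p(x,y,z)>0. pair_le = the case of constant k (shannon of a constant map is 0).
-/
set_option autoImplicit false

open MeasureTheory Filter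

namespace KAut

section
variable {Ω : Type*} [MeasurableSpace Ω]

theorem E2_sum_inter {κ : Type*} [Fintype κ] (μ : Measure Ω) [IsProbabilityMeasure μ] (A : Set Ω) (g : Ω → κ)
    (hg : ∀ i, MeasurableSet (g ⁻¹' {i})) : ∑ b, μ.real (A ∩ g ⁻¹' {b}) = μ.real A := by
  have h := sum_measureReal_preimage_singleton (μ := μ.restrict A) (Finset.univ : Finset κ) (f := g)
    (fun y _ => hg y)
  simp only [Finset.coe_univ, Set.preimage_univ] at h
  have h1 : (μ.restrict A).real Set.univ = μ.real A := by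
    rw [measureReal_restrict_apply MeasurableSet.univ, Set.univ_inter]
  rw [← h1, ← h]
  refine Finset.sum_congr rfl fun b _ => ?_
  rw [measureReal_restrict_apply (hg b), Set.inter_comm]

/-- one term of the Gibbs inequality -/
theorem E2_term (p P1 P2 P : ℝ) (h0 : 0 ≤ p) (h1 : p ≤ P1) (h2 : p ≤ P2) (h3 : p ≤ P) :
    Real.negMulLog p - p * (-Real.log P1) - p * (-Real.log P2) + p * (-Real.log P) ≤ P1 * P2 / P - p := by
  rcases h0.eq_or_lt with h | h
  · subst h
    simp only [Real.negMulLog_zero, zero_mul, sub_zero, add_zero]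
    positivity
  · have hP1 : 0 < P1 := by linarith
    have hP2 : 0 < P2 := by linarith
    have hP : 0 < P := by linarith
    have key := Real.log_le_sub_one_of_pos (show 0 < P1 * P2 / (p * P) by positivity)
    have e : Real.log (P1 * P2 / (p * P)) = Real.log P1 + Real.log P2 - (Real.log p + Real.log P) := by
      rw [Real.log_div (by positivity) (by positivity), Real.log_mul hP1.ne' hP2.ne', Real.log_mul h.ne' hP.ne']
    rw [e] at key
    have key2 := mul_le_mul_of_nonneg_left key h.le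
    have e2 : p * (P1 * P2 / (p * P) - 1) = P1 * P2 / P - p := by
      field_simp
    rw [e2] at key2
    unfold Real.negMulLog
    linarith

/-- finite form of submodularity -/
theorem E2_finite {ι κ ξ : Type*} [Fintype ι] [Fintype κ] [Fintype ξ] (p : ι → κ → ξ → ℝ)
    (hp : ∀ x y z, 0 ≤ p x y z) :
    ∑ x, ∑ y, ∑ z, Real.negMulLog (p x y z) + ∑ z, Real.negMulLog (∑ x, ∑ y, p x y z) ≤
      ∑ x, ∑ z, Real.negMulLog (∑ y, p x y z) + ∑ y, ∑ z, Real.negMulLog (∑ x, p x y z) := by
  classical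
  set P1 : ι → ξ → ℝ := fun x z => ∑ y, p x y z with hP1
  set P2 : κ → ξ → ℝ := fun y z => ∑ x, p x y z with hP2
  set P : ξ → ℝ := fun z => ∑ x, ∑ y, p x y z with hPd
  have hP1n : ∀ x z, 0 ≤ P1 x z := fun x z => Finset.sum_nonneg fun y _ => hp x y z
  have hP2n : ∀ y z, 0 ≤ P2 y z := fun y z => Finset.sum_nonneg fun x _ => hp x y z
  have hPn : ∀ z, 0 ≤ P z := fun z => Finset.sum_nonneg fun x _ => hP1n x z
  have h1 : ∀ x y z, p x y z ≤ P1 x z := fun x y z =>
    Finset.single_le_sum (f := fun y => p x y z) (fun y _ => hp x y z) (Finset.mem_univ y)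
  have h2 : ∀ x y z, p x y z ≤ P2 y z := fun x y z =>
    Finset.single_le_sum (f := fun x => p x y z) (fun x _ => hp x y z) (Finset.mem_univ x)
  have h3 : ∀ x y z, p x y z ≤ P z := fun x y z =>
    (h1 x y z).trans (Finset.single_le_sum (f := fun x => P1 x z) (fun x _ => hP1n x z) (Finset.mem_univ x))
  have hPsum : ∀ z, P z = ∑ x, P1 x z := fun z => rfl
  have hPsum2 : ∀ z, P z = ∑ y, P2 y z := fun z => Finset.sum_comm
  have key : ∀ z, ∑ x, ∑ y, (Real.negMulLog (p x y z) - p x y z * (-Real.log (P1 x z)) -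
      p x y z * (-Real.log (P2 y z)) + p x y z * (-Real.log (P z))) ≤ 0 := by
    intro z
    calc _ ≤ ∑ x, ∑ y, (P1 x z * P2 y z / P z - p x y z) :=
          Finset.sum_le_sum fun x _ => Finset.sum_le_sum fun y _ =>
            E2_term _ _ _ _ (hp x y z) (h1 x y z) (h2 x y z) (h3 x y z)
      _ = (∑ x, P1 x z) * (∑ y, P2 y z) / P z - P z := by
          simp only [Finset.sum_sub_distrib]
          congr 1
          rw [Finset.sum_mul_sum, Finset.sum_div]
          refine Finset.sum_congr rfl fun x _ => ?_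
          rw [Finset.sum_div]
      _ = P z * P z / P z - P z := by rw [← hPsum, ← hPsum2]
      _ ≤ 0 := by
          rcases (hPn z).eq_or_lt with h | h
          · rw [← h]; simp
          · rw [mul_div_assoc, div_self h.ne', mul_one, sub_self]
  have key2 := Finset.sum_nonpos (s := (Finset.univ : Finset ξ)) fun z _ => key z
  simp only [Finset.sum_add_distrib, Finset.sum_sub_distrib] at key2
  have a1 : ∑ z, ∑ x, ∑ y, Real.negMulLog (p x y z) = ∑ x, ∑ y, ∑ z, Real.negMulLog (p x y z) := by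
    rw [Finset.sum_comm]
    exact Finset.sum_congr rfl fun x _ => Finset.sum_comm
  have a2 : ∑ z, ∑ x, ∑ y, p x y z * (-Real.log (P1 x z)) = ∑ x, ∑ z, Real.negMulLog (P1 x z) := by
    rw [Finset.sum_comm]
    refine Finset.sum_congr rfl fun x _ => Finset.sum_congr rfl fun z _ => ?_
    rw [← Finset.sum_mul]
    simp only [Real.negMulLog, hP1]
    ring
  have a3 : ∑ z, ∑ x, ∑ y, p x y z * (-Real.log (P2 y z)) = ∑ y, ∑ z, Real.negMulLog (P2 y z) := by
    rw [Finset.sum_comm' (t' := Finset.univ) (s' := fun _ => Finset.univ) (by simp)]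
    rw [Finset.sum_comm]
    have : ∀ z, ∑ x, ∑ y, p x y z * (-Real.log (P2 y z)) = ∑ y, Real.negMulLog (P2 y z) := by
      intro z
      rw [Finset.sum_comm]
      refine Finset.sum_congr rfl fun y _ => ?_
      rw [← Finset.sum_mul]
      simp only [Real.negMulLog, hP2]
      ring
    rw [Finset.sum_congr rfl fun z _ => this z, Finset.sum_comm]
  have a4 : ∑ z, ∑ x, ∑ y, p x y z * (-Real.log (P z)) = ∑ z, Real.negMulLog (P z) := by
    refine Finset.sum_congr rfl fun z _ => ?_
    simp only [← Finset.sum_mul]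
    simp only [Real.negMulLog, hPd]
    ring
  rw [a1, a2, a3, a4] at key2
  linarith

/-- submodularity: `H(f,g,k) + H(k) ≤ H(f,k) + H(g,k)` -/
theorem shannon_submod {ι κ ξ : Type*} [Fintype ι] [Fintype κ] [Fintype ξ] (μ : Measure Ω)
    [IsProbabilityMeasure μ] (f : Ω → ι) (g : Ω → κ) (k : Ω → ξ) (hf : ∀ i, MeasurableSet (f ⁻¹' {i}))
    (hg : ∀ i, MeasurableSet (g ⁻¹' {i})) (hk : ∀ i, MeasurableSet (k ⁻¹' {i})) :
    shannon μ (fun x => (f x, g x, k x)) + shannon μ k ≤
      shannon μ (fun x => (f x, k x)) + shannon μ (fun x => (g x, k x)) := by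
  have key := E2_finite (fun x y z => μ.real (f ⁻¹' {x} ∩ g ⁻¹' {y} ∩ k ⁻¹' {z})) (fun _ _ _ => measureReal_nonneg)
  have b1 : shannon μ (fun x => (f x, g x, k x)) =
      ∑ x, ∑ y, ∑ z, Real.negMulLog (μ.real (f ⁻¹' {x} ∩ g ⁻¹' {y} ∩ k ⁻¹' {z})) := by
    unfold shannon
    rw [Fintype.sum_prod_type]
    refine Finset.sum_congr rfl fun x _ => ?_
    rw [Fintype.sum_prod_type]
    refine Finset.sum_congr rfl fun y _ => Finset.sum_congr rfl fun z _ => ?_
    congr 2
    ext w
    simp [and_assoc]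
  have c1 : ∀ x z, ∑ y, μ.real (f ⁻¹' {x} ∩ g ⁻¹' {y} ∩ k ⁻¹' {z}) = μ.real (f ⁻¹' {x} ∩ k ⁻¹' {z}) := by
    intro x z
    rw [← E2_sum_inter μ (f ⁻¹' {x} ∩ k ⁻¹' {z}) g hg]
    refine Finset.sum_congr rfl fun y _ => ?_
    congr 1
    ext w
    simp only [Set.mem_inter_iff]
    tauto
  have c2 : ∀ y z, ∑ x, μ.real (f ⁻¹' {x} ∩ g ⁻¹' {y} ∩ k ⁻¹' {z}) = μ.real (g ⁻¹' {y} ∩ k ⁻¹' {z}) := by
    intro y z
    rw [← E2_sum_inter μ (g ⁻¹' {y} ∩ k ⁻¹' {z}) f hf]
    refine Finset.sum_congr rfl fun x _ => ?_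
    congr 1
    ext w
    simp only [Set.mem_inter_iff]
    tauto
  have c3 : ∀ z, ∑ x, ∑ y, μ.real (f ⁻¹' {x} ∩ g ⁻¹' {y} ∩ k ⁻¹' {z}) = μ.real (k ⁻¹' {z}) := by
    intro z
    rw [← E2_sum_inter μ (k ⁻¹' {z}) f hf]
    refine Finset.sum_congr rfl fun x _ => ?_
    rw [c1, Set.inter_comm]
  have b2 : shannon μ (fun x => (f x, k x)) = ∑ x, ∑ z, Real.negMulLog (μ.real (f ⁻¹' {x} ∩ k ⁻¹' {z})) := by
    unfold shannon
    rw [Fintype.sum_prod_type]
    refine Finset.sum_congr rfl fun x _ => Finset.sum_congr rfl fun y _ => ?_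
    congr 2
    ext w
    simp
  have b3 : shannon μ (fun x => (g x, k x)) = ∑ x, ∑ z, Real.negMulLog (μ.real (g ⁻¹' {x} ∩ k ⁻¹' {z})) := by
    unfold shannon
    rw [Fintype.sum_prod_type]
    refine Finset.sum_congr rfl fun x _ => Finset.sum_congr rfl fun y _ => ?_
    congr 2
    ext w
    simp
  simp only [c1, c2] at key
  rw [b1, b2, b3]
  have b4 : shannon μ k = ∑ z, Real.negMulLog (∑ x, μ.real (f ⁻¹' {x} ∩ k ⁻¹' {z})) := by
    unfold shannon
    refine Finset.sum_congr rfl fun z _ => ?_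
    rw [← c3]
    simp only [c1]
  rw [b4]
  exact key

/-- subadditivity -/
theorem shannon_pair_le {ι κ : Type*} [Fintype ι] [Fintype κ] (μ : Measure Ω)
    [IsProbabilityMeasure μ] (f : Ω → ι) (g : Ω → κ) (hf : ∀ i, MeasurableSet (f ⁻¹' {i}))
    (hg : ∀ i, MeasurableSet (g ⁻¹' {i})) :
    shannon μ (fun x => (f x, g x)) ≤ shannon μ f + shannon μ g := by
  have hu : ∀ i, MeasurableSet ((fun _ : Ω => ()) ⁻¹' {i}) := by
    intro i
    simp
  have key := shannon_submod μ f g (fun _ => ()) hf hg hu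
  have e0 : shannon μ (fun _ : Ω => ()) = 0 := by
    unfold shannon
    simp [Real.negMulLog]
  have e1 : shannon μ (fun x => (f x, ())) = shannon μ f :=
    shannon_comp_injective μ f (fun i => (i, ())) (fun a b h => by simpa using h)
  have e2 : shannon μ (fun x => (g x, ())) = shannon μ g :=
    shannon_comp_injective μ g (fun i => (i, ())) (fun a b h => by simpa using h)
  have e3 : shannon μ (fun x => (f x, g x, ())) = shannon μ (fun x => (f x, g x)) :=
    shannon_comp_injective μ (fun x => (f x, g x)) (fun i => (i.1, i.2, ()))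
      (fun a b h => by simpa [Prod.ext_iff] using h)
  rw [e0, e1, e2, e3] at key
  linarith

end

end KAut
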