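import Mathlib
import Pool.Agent.Lib.MP_33914b_an.E2

/-!
# MP_33914b_an, file E3  (ROW ka-E3)
Paper: /team-store/kaut_paper.md

PROOF / HINTS:
for f Bool valued: shannon (f,g) = shannon g + sum_b p(b) Hbin(p(1|b)), shannon f = Hbin(p(1)), Hbin = Real.binEntropy (or negMulLog x + negMulLog (1-x)), continuous on [0,1], hence uniformly continuous: delta with |x-y|<=delta => |Hbin x - Hbin y| <= eta/2.
Choose eps with 2 eps/delta * log 2 <= eta/2. With SS = {b : p(1|b) >= p(1)} and its complement: sum_b p(b)|p(1|b)-p(1)| <= 2 eps; Markov: the b with |p(1|b)-p(1)|>delta have total weight <= 2 eps/delta, on them Hbin(p(1)) - Hbin(p(1|b)) <= log 2.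
-/
set_option autoImplicit false

open MeasureTheory Filter

namespace KAut

theorem E3_unif (η : ℝ) (hη : 0 < η) : ∃ K > 0, ∀ p x : ℝ, 0 ≤ p → p ≤ 1 → 0 ≤ x → x ≤ 1 →
    Real.binEntropy p - Real.binEntropy x ≤ η + K * |x - p| := by
  have huc := isCompact_Icc.uniformContinuousOn_of_continuous
    (Real.binEntropy_continuous.continuousOn (s := Set.Icc (0 : ℝ) 1))
  rw [Metric.uniformContinuousOn_iff] at huc
  obtain ⟨δ, hδ, hd⟩ := huc η hη
  refine ⟨1 / δ, by positivity, fun p x hp0 hp1 hx0 hx1 => ?_⟩
  rcases lt_or_ge |x - p| δ with h | h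
  · have := hd p ⟨hp0, hp1⟩ x ⟨hx0, hx1⟩ (by rw [Real.dist_eq, abs_sub_comm]; exact h)
    rw [Real.dist_eq] at this
    have h2 := (abs_lt.mp this).2
    have : 0 ≤ 1 / δ * |x - p| := by positivity
    linarith
  · have h1 : Real.binEntropy p ≤ Real.log 2 := Real.binEntropy_le_log_two
    have h2 : 0 ≤ Real.binEntropy x := Real.binEntropy_nonneg hx0 hx1
    have h3 : Real.log 2 ≤ 1 := by
      have := Real.log_two_lt_d9
      linarith
    have h4 : 1 ≤ 1 / δ * |x - p| := by
      rw [one_div, inv_mul_eq_div, le_div_iff₀ hδ]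
      linarith
    linarith

theorem E3_split (s w : ℝ) (hs : 0 ≤ s) (hw : s ≤ w) :
    Real.negMulLog s + Real.negMulLog (w - s) = Real.negMulLog w + w * Real.binEntropy (s / w) := by
  rcases (hs.trans hw).eq_or_lt with h | h
  · have hs0 : s = 0 := by linarith
    subst hs0
    rw [← h]
    simp
  · have e1 : s = w * (s / w) := by field_simp
    have e2 : w - s = w * (1 - s / w) := by field_simp
    rw [e2]
    conv_lhs => rw [e1]
    rw [Real.negMulLog_mul, Real.negMulLog_mul, Real.binEntropy_eq_negMulLog_add_negMulLog_one_sub]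
    have e3 : w * (s / w) / w = s / w := by field_simp
    rw [e3]
    ring

/-- almost independence in total variation implies almost maximal conditional entropy, uniformly in the number
of values of `g` (for `f` with values in `Bool`) -/
theorem shannon_cond_ge (η : ℝ) (hη : 0 < η) : ∃ ε > 0, ∀ (Ω : Type) (_ : MeasurableSpace Ω) (μ : Measure Ω)
    (_ : IsProbabilityMeasure μ) (f : Ω → Bool) (r : ℕ) (g : Ω → (Fin r → Bool)),
    (∀ i, MeasurableSet (f ⁻¹' {i})) → (∀ i, MeasurableSet (g ⁻¹' {i})) →
    (∀ SS : Set (Fin r → Bool),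
      |μ.real (f ⁻¹' {true} ∩ g ⁻¹' SS) - μ.real (f ⁻¹' {true}) * μ.real (g ⁻¹' SS)| ≤ ε) →
    shannon μ g + shannon μ f - η ≤ shannon μ (fun x => (f x, g x)) := by
  obtain ⟨K, hK, hKK⟩ := E3_unif (η / 2) (by linarith)
  refine ⟨η / (4 * K), by positivity, ?_⟩
  intro Ω _ μ _ f r g hf hg hSS
  classical
  set p : ℝ := μ.real (f ⁻¹' {true}) with hp
  set s : (Fin r → Bool) → ℝ := fun b => μ.real (f ⁻¹' {true} ∩ g ⁻¹' {b}) with hs
  set w : (Fin r → Bool) → ℝ := fun b => μ.real (g ⁻¹' {b}) with hw
  have hs0 : ∀ b, 0 ≤ s b := fun b => measureReal_nonneg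
  have hsw : ∀ b, s b ≤ w b := fun b => measureReal_mono Set.inter_subset_right
  have hfb : ∀ b, μ.real (f ⁻¹' {false} ∩ g ⁻¹' {b}) = w b - s b := by
    intro b
    have h := E2_sum_inter μ (g ⁻¹' {b}) f hf
    simp only [Fintype.univ_bool, Finset.mem_singleton, Bool.true_eq_false, not_false_eq_true, Finset.sum_insert,
      Finset.sum_singleton] at h
    rw [Set.inter_comm (g ⁻¹' {b}), Set.inter_comm (g ⁻¹' {b})] at h
    simp only [hs, hw]
    linarith
  have hp0 : 0 ≤ p := measureReal_nonneg
  have hp1 : p ≤ 1 := measureReal_le_one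
  have hsumw : ∑ b, w b = 1 := by
    have h := E2_sum_inter μ Set.univ g hg
    simp only [Set.univ_inter] at h
    rw [h]
    simp
  have hHfg : shannon μ (fun x => (f x, g x)) = ∑ b, (Real.negMulLog (s b) + Real.negMulLog (w b - s b)) := by
    unfold shannon
    rw [Fintype.sum_prod_type, Fintype.sum_bool, ← Finset.sum_add_distrib]
    refine Finset.sum_congr rfl fun b _ => ?_
    rw [← hfb b]
    congr 2
    · simp only [hs]
      congr 1
      ext x
      simp
    · congr 1
      ext x
      simp
  have hHf : shannon μ f = Real.binEntropy p := by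
    unfold shannon
    rw [Fintype.sum_bool, Real.binEntropy_eq_negMulLog_add_negMulLog_one_sub]
    congr 2
    have h := E2_sum_inter μ Set.univ f hf
    simp only [Set.univ_inter, Fintype.sum_bool] at h
    have h1 : μ.real Set.univ = 1 := by simp
    rw [h1] at h
    linarith
  have hHg : shannon μ g = ∑ b, Real.negMulLog (w b) := rfl
  have hH2 : shannon μ (fun x => (f x, g x)) = ∑ b, Real.negMulLog (w b) + ∑ b, w b * Real.binEntropy (s b / w b) := by
    rw [hHfg, ← Finset.sum_add_distrib]
    exact Finset.sum_congr rfl fun b _ => E3_split _ _ (hs0 b) (hsw b)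
  -- total variation
  have hTVs : ∀ SS : Finset (Fin r → Bool), |∑ b ∈ SS, (s b - p * w b)| ≤ η / (4 * K) := by
    intro SS
    have h1 : ∑ b ∈ SS, w b = μ.real (g ⁻¹' (SS : Set (Fin r → Bool))) :=
      sum_measureReal_preimage_singleton (μ := μ) SS (fun y _ => hg y)
    have h2 : ∑ b ∈ SS, s b = μ.real (f ⁻¹' {true} ∩ g ⁻¹' (SS : Set (Fin r → Bool))) := by
      have h3 := sum_measureReal_preimage_singleton (μ := μ.restrict (f ⁻¹' {true})) SS (f := g)
        (fun y _ => hg y)
      have hm : MeasurableSet (g ⁻¹' (SS : Set (Fin r → Bool))) := by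
        have : g ⁻¹' (SS : Set (Fin r → Bool)) = ⋃ b ∈ SS, g ⁻¹' {b} := by
          ext x
          simp
        rw [this]
        exact Finset.measurableSet_biUnion _ fun b _ => hg b
      rw [measureReal_restrict_apply hm, Set.inter_comm] at h3
      rw [← h3]
      refine Finset.sum_congr rfl fun b _ => ?_
      rw [measureReal_restrict_apply (hg b), Set.inter_comm]
    rw [Finset.sum_sub_distrib, ← Finset.mul_sum, h1, h2]
    exact hSS _
  have hTV : ∑ b, |s b - p * w b| ≤ η / (2 * K) := by
    have h1 := hTVs (Finset.univ.filter fun b => 0 ≤ s b - p * w b)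
    have h2 := hTVs (Finset.univ.filter fun b => ¬ 0 ≤ s b - p * w b)
    have e1 : ∑ b ∈ Finset.univ.filter (fun b => 0 ≤ s b - p * w b), |s b - p * w b| =
        ∑ b ∈ Finset.univ.filter (fun b => 0 ≤ s b - p * w b), (s b - p * w b) :=
      Finset.sum_congr rfl fun b hb => abs_of_nonneg (Finset.mem_filter.mp hb).2
    have e2 : ∑ b ∈ Finset.univ.filter (fun b => ¬ 0 ≤ s b - p * w b), |s b - p * w b| =
        - ∑ b ∈ Finset.univ.filter (fun b => ¬ 0 ≤ s b - p * w b), (s b - p * w b) := by
      rw [← Finset.sum_neg_distrib]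
      exact Finset.sum_congr rfl fun b hb => abs_of_neg (not_le.mp (Finset.mem_filter.mp hb).2)
    rw [← Finset.sum_filter_add_sum_filter_not Finset.univ (fun b => 0 ≤ s b - p * w b), e1, e2]
    have h3 := (abs_le.mp h1).2
    have h4 := (abs_le.mp h2).1
    have e3 : η / (2 * K) = η / (4 * K) + η / (4 * K) := by
      field_simp
      ring
    linarith
  -- main estimate
  have hmain : ∀ b, w b * Real.binEntropy p - w b * Real.binEntropy (s b / w b) ≤
      w b * (η / 2) + K * |s b - p * w b| := by
    intro b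
    have hw0 : 0 ≤ w b := (hs0 b).trans (hsw b)
    rcases hw0.eq_or_lt with h | h
    · rw [← h]
      have : 0 ≤ K * |s b - p * 0| := by positivity
      linarith
    · have hx0 : 0 ≤ s b / w b := div_nonneg (hs0 b) hw0
      have hx1 : s b / w b ≤ 1 := (div_le_one h).mpr (hsw b)
      have h1 := hKK p (s b / w b) hp0 hp1 hx0 hx1
      have h2 := mul_le_mul_of_nonneg_left h1 hw0
      have h3 : w b * |s b / w b - p| = |s b - p * w b| := by
        rw [← abs_of_pos h, ← abs_mul, abs_of_pos h]
        congr 1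
        field_simp
      have h4 : w b * (K * |s b / w b - p|) = K * |s b - p * w b| := by
        rw [← h3]; ring
      rw [mul_sub, mul_add, h4] at h2
      exact h2
  have hsum := Finset.sum_le_sum (s := Finset.univ) fun b _ => hmain b
  rw [Finset.sum_sub_distrib, Finset.sum_add_distrib, ← Finset.sum_mul, ← Finset.sum_mul, ← Finset.mul_sum, hsumw,
    one_mul, one_mul] at hsum
  have hfin : K * ∑ b, |s b - p * w b| ≤ η / 2 := by
    have h1 := mul_le_mul_of_nonneg_left hTV hK.le
    have h2 : K * (η / (2 * K)) = η / 2 := by field_simp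
    linarith
  rw [hH2, hHf, hHg]
  linarith

end KAut
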