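import Mathlib
import Pool.Agent.Lib.MP_33914b_an.E2

/-!
# MP_33914b_an, file E4  (ROW ka-E4)
Paper: /team-store/kaut_paper.md

PROOF / HINTS:
I(A;B) = H(A) - H(A|B) and H(A|B) = H(A,B) - H(B) = sum_b p(b) Hbin(p(A|b)) <= small when mu(A symmdiff B) small: e.g. H(A,B) = H(1_B, 1_{A xor B}) (injective recoding) <= H(B) + H(A xor B), so I >= H(A) - H(A xor B) and
H(A xor B) = binEntropy(mu(A symmdiff B)) -> 0. H(A) > 0.
-/
set_option autoImplicit false

open MeasureTheory Filter

namespace KAut

section
variable {Ω : Type*} [MeasurableSpace Ω]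

theorem E4_pre_true (B : Set Ω) : ind B ⁻¹' {true} = B := by
  ext x; simp [ind]

theorem E4_pre_false (B : Set Ω) : ind B ⁻¹' {false} = Bᶜ := by
  ext x; simp [ind]

theorem E4_shannon_ind (μ : Measure Ω) [IsProbabilityMeasure μ] (B : Set Ω) (hB : MeasurableSet B) :
    shannon μ (ind B) = Real.binEntropy (μ.real B) := by
  unfold shannon
  rw [Fintype.sum_bool, E4_pre_true, E4_pre_false, Real.binEntropy_eq_negMulLog_add_negMulLog_one_sub,
    probReal_compl_eq_one_sub hB]

theorem E4_meas (B : Set Ω) (hB : MeasurableSet B) (i : Bool) : MeasurableSet (ind B ⁻¹' {i}) := by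
  cases i
  · rw [E4_pre_false]; exact hB.compl
  · rw [E4_pre_true]; exact hB

theorem E4_xor (A B : Set Ω) (x : Ω) :
    ind A x = Bool.xor (ind B x) (ind (symmDiff A B) x) := by
  unfold ind
  by_cases hA : x ∈ A <;> by_cases hB : x ∈ B <;> simp [Set.mem_symmDiff, hA, hB]

/-- mutual information of `A` and `B` is bounded below when `B` is close to `A` -/
theorem mutual_ge (A : Set Ω) (μ : Measure Ω) [IsProbabilityMeasure μ] (hA : MeasurableSet A)
    (h0 : 0 < μ.real A) (h1 : μ.real A < 1) :
    ∃ ε > 0, ∃ δ > 0, ∀ B : Set Ω, MeasurableSet B → μ.real (symmDiff A B) ≤ ε →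
      δ ≤ shannon μ (ind A) + shannon μ (ind B) - shannon μ (fun x => (ind A x, ind B x)) := by
  have hpos : 0 < Real.binEntropy (μ.real A) := Real.binEntropy_pos h0 h1
  have hc : Filter.Tendsto Real.binEntropy (nhds 0) (nhds 0) := by
    have := Real.binEntropy_continuous.tendsto 0
    rwa [Real.binEntropy_zero] at this
  have h2 : ∀ᶠ x in nhds (0 : ℝ), Real.binEntropy x < Real.binEntropy (μ.real A) / 2 :=
    hc.eventually_lt_const (by linarith)
  obtain ⟨r, hr, hr2⟩ := Metric.eventually_nhds_iff.mp h2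
  refine ⟨r / 2, by linarith, Real.binEntropy (μ.real A) / 2, by linarith, ?_⟩
  intro B hB hAB
  have hC : MeasurableSet (symmDiff A B) := hA.symmDiff hB
  have h3 : shannon μ (ind (symmDiff A B)) < Real.binEntropy (μ.real A) / 2 := by
    rw [E4_shannon_ind μ _ hC]
    apply hr2
    rw [Real.dist_eq, sub_zero, abs_of_nonneg measureReal_nonneg]
    linarith
  have h4 : shannon μ (fun x => (ind A x, ind B x))
      = shannon μ (fun x => (ind B x, ind (symmDiff A B) x)) := by
    have h5 : (fun x => (ind A x, ind B x))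
        = (fun p : Bool × Bool => (Bool.xor p.1 p.2, p.1)) ∘ (fun x => (ind B x, ind (symmDiff A B) x)) := by
      funext x
      simp only [Function.comp_apply, ← E4_xor]
    rw [h5]
    refine shannon_comp_injective μ _ _ ?_
    intro p p' h
    obtain ⟨b, c⟩ := p
    obtain ⟨b', c'⟩ := p'
    revert h
    cases b <;> cases c <;> cases b' <;> cases c' <;> simp
  have h6 := shannon_pair_le μ (ind B) (ind (symmDiff A B)) (E4_meas B hB) (E4_meas _ hC)
  rw [E4_shannon_ind μ A hA, h4]
  linarith

end

end KAut
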