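import Mathlib
import Pool.Agent.Lib.MP_33914b_an.E3
import Pool.Agent.Lib.MP_33914b_an.E4

/-!
# MP_33914b_an, file E5  (ROW ka-E5)
Paper: /team-store/kaut_paper.md
-/
set_option autoImplicit false

open MeasureTheory Filter

namespace KAut

theorem E5_ms {Ω : Type} [MeasurableSpace Ω] {ι : Type*} [MeasurableSpace ι] [MeasurableSingletonClass ι]
    {f : Ω → ι} (hf : Measurable f) (i : ι) : MeasurableSet (f ⁻¹' {i}) :=
  hf (measurableSet_singleton i)

theorem E5_ind_pre {Ω : Type} (B : Set Ω) : ind B ⁻¹' {true} = B := by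
  ext x
  simp [ind]

theorem E5_meas_ind {Ω : Type} [MeasurableSpace Ω] {B : Set Ω} (hB : MeasurableSet B) : Measurable (ind B) := by
  apply measurable_to_bool
  rw [E5_ind_pre]
  exact hB

/-- the `B`-names along multiples of `n0` -/
noncomputable def E5_V {Ω : Type} (T : Ω → Ω) (B : Set Ω) (n0 r : ℕ) (x : Ω) : Fin r → Bool :=
  fun j => ind B (T^[(j : ℕ) * n0] x)

theorem E5_meas_V {Ω : Type} [MeasurableSpace Ω] {T : Ω → Ω} (hT : Measurable T) {B : Set Ω}
    (hB : MeasurableSet B) (n0 r : ℕ) : Measurable (E5_V T B n0 r) :=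
  measurable_pi_lambda _ fun _ => (E5_meas_ind hB).comp (hT.iterate _)

theorem E5_V_shift {Ω : Type} (T : Ω → Ω) (B : Set Ω) (n0 r : ℕ) (x : Ω) :
    E5_V T B n0 r (T^[n0] x) = fun j : Fin r => ind B (T^[(j + 1) * n0] x) := by
  funext j
  unfold E5_V
  rw [← Function.iterate_add_apply]
  congr 2
  ring

/-- ENTROPY LEMMA -/
theorem entropy_lemma {Ω : Type} [MeasurableSpace Ω] (μ : Measure Ω) [IsProbabilityMeasure μ] (T : Ω → Ω)
    (hT : MeasurePreserving T μ μ) (D : Set (Set Ω)) (hDm : ∀ B ∈ D, MeasurableSet B)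
    (hD : ∀ A, MeasurableSet A → ∀ ε : ℝ, 0 < ε → ∃ B ∈ D, μ.real (symmDiff A B) ≤ ε)
    (hforget : ∀ B ∈ D, ∀ ε : ℝ, 0 < ε → ∃ n0 : ℕ, 1 ≤ n0 ∧ ∀ (r : ℕ) (SS : Set (Fin r → Bool)),
      |μ.real (B ∩ {x | (fun j : Fin r => ind B (T^[(j + 1) * n0] x)) ∈ SS}) -
        μ.real B * μ.real {x | (fun j : Fin r => ind B (T^[(j + 1) * n0] x)) ∈ SS}| ≤ ε)
    (A : Set Ω) (hA : MeasurableSet A) (h0 : 0 < μ.real A) (h1 : μ.real A < 1) :
    0 < hPart μ T (ind A) := by
  by_contra hneg
  push Not at hneg
  obtain ⟨ε, hε, δ, hδ, hmut⟩ := mutual_ge A μ hA h0 h1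
  obtain ⟨B, hBD, hAB⟩ := hD A hA ε hε
  have hB : MeasurableSet B := hDm B hBD
  have hI := hmut B hB hAB
  obtain ⟨ε', hε', hcond⟩ := shannon_cond_ge (δ / 2) (by positivity)
  obtain ⟨n0, hn0, hfor⟩ := hforget B hBD ε' hε'
  have mA : Measurable (ind A) := E5_meas_ind hA
  have mB : Measurable (ind B) := E5_meas_ind hB
  have mT : Measurable T := hT.measurable
  have hTn : ∀ n : ℕ, MeasurePreserving (T^[n]) μ μ := fun n => hT.iterate n
  -- lower bound
  have lower : ∀ r : ℕ, (r : ℝ) * (shannon μ (ind B) - δ / 2) ≤ shannon μ (E5_V T B n0 r) := by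
    intro r
    induction r with
    | zero => rw [Nat.cast_zero, zero_mul]; exact shannon_nonneg μ _
    | succ r ih =>
      have e1 : shannon μ (E5_V T B n0 (r + 1)) =
          shannon μ (fun x => (ind B x, fun j : Fin r => ind B (T^[(j + 1) * n0] x))) := by
        have hinj : Function.Injective
            (fun p : Bool × (Fin r → Bool) => (Fin.cons p.1 p.2 : Fin (r + 1) → Bool)) := by
          rintro ⟨a, b⟩ ⟨a', b'⟩ h
          have := Fin.cons_injective2 h
          exact Prod.ext this.1 this.2
        rw [← shannon_comp_injective μ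
          (fun x => (ind B x, fun j : Fin r => ind B (T^[(j + 1) * n0] x))) _ hinj]
        congr 1
        funext x j
        refine Fin.cases ?_ (fun i => ?_) j
        · simp [E5_V]
        · simp [E5_V]
      have mV' : Measurable (fun x => fun j : Fin r => ind B (T^[(j + 1) * n0] x)) :=
        measurable_pi_lambda _ fun _ => mB.comp (mT.iterate _)
      have e2 : shannon μ (fun x => fun j : Fin r => ind B (T^[(j + 1) * n0] x)) =
          shannon μ (E5_V T B n0 r) := by
        rw [← shannon_comp_mp μ (T^[n0]) (hTn n0) (E5_V T B n0 r) (E5_ms (E5_meas_V mT hB n0 r))]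
        congr 1
        funext x
        exact (E5_V_shift T B n0 r x).symm
      have e3 := hcond Ω inferInstance μ inferInstance (ind B) r
        (fun x => fun j : Fin r => ind B (T^[(j + 1) * n0] x)) (E5_ms mB) (E5_ms mV') (by
          intro SS
          rw [E5_ind_pre]
          exact hfor r SS)
      rw [e1]
      rw [e2] at e3
      push_cast
      linarith
  -- upper bound
  have hHA : ∀ m : ℕ, shannon μ (fun x => ind A (T^[m] x)) = shannon μ (ind A) := fun m =>
    shannon_comp_mp μ (T^[m]) (hTn m) (ind A) (E5_ms mA)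
  have hHBA : ∀ m : ℕ, shannon μ (fun x => (ind B (T^[m] x), ind A (T^[m] x))) =
      shannon μ (fun x => (ind A x, ind B x)) := fun m => by
    have h1 := shannon_comp_mp μ (T^[m]) (hTn m) (fun x => (ind B x, ind A x)) (E5_ms (mB.prodMk mA))
    have h2 := shannon_comp_injective μ (fun x => (ind A x, ind B x)) Prod.swap Prod.swap_injective
    exact h1.trans h2
  have upper : ∀ (r k : ℕ), k ≤ r →
      shannon μ (fun x => (E5_V T B n0 k x, name T (ind A) (r * n0) x)) ≤
        shannon μ (name T (ind A) (r * n0)) +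
          k * (shannon μ (fun x => (ind A x, ind B x)) - shannon μ (ind A)) := by
    intro r k
    have mY : Measurable (name T (ind A) (r * n0)) :=
      measurable_pi_lambda _ fun _ => mA.comp (mT.iterate _)
    induction k with
    | zero =>
      intro _
      rw [Nat.cast_zero, zero_mul, add_zero]
      refine le_of_eq ?_
      have hinj : Function.Injective
          (fun y : Fin (r * n0) → Bool => ((fun j : Fin 0 => j.elim0 : Fin 0 → Bool), y)) :=
        fun y y' h => (Prod.ext_iff.1 h).2
      rw [← shannon_comp_injective μ (name T (ind A) (r * n0)) _ hinj]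
      congr 1
      funext x
      exact Prod.ext (funext fun j => j.elim0) rfl
    | succ k ih =>
      intro hk
      have ih' := ih (by omega)
      have hlt : k * n0 < r * n0 := Nat.mul_lt_mul_of_pos_right (by omega) (by omega)
      have mV : Measurable (E5_V T B n0 k) := E5_meas_V mT hB n0 k
      have mb : Measurable (fun x => ind B (T^[k * n0] x)) := mB.comp (mT.iterate _)
      have ma : Measurable (fun x => ind A (T^[k * n0] x)) := mA.comp (mT.iterate _)
      -- recoding of `V (k+1)`
      have e1 : shannon μ (fun x => (E5_V T B n0 (k + 1) x, name T (ind A) (r * n0) x)) =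
          shannon μ (fun x => (ind B (T^[k * n0] x), E5_V T B n0 k x, name T (ind A) (r * n0) x)) := by
        have hinj : Function.Injective
            (fun p : Bool × (Fin k → Bool) × (Fin (r * n0) → Bool) =>
              ((Fin.snoc p.2.1 p.1 : Fin (k + 1) → Bool), p.2.2)) := by
          rintro ⟨a, b, y⟩ ⟨a', b', y'⟩ h
          obtain ⟨h3, h4⟩ := Prod.ext_iff.1 h
          have h3' : (Fin.snoc (α := fun _ => Bool) b a : Fin (k + 1) → Bool) =
            Fin.snoc (α := fun _ => Bool) b' a' := h3
          have h5 := Fin.snoc_injective2 h3'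
          exact Prod.ext h5.2 (Prod.ext h5.1 h4)
        rw [← shannon_comp_injective μ
          (fun x => (ind B (T^[k * n0] x), E5_V T B n0 k x, name T (ind A) (r * n0) x)) _ hinj]
        congr 1
        funext x
        refine Prod.ext ?_ rfl
        funext j
        refine Fin.lastCases ?_ (fun i => ?_) j
        · simp [E5_V]
        · simp [E5_V]
      have e2 := shannon_submod μ (fun x => ind B (T^[k * n0] x)) (E5_V T B n0 k)
        (name T (ind A) (r * n0)) (E5_ms mb) (E5_ms mV) (E5_ms mY)
      have e3 := shannon_submod μ (fun x => ind B (T^[k * n0] x)) (name T (ind A) (r * n0))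
        (fun x => ind A (T^[k * n0] x)) (E5_ms mb) (E5_ms mY) (E5_ms ma)
      have e4 : shannon μ (fun x => (ind B (T^[k * n0] x), name T (ind A) (r * n0) x,
          ind A (T^[k * n0] x))) =
          shannon μ (fun x => (ind B (T^[k * n0] x), name T (ind A) (r * n0) x)) := by
        have hinj : Function.Injective
            (fun p : Bool × (Fin (r * n0) → Bool) => (p.1, p.2, p.2 ⟨k * n0, hlt⟩)) := by
          rintro ⟨a, y⟩ ⟨a', y'⟩ h
          obtain ⟨h3, h4⟩ := Prod.ext_iff.1 h
          exact Prod.ext h3 (Prod.ext_iff.1 h4).1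
        rw [← shannon_comp_injective μ
          (fun x => (ind B (T^[k * n0] x), name T (ind A) (r * n0) x)) _ hinj]
        rfl
      have e5 : shannon μ (fun x => (name T (ind A) (r * n0) x, ind A (T^[k * n0] x))) =
          shannon μ (name T (ind A) (r * n0)) := by
        have hinj : Function.Injective
            (fun y : Fin (r * n0) → Bool => (y, y ⟨k * n0, hlt⟩)) :=
          fun y y' h => (Prod.ext_iff.1 h).1
        rw [← shannon_comp_injective μ (name T (ind A) (r * n0)) _ hinj]
        rfl
      have e6 := hHA (k * n0)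
      have e7 := hHBA (k * n0)
      rw [e1]
      rw [e4, e5, e6, e7] at e3
      push_cast
      linarith
  -- conclusion
  have hmain : ∀ r : ℕ, (r : ℝ) * (δ / 2) ≤ shannon μ (name T (ind A) (r * n0)) := by
    intro r
    have mY : Measurable (name T (ind A) (r * n0)) :=
      measurable_pi_lambda _ fun _ => mA.comp (mT.iterate _)
    have mV : Measurable (E5_V T B n0 r) := E5_meas_V mT hB n0 r
    have a1 := lower r
    have a2 := upper r r le_rfl
    have a3 : shannon μ (E5_V T B n0 r) ≤
        shannon μ (fun x => (E5_V T B n0 r x, name T (ind A) (r * n0) x)) :=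
      shannon_comp_le μ (fun x => (E5_V T B n0 r x, name T (ind A) (r * n0) x))
        (E5_ms (mV.prodMk mY)) Prod.fst
    have a4 : (r : ℝ) * δ ≤ (r : ℝ) * (shannon μ (ind A) + shannon μ (ind B) -
        shannon μ (fun x => (ind A x, ind B x))) := mul_le_mul_of_nonneg_left hI (Nat.cast_nonneg r)
    have a5 := a1.trans (a3.trans a2)
    nlinarith [a4, a5]
  have hbdd : IsBoundedUnder (· ≤ ·) atTop (fun n : ℕ => shannon μ (name T (ind A) n) / n) := by
    refine isBoundedUnder_of ⟨Real.log 2, fun n => ?_⟩
    have mY : Measurable (name T (ind A) n) :=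
      measurable_pi_lambda _ fun _ => mA.comp (mT.iterate _)
    have h := shannon_le_log_card μ (name T (ind A) n) (E5_ms mY)
    rw [Fintype.card_fun, Fintype.card_fin, Fintype.card_bool, Nat.cast_pow, Real.log_pow] at h
    rcases Nat.eq_zero_or_pos n with rfl | hn
    · simp only [Nat.cast_zero, div_zero]
      exact Real.log_nonneg (by norm_num)
    · rw [div_le_iff₀ (by exact_mod_cast hn)]
      push_cast at h
      linarith
  have hn0' : (0 : ℝ) < n0 := by exact_mod_cast hn0
  have hev := eventually_lt_of_limsup_lt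
    (lt_of_le_of_lt hneg (show (0 : ℝ) < δ / (2 * n0) by positivity)) hbdd
  obtain ⟨N, hN⟩ := eventually_atTop.1 hev
  have hN1 := hN ((N + 1) * n0) (by nlinarith)
  have h5 := hmain (N + 1)
  have hpos : (0 : ℝ) < (((N + 1) * n0 : ℕ) : ℝ) := by
    exact_mod_cast Nat.mul_pos (Nat.succ_pos N) (by omega)
  rw [div_lt_iff₀ hpos] at hN1
  have h6 : δ / (2 * n0) * (((N + 1) * n0 : ℕ) : ℝ) = ((N + 1 : ℕ) : ℝ) * (δ / 2) := by
    push_cast
    field_simp
  rw [h6] at hN1
  exact absurd h5 (not_le.2 hN1)

end KAut
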