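import Mathlib
import Pool.Agent.Lib.MP_33914b_an.Defs

/-!
# MP_33914b_an, file PermDef
Paper: /team-store/kaut_paper.md
-/
set_option autoImplicit false

open MeasureTheory Topology Filter Set

namespace KAut

/-- topology of pointwise convergence (of `σ` and `σ⁻¹`) -/
instance instTopPerm : TopologicalSpace (Equiv.Perm ℕ) :=
  TopologicalSpace.induced (fun σ : Equiv.Perm ℕ => ((σ : ℕ → ℕ), ((σ⁻¹ : Equiv.Perm ℕ) : ℕ → ℕ))) inferInstance

/-- basic clopen set: `σ (a i) = i` for `i < k` -/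
def bas {k : ℕ} (a : Fin k → ℕ) : Set (Equiv.Perm ℕ) := {σ | ∀ i, σ (a i) = i}

/-- the space of countable structures with relations indexed by `ℕ` and all arities -/
abbrev Logic : Type := (ℕ × (Σ k : ℕ, (Fin k → ℕ))) → Bool

/-- the logic action -/
def lact (σ : Equiv.Perm ℕ) (M : Logic) : Logic := fun r => M (r.1, ⟨r.2.1, fun i => σ⁻¹ (r.2.2 i)⟩)

theorem lact_one (M : Logic) : lact 1 M = M := rfl

theorem lact_mul (σ τ : Equiv.Perm ℕ) (M : Logic) : lact (σ * τ) M = lact σ (lact τ M) := rfl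

end KAut
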