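import Mathlib
import Pool.Agent.Lib.MP_33914b_an.PermDef

/-!
# MP_33914b_an, file P1  (ROW ka-P1)
Paper: /team-store/kaut_paper.md

PROOF / HINTS:
the map sigma -> (sigma, sigma^-1) is a closed embedding into (N->N) x (N->N): image = {(f,g) : f o g = id, g o f = id} closed. Borel: borel_comap, and sigma^-1 n = m iff sigma m = n. Group operations: pointwise, discrete topology on N.
-/
set_option autoImplicit false

open MeasureTheory Topology Filter Set

namespace KAut

/-- the embedding `σ ↦ (σ, σ⁻¹)` -/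
def P1_emb (σ : Equiv.Perm ℕ) : (ℕ → ℕ) × (ℕ → ℕ) :=
  ((σ : ℕ → ℕ), ((σ⁻¹ : Equiv.Perm ℕ) : ℕ → ℕ))

theorem P1_inducing : IsInducing P1_emb := ⟨rfl⟩

theorem P1_injective : Function.Injective P1_emb := by
  intro σ τ h
  have h1 : (σ : ℕ → ℕ) = (τ : ℕ → ℕ) := congrArg Prod.fst h
  exact Equiv.coe_fn_injective h1

theorem P1_eval : Continuous (fun p : (ℕ → ℕ) × ℕ => p.1 p.2) := by
  rw [continuous_prod_of_discrete_right]
  exact fun m => continuous_apply m

theorem P1_range : range P1_emb = {p | (∀ n, p.1 (p.2 n) = n) ∧ ∀ n, p.2 (p.1 n) = n} := by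
  ext ⟨f, f'⟩
  constructor
  · rintro ⟨σ, hσ⟩
    have h1 : (σ : ℕ → ℕ) = f := congrArg Prod.fst hσ
    have h2 : ((σ⁻¹ : Equiv.Perm ℕ) : ℕ → ℕ) = f' := congrArg Prod.snd hσ
    subst h1 h2
    exact ⟨fun n => σ.apply_symm_apply n, fun n => σ.symm_apply_apply n⟩
  · rintro ⟨h1, h2⟩
    exact ⟨⟨f, f', h2, h1⟩, rfl⟩

theorem P1_closed : IsClosed (range P1_emb) := by
  rw [P1_range]
  have e1 : ∀ n : ℕ, Continuous (fun p : (ℕ → ℕ) × (ℕ → ℕ) => p.1 (p.2 n)) := fun n =>
    P1_eval.comp (continuous_fst.prodMk ((continuous_apply n).comp continuous_snd))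
  have e2 : ∀ n : ℕ, Continuous (fun p : (ℕ → ℕ) × (ℕ → ℕ) => p.2 (p.1 n)) := fun n =>
    P1_eval.comp (continuous_snd.prodMk ((continuous_apply n).comp continuous_fst))
  have h : {p : (ℕ → ℕ) × (ℕ → ℕ) | (∀ n, p.1 (p.2 n) = n) ∧ ∀ n, p.2 (p.1 n) = n}
      = (⋂ n, {p | p.1 (p.2 n) = n}) ∩ ⋂ n, {p | p.2 (p.1 n) = n} := by
    ext p; simp
  rw [h]
  exact (isClosed_iInter fun n => isClosed_eq (e1 n) continuous_const).inter
    (isClosed_iInter fun n => isClosed_eq (e2 n) continuous_const)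

theorem P1_closedEmbedding : IsClosedEmbedding P1_emb :=
  ⟨⟨P1_inducing, P1_injective⟩, P1_closed⟩

instance instPolishPerm : PolishSpace (Equiv.Perm ℕ) := P1_closedEmbedding.polishSpace

theorem P1_apply (n : ℕ) : Continuous (fun σ : Equiv.Perm ℕ => σ n) :=
  (continuous_apply n).comp (continuous_fst.comp P1_inducing.continuous)

theorem P1_inv_apply (n : ℕ) : Continuous (fun σ : Equiv.Perm ℕ => σ⁻¹ n) :=
  (continuous_apply n).comp (continuous_snd.comp P1_inducing.continuous)

/-- the Borel sets of the topology are the sets of the measurable space of `Defs` -/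
instance instBorelPerm : BorelSpace (Equiv.Perm ℕ) := by
  constructor
  have hb : borel (Equiv.Perm ℕ)
      = MeasurableSpace.comap P1_emb (inferInstance : MeasurableSpace ((ℕ → ℕ) × (ℕ → ℕ))) := by
    rw [(inferInstance : BorelSpace ((ℕ → ℕ) × (ℕ → ℕ))).measurable_eq]
    exact borel_comap
  rw [hb]
  apply le_antisymm
  · -- the coercion is the first coordinate
    have h1 : @Measurable (Equiv.Perm ℕ) (ℕ → ℕ)
        (MeasurableSpace.comap P1_emb inferInstance) inferInstance
        (fun σ : Equiv.Perm ℕ => (σ : ℕ → ℕ)) := by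
      have := @Measurable.comp (Equiv.Perm ℕ) _ _ (MeasurableSpace.comap P1_emb inferInstance)
        inferInstance inferInstance _ _ (measurable_fst (α := ℕ → ℕ) (β := ℕ → ℕ))
        (comap_measurable P1_emb)
      exact this
    exact h1.comap_le
  · have h2 : Measurable P1_emb := by
      apply Measurable.prodMk
      · exact comap_measurable _
      · rw [measurable_pi_iff]
        intro n
        apply measurable_to_countable'
        intro m
        have he : (fun σ : Equiv.Perm ℕ => (σ⁻¹ : Equiv.Perm ℕ) n) ⁻¹' {m}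
            = (fun σ : Equiv.Perm ℕ => (σ : ℕ → ℕ)) ⁻¹' {f : ℕ → ℕ | f m = n} := by
          ext σ
          simp only [mem_preimage, mem_singleton_iff, mem_ofPred_eq, Equiv.Perm.inv_eq_iff_eq]
          exact eq_comm
        rw [he]
        have hm : MeasurableSet {f : ℕ → ℕ | f m = n} := by
          have h0 : {f : ℕ → ℕ | f m = n} = (fun f : ℕ → ℕ => f m) ⁻¹' {n} := by
            ext f; simp
          rw [h0]
          exact (measurable_pi_apply (X := fun _ : ℕ => ℕ) m) (measurableSet_singleton n)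
        exact comap_measurable _ hm
    exact h2.comap_le

instance instTopGroupPerm : IsTopologicalGroup (Equiv.Perm ℕ) where
  continuous_mul := by
    rw [P1_inducing.continuous_iff]
    apply Continuous.prodMk
    · rw [continuous_pi_iff]
      intro n
      exact P1_eval.comp ((continuous_fst.comp (P1_inducing.continuous.comp continuous_fst)).prodMk
        ((P1_apply n).comp continuous_snd))
    · rw [continuous_pi_iff]
      intro n
      have h : (fun p : Equiv.Perm ℕ × Equiv.Perm ℕ => (p.1 * p.2)⁻¹ n)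
          = fun p : Equiv.Perm ℕ × Equiv.Perm ℕ => p.2⁻¹ (p.1⁻¹ n) := by
        funext p
        rw [mul_inv_rev]; rfl
      change Continuous (fun p : Equiv.Perm ℕ × Equiv.Perm ℕ => (p.1 * p.2)⁻¹ n)
      rw [h]
      exact P1_eval.comp ((continuous_snd.comp (P1_inducing.continuous.comp continuous_snd)).prodMk
        ((P1_inv_apply n).comp continuous_fst))
  continuous_inv := by
    rw [P1_inducing.continuous_iff]
    apply Continuous.prodMk
    · rw [continuous_pi_iff]
      exact fun n => P1_inv_apply n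
    · rw [continuous_pi_iff]
      intro n
      change Continuous (fun σ : Equiv.Perm ℕ => (σ⁻¹)⁻¹ n)
      simp only [inv_inv]
      exact P1_apply n

theorem isOpen_bas {k : ℕ} (a : Fin k → ℕ) : IsOpen (bas a) := by
  have h : bas a = ⋂ i : Fin k, (fun σ : Equiv.Perm ℕ => σ (a i)) ⁻¹' {(i : ℕ)} := by
    ext σ; simp [bas]
  rw [h]
  exact isOpen_iInter_of_finite fun i => (isOpen_discrete _).preimage (P1_apply (a i))

/-- the sets `bas a` form a basis up to left translation: every nonempty open set contains a nonempty `{σ | ∀ i < k, σ (a i) = b i}` -/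
theorem exists_bas_subset (O : Set (Equiv.Perm ℕ)) (hO : IsOpen O) (σ : Equiv.Perm ℕ) (hσ : σ ∈ O) :
    ∃ k : ℕ, ∀ τ : Equiv.Perm ℕ, (∀ i < k, τ i = σ i) → (∀ i < k, τ⁻¹ i = σ⁻¹ i) → τ ∈ O := by
  obtain ⟨V, hV, rfl⟩ := P1_inducing.isOpen_iff.1 hO
  obtain ⟨V1, V2, hV1, hV2, h1, h2, hsub⟩ := isOpen_prod_iff.1 hV (σ : ℕ → ℕ)
    ((σ⁻¹ : Equiv.Perm ℕ) : ℕ → ℕ) hσ
  obtain ⟨I1, u1, hu1, hI1⟩ := isOpen_pi_iff.1 hV1 _ h1
  obtain ⟨I2, u2, hu2, hI2⟩ := isOpen_pi_iff.1 hV2 _ h2
  obtain ⟨k1, hk1⟩ := I1.exists_nat_subset_range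
  obtain ⟨k2, hk2⟩ := I2.exists_nat_subset_range
  refine ⟨max k1 k2, fun τ hτ hτ' => ?_⟩
  apply hsub
  refine ⟨hI1 ?_, hI2 ?_⟩
  · intro i hi
    have : i < k1 := Finset.mem_range.1 (hk1 hi)
    change τ i ∈ u1 i
    rw [hτ i (lt_of_lt_of_le this (le_max_left _ _))]
    exact (hu1 i hi).2
  · intro i hi
    have : i < k2 := Finset.mem_range.1 (hk2 hi)
    change τ⁻¹ i ∈ u2 i
    rw [hτ' i (lt_of_lt_of_le this (le_max_right _ _))]
    exact (hu2 i hi).2

end KAut
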