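import Mathlib
import Pool.Agent.Lib.MP_33914b_an.P1

/-!
# MP_33914b_an, file ErgDef
Paper: /team-store/kaut_paper.md
-/
set_option autoImplicit false

open MeasureTheory Topology Filter Set

namespace KAut

/-- a separable Banach space `V` of summable sequences, dense enough in `ℝ^ℕ` (for instance `ℓ¹`) -/
structure SeqSpace (V : Type) [NormedAddCommGroup V] [NormedSpace ℝ V] where
  j : V →L[ℝ] (ℕ → ℝ)
  summable : ∀ v, Summable (fun k => |j v k|)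
  G0 : AddSubgroup V
  countable : (G0 : Set V).Countable
  div : ∀ g ∈ G0, ∀ M : ℕ, M ≠ 0 → ((M : ℝ)⁻¹) • g ∈ G0
  dense : ∀ (x y : ℕ → ℝ) (O : Set (ℕ → ℝ)), IsOpen O → y ∈ O → ∃ g ∈ G0, x + j g ∈ O

/-- `M' ∈ W_l M`, `W_l` the pointwise stabiliser of `{0,…,l-1}` -/
def NearBy (l : ℕ) (M M' : Logic) : Prop := ∃ σ : Equiv.Perm ℕ, (∀ i < l, σ i = i) ∧ M' = lact σ M

theorem NearBy.refl (l : ℕ) (M : Logic) : NearBy l M M := ⟨1, fun _ _ => rfl, rfl⟩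

theorem NearBy.symm {l : ℕ} {M M' : Logic} (h : NearBy l M M') : NearBy l M' M := by
  obtain ⟨σ, h1, h2⟩ := h
  refine ⟨σ⁻¹, fun i hi => ?_, ?_⟩
  · rw [Equiv.Perm.inv_eq_iff_eq, h1 i hi]
  · rw [h2, ← lact_mul, inv_mul_cancel, lact_one]

theorem NearBy.trans {l : ℕ} {M M' M'' : Logic} (h : NearBy l M M') (h' : NearBy l M' M'') : NearBy l M M'' := by
  obtain ⟨σ, h1, h2⟩ := h
  obtain ⟨τ, h3, h4⟩ := h'
  exact ⟨τ * σ, fun i hi => by rw [Equiv.Perm.mul_apply, h1 i hi, h3 i hi], by rw [h4, h2, lact_mul]⟩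

section
variable {V : Type} [NormedAddCommGroup V] [NormedSpace ℝ V]
  (Q : SeqSpace V) (f : (ℕ → ℝ) → Logic)

/-- the analytic relation `A_l` -/
def AA (l : ℕ) : Set ((ℕ → ℝ) × V) := {x | NearBy l (f x.1) (f (x.1 + Q.j x.2))}

/-- `D_{l,n}` -/
def DD (l n : ℕ) : Set (ℕ → ℝ) :=
  {x | ∀ᶠ g in residual V, g ∈ Metric.ball (0 : V) (1 / (n + 1)) → (x, g) ∈ AA Q f l}

end

end KAut
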