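import Mathlib
import Pool.Agent.Lib.MP_33914b_an.ErgDef

/-!
# MP_33914b_an, file H1  (ROW ka-H1)
Paper: /team-store/kaut_paper.md

PROOF / HINTS:
V = lp (fun _ : N => R) 1 (complete; second countable: the countable set G0 of finitely supported rational sequences is dense) with j = inclusion; or V = C(unitInterval,R) (SecondCountableTopology C(X,Y) is in Mathlib), j g k = 2^-k g(1/(k+2)), G0 = rational span of bump functions beta_k with
beta_k(1/(i+2)) = delta_ik. Or any other choice.
-/
set_option autoImplicit false

open MeasureTheory Topology Filter Set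

namespace KAut

/-- the Banach space `ℓ¹` -/
abbrev H1_V : Type := lp (fun _ : ℕ => ℝ) 1

/-- rational finitely supported sequences in `ℓ¹` -/
noncomputable def H1_inc : (ℕ →₀ ℚ) →+ H1_V :=
  Finsupp.liftAddHom
    (fun i => (lp.singleAddMonoidHom (E := fun _ : ℕ => ℝ) 1 i).comp (Rat.castHom ℝ).toAddMonoidHom)

theorem H1_inc_single (i : ℕ) (q : ℚ) :
    H1_inc (Finsupp.single i q) = lp.single (E := fun _ : ℕ => ℝ) 1 i (q : ℝ) := by
  unfold H1_inc
  rw [Finsupp.liftAddHom_apply_single]
  rfl

theorem H1_inc_apply (q : ℕ →₀ ℚ) (k : ℕ) : (H1_inc q : ℕ → ℝ) k = (q k : ℝ) := by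
  induction q using Finsupp.induction_linear with
  | zero => simp
  | add f g hf hg => rw [map_add, lp.coeFn_add, Pi.add_apply, hf, hg]; simp
  | single i a =>
    rw [H1_inc_single, lp.single_apply, Finsupp.single_apply]
    by_cases h : i = k
    · subst h; simp
    · rw [if_neg h, Pi.single_eq_of_ne (Ne.symm h)]; simp

theorem H1_dense : Dense (Set.range H1_inc) := by
  have h1 : ∀ (i : ℕ) (c : ℝ), lp.single (E := fun _ : ℕ => ℝ) 1 i c ∈ H1_inc.range.topologicalClosure := by
    intro i c
    have hc : Continuous (fun c : ℝ => (lp.single (E := fun _ : ℕ => ℝ) 1 i c : H1_V)) :=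
      (lp.isometry_single (E := fun _ : ℕ => ℝ) (p := 1) i).continuous
    have h2 : IsClosed {c : ℝ | lp.single (E := fun _ : ℕ => ℝ) 1 i c ∈ H1_inc.range.topologicalClosure} :=
      (AddSubgroup.isClosed_topologicalClosure _).preimage hc
    have h3 : Set.range ((↑) : ℚ → ℝ) ⊆
        {c : ℝ | lp.single (E := fun _ : ℕ => ℝ) 1 i c ∈ H1_inc.range.topologicalClosure} := by
      rintro _ ⟨q, rfl⟩
      exact AddSubgroup.le_topologicalClosure _ ⟨Finsupp.single i q, H1_inc_single i q⟩
    have h4 := closure_minimal h3 h2
    rw [Rat.denseRange_cast.closure_range] at h4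
    exact h4 (Set.mem_univ c)
  intro v
  have h5 : v ∈ H1_inc.range.topologicalClosure := by
    have h6 := lp.hasSum_single (E := fun _ : ℕ => ℝ) (p := 1) (by simp) v
    refine (AddSubgroup.isClosed_topologicalClosure _).mem_of_tendsto h6 (Eventually.of_forall fun s => ?_)
    exact AddSubgroup.sum_mem _ fun i _ => h1 i _
  exact h5

instance H1_sc : SecondCountableTopology H1_V := by
  haveI : TopologicalSpace.SeparableSpace H1_V :=
    ⟨⟨Set.range H1_inc, Set.countable_range _, H1_dense⟩⟩
  exact UniformSpace.secondCountable_of_separable H1_V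

/-- existence -/
theorem exists_seqSpace : ∃ (V : Type) (_ : NormedAddCommGroup V) (_ : NormedSpace ℝ V) (_ : CompleteSpace V)
    (_ : SecondCountableTopology V), Nonempty (SeqSpace V) := by
  refine ⟨H1_V, inferInstance, inferInstance, inferInstance, inferInstance, ⟨?_⟩⟩
  exact
    { j :=
        { toFun := fun v => (v : ℕ → ℝ)
          map_add' := fun _ _ => rfl
          map_smul' := fun _ _ => rfl
          cont := (lp.uniformContinuous_coe (E := fun _ : ℕ => ℝ) (p := 1)).continuous }
      summable := by
        intro v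
        have h := (memℓp_gen_iff (E := fun _ : ℕ => ℝ) (p := 1) (by simp)).1 (lp.memℓp v)
        have h' : Summable (fun k => |(v : ℕ → ℝ) k|) := by simpa using h
        exact h'
      G0 := H1_inc.range
      countable := Set.countable_range H1_inc
      div := by
        rintro _ ⟨q, rfl⟩ M hM
        refine ⟨(M : ℚ)⁻¹ • q, ?_⟩
        ext k
        rw [H1_inc_apply, lp.coeFn_smul, Pi.smul_apply, H1_inc_apply]
        simp
      dense := by
        intro x y O hO hy
        obtain ⟨I, u, hu, hIu⟩ := isOpen_pi_iff.1 hO y hy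
        have h1 : ∀ i : ℕ, ∃ q : ℚ, i ∈ I → x i + (q : ℝ) ∈ u i := by
          intro i
          by_cases hi : i ∈ I
          · have ho : IsOpen {t : ℝ | x i + t ∈ u i} :=
              (hu i hi).1.preimage (continuous_const.add continuous_id)
            obtain ⟨_, h2, ⟨q, rfl⟩⟩ := Rat.denseRange_cast.inter_open_nonempty _ ho
              ⟨y i - x i, by
                change x i + (y i - x i) ∈ u i
                rw [add_sub_cancel]; exact (hu i hi).2⟩
            exact ⟨q, fun _ => h2⟩
          · exact ⟨0, fun h => absurd h hi⟩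
        choose q hq using h1
        refine ⟨H1_inc (Finsupp.onFinset I (fun i => if i ∈ I then q i else 0) (by
          intro a ha
          by_contra h
          exact ha (if_neg h))), ⟨_, rfl⟩, hIu fun i hi => ?_⟩
        have hi' : i ∈ I := hi
        change x i + (H1_inc _ : ℕ → ℝ) i ∈ u i
        rw [H1_inc_apply, Finsupp.onFinset_apply, if_pos hi']
        exact hq i hi' }

end KAut
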