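import Mathlib
import Pool.Agent.Lib.MP_33914b_an.P1
import Pool.Agent.Lib.MP_33914b_an.B3

/-!
# MP_33914b_an, file P2  (ROW ka-P2)
Paper: /team-store/kaut_paper.md

PROOF / HINTS:
A_n : countable family of measurable sets separating the points of Y (exists_seq_separating / MeasurableSpace.countablySeparated..., e.g. the preimages of a countable basis under a measurable embedding into a Polish space). Theta y (n,(k,a)) = decide (forall* sigma, sigma in bas a -> sigma y in A_n).
Measurable: measurable_quantifier for the set {(y,sigma) | sigma y in A_n}, V = bas a open. Equivariance: right translation sigma -> sigma tau is a homeomorphism, maps residual to residual; sigma tau in bas (tau^-1 a) iff sigma in bas a. Injective: if Theta y = Theta y', for every n the Borel sets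
{sigma : sigma y in A_n}, {sigma : sigma y' in A_n} contain the same bas a up to meagre sets; the sets bas a are a basis of the topology (nbhd of sigma: a i = sigma^-1 i, i<k, k large), so (both have the Baire property) they are equal up to meagre; Perm N is Baire: take sigma with sigma y in A_n iff sigma y' in A_n for all n;
then sigma y = sigma y', y = y'.
-/
set_option autoImplicit false

open MeasureTheory Topology Filter Set

namespace KAut

theorem P2_continuous_inv : Continuous (fun σ : Equiv.Perm ℕ => ((σ⁻¹ : Equiv.Perm ℕ) : ℕ → ℕ)) := by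
  have h1 : Continuous (fun σ : Equiv.Perm ℕ => ((σ : ℕ → ℕ), ((σ⁻¹ : Equiv.Perm ℕ) : ℕ → ℕ))) :=
    continuous_induced_dom
  exact continuous_snd.comp h1

theorem continuous_lact : Continuous (fun p : Equiv.Perm ℕ × Logic => lact p.1 p.2) := by
  refine continuous_pi (fun r => ?_)
  obtain ⟨n, k, a⟩ := r
  have h1 : Continuous (fun q : (Fin k → ℕ) × Logic => q.2 (n, ⟨k, q.1⟩)) := by
    rw [continuous_prod_of_discrete_left]
    intro b
    exact continuous_apply (n, (⟨k, b⟩ : Σ k : ℕ, (Fin k → ℕ)))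
  have h2 : Continuous (fun σ : Equiv.Perm ℕ => (fun i => σ⁻¹ (a i) : Fin k → ℕ)) := by
    refine continuous_pi (fun i => ?_)
    exact (continuous_apply (a i)).comp P2_continuous_inv
  exact h1.comp ((h2.comp continuous_fst).prodMk continuous_snd)

/-- basic neighbourhoods of the form `bas a` -/
theorem P2_exists_bas (O : Set (Equiv.Perm ℕ)) (hO : IsOpen O) (σ : Equiv.Perm ℕ) (hσ : σ ∈ O) :
    ∃ (k : ℕ) (a : Fin k → ℕ), σ ∈ bas a ∧ bas a ⊆ O := by
  obtain ⟨k, hk⟩ := exists_bas_subset O hO σ hσ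
  obtain ⟨m, hm⟩ : ∃ m : ℕ, k ≤ m ∧ ∀ i < k, σ i < m := by
    refine ⟨k + ∑ i ∈ Finset.range k, (σ i + 1), by omega, fun i hi => ?_⟩
    have h1 : σ i + 1 ≤ ∑ i ∈ Finset.range k, (σ i + 1) :=
      Finset.single_le_sum (f := fun i => σ i + 1) (fun j _ => Nat.zero_le _) (Finset.mem_range.mpr hi)
    omega
  refine ⟨m, fun i => σ⁻¹ i, ?_, ?_⟩
  · intro i
    simp
  · intro τ hτ
    have h3 : ∀ j < m, τ⁻¹ j = σ⁻¹ j := by
      intro j hj
      have h4 : τ (σ⁻¹ j) = j := hτ ⟨j, hj⟩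
      rw [Equiv.Perm.inv_eq_iff_eq]
      exact h4.symm
    refine hk τ ?_ (fun i hi => h3 i (by omega))
    intro i hi
    have h4 := h3 (σ i) (hm.2 i hi)
    have h5 : σ⁻¹ (σ i) = i := by simp
    rw [h5, Equiv.Perm.inv_eq_iff_eq] at h4
    exact h4.symm

/-- one inclusion up to meagre sets -/
theorem P2_incl {B B' : Set (Equiv.Perm ℕ)} (hB : BaireMeasurableSet B)
    (h : ∀ (k : ℕ) (a : Fin k → ℕ), (∀ᶠ σ in residual (Equiv.Perm ℕ), σ ∈ bas a → σ ∈ B) →
      (∀ᶠ σ in residual (Equiv.Perm ℕ), σ ∈ bas a → σ ∈ B')) :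
    ∀ᶠ σ in residual (Equiv.Perm ℕ), σ ∈ B → σ ∈ B' := by
  obtain ⟨O, hO, hBO⟩ := hB.residualEq_isOpen
  have hBO' : ∀ᶠ σ in residual (Equiv.Perm ℕ), (σ ∈ B ↔ σ ∈ O) := Filter.eventuallyEq_set.mp hBO
  have h1 : ∀ᶠ σ in residual (Equiv.Perm ℕ), ∀ r : (Σ k : ℕ, (Fin k → ℕ)), bas r.2 ⊆ O → σ ∈ bas r.2 → σ ∈ B' := by
    rw [eventually_countable_forall]
    intro r
    by_cases hr : bas r.2 ⊆ O
    · have h2 : ∀ᶠ σ in residual (Equiv.Perm ℕ), σ ∈ bas r.2 → σ ∈ B := by
        filter_upwards [hBO'] with σ hσ h3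
        exact hσ.mpr (hr h3)
      filter_upwards [h r.1 r.2 h2] with σ hσ _
      exact hσ
    · exact Filter.Eventually.of_forall (fun σ h3 => absurd h3 hr)
  filter_upwards [h1, hBO'] with σ h2 h3 h4
  obtain ⟨k, a, ha, hs⟩ := P2_exists_bas O hO σ (h3.mp h4)
  exact h2 ⟨k, a⟩ hs ha

/-- right translation invariance of the category quantifier -/
theorem P2_residual_mul (τ : Equiv.Perm ℕ) (P : Equiv.Perm ℕ → Prop) :
    (∀ᶠ σ in residual (Equiv.Perm ℕ), P (σ * τ)) ↔ ∀ᶠ σ in residual (Equiv.Perm ℕ), P σ := by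
  have h1 : (residual (Equiv.Perm ℕ)).map (Homeomorph.mulRight τ) = residual (Equiv.Perm ℕ) :=
    (Homeomorph.mulRight τ).residual_map_eq
  have h2 : (∀ᶠ σ in (residual (Equiv.Perm ℕ)).map (Homeomorph.mulRight τ), P σ) ↔
      ∀ᶠ σ in residual (Equiv.Perm ℕ), P (σ * τ) := by
    rw [Filter.eventually_map]
    rfl
  rw [← h2, h1]

/-- (E4) the Vaught transform: a Borel action of `S_∞` on a standard Borel space embeds into the logic action -/
theorem exists_vaught (Y : Type*) [MeasurableSpace Y] [StandardBorelSpace Y] [MulAction (Equiv.Perm ℕ) Y]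
    (hY : Measurable (fun p : Equiv.Perm ℕ × Y => p.1 • p.2)) :
    ∃ Θ : Y → Logic, Measurable Θ ∧ Function.Injective Θ ∧ ∀ (σ : Equiv.Perm ℕ) (y : Y), Θ (σ • y) = lact σ (Θ y) := by
  classical
  obtain ⟨A, hA, hsep⟩ := exists_seq_separating (α := Y) (p := MeasurableSet) MeasurableSet.univ Set.univ
  let Θ : Y → Logic := fun y r =>
    decide (∀ᶠ σ in residual (Equiv.Perm ℕ), σ ∈ bas r.2.2 → σ • y ∈ A r.1)
  have hΘ : ∀ (y : Y) (n k : ℕ) (a : Fin k → ℕ), Θ y (n, ⟨k, a⟩) = true ↔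
      (∀ᶠ σ in residual (Equiv.Perm ℕ), σ ∈ bas a → σ • y ∈ A n) := by
    intro y n k a
    exact decide_eq_true_iff
  refine ⟨Θ, ?_, ?_, ?_⟩
  · refine measurable_pi_iff.mpr (fun r => ?_)
    obtain ⟨n, k, a⟩ := r
    refine measurable_to_bool ?_
    have h1 : MeasurableSet {p : Y × Equiv.Perm ℕ | p.2 • p.1 ∈ A n} :=
      (hY.comp measurable_swap) (hA n)
    have h2 := measurable_quantifier h1 (bas a) (isOpen_bas a)
    convert h2 using 1
    ext y
    exact hΘ y n k a
  · intro y y' hyy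
    have hB : ∀ (y : Y) (n : ℕ), BaireMeasurableSet {σ : Equiv.Perm ℕ | σ • y ∈ A n} := by
      intro y n
      have h1 : MeasurableSet {σ : Equiv.Perm ℕ | σ • y ∈ A n} :=
        (hY.comp (measurable_id.prodMk measurable_const)) (hA n)
      exact h1.baireMeasurableSet
    have key : ∀ (y y' : Y), Θ y = Θ y' → ∀ n : ℕ, ∀ᶠ σ in residual (Equiv.Perm ℕ), σ • y ∈ A n → σ • y' ∈ A n := by
      intro y y' hyy n
      refine P2_incl (B := {σ : Equiv.Perm ℕ | σ • y ∈ A n}) (B' := {σ : Equiv.Perm ℕ | σ • y' ∈ A n}) (hB y n) ?_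
      intro k a h1
      have h2 := (hΘ y n k a).mpr h1
      rw [hyy] at h2
      exact (hΘ y' n k a).mp h2
    have h1 : ∀ᶠ σ in residual (Equiv.Perm ℕ), ∀ n : ℕ, (σ • y ∈ A n ↔ σ • y' ∈ A n) := by
      rw [eventually_countable_forall]
      intro n
      filter_upwards [key y y' hyy n, key y' y hyy.symm n] with σ h2 h3
      exact ⟨h2, h3⟩
    obtain ⟨σ, hσ⟩ := (dense_of_mem_residual h1).nonempty
    have h2 : σ • y = σ • y' := hsep _ (Set.mem_univ _) _ (Set.mem_univ _) hσ
    exact smul_left_cancel σ h2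
  · intro τ y
    funext r
    obtain ⟨n, k, a⟩ := r
    rw [Bool.eq_iff_iff]
    change Θ (τ • y) (n, ⟨k, a⟩) = true ↔ Θ y (n, ⟨k, fun i => τ⁻¹ (a i)⟩) = true
    rw [hΘ, hΘ, ← P2_residual_mul τ (fun σ => σ ∈ bas (fun i => τ⁻¹ (a i)) → σ • y ∈ A n)]
    have h1 : ∀ σ : Equiv.Perm ℕ, (σ ∈ bas a → σ • τ • y ∈ A n) ↔
        (σ * τ ∈ bas (fun i => τ⁻¹ (a i)) → (σ * τ) • y ∈ A n) := by
      intro σ
      have h2 : σ * τ ∈ bas (fun i => τ⁻¹ (a i)) ↔ σ ∈ bas a := by
        constructor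
        · intro h i
          have h3 := h i
          simpa using h3
        · intro h i
          have h3 := h i
          simpa using h3
      rw [h2, mul_smul]
    exact Filter.eventually_congr (Filter.Eventually.of_forall h1)

end KAut
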