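import Mathlib
import Pool.Agent.Lib.MP_33914b_an.ErgDef
import Pool.Agent.Lib.MP_33914b_an.B1
import Pool.Agent.Lib.MP_33914b_an.B3
import Pool.Agent.Lib.MP_33914b_an.P2

/-!
# MP_33914b_an, file H2  (ROW ka-H2)
Paper: /team-store/kaut_paper.md

PROOF / HINTS:
AA = projection of the Borel set {((x,g),sigma) | (forall i<l, sigma i = i) and f(x + j g) = lact sigma (f x)} of the Polish space ((N->R) x V) x Perm N (MeasurableSet.analyticSet, AnalyticSet.image_of_continuous; measurability: f measurable, continuous_lact, Logic is second countable T2: measurableSet_eq_fun).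
DD_baire: analytic_baireMeasurable + baireMeasurable_quantifier.
-/
set_option autoImplicit false

open MeasureTheory Topology Filter Set

namespace KAut

theorem H2_measurable_apply (i : ℕ) : Measurable (fun σ : Equiv.Perm ℕ => σ i) := by
  have h : Measurable (fun σ : Equiv.Perm ℕ => (σ : ℕ → ℕ)) :=
    measurable_iff_comap_le.2 le_rfl
  exact (measurable_pi_apply i).comp h

theorem H2_measurable_lact {A : Type*} [MeasurableSpace A] {u : A → Equiv.Perm ℕ} {v : A → Logic}
    (hu : Measurable u) (hv : Measurable v) : Measurable (fun a => lact (u a) (v a)) :=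
  continuous_lact.measurable.comp (hu.prodMk hv)

section
variable {V : Type} [NormedAddCommGroup V] [NormedSpace ℝ V] [CompleteSpace V] [SecondCountableTopology V]
  (Q : SeqSpace V) (f : (ℕ → ℝ) → Logic)

theorem AA_analytic (hf : Measurable f) (l : ℕ) : AnalyticSet (AA Q f l) := by
  letI : MeasurableSpace V := borel V
  haveI : BorelSpace V := ⟨rfl⟩
  have hj : Measurable (Q.j : V → ℕ → ℝ) := Q.j.continuous.measurable
  have hS : MeasurableSet {p : ((ℕ → ℝ) × V) × Equiv.Perm ℕ |
      (∀ i < l, p.2 i = i) ∧ f (p.1.1 + Q.j p.1.2) = lact p.2 (f p.1.1)} := by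
    apply MeasurableSet.inter
    · have he : {p : ((ℕ → ℝ) × V) × Equiv.Perm ℕ | ∀ i < l, p.2 i = i}
          = ⋂ i : ℕ, ⋂ _ : i < l, {p | p.2 i = i} := by
        ext p; simp
      change MeasurableSet {p : ((ℕ → ℝ) × V) × Equiv.Perm ℕ | ∀ i < l, p.2 i = i}
      rw [he]
      refine MeasurableSet.iInter fun i => MeasurableSet.iInter fun _ => ?_
      exact ((H2_measurable_apply i).comp measurable_snd) (measurableSet_singleton i)
    · apply measurableSet_eq_fun
      · apply hf.comp
        exact (measurable_fst.comp measurable_fst).add (hj.comp (measurable_snd.comp measurable_fst))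
      · exact H2_measurable_lact measurable_snd (hf.comp (measurable_fst.comp measurable_fst))
  have h := hS.analyticSet_image (measurable_fst (α := (ℕ → ℝ) × V) (β := Equiv.Perm ℕ))
  have he : (AA Q f l) = Prod.fst '' {p : ((ℕ → ℝ) × V) × Equiv.Perm ℕ |
      (∀ i < l, p.2 i = i) ∧ f (p.1.1 + Q.j p.1.2) = lact p.2 (f p.1.1)} := by
    ext x
    constructor
    · rintro ⟨σ, h1, h2⟩
      exact ⟨(x, σ), ⟨h1, h2⟩, rfl⟩
    · rintro ⟨⟨y, σ⟩, ⟨h1, h2⟩, rfl⟩
      exact ⟨σ, h1, h2⟩
  rw [he]
  exact h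

/-- the sets `B_c`, for fixed `x` -/
theorem Bc_analytic (hf : Measurable f) (x : ℕ → ℝ) (l : ℕ) (c : ℕ → ℕ) :
    AnalyticSet {g : V | ∃ σ : Equiv.Perm ℕ, (∀ i < l, σ⁻¹ i = c i) ∧ f (x + Q.j g) = lact σ (f x)} := by
  letI : MeasurableSpace V := borel V
  haveI : BorelSpace V := ⟨rfl⟩
  have hj : Measurable (Q.j : V → ℕ → ℝ) := Q.j.continuous.measurable
  have hS : MeasurableSet {p : V × Equiv.Perm ℕ |
      (∀ i < l, p.2 (c i) = i) ∧ f (x + Q.j p.1) = lact p.2 (f x)} := by
    apply MeasurableSet.inter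
    · have he : {p : V × Equiv.Perm ℕ | ∀ i < l, p.2 (c i) = i}
          = ⋂ i : ℕ, ⋂ _ : i < l, {p | p.2 (c i) = i} := by
        ext p; simp
      change MeasurableSet {p : V × Equiv.Perm ℕ | ∀ i < l, p.2 (c i) = i}
      rw [he]
      refine MeasurableSet.iInter fun i => MeasurableSet.iInter fun _ => ?_
      exact ((H2_measurable_apply (c i)).comp measurable_snd) (measurableSet_singleton i)
    · apply measurableSet_eq_fun
      · apply hf.comp
        exact measurable_const.add (hj.comp measurable_fst)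
      · exact H2_measurable_lact measurable_snd measurable_const
  have h := hS.analyticSet_image (measurable_fst (α := V) (β := Equiv.Perm ℕ))
  have he : {g : V | ∃ σ : Equiv.Perm ℕ, (∀ i < l, σ⁻¹ i = c i) ∧ f (x + Q.j g) = lact σ (f x)}
      = Prod.fst '' {p : V × Equiv.Perm ℕ |
      (∀ i < l, p.2 (c i) = i) ∧ f (x + Q.j p.1) = lact p.2 (f x)} := by
    ext g
    constructor
    · rintro ⟨σ, h1, h2⟩
      exact ⟨(g, σ), ⟨fun i hi => (Equiv.Perm.inv_eq_iff_eq.1 (h1 i hi)).symm, h2⟩, rfl⟩
    · rintro ⟨⟨y, σ⟩, ⟨h1, h2⟩, rfl⟩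
      exact ⟨σ, fun i hi => Equiv.Perm.inv_eq_iff_eq.2 (h1 i hi).symm, h2⟩
  rw [he]
  exact h

theorem DD_baire (hf : Measurable f) (l n : ℕ) : BaireMeasurableSet (DD Q f l n) :=
  baireMeasurable_quantifier (analytic_baireMeasurable (AA_analytic Q f hf l))
    (Metric.ball (0 : V) (1 / (n + 1))) Metric.isOpen_ball

end

end KAut
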