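import Mathlib
import Pool.Agent.Lib.MP_33914b_an.H2

/-!
# MP_33914b_an, file H3  (ROW ka-H3)
Paper: /team-store/kaut_paper.md

PROOF / HINTS:
x fixed. B_c (c : N->N, only c|l matters: countably many, e.g. c in Fin l -> N), cover V (hE: summable (j g k)). Each B_c has the Baire property: B_c =b U_c open. union U_c is dense: a nonempty open O is non meagre (V Baire), so O cap B_c non meagre for some c, so O cap U_c nonempty. Let g in B_c cap U_c: ball(g,1/(n+1)) subset U_c;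
for generic g'' in that ball g'' in B_c, so (x + j g, g''-g) in AA (f(x+jg) = sigma_1 f x, f(x+jg'') = sigma_2 f x, sigma_2 sigma_1^-1 fixes i<l); translate: generic g' in ball(0,1/(n+1)): (x+jg,g') in AA: x + j g in DD l n. So the set contains the union of the B_c cap U_c, whose complement is meagre.
-/
set_option autoImplicit false

open MeasureTheory Topology Filter Set

namespace KAut

section
variable {V : Type} [NormedAddCommGroup V] [NormedSpace ℝ V] [CompleteSpace V] [SecondCountableTopology V]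
  (Q : SeqSpace V) (f : (ℕ → ℝ) → Logic)

/-- (E5), for fixed `x`: `x + j g ∈ ⋃ D_{l,n}` for generic `g` -/
theorem E5_fixed (hf : Measurable f) (hE : ∀ x x' : ℕ → ℝ, Summable (fun k => |x' k - x k|) →
    ∃ σ : Equiv.Perm ℕ, f x' = lact σ (f x)) (l : ℕ) (x : ℕ → ℝ) :
    ∀ᶠ g in residual V, x + Q.j g ∈ ⋃ n, DD Q f l n := by
  classical
  -- the pieces
  let ext : (Fin l → ℕ) → ℕ → ℕ := fun c i => if hi : i < l then c ⟨i, hi⟩ else 0
  let Bc : (Fin l → ℕ) → Set V := fun c =>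
    {g : V | ∃ σ : Equiv.Perm ℕ, (∀ i < l, σ⁻¹ i = ext c i) ∧ f (x + Q.j g) = lact σ (f x)}
  have hB : ∀ c, BaireMeasurableSet (Bc c) := fun c =>
    analytic_baireMeasurable (Bc_analytic Q f hf x l (ext c))
  choose Uc hUo hUB using fun c => (hB c).residualEq_isOpen
  have hR : ∀ᶠ g in residual V, ∀ c, g ∈ Bc c ↔ g ∈ Uc c := by
    rw [eventually_countable_forall]
    intro c
    exact (hUB c).mem_iff
  have hcov : ∀ g : V, ∃ c, g ∈ Bc c := by
    intro g
    obtain ⟨σ, hσ⟩ := hE x (x + Q.j g) (by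
      refine (Q.summable g).congr fun k => ?_
      rw [Pi.add_apply, add_sub_cancel_left])
    refine ⟨fun i => σ⁻¹ i, σ, fun i hi => ?_, hσ⟩
    show σ⁻¹ i = if hi : i < l then σ⁻¹ i else 0
    rw [dif_pos hi]
  filter_upwards [hR] with g hg
  obtain ⟨c, hc⟩ := hcov g
  have hgU : g ∈ Uc c := (hg c).1 hc
  obtain ⟨ε, hε, hball⟩ := Metric.isOpen_iff.1 (hUo c) g hgU
  obtain ⟨n, hn⟩ := exists_nat_one_div_lt hε
  rw [mem_iUnion]
  refine ⟨n, ?_⟩
  have hR' : ∀ᶠ g' in residual V, ∀ c, g + g' ∈ Bc c ↔ g + g' ∈ Uc c := by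
    have h1 := (Homeomorph.addLeft g).residual_map_eq
    rw [← h1] at hR
    exact hR
  show ∀ᶠ g' in residual V, g' ∈ Metric.ball (0 : V) (1 / (n + 1)) → (x + Q.j g, g') ∈ AA Q f l
  filter_upwards [hR'] with g' hg' hg'b
  have h2 : g + g' ∈ Uc c := by
    apply hball
    rw [Metric.mem_ball, dist_eq_norm, add_sub_cancel_left]
    rw [Metric.mem_ball, dist_zero_right] at hg'b
    exact hg'b.trans hn
  obtain ⟨σ₂, h3, h4⟩ := (hg' c).2 h2
  obtain ⟨σ₁, h5, h6⟩ := hc
  refine ⟨σ₂ * σ₁⁻¹, fun i hi => ?_, ?_⟩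
  · rw [Equiv.Perm.mul_apply, h5 i hi, ← h3 i hi, ← Equiv.Perm.mul_apply, mul_inv_cancel, Equiv.Perm.one_apply]
  · show f (x + Q.j g + Q.j g') = lact (σ₂ * σ₁⁻¹) (f (x + Q.j g))
    rw [h6, ← lact_mul, inv_mul_cancel_right, ← h4, map_add, add_assoc]

end

end KAut
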