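import Mathlib
import Pool.Agent.Lib.MP_33914b_an.H3

/-!
# MP_33914b_an, file H4  (ROW ka-H4)
Paper: /team-store/kaut_paper.md

PROOF / HINTS:
P = union_n DD l n has the Baire property; its preimage under the continuous open map (x,g) -> x + j g is Baire measurable (BaireMeasurableSet.preimage); kuratowski_ulam_conv + E5_fixed: residual in (N->R) x V; kuratowski_ulam' : for generic g, for generic x, x + j g in P; take one g; translation by j g is a homeomorphism.
-/
set_option autoImplicit false

open MeasureTheory Topology Filter Set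

namespace KAut

section
variable {V : Type} [NormedAddCommGroup V] [NormedSpace ℝ V] [CompleteSpace V] [SecondCountableTopology V]
  (Q : SeqSpace V) (f : (ℕ → ℝ) → Logic)

/-- the shear `(x, g) ↦ (x + j g, g)` -/
def H4_shear : ((ℕ → ℝ) × V) ≃ₜ ((ℕ → ℝ) × V) where
  toFun p := (p.1 + Q.j p.2, p.2)
  invFun p := (p.1 - Q.j p.2, p.2)
  left_inv p := by simp
  right_inv p := by simp
  continuous_toFun := (continuous_fst.add (Q.j.continuous.comp continuous_snd)).prodMk continuous_snd
  continuous_invFun := (continuous_fst.sub (Q.j.continuous.comp continuous_snd)).prodMk continuous_snd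

/-- (E5) -/
theorem E5 (hf : Measurable f) (hE : ∀ x x' : ℕ → ℝ, Summable (fun k => |x' k - x k|) →
    ∃ σ : Equiv.Perm ℕ, f x' = lact σ (f x)) (l : ℕ) : (⋃ n, DD Q f l n) ∈ residual (ℕ → ℝ) := by
  have hP : BaireMeasurableSet (⋃ n, DD Q f l n) := BaireMeasurableSet.iUnion (DD_baire Q f hf l)
  have hc : Continuous (fun p : (ℕ → ℝ) × V => p.1 + Q.j p.2) :=
    continuous_fst.add (Q.j.continuous.comp continuous_snd)
  have ho : IsOpenMap (fun p : (ℕ → ℝ) × V => p.1 + Q.j p.2) :=
    isOpenMap_fst.comp (H4_shear Q).isOpenMap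
  have h1 := BaireMeasurableSet.preimage hc ho hP
  have h2 := kuratowski_ulam_conv h1 (Eventually.of_forall fun x => E5_fixed Q f hf hE l x)
  have h3 := kuratowski_ulam' h2
  obtain ⟨g, hg⟩ := (dense_of_mem_residual h3).nonempty
  have h4 : (Homeomorph.addRight (Q.j g)) ⁻¹' (⋃ n, DD Q f l n) ∈ residual (ℕ → ℝ) := hg
  rw [← Homeomorph.residual_map_eq (Homeomorph.addRight (Q.j g))]
  exact h4

end

end KAut
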