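import Mathlib
import Pool.Agent.Lib.MP_33914b_an.H4
import Pool.Agent.Lib.MP_33914b_an.B4

/-!
# MP_33914b_an, file H5  (ROW ka-H5)
Paper: /team-store/kaut_paper.md

PROOF / HINTS:
DD l n =b U_{l,n} open. GG0 = {x : for all l exists n, x in DD l n cap U_{l,n}} cap {x : for all l n, x in U_{l,n} -> x in DD l n} cap (continuity set of B4), residual (E5: complement of the first inside union DD is contained in union (DD\U)). GG = {x : for all g in G0, x + j g in GG0} residual (G0 countable, translations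
homeomorphisms), G0-invariant. x in GG, l: n with x in U_{l,n}; O convex open, x in O subset U_{l,n} (locally convex space; or a product box). g in G0, x + j g in O: M with |g|/M < 1/(n+1); x_i = x + j((i/M) g) in O (convexity), in GG, so in DD l n. Consecutive: choose g' generic with g' in ball(0,1/(n+1)) and
g' - g/M in ball(0,1/(n+1)) (nonempty open set, Baire): (x_i,g') in AA and (x_{i+1}, g'-g/M) in AA, same target point x_i + j g': NearBy.symm/trans.
-/
set_option autoImplicit false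

open MeasureTheory Topology Filter Set

namespace KAut

section
variable {V : Type} [NormedAddCommGroup V] [NormedSpace ℝ V] [CompleteSpace V] [SecondCountableTopology V]
  (Q : SeqSpace V) (f : (ℕ → ℝ) → Logic)

omit [SecondCountableTopology V] in
/-- two close points of `D_{l,n}` have near images -/
theorem H5_step (l n : ℕ) (x : ℕ → ℝ) (g : V) (hg : ‖g‖ < 1 / ((n : ℝ) + 1))
    (h1 : x ∈ DD Q f l n) (h2 : x + Q.j g ∈ DD Q f l n) : NearBy l (f x) (f (x + Q.j g)) := by
  have h1' : ∀ᶠ g' in residual V, g' ∈ Metric.ball (0 : V) (1 / ((n : ℝ) + 1)) → (x, g') ∈ AA Q f l := h1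
  have h2' : ∀ᶠ g' in residual V, g' ∈ Metric.ball (0 : V) (1 / ((n : ℝ) + 1)) →
      (x + Q.j g, g') ∈ AA Q f l := h2
  have ht : Tendsto (fun g' : V => g' + (-g)) (residual V) (residual V) :=
    tendsto_residual_of_isOpenMap (Homeomorph.addRight (-g)).continuous (Homeomorph.addRight (-g)).isOpenMap
  have h3 := ht.eventually h2'
  have hD : Dense {g' : V | (g' ∈ Metric.ball (0 : V) (1 / ((n : ℝ) + 1)) → (x, g') ∈ AA Q f l) ∧
      (g' + (-g) ∈ Metric.ball (0 : V) (1 / ((n : ℝ) + 1)) → (x + Q.j g, g' + (-g)) ∈ AA Q f l)} :=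
    dense_of_mem_residual (h1'.and h3)
  have hopen : IsOpen {g' : V | g' ∈ Metric.ball (0 : V) (1 / ((n : ℝ) + 1)) ∧
      g' + (-g) ∈ Metric.ball (0 : V) (1 / ((n : ℝ) + 1))} :=
    Metric.isOpen_ball.inter (Metric.isOpen_ball.preimage (Homeomorph.addRight (-g)).continuous)
  have hpos : (0 : ℝ) < 1 / ((n : ℝ) + 1) := by positivity
  have hne : {g' : V | g' ∈ Metric.ball (0 : V) (1 / ((n : ℝ) + 1)) ∧
      g' + (-g) ∈ Metric.ball (0 : V) (1 / ((n : ℝ) + 1))}.Nonempty := by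
    refine ⟨g, ?_, ?_⟩
    · rw [mem_ball_zero_iff]; exact hg
    · rw [mem_ball_zero_iff, add_neg_cancel, norm_zero]; exact hpos
  obtain ⟨g', ⟨hA, hB⟩, hb1, hb2⟩ := hD.exists_mem_open hopen hne
  have e1 : NearBy l (f x) (f (x + Q.j g')) := hA hb1
  have e2 : NearBy l (f (x + Q.j g)) (f (x + Q.j g + Q.j (g' + (-g)))) := hB hb2
  have e3 : x + Q.j g + Q.j (g' + (-g)) = x + Q.j g' := by
    rw [map_add, map_neg]; abel
  rw [e3] at e2
  exact e1.trans e2.symm

/-- (E6) -/
theorem E6 (hf : Measurable f) (hE : ∀ x x' : ℕ → ℝ, Summable (fun k => |x' k - x k|) →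
    ∃ σ : Equiv.Perm ℕ, f x' = lact σ (f x)) :
    ∃ GG ∈ residual (ℕ → ℝ), ContinuousOn f GG ∧ (∀ x ∈ GG, ∀ g ∈ Q.G0, x + Q.j g ∈ GG) ∧
      ∀ x ∈ GG, ∀ l : ℕ, ∃ O : Set (ℕ → ℝ), IsOpen O ∧ x ∈ O ∧
        ∀ g ∈ Q.G0, x + Q.j g ∈ O → NearBy l (f x) (f (x + Q.j g)) := by
  have hU : ∀ l n : ℕ, ∃ u : Set (ℕ → ℝ), IsOpen u ∧ DD Q f l n =ᵇ u := fun l n =>
    (DD_baire Q f hf l n).residualEq_isOpen
  choose U hUo hUe using hU
  obtain ⟨Gc, hGc, hcont⟩ := exists_residual_continuousOn hf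
  set GG0 : Set (ℕ → ℝ) := {x | (∀ l n : ℕ, x ∈ DD Q f l n ↔ x ∈ U l n) ∧ (∀ l : ℕ, ∃ n, x ∈ DD Q f l n) ∧
    x ∈ Gc} with hGG0
  have h0 : GG0 ∈ residual (ℕ → ℝ) := by
    have a1 : ∀ᶠ x in residual (ℕ → ℝ), ∀ l n : ℕ, x ∈ DD Q f l n ↔ x ∈ U l n := by
      rw [eventually_countable_forall]
      intro l
      rw [eventually_countable_forall]
      intro n
      exact (hUe l n).mem_iff
    have a2 : ∀ᶠ x in residual (ℕ → ℝ), ∀ l : ℕ, ∃ n, x ∈ DD Q f l n := by
      rw [eventually_countable_forall]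
      intro l
      filter_upwards [E5 Q f hf hE l] with x hx
      simpa using hx
    filter_upwards [a1, a2, hGc] with x h1 h2 h3
    exact ⟨h1, h2, h3⟩
  set GG : Set (ℕ → ℝ) := {x | ∀ g ∈ Q.G0, x + Q.j g ∈ GG0} with hGGd
  have hsub : ∀ x ∈ GG, x ∈ GG0 := fun x hx => by
    have := hx 0 Q.G0.zero_mem
    simpa using this
  have hinv : ∀ x ∈ GG, ∀ g ∈ Q.G0, x + Q.j g ∈ GG := by
    intro x hx g hg g' hg'
    have := hx (g + g') (Q.G0.add_mem hg hg')
    rwa [map_add, ← add_assoc] at this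
  refine ⟨GG, ?_, hcont.mono fun x hx => (hsub x hx).2.2, hinv, ?_⟩
  · have : ∀ᶠ x in residual (ℕ → ℝ), ∀ g ∈ (Q.G0 : Set V), x + Q.j g ∈ GG0 := by
      rw [eventually_countable_ball Q.countable]
      intro g hg
      have ht : Tendsto (fun x : ℕ → ℝ => x + Q.j g) (residual (ℕ → ℝ)) (residual (ℕ → ℝ)) :=
        tendsto_residual_of_isOpenMap (Homeomorph.addRight (Q.j g)).continuous
          (Homeomorph.addRight (Q.j g)).isOpenMap
      exact ht.eventually h0
    exact this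
  · intro x hx l
    obtain ⟨n, hn⟩ := (hsub x hx).2.1 l
    have hxU : x ∈ U l n := ((hsub x hx).1 l n).1 hn
    obtain ⟨S, ⟨hSn, hSc⟩, hSU⟩ := (LocallyConvexSpace.convex_basis (𝕜 := ℝ) x).mem_iff.1
      ((hUo l n).mem_nhds hxU)
    have hSU' : S ⊆ U l n := hSU
    refine ⟨interior S, isOpen_interior, mem_interior_iff_mem_nhds.2 hSn, ?_⟩
    intro g hg hgO
    have hconv : Convex ℝ (interior S) := hSc.interior
    have hx0 : x ∈ interior S := mem_interior_iff_mem_nhds.2 hSn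
    obtain ⟨M, hM⟩ := exists_nat_gt (‖g‖ * ((n : ℝ) + 1))
    have hM0 : (0 : ℝ) < M := lt_of_le_of_lt (by positivity) hM
    have hMn : M ≠ 0 := by rintro rfl; simp at hM0
    set e : V := ((M : ℝ)⁻¹) • g with he
    have heG : e ∈ Q.G0 := Q.div g hg M hMn
    have henorm : ‖e‖ < 1 / ((n : ℝ) + 1) := by
      rw [he, norm_smul, norm_inv, Real.norm_natCast, lt_div_iff₀ (by positivity), inv_mul_eq_div, div_mul_eq_mul_div,
        div_lt_one hM0]
      exact hM
    have hpt : ∀ i : ℕ, i ≤ M → x + Q.j ((i : ℝ) • e) ∈ interior S := by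
      intro i hi
      have hc := hconv hx0 hgO (a := 1 - (i : ℝ) / M) (b := (i : ℝ) / M)
        (by rw [sub_nonneg, div_le_one hM0]; exact_mod_cast hi) (by positivity) (by ring)
      have heq : (1 - (i : ℝ) / M) • x + ((i : ℝ) / M) • (x + Q.j g) = x + Q.j ((i : ℝ) • e) := by
        rw [he, smul_smul, map_smul, smul_add, ← add_assoc, ← add_smul, sub_add_cancel, one_smul, div_eq_mul_inv]
      rwa [heq] at hc
    have hmem : ∀ i : ℕ, (i : ℝ) • e ∈ Q.G0 := by
      intro i
      rw [Nat.cast_smul_eq_nsmul]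
      exact Q.G0.nsmul_mem heG i
    have hDD : ∀ i : ℕ, i ≤ M → x + Q.j ((i : ℝ) • e) ∈ DD Q f l n := by
      intro i hi
      have h1 : x + Q.j ((i : ℝ) • e) ∈ GG0 := hx _ (hmem i)
      exact (h1.1 l n).2 (hSU' (interior_subset (hpt i hi)))
    have hind : ∀ i : ℕ, i ≤ M → NearBy l (f x) (f (x + Q.j ((i : ℝ) • e))) := by
      intro i
      induction i with
      | zero => intro _; simpa using NearBy.refl l (f x)
      | succ i ih =>
        intro hi
        have e1 : x + Q.j (((i + 1 : ℕ) : ℝ) • e) = x + Q.j ((i : ℝ) • e) + Q.j e := by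
          rw [Nat.cast_succ, add_smul, one_smul, map_add, add_assoc]
        have h1 := hDD i (by omega)
        have h2 := hDD (i + 1) hi
        rw [e1] at h2 ⊢
        exact (ih (by omega)).trans (H5_step Q f l n _ e henorm h1 h2)
    have hfin := hind M le_rfl
    have : (M : ℝ) • e = g := by rw [he, smul_smul, mul_inv_cancel₀ hM0.ne', one_smul]
    rwa [this] at hfin

end

end KAut
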