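import Mathlib
import Pool.Agent.Lib.MP_33914b_an.ErgDef

/-!
# MP_33914b_an, file H6  (ROW ka-H6)
Paper: /team-store/kaut_paper.md

PROOF / HINTS:
Back and forth. Build x_n, y_n in GG (x_n in x + j G0, y_n in y + j G0), sigma_n, tau_n with f x_n = lact sigma_n (f x), f y_n = lact tau_n (f y). x-move: given open O_l(x_n) (hloc at x_n with l = l_n >= n and > sigma_n i for i<=n) and y_n in O_l(x_n): choose (Q.dense, openness, continuity of f on GG at y_n) x_{n+1} = x_n + j g in O_l(x_n) cap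
O_{l'}(y_n), f x_{n+1} and f y_n agree on the first n coordinates of Logic (enumeration of the countable index set); sigma_{n+1} = w sigma_n with w fixing i<l. y-move symmetric with l' > tau_n i (i<=n), l' >= n. sigma_n and sigma_n^-1 converge pointwise: sigma_{n+1} i = sigma_n i for i<=n, sigma_{n+1}^-1 i = sigma_n^-1 i for i<n. Limit permutations sigma, tau:
every coordinate of f x_n is eventually that of lact sigma (f x), every coordinate of f y_n eventually that of lact tau (f y): equal. Answer: tau^-1 sigma. (Start: replace l=0 and O = anything: x_0 = x; y_0 = y + j g in O_l(x).)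
-/
set_option autoImplicit false

open MeasureTheory Topology Filter Set

namespace KAut

/-- index set of the coordinates of Logic -/
abbrev H6_I : Type := ℕ × (Σ k : ℕ, (Fin k → ℕ))

theorem H6_fin (n : ℕ) : {r : H6_I | Encodable.encode r < n}.Finite :=
  (Set.finite_Iio n).preimage Encodable.encode_injective.injOn

theorem H6_open (n : ℕ) (M : Logic) : IsOpen {M' : Logic | ∀ r : H6_I, Encodable.encode r < n → M' r = M r} := by
  have e : {M' : Logic | ∀ r : H6_I, Encodable.encode r < n → M' r = M r} =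
      ⋂ r ∈ {r : H6_I | Encodable.encode r < n}, {M' : Logic | M' r = M r} := by
    ext M'
    simp
  rw [e]
  refine (H6_fin n).isOpen_biInter fun r _ => ?_
  have h1 : Continuous fun M' : Logic => M' r := continuous_apply r
  exact (isOpen_discrete ({M r} : Set Bool)).preimage h1

/-- limit of permutations -/
theorem H6_limit (ρ : ℕ → Equiv.Perm ℕ) (h : ∀ n, ∀ i ≤ n, ρ (n + 1) i = ρ n i)
    (h' : ∀ n, ∀ i ≤ n, (ρ (n + 1))⁻¹ i = (ρ n)⁻¹ i) :
    ∃ σ : Equiv.Perm ℕ, ∀ i, ∀ n ≥ i, (ρ n)⁻¹ i = σ⁻¹ i := by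
  have h1 : ∀ i, ∀ n ≥ i, ρ n i = ρ i i := by
    intro i n hn
    induction n, hn using Nat.le_induction with
    | base => rfl
    | succ n hn ih => rw [h n i hn, ih]
  have h2 : ∀ i, ∀ n ≥ i, (ρ n)⁻¹ i = (ρ i)⁻¹ i := by
    intro i n hn
    induction n, hn using Nat.le_induction with
    | base => rfl
    | succ n hn ih => rw [h' n i hn, ih]
  let σ : Equiv.Perm ℕ :=
    { toFun := fun i => ρ i i
      invFun := fun i => (ρ i)⁻¹ i
      left_inv := by
        intro i
        show (ρ (ρ i i))⁻¹ (ρ i i) = i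
        have e1 := h2 (ρ i i) (max i (ρ i i)) (le_max_right _ _)
        have e2 := h1 i (max i (ρ i i)) (le_max_left _ _)
        rw [← e1]
        nth_rewrite 2 [← e2]
        exact Equiv.symm_apply_apply _ _
      right_inv := by
        intro i
        show ρ ((ρ i)⁻¹ i) ((ρ i)⁻¹ i) = i
        have e1 := h1 ((ρ i)⁻¹ i) (max i ((ρ i)⁻¹ i)) (le_max_right _ _)
        have e2 := h2 i (max i ((ρ i)⁻¹ i)) (le_max_left _ _)
        rw [← e1]
        nth_rewrite 2 [← e2]
        exact Equiv.apply_symm_apply _ _ }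
  refine ⟨σ, fun i n hn => ?_⟩
  rw [h2 i n hn]
  rfl

section
variable {V : Type} [NormedAddCommGroup V] [NormedSpace ℝ V] [CompleteSpace V] [SecondCountableTopology V]
  (Q : SeqSpace V) (f : (ℕ → ℝ) → Logic)

/-- state of the back and forth -/
structure H6_St where
  z : Bool → ℕ → ℝ
  ρ : Bool → Equiv.Perm ℕ
  O : Set (ℕ → ℝ)
  l : ℕ

/-- admissible state at step n; b = starting points -/
structure H6_Good (GG : Set (ℕ → ℝ)) (b : Bool → ℕ → ℝ) (n : ℕ) (s : H6_St) : Prop where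
  mem : ∀ c, s.z c ∈ GG
  orb : ∀ c, f (s.z c) = lact (s.ρ c) (f (b c))
  opn : IsOpen s.O
  memO : ∀ c, s.z c ∈ s.O
  loc : ∀ g ∈ Q.G0, s.z n.bodd + Q.j g ∈ s.O → NearBy s.l (f (s.z n.bodd)) (f (s.z n.bodd + Q.j g))
  ll : n < s.l
  lr : ∀ i ≤ n, s.ρ n.bodd i < s.l

/-- relation between consecutive states -/
structure H6_Rel (n : ℕ) (s s' : H6_St) : Prop where
  z : s'.z (!n.bodd) = s.z (!n.bodd)
  ρ : s'.ρ (!n.bodd) = s.ρ (!n.bodd)
  w : ∃ w : Equiv.Perm ℕ, (∀ i < s.l, w i = i) ∧ s'.ρ n.bodd = w * s.ρ n.bodd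
  cf : ∀ r : H6_I, Encodable.encode r < n → f (s'.z n.bodd) r = f (s.z (!n.bodd)) r

theorem H6_step (GG : Set (ℕ → ℝ)) (hcont : ContinuousOn f GG) (hinv : ∀ x ∈ GG, ∀ g ∈ Q.G0, x + Q.j g ∈ GG)
    (hloc : ∀ x ∈ GG, ∀ l : ℕ, ∃ O : Set (ℕ → ℝ), IsOpen O ∧ x ∈ O ∧
        ∀ g ∈ Q.G0, x + Q.j g ∈ O → NearBy l (f x) (f (x + Q.j g))) (b : Bool → ℕ → ℝ) (n : ℕ)
    (s : H6_St) (hs : H6_Good Q f GG b n s) : ∃ s' : H6_St, H6_Good Q f GG b (n + 1) s' ∧ H6_Rel f n s s' := by
  classical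
  set c := n.bodd with hc
  -- new radius
  obtain ⟨l', hl'n, hl'⟩ : ∃ l' : ℕ, n + 1 < l' ∧ ∀ i ≤ n + 1, s.ρ (!c) i < l' := by
    refine ⟨n + 2 + ∑ i ∈ Finset.range (n + 2), (s.ρ (!c) i + 1), by omega, fun i hi => ?_⟩
    have := Finset.single_le_sum (f := fun i => s.ρ (!c) i + 1) (fun i _ => Nat.zero_le _)
      (Finset.mem_range.2 (show i < n + 2 by omega))
    omega
  obtain ⟨O', hO', hmem', hloc'⟩ := hloc (s.z !c) (hs.mem _) l'
  -- continuity
  have hW := H6_open n (f (s.z !c))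
  obtain ⟨W, hW1, hW2, hW3⟩ : ∃ W : Set (ℕ → ℝ), IsOpen W ∧ s.z (!c) ∈ W ∧
      ∀ x ∈ W, x ∈ GG → ∀ r : H6_I, Encodable.encode r < n → f x r = f (s.z !c) r := by
    have h1 := (hcont (s.z !c) (hs.mem _)).preimage_mem_nhdsWithin (hW.mem_nhds (fun r _ => rfl))
    rw [mem_nhdsWithin] at h1
    obtain ⟨W, h2, h3, h4⟩ := h1
    exact ⟨W, h2, h3, fun x hx hg => h4 ⟨hx, hg⟩⟩
  obtain ⟨g, hg, hgO⟩ := Q.dense (s.z c) (s.z !c) (s.O ∩ O' ∩ W) ((hs.opn.inter hO').inter hW1)
    ⟨⟨hs.memO _, hmem'⟩, hW2⟩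
  obtain ⟨w, hw1, hw2⟩ := hs.loc g hg hgO.1.1
  have hGG : s.z c + Q.j g ∈ GG := hinv _ (hs.mem _) g hg
  have hnb : (n + 1).bodd = !c := by rw [hc, Nat.bodd_succ]
  have hne : (!c) ≠ c := by cases c <;> decide
  refine ⟨⟨Function.update s.z c (s.z c + Q.j g), Function.update s.ρ c (w * s.ρ c), O', l'⟩, ?_, ?_⟩
  · have key : ∀ c' : Bool, c' = c ∨ c' = !c := by cases c <;> decide
    refine ⟨?_, ?_, hO', ?_, ?_, hl'n, ?_⟩
    · intro c'
      rcases key c' with rfl | rfl
      · simpa using hGG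
      · simpa [hne] using hs.mem _
    · intro c'
      rcases key c' with h | h
      · rw [h]
        simp only [Function.update_self]
        rw [lact_mul, ← hs.orb]
        exact hw2
      · rw [h]
        simp only [Function.update_of_ne hne]
        exact hs.orb _
    · intro c'
      rcases key c' with h | h
      · rw [h]
        simp only [Function.update_self]
        exact hgO.1.2
      · rw [h]
        simp only [Function.update_of_ne hne]
        exact hmem'
    · rw [hnb]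
      simp only [Function.update_of_ne hne]
      exact hloc'
    · rw [hnb]
      simp only [Function.update_of_ne hne]
      exact hl'
  · refine ⟨?_, ?_, ?_, ?_⟩
    · exact Function.update_of_ne hne _ _
    · exact Function.update_of_ne hne _ _
    · refine ⟨w, hw1, ?_⟩
      exact Function.update_self _ _ _
    · intro r hr
      have h1 := hW3 _ hgO.2 hGG r hr
      show f (Function.update s.z c (s.z c + Q.j g) c) r = _
      rw [Function.update_self]
      exact h1

/-- (E7) back and forth -/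
theorem E7 (GG : Set (ℕ → ℝ)) (hcont : ContinuousOn f GG) (hinv : ∀ x ∈ GG, ∀ g ∈ Q.G0, x + Q.j g ∈ GG)
    (hloc : ∀ x ∈ GG, ∀ l : ℕ, ∃ O : Set (ℕ → ℝ), IsOpen O ∧ x ∈ O ∧
        ∀ g ∈ Q.G0, x + Q.j g ∈ O → NearBy l (f x) (f (x + Q.j g)))
    (hE : ∀ z : ℕ → ℝ, ∀ g ∈ Q.G0, ∃ σ : Equiv.Perm ℕ, f (z + Q.j g) = lact σ (f z))
    (x y : ℕ → ℝ) (hx : x ∈ GG) (hy : y ∈ GG) :
    ∃ σ : Equiv.Perm ℕ, f y = lact σ (f x) := by
  classical
  set b : Bool → ℕ → ℝ := fun c => if c then y else x with hb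
  have hbf : b false = x := by simp [hb]
  have hbt : b true = y := by simp [hb]
  -- start
  obtain ⟨O, hO, hxO, hOloc⟩ := hloc x hx 1
  obtain ⟨g, hg, hgO⟩ := Q.dense y x O hO hxO
  obtain ⟨τ, hτ⟩ := hE y g hg
  have hstart : H6_Good Q f GG b 0 ⟨fun c => if c then y + Q.j g else x, fun c => if c then τ else 1, O, 1⟩ := by
    refine ⟨?_, ?_, hO, ?_, ?_, Nat.one_pos, ?_⟩
    · intro c
      cases c
      · simpa using hx
      · simpa using hinv y hy g hg
    · intro c
      cases c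
      · simp [hb, lact_one]
      · simpa [hb] using hτ
    · intro c
      cases c
      · simpa using hxO
      · simpa using hgO
    · simpa using hOloc
    · intro i hi
      have : i = 0 := by omega
      subst this
      simp
  choose nx hnx1 hnx2 using fun n (s : {s : H6_St // H6_Good Q f GG b n s}) =>
    H6_step Q f GG hcont hinv hloc b n s.1 s.2
  let S : (n : ℕ) → {s : H6_St // H6_Good Q f GG b n s} := fun n =>
    Nat.rec ⟨_, hstart⟩ (fun n s => ⟨nx n s, hnx1 n s⟩) n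
  have hG : ∀ n, H6_Good Q f GG b n (S n).1 := fun n => (S n).2
  have hR : ∀ n, H6_Rel f n (S n).1 (S (n + 1)).1 := fun n => hnx2 n (S n)
  set ρ : Bool → ℕ → Equiv.Perm ℕ := fun c n => (S n).1.ρ c with hρ
  have h1 : ∀ c n, ∀ i ≤ n, ρ c (n + 1) i = ρ c n i ∧ (ρ c (n + 1))⁻¹ i = (ρ c n)⁻¹ i := by
    intro c n i hi
    by_cases hc : c = n.bodd
    · obtain ⟨w, hw1, hw2⟩ := (hR n).w
      have e : ρ c (n + 1) = w * ρ c n := by rw [hc]; exact hw2
      rw [e]
      constructor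
      · rw [Equiv.Perm.mul_apply]
        apply hw1
        rw [hc]
        exact (hG n).lr i hi
      · rw [mul_inv_rev, Equiv.Perm.mul_apply]
        congr 1
        rw [Equiv.Perm.inv_eq_iff_eq]
        exact (hw1 i (lt_of_le_of_lt hi (hG n).ll)).symm
    · have hc' : c = !n.bodd := by
        revert hc; cases c <;> cases n.bodd <;> decide
      have e : ρ c (n + 1) = ρ c n := by rw [hc']; exact (hR n).ρ
      rw [e]
      exact ⟨rfl, rfl⟩
  have hlim : ∀ c, ∃ σ : Equiv.Perm ℕ, ∀ i, ∀ n ≥ i, (ρ c n)⁻¹ i = σ⁻¹ i := fun c =>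
    H6_limit (ρ c) (fun n i hi => (h1 c n i hi).1) (fun n i hi => (h1 c n i hi).2)
  choose σ hσ using hlim
  have hcoord : ∀ c (r : H6_I), ∃ N, ∀ n ≥ N, f ((S n).1.z c) r = lact (σ c) (f (b c)) r := by
    rintro c ⟨m, k, t⟩
    refine ⟨∑ i, t i, fun n hn => ?_⟩
    rw [(hG n).orb c]
    show f (b c) (m, ⟨k, fun i => ((S n).1.ρ c)⁻¹ (t i)⟩) = f (b c) (m, ⟨k, fun i => (σ c)⁻¹ (t i)⟩)
    have e : (fun i => ((S n).1.ρ c)⁻¹ (t i)) = fun i => (σ c)⁻¹ (t i) := by
      funext i
      apply hσ c (t i) n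
      exact le_trans (Finset.single_le_sum (f := t) (fun i _ => Nat.zero_le _) (Finset.mem_univ i)) hn
    rw [e]
  have hmain : lact (σ true) (f y) = lact (σ false) (f x) := by
    funext r
    obtain ⟨N1, hN1⟩ := hcoord true r
    obtain ⟨N2, hN2⟩ := hcoord false r
    set n := max (max N1 N2) (Encodable.encode r + 1) with hn
    have a1 : N1 ≤ n := (le_max_left _ _).trans (le_max_left _ _)
    have a2 : N2 ≤ n := (le_max_right _ _).trans (le_max_left _ _)
    have a3 : Encodable.encode r < n := lt_of_lt_of_le (Nat.lt_succ_self _) (le_max_right _ _)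
    have h2 := (hR n).cf r a3
    have h3 := hN1 n a1
    have h4 := hN2 n a2
    have h5 := hN1 (n + 1) (by omega)
    have h6 := hN2 (n + 1) (by omega)
    rw [hbt] at h3 h5
    rw [hbf] at h4 h6
    rcases Bool.eq_false_or_eq_true n.bodd with h7 | h7
    · rw [h7] at h2
      rw [h5, Bool.not_true, h4] at h2
      exact h2
    · rw [h7] at h2
      rw [h6, Bool.not_false, h3] at h2
      exact h2.symm
  refine ⟨(σ true)⁻¹ * σ false, ?_⟩
  rw [lact_mul, ← hmain, ← lact_mul, inv_mul_cancel, lact_one]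

end

end KAut
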