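import Mathlib
import Pool.Agent.Lib.MP_33914b_an.H1
import Pool.Agent.Lib.MP_33914b_an.H5
import Pool.Agent.Lib.MP_33914b_an.H6
import Pool.Agent.Lib.MP_33914b_an.P2

/-!
# MP_33914b_an, file Erg
Paper: /team-store/kaut_paper.md
-/
set_option autoImplicit false

open MeasureTheory Topology Filter Set

namespace KAut

/-- (E) Hjorth's theorem for `ℝ^ℕ/ℓ¹` -/
theorem hjorth (Y : Type*) [MeasurableSpace Y] [StandardBorelSpace Y] [MulAction (Equiv.Perm ℕ) Y]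
    (hY : Measurable (fun p : Equiv.Perm ℕ × Y => p.1 • p.2)) (f : (ℕ → ℝ) → Y) (hf : Measurable f)
    (hE : ∀ x x' : ℕ → ℝ, Summable (fun k => |x' k - x k|) → ∃ σ : Equiv.Perm ℕ, σ • f x = f x') :
    ∃ GG ∈ residual (ℕ → ℝ), ∀ x ∈ GG, ∀ y ∈ GG, ∃ σ : Equiv.Perm ℕ, σ • f x = f y := by
  obtain ⟨Θ, hΘm, hΘi, hΘe⟩ := exists_vaught Y hY
  obtain ⟨V, i1, i2, i3, i4, ⟨Q⟩⟩ := exists_seqSpace
  have hE' : ∀ x x' : ℕ → ℝ, Summable (fun k => |x' k - x k|) →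
      ∃ σ : Equiv.Perm ℕ, (Θ ∘ f) x' = lact σ ((Θ ∘ f) x) := by
    intro x x' hs
    obtain ⟨σ, hσ⟩ := hE x x' hs
    exact ⟨σ, by simp only [Function.comp]; rw [← hσ, hΘe]⟩
  obtain ⟨GG, h1, h2, h3, h4⟩ := E6 Q (Θ ∘ f) (hΘm.comp hf) hE'
  refine ⟨GG, h1, fun x hx y hy => ?_⟩
  obtain ⟨σ, hσ⟩ := E7 Q (Θ ∘ f) GG h2 h3 h4
    (fun z g _ => hE' z _ (by simpa using Q.summable g)) x y hx hy
  refine ⟨σ, hΘi ?_⟩
  rw [hΘe]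
  exact hσ.symm

end KAut
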