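import Mathlib
import Pool.Agent.Lib.MP_33914b_an.IEDef

/-!
# MP_33914b_an, file I1  (ROW ka-I1)
Paper: /team-store/kaut_paper.md

PROOF / HINTS:
elementary: for x in [0,1), floor(n x) < n. n * IE n pi x = pi(Y x) + fract(n x) (n != 0), hence floor and fract. Fin.ofNat is reduction mod n.
-/
set_option autoImplicit false

open MeasureTheory

namespace KAut

theorem ae_mem_Ico : ∀ᵐ x ∂lam, x ∈ Set.Ico (0 : ℝ) 1 := by
  have h1 : lam = volume.restrict (Set.Ico (0 : ℝ) 1) :=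
    Measure.restrict_congr_set Ico_ae_eq_Icc.symm
  rw [h1]
  exact ae_restrict_mem measurableSet_Ico

theorem I1_pos (n : ℕ) [NeZero n] : (0 : ℝ) < n := by
  exact_mod_cast Nat.pos_of_ne_zero (NeZero.ne n)

theorem I1_floor_lt {n : ℕ} [NeZero n] {x : ℝ} (hx : x ∈ Set.Ico (0 : ℝ) 1) :
    ⌊(n : ℝ) * x⌋₊ < n := by
  have hn := I1_pos n
  rw [Nat.floor_lt (mul_nonneg hn.le hx.1)]
  calc (n : ℝ) * x < n * 1 := mul_lt_mul_of_pos_left hx.2 hn
    _ = n := mul_one _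

theorem Y_val {n : ℕ} [NeZero n] {x : ℝ} (hx : x ∈ Set.Ico (0 : ℝ) 1) : (Y n x : ℕ) = ⌊(n : ℝ) * x⌋₊ := by
  unfold Y
  rw [Fin.val_ofNat]
  exact Nat.mod_eq_of_lt (I1_floor_lt hx)

theorem measurable_Y (n : ℕ) [NeZero n] : Measurable (Y n) := by
  unfold Y
  have h1 : Measurable (fun m : ℕ => Fin.ofNat n m) := measurable_from_top
  exact h1.comp (Nat.measurable_floor.comp (measurable_const.mul measurable_id))

theorem I1_IE {n : ℕ} [NeZero n] (π : Equiv.Perm (Fin n)) {x : ℝ} (hx : x ∈ Set.Ico (0 : ℝ) 1) :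
    (n : ℝ) * IE n π x = ((π (Y n x) : Fin n) : ℕ) + Int.fract ((n : ℝ) * x) := by
  unfold IE
  rw [if_pos hx]
  exact mul_div_cancel₀ _ (I1_pos n).ne'

theorem IE_mem {n : ℕ} [NeZero n] (π : Equiv.Perm (Fin n)) {x : ℝ} (hx : x ∈ Set.Ico (0 : ℝ) 1) :
    IE n π x ∈ Set.Ico (0 : ℝ) 1 := by
  have hn := I1_pos n
  unfold IE
  rw [if_pos hx]
  constructor
  · exact div_nonneg (add_nonneg (Nat.cast_nonneg _) (Int.fract_nonneg _)) hn.le
  · rw [div_lt_one hn]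
    have h1 : (((π (Y n x) : Fin n) : ℕ) : ℝ) + 1 ≤ n := by exact_mod_cast (π (Y n x)).2
    have h2 := Int.fract_lt_one ((n : ℝ) * x)
    linarith

theorem Y_IE {n : ℕ} [NeZero n] (π : Equiv.Perm (Fin n)) {x : ℝ} (hx : x ∈ Set.Ico (0 : ℝ) 1) :
    Y n (IE n π x) = π (Y n x) := by
  apply Fin.ext
  rw [Y_val (IE_mem π hx), I1_IE π hx, Nat.floor_eq_iff (add_nonneg (Nat.cast_nonneg _) (Int.fract_nonneg _))]
  have h1 := Int.fract_nonneg ((n : ℝ) * x)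
  have h2 := Int.fract_lt_one ((n : ℝ) * x)
  constructor <;> linarith

theorem fract_IE {n : ℕ} [NeZero n] (π : Equiv.Perm (Fin n)) {x : ℝ} (hx : x ∈ Set.Ico (0 : ℝ) 1) :
    Int.fract ((n : ℝ) * IE n π x) = Int.fract ((n : ℝ) * x) := by
  rw [I1_IE π hx, Int.fract_natCast_add, Int.fract_fract]

/-- a point of `[0,1)` is determined by `Y` and the fractional part -/
theorem ext_Y {n : ℕ} [NeZero n] {x y : ℝ} (hx : x ∈ Set.Ico (0 : ℝ) 1) (hy : y ∈ Set.Ico (0 : ℝ) 1)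
    (h1 : Y n x = Y n y) (h2 : Int.fract ((n : ℝ) * x) = Int.fract ((n : ℝ) * y)) : x = y := by
  have hn := I1_pos n
  have key : ∀ {z : ℝ}, z ∈ Set.Ico (0 : ℝ) 1 → (n : ℝ) * z = ((Y n z : ℕ) : ℝ) + Int.fract ((n : ℝ) * z) := by
    intro z hz
    rw [Y_val hz, natCast_floor_eq_intCast_floor (mul_nonneg hn.le hz.1)]
    exact (Int.floor_add_fract _).symm
  have h3 : (n : ℝ) * x = n * y := by rw [key hx, key hy, h1, h2]
  exact mul_left_cancel₀ hn.ne' h3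

theorem IE_comp {n : ℕ} [NeZero n] (π π' : Equiv.Perm (Fin n)) (x : ℝ) :
    IE n π (IE n π' x) = IE n (π'.trans π) x := by
  by_cases hx : x ∈ Set.Ico (0 : ℝ) 1
  · refine ext_Y (n := n) (IE_mem π (IE_mem π' hx)) (IE_mem _ hx) ?_ ?_
    · rw [Y_IE π (IE_mem π' hx), Y_IE π' hx, Y_IE _ hx, Equiv.trans_apply]
    · rw [fract_IE π (IE_mem π' hx), fract_IE π' hx, fract_IE _ hx]
  · have h1 : ∀ π : Equiv.Perm (Fin n), IE n π x = x := by
      intro π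
      unfold IE
      rw [if_neg hx]
    rw [h1 π', h1, h1]

theorem IE_refl (n : ℕ) [NeZero n] (x : ℝ) : IE n (Equiv.refl _) x = x := by
  by_cases hx : x ∈ Set.Ico (0 : ℝ) 1
  · refine ext_Y (n := n) (IE_mem _ hx) hx ?_ ?_
    · rw [Y_IE _ hx]
      rfl
    · rw [fract_IE _ hx]
  · unfold IE
    rw [if_neg hx]

end KAut
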