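import Mathlib
import Pool.Agent.Lib.MP_33914b_an.I1

/-!
# MP_33914b_an, file I2  (ROW ka-I2)
Paper: /team-store/kaut_paper.md

PROOF / HINTS:
lam_Y: {x in [0,1) | Y n x = j} = [j/n,(j+1)/n) has measure 1/n. measurePreserving_IE: IE restricted to [j/n,(j+1)/n) is the translation by (pi j - j)/n onto
[pi j/n, (pi j+1)/n); measurable (piecewise); for measurable A: lam (IE^-1 A) = sum_j lam(IE^-1 A cap I_j) = sum_j lam(A cap I_(pi j)) = lam A (translation invariance of volume). 
-/
set_option autoImplicit false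

open MeasureTheory

namespace KAut

/-- the interval `[j/n,(j+1)/n)` -/
def I2_I (n j : ℕ) : Set ℝ := Set.Ico ((j : ℝ) / n) (((j : ℝ) + 1) / n)

theorem I2_mem {n : ℕ} [NeZero n] (j : Fin n) (x : ℝ) :
    x ∈ I2_I n j ↔ x ∈ Set.Ico (0 : ℝ) 1 ∧ Y n x = j := by
  have hn : (0 : ℝ) < n := Nat.cast_pos.mpr (Nat.pos_of_ne_zero (NeZero.ne n))
  unfold I2_I
  rw [Set.mem_Ico, div_le_iff₀ hn, lt_div_iff₀ hn]
  constructor
  · rintro ⟨h1, h2⟩
    have hj : ((j : ℕ) : ℝ) + 1 ≤ n := by exact_mod_cast j.isLt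
    have hj0 : (0 : ℝ) ≤ ((j : ℕ) : ℝ) := Nat.cast_nonneg _
    have hx : x ∈ Set.Ico (0 : ℝ) 1 := by
      constructor
      · by_contra h
        push Not at h
        nlinarith
      · by_contra h
        push Not at h
        nlinarith
    refine ⟨hx, Fin.ext ?_⟩
    rw [Y_val hx, mul_comm]
    exact (Nat.floor_eq_iff (mul_nonneg hx.1 hn.le)).mpr ⟨h1, h2⟩
  · rintro ⟨hx, hy⟩
    have h3 : ⌊(n : ℝ) * x⌋₊ = (j : ℕ) := by rw [← Y_val hx, hy]
    rw [mul_comm] at h3
    exact (Nat.floor_eq_iff (mul_nonneg hx.1 hn.le)).mp h3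

theorem I2_IE {n : ℕ} [NeZero n] (π : Equiv.Perm (Fin n)) (j : Fin n) {x : ℝ} (hx : x ∈ I2_I n j) :
    IE n π x = x + (((π j : Fin n) : ℕ) - ((j : ℕ) : ℝ)) / n := by
  have hn : (n : ℝ) ≠ 0 := Nat.cast_ne_zero.mpr (NeZero.ne n)
  obtain ⟨hx0, hy⟩ := (I2_mem j x).mp hx
  have h3 : ⌊(n : ℝ) * x⌋₊ = (j : ℕ) := by rw [← Y_val hx0, hy]
  have h0 : (0 : ℝ) ≤ (n : ℝ) * x := mul_nonneg (Nat.cast_nonneg _) hx0.1
  have h1 : ((⌊(n : ℝ) * x⌋₊ : ℕ) : ℝ) = ((⌊(n : ℝ) * x⌋ : ℤ) : ℝ) := natCast_floor_eq_intCast_floor h0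
  have h4 : Int.fract ((n : ℝ) * x) = (n : ℝ) * x - ((j : ℕ) : ℝ) := by
    rw [Int.fract, ← h1, h3]
  unfold IE
  rw [if_pos hx0, hy, h4]
  field_simp
  ring

theorem I2_sum (n : ℕ) [NeZero n] : lam = ∑ j : Fin n, volume.restrict (I2_I n j) := by
  have h1 : lam = volume.restrict (Set.Ico (0 : ℝ) 1) := by
    unfold lam
    exact Measure.restrict_congr_set Ico_ae_eq_Icc.symm
  have h2 : Set.Ico (0 : ℝ) 1 = ⋃ j : Fin n, I2_I n j := by
    ext x
    rw [Set.mem_iUnion]
    constructor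
    · intro hx
      exact ⟨Y n x, (I2_mem _ x).mpr ⟨hx, rfl⟩⟩
    · rintro ⟨j, hj⟩
      exact ((I2_mem j x).mp hj).1
  rw [h1, h2, Measure.restrict_iUnion, Measure.sum_fintype]
  · intro i j hij
    rw [Function.onFun, Set.disjoint_left]
    intro x hx hx'
    exact hij (((I2_mem i x).mp hx).2.symm.trans ((I2_mem j x).mp hx').2)
  · intro j
    exact measurableSet_Ico

theorem I2_measurable (n : ℕ) [NeZero n] (π : Equiv.Perm (Fin n)) : Measurable (IE n π) := by
  unfold IE
  refine Measurable.ite measurableSet_Ico ?_ measurable_id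
  refine Measurable.div_const (Measurable.add ?_ ?_) _
  · exact (measurable_of_countable (fun j : Fin n => (((π j : Fin n) : ℕ) : ℝ))).comp (measurable_Y n)
  · exact measurable_fract.comp (measurable_const_mul (n : ℝ))

theorem measurePreserving_IE (n : ℕ) [NeZero n] (π : Equiv.Perm (Fin n)) :
    MeasurePreserving (IE n π) lam lam := by
  have hm := I2_measurable n π
  have hn : (0 : ℝ) < n := Nat.cast_pos.mpr (Nat.pos_of_ne_zero (NeZero.ne n))
  refine ⟨hm, ?_⟩
  have h1 : ∀ j : Fin n, Measure.map (IE n π) (volume.restrict (I2_I n j)) = volume.restrict (I2_I n (π j)) := by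
    intro j
    have h2 : Measure.map (IE n π) (volume.restrict (I2_I n j))
        = Measure.map (fun x : ℝ => x + (((π j : Fin n) : ℕ) - ((j : ℕ) : ℝ)) / n) (volume.restrict (I2_I n j)) := by
      refine Measure.map_congr ?_
      filter_upwards [ae_restrict_mem measurableSet_Ico] with x hx
      exact I2_IE π j hx
    rw [h2]
    have h3 := (measurePreserving_add_right (volume : Measure ℝ)
      ((((π j : Fin n) : ℕ) - ((j : ℕ) : ℝ)) / n)).restrict_preimage (s := I2_I n (π j)) measurableSet_Ico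
    have h4 : (fun x : ℝ => x + (((π j : Fin n) : ℕ) - ((j : ℕ) : ℝ)) / n) ⁻¹' (I2_I n (π j)) = I2_I n j := by
      ext x
      unfold I2_I
      rw [Set.mem_preimage, Set.mem_Ico, Set.mem_Ico, div_le_iff₀ hn, lt_div_iff₀ hn, div_le_iff₀ hn,
        lt_div_iff₀ hn, add_mul, div_mul_cancel₀ _ hn.ne']
      constructor <;> rintro ⟨h5, h6⟩ <;> constructor <;> linarith
    rw [h4] at h3
    exact h3.map_eq
  calc Measure.map (IE n π) lam = Measure.map (IE n π) (∑ j : Fin n, volume.restrict (I2_I n j)) := by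
        rw [← I2_sum n]
    _ = ∑ j : Fin n, Measure.map (IE n π) (volume.restrict (I2_I n j)) := by
        rw [← Measure.sum_fintype, Measure.map_sum hm.aemeasurable, Measure.sum_fintype]
    _ = ∑ j : Fin n, volume.restrict (I2_I n (π j)) := Finset.sum_congr rfl fun j _ => h1 j
    _ = ∑ j : Fin n, volume.restrict (I2_I n j) :=
        Equiv.sum_comp π fun j : Fin n => (volume.restrict (I2_I n j) : Measure ℝ)
    _ = lam := (I2_sum n).symm

theorem lam_Y (n : ℕ) [NeZero n] (s : Finset (Fin n)) :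
    lam {x | Y n x ∈ s} = (s.card : ENNReal) / n := by
  have hn : (0 : ℝ) < n := Nat.cast_pos.mpr (Nat.pos_of_ne_zero (NeZero.ne n))
  have hms : MeasurableSet {x | Y n x ∈ s} := measurable_Y n (s.finite_toSet.measurableSet)
  have hv : ∀ j : ℕ, volume (I2_I n j) = (n : ENNReal)⁻¹ := by
    intro j
    unfold I2_I
    rw [Real.volume_Ico, ← sub_div, add_sub_cancel_left, one_div, ENNReal.ofReal_inv_of_pos hn,
      ENNReal.ofReal_natCast]
  have h1 : ∀ j : Fin n, (volume.restrict (I2_I n j)) {x | Y n x ∈ s} = if j ∈ s then (n : ENNReal)⁻¹ else 0 := by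
    intro j
    rw [Measure.restrict_apply hms]
    split_ifs with hj
    · have h2 : {x | Y n x ∈ s} ∩ I2_I n j = I2_I n j := by
        ext x
        constructor
        · exact fun h => h.2
        · intro h
          refine ⟨?_, h⟩
          rw [Set.mem_ofPred_eq, ((I2_mem j x).mp h).2]
          exact hj
      rw [h2, hv]
    · have h2 : {x | Y n x ∈ s} ∩ I2_I n j = ∅ := by
        ext x
        constructor
        · rintro ⟨h3, h4⟩
          rw [Set.mem_ofPred_eq, ((I2_mem j x).mp h4).2] at h3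
          exact hj h3
        · intro h
          exact h.elim
      rw [h2, measure_empty]
  rw [I2_sum n, Measure.finsetSum_apply, Finset.sum_congr rfl fun j _ => h1 j, Finset.sum_ite_mem,
    Finset.univ_inter, Finset.sum_const, nsmul_eq_mul, div_eq_mul_inv]

end KAut
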