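import Mathlib
import Pool.Agent.Lib.MP_33914b_an.I1

/-!
# MP_33914b_an, file I3  (ROW ka-I3)
Paper: /team-store/kaut_paper.md

PROOF / HINTS:
finProdFinEquiv (a,b) = b + m*a. floor(n m x) / m = floor (n x) and floor(n m x) % m = floor(m fract(n x)). fract(n m x) = fract(m (floor(nx) + fract(nx))) = fract(m fract(nx)).
IE_lift: compare Y (n*m), fract on both sides, or compute directly: (lift pi)(Y_{nm} x) = m * pi(Y_n x) + Y_m(fract(n x)) and (m p + floor(m f) + fract(m f))/(n m) = (p+f)/n.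
-/
set_option autoImplicit false

open MeasureTheory

namespace KAut

theorem I3_floor {n m : ℕ} (hm : 0 < m) {x : ℝ} (hx : 0 ≤ x) :
    ⌊((n * m : ℕ) : ℝ) * x⌋₊ = ⌊(m : ℝ) * Int.fract ((n : ℝ) * x)⌋₊ + m * ⌊(n : ℝ) * x⌋₊ := by
  have h0 : (0 : ℝ) ≤ (n : ℝ) * x := mul_nonneg (Nat.cast_nonneg _) hx
  have h1 : ((⌊(n : ℝ) * x⌋₊ : ℕ) : ℝ) = ((⌊(n : ℝ) * x⌋ : ℤ) : ℝ) := natCast_floor_eq_intCast_floor h0
  have h2 : ((n * m : ℕ) : ℝ) * x = (m : ℝ) * Int.fract ((n : ℝ) * x) + ((m * ⌊(n : ℝ) * x⌋₊ : ℕ) : ℝ) := by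
    have h3 := Int.fract_add_floor ((n : ℝ) * x)
    push_cast
    rw [h1]
    calc (n : ℝ) * m * x = m * (n * x) := by ring
      _ = m * (Int.fract ((n : ℝ) * x) + (⌊(n : ℝ) * x⌋ : ℝ)) := by rw [h3]
      _ = _ := by ring
  rw [h2, Nat.floor_add_natCast (mul_nonneg (Nat.cast_nonneg _) (Int.fract_nonneg _))]

theorem I3_lt {m : ℕ} (hm : 0 < m) (y : ℝ) : ⌊(m : ℝ) * Int.fract y⌋₊ < m := by
  rw [Nat.floor_lt (mul_nonneg (Nat.cast_nonneg _) (Int.fract_nonneg _))]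
  have h1 := Int.fract_lt_one y
  have h2 : (0 : ℝ) < m := Nat.cast_pos.mpr hm
  calc (m : ℝ) * Int.fract y < m * 1 := mul_lt_mul_of_pos_left h1 h2
    _ = m := mul_one _

/-- `Y (n*m)` refines `Y n` -/
theorem Y_mul {n m : ℕ} [NeZero n] [NeZero m] {x : ℝ} (hx : x ∈ Set.Ico (0 : ℝ) 1) :
    finProdFinEquiv.symm (Y (n * m) x) = (Y n x, Y m (Int.fract ((n : ℝ) * x))) := by
  have hm : 0 < m := Nat.pos_of_ne_zero (NeZero.ne m)
  have hf : Int.fract ((n : ℝ) * x) ∈ Set.Ico (0 : ℝ) 1 := ⟨Int.fract_nonneg _, Int.fract_lt_one _⟩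
  have hfl := I3_floor (n := n) hm hx.1
  rw [Equiv.symm_apply_eq]
  apply Fin.ext
  rw [Y_val hx, finProdFinEquiv_apply_val, Y_val hx, Y_val hf]
  exact hfl

theorem fract_mul {n m : ℕ} {x : ℝ} :
    Int.fract (((n * m : ℕ) : ℝ) * x) = Int.fract ((m : ℝ) * Int.fract ((n : ℝ) * x)) := by
  have h2 : ((n * m : ℕ) : ℝ) * x = (m : ℝ) * Int.fract ((n : ℝ) * x) + (((m : ℤ) * ⌊(n : ℝ) * x⌋ : ℤ) : ℝ) := by
    have h3 := Int.fract_add_floor ((n : ℝ) * x)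
    push_cast
    calc (n : ℝ) * m * x = m * (n * x) := by ring
      _ = m * (Int.fract ((n : ℝ) * x) + (⌊(n : ℝ) * x⌋ : ℝ)) := by rw [h3]
      _ = _ := by ring
  rw [h2, Int.fract_add_intCast]

theorem IE_lift {n m : ℕ} [NeZero n] [NeZero m] (π : Equiv.Perm (Fin n)) (x : ℝ) :
    IE (n * m) (liftPerm m π) x = IE n π x := by
  by_cases hx : x ∈ Set.Ico (0 : ℝ) 1
  · have h1 := IE_mem (liftPerm m π) hx
    have h2 := IE_mem π hx
    refine ext_Y (n := n * m) h1 h2 ?_ ?_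
    · rw [Y_IE _ hx]
      apply finProdFinEquiv.symm.injective
      rw [Y_mul h2, Y_IE _ hx, fract_IE _ hx]
      unfold liftPerm
      rw [Equiv.trans_apply, Equiv.trans_apply, Equiv.symm_apply_apply, Y_mul hx]
      rfl
    · rw [fract_IE _ hx, fract_mul, fract_mul, fract_IE _ hx]
  · unfold IE
    rw [if_neg hx, if_neg hx]

end KAut
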