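import Mathlib
import Pool.Agent.Lib.MP_33914b_an.IEDef

/-!
# MP_33914b_an, file I4  (ROW ka-I4)
Paper: /team-store/kaut_paper.md

PROOF / HINTS:
Borel-Cantelli (measure_limsup_atTop_eq_zero or MeasureTheory.measure_setOf_frequently_eq_zero): a.e. x, Phi_k x = Phi_{k+1} x for all large k, so eventually constant, evLim Phi x = Phi_j x for
j >= k (evLim_eq). {Psi_k != Psi_{k+1}} is contained in Phi_k^{-1}-preimage: if y = Phi_k x and Phi_k x = Phi_{k+1} x then Psi_{k+1} y = x = Psi_k y; so mu{Psi_k != Psi_{k+1}} <= mu{Phi_k != Phi_{k+1}}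
(push forward by Psi_k: {y : Psi_k y != Psi_{k+1} y} subset Psi_k^{-1}{x : Phi_k x != Phi_{k+1} x}). Measurability of evLim: the sets {x | forall j>=k, Phi_j x = Phi_k x} are measurable (measurableSet_eq_fun);
use measurability of a function that is a countable case distinction (the value is Phi_(k) x for any such k: define by Nat.find or use measurable_of_tendsto on the good set, identity elsewhere).
Measure preserving: for A measurable, mu(evLim Phi^{-1}A) = lim mu(Phi_k^{-1}A) = mu A since mu{evLim Phi != Phi_k} -> 0 (tail of a convergent ENNReal series; ENNReal.tendsto_sum_nat_add).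
Inverse: for a.e. x, for large k: evLim Phi x = Phi_k x =: y and evLim Psi y = Psi_k y (for all large k since Psi_j y = Psi_j Phi_j x = x for all large j). Last: {evLim Phi != Phi_k} subset union_{j>=k}{Phi_j != Phi_{j+1}}.
-/
set_option autoImplicit false

open MeasureTheory

namespace KAut

theorem I4_measurable_evLim {Φ : ℕ → ℝ → ℝ} (hΦ : ∀ k, Measurable (Φ k)) : Measurable (evLim Φ) := by
  classical
  have hG : MeasurableSet {x : ℝ | ∃ k, ∀ j, k ≤ j → Φ j x = Φ k x} := by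
    have : {x : ℝ | ∃ k, ∀ j, k ≤ j → Φ j x = Φ k x} =
        ⋃ k, ⋂ j, ⋂ (_ : k ≤ j), {x : ℝ | Φ j x = Φ k x} := by
      ext x; simp
    rw [this]
    exact MeasurableSet.iUnion fun k => MeasurableSet.iInter fun j =>
      MeasurableSet.iInter fun _ => measurableSet_eq_fun (hΦ j) (hΦ k)
  refine measurable_of_tendsto_metrizable
    (f := fun k x => if x ∈ {x : ℝ | ∃ k, ∀ j, k ≤ j → Φ j x = Φ k x} then Φ k x else x) ?_ ?_
  · intro k
    exact Measurable.ite hG (hΦ k) measurable_id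
  · rw [tendsto_pi_nhds]
    intro x
    by_cases hx : x ∈ {x : ℝ | ∃ k, ∀ j, k ≤ j → Φ j x = Φ k x}
    · obtain ⟨k, hk⟩ := hx
      refine tendsto_const_nhds.congr' ?_
      filter_upwards [Filter.eventually_ge_atTop k] with j hj
      have hx' : ∃ k, ∀ j, k ≤ j → Φ j x = Φ k x := ⟨k, hk⟩
      rw [if_pos hx', evLim_eq hk, hk j hj]
    · have hx' : ¬ ∃ k, ∀ j, k ≤ j → Φ j x = Φ k x := hx
      have h1 : evLim Φ x = x := by
        unfold evLim
        rw [dif_neg hx']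
      rw [h1]
      refine tendsto_const_nhds.congr' ?_
      filter_upwards with j
      rw [if_neg hx']

theorem I4_ae {μ : Measure ℝ} {Φ : ℕ → ℝ → ℝ} (hs : ∑' k, μ {x | Φ k x ≠ Φ (k + 1) x} ≠ ⊤) :
    ∀ᵐ x ∂μ, ∃ k, ∀ j, k ≤ j → Φ j x = evLim Φ x := by
  filter_upwards [ae_eventually_notMem hs] with x hx
  obtain ⟨k, hk⟩ := Filter.eventually_atTop.1 hx
  have h : ∀ j, k ≤ j → Φ j x = Φ k x := by
    intro j hj
    induction j, hj using Nat.le_induction with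
    | base => rfl
    | succ j hj ih =>
      have := hk j hj
      simp only [not_not] at this
      rw [← this, ih]
  exact ⟨k, fun j hj => by rw [evLim_eq h, h j hj]⟩

theorem I4_diff (μ : Measure ℝ) (Φ : ℕ → ℝ → ℝ) (k : ℕ) :
    μ {x | evLim Φ x ≠ Φ k x} ≤ ∑' j, μ {x | Φ (j + k) x ≠ Φ (j + k + 1) x} := by
  refine le_trans (measure_mono ?_) (measure_iUnion_le _)
  intro x hx
  by_contra hcon
  simp only [Set.mem_iUnion, Set.mem_ofPred_eq, not_exists, not_not] at hcon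
  apply hx
  refine evLim_eq ?_
  intro j hj
  induction j, hj using Nat.le_induction with
  | base => rfl
  | succ j hj ih =>
    have h := hcon (j - k)
    rw [Nat.sub_add_cancel hj] at h
    rw [← h, ih]

theorem I4_tail {μ : Measure ℝ} {Φ : ℕ → ℝ → ℝ} (hs : ∑' k, μ {x | Φ k x ≠ Φ (k + 1) x} ≠ ⊤) :
    Filter.Tendsto (fun k => ∑' j, μ {x | Φ (j + k) x ≠ Φ (j + k + 1) x}) Filter.atTop (nhds 0) :=
  ENNReal.tendsto_sum_nat_add (fun k => μ {x | Φ k x ≠ Φ (k + 1) x}) hs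

theorem I4_mp {μ : Measure ℝ} {Φ : ℕ → ℝ → ℝ} (hΦ : ∀ k, MeasurePreserving (Φ k) μ μ)
    (hs : ∑' k, μ {x | Φ k x ≠ Φ (k + 1) x} ≠ ⊤) : MeasurePreserving (evLim Φ) μ μ := by
  have hm : Measurable (evLim Φ) := I4_measurable_evLim fun k => (hΦ k).measurable
  refine ⟨hm, ?_⟩
  ext A hA
  rw [Measure.map_apply hm hA]
  have htail := I4_tail hs
  apply le_antisymm
  · have hlim : Filter.Tendsto
        (fun k => μ A + ∑' j, μ {x | Φ (j + k) x ≠ Φ (j + k + 1) x}) Filter.atTop (nhds (μ A)) := by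
      simpa using (tendsto_const_nhds (x := μ A)).add htail
    refine ge_of_tendsto' hlim fun k => ?_
    calc μ (evLim Φ ⁻¹' A) ≤ μ (Φ k ⁻¹' A ∪ {x | evLim Φ x ≠ Φ k x}) := by
          refine measure_mono fun x hx => ?_
          by_cases h : evLim Φ x = Φ k x
          · left
            simpa [Set.mem_preimage, ← h] using hx
          · right; exact h
      _ ≤ μ (Φ k ⁻¹' A) + μ {x | evLim Φ x ≠ Φ k x} := measure_union_le _ _
      _ ≤ μ A + ∑' j, μ {x | Φ (j + k) x ≠ Φ (j + k + 1) x} := by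
          rw [(hΦ k).measure_preimage hA.nullMeasurableSet]
          gcongr
          exact I4_diff μ Φ k
  · have hlim : Filter.Tendsto
        (fun k => μ (evLim Φ ⁻¹' A) + ∑' j, μ {x | Φ (j + k) x ≠ Φ (j + k + 1) x})
        Filter.atTop (nhds (μ (evLim Φ ⁻¹' A))) := by
      simpa using (tendsto_const_nhds (x := μ (evLim Φ ⁻¹' A))).add htail
    refine ge_of_tendsto' hlim fun k => ?_
    calc μ A = μ (Φ k ⁻¹' A) := ((hΦ k).measure_preimage hA.nullMeasurableSet).symm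
      _ ≤ μ (evLim Φ ⁻¹' A ∪ {x | evLim Φ x ≠ Φ k x}) := by
          refine measure_mono fun x hx => ?_
          by_cases h : evLim Φ x = Φ k x
          · left
            simpa [Set.mem_preimage, h] using hx
          · right; exact h
      _ ≤ μ (evLim Φ ⁻¹' A) + μ {x | evLim Φ x ≠ Φ k x} := measure_union_le _ _
      _ ≤ μ (evLim Φ ⁻¹' A) + ∑' j, μ {x | Φ (j + k) x ≠ Φ (j + k + 1) x} := by
          gcongr
          exact I4_diff μ Φ k

theorem I4_inv {μ : Measure ℝ} {Φ Ψ : ℕ → ℝ → ℝ} (h1 : ∀ k x, Ψ k (Φ k x) = x)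
    (hs : ∑' k, μ {x | Φ k x ≠ Φ (k + 1) x} ≠ ⊤) : ∀ᵐ x ∂μ, evLim Ψ (evLim Φ x) = x := by
  filter_upwards [I4_ae hs] with x hx
  obtain ⟨k, hk⟩ := hx
  have h : ∀ j, k ≤ j → Ψ j (evLim Φ x) = x := by
    intro j hj
    rw [← hk j hj, h1]
  rw [evLim_eq (k := k) (fun j hj => by rw [h j hj, h k le_rfl]), h k le_rfl]

theorem I4_sumΨ {μ : Measure ℝ} {Φ Ψ : ℕ → ℝ → ℝ} (hΦ : ∀ k, MeasurePreserving (Φ k) μ μ)
    (hΨ : ∀ k, MeasurePreserving (Ψ k) μ μ)
    (h1 : ∀ k x, Ψ k (Φ k x) = x) (h2 : ∀ k x, Φ k (Ψ k x) = x)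
    (hs : ∑' k, μ {x | Φ k x ≠ Φ (k + 1) x} ≠ ⊤) :
    ∑' k, μ {x | Ψ k x ≠ Ψ (k + 1) x} ≠ ⊤ := by
  refine ne_top_of_le_ne_top hs (ENNReal.tsum_le_tsum fun k => ?_)
  have hmeas : MeasurableSet {x | Φ k x ≠ Φ (k + 1) x} :=
    (measurableSet_eq_fun (hΦ k).measurable (hΦ (k + 1)).measurable).compl
  calc μ {y | Ψ k y ≠ Ψ (k + 1) y} ≤ μ (Ψ k ⁻¹' {x | Φ k x ≠ Φ (k + 1) x}) := by
        refine measure_mono fun y hy => ?_
        simp only [Set.mem_preimage, Set.mem_ofPred_eq] at hy ⊢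
        intro hcon
        apply hy
        have h3 := h1 (k + 1) (Ψ k y)
        rw [← hcon, h2] at h3
        exact h3.symm
    _ = μ {x | Φ k x ≠ Φ (k + 1) x} := (hΨ k).measure_preimage hmeas.nullMeasurableSet

/-- (LIM) -/
theorem lim_lemma (μ : Measure ℝ) [IsProbabilityMeasure μ] (Φ Ψ : ℕ → ℝ → ℝ)
    (hΦ : ∀ k, MeasurePreserving (Φ k) μ μ) (hΨ : ∀ k, MeasurePreserving (Ψ k) μ μ)
    (h1 : ∀ k x, Ψ k (Φ k x) = x) (h2 : ∀ k x, Φ k (Ψ k x) = x)
    (hs : ∑' k, μ {x | Φ k x ≠ Φ (k + 1) x} ≠ ⊤) :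
    MeasurePreserving (evLim Φ) μ μ ∧ MeasurePreserving (evLim Ψ) μ μ ∧
      (∀ᵐ x ∂μ, evLim Ψ (evLim Φ x) = x) ∧ (∀ᵐ x ∂μ, evLim Φ (evLim Ψ x) = x) ∧
      (∀ᵐ x ∂μ, ∃ k, ∀ j, k ≤ j → Φ j x = evLim Φ x) ∧
      (∀ k, μ {x | evLim Φ x ≠ Φ k x} ≤ ∑' j, μ {x | Φ (j + k) x ≠ Φ (j + k + 1) x}) := by
  have hs' := I4_sumΨ hΦ hΨ h1 h2 hs
  exact ⟨I4_mp hΦ hs, I4_mp hΨ hs', I4_inv h1 hs, I4_inv h2 hs', I4_ae hs, I4_diff μ Φ⟩

end KAut
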