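import Mathlib

/-!
# MP_33914b_an, file Par
Paper: /team-store/kaut_paper.md

PROOF / HINTS:
parameters
-/
set_option autoImplicit false

namespace KAut

/-- a prime in (n, 2n] -/
noncomputable def bp (n : ℕ) : ℕ :=
  if h : n ≠ 0 then Classical.choose (Nat.exists_prime_lt_and_le_two_mul n h) else 2

theorem bp_prime (n : ℕ) : (bp n).Prime := by
  unfold bp
  split
  · rename_i h
    exact (Classical.choose_spec (Nat.exists_prime_lt_and_le_two_mul n h)).1
  · exact Nat.prime_two

theorem bp_lt {n : ℕ} (h : n ≠ 0) : n < bp n := by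
  unfold bp
  rw [dif_pos h]
  exact (Classical.choose_spec (Nat.exists_prime_lt_and_le_two_mul n h)).2.1

theorem bp_le {n : ℕ} (h : n ≠ 0) : bp n ≤ 2 * n := by
  unfold bp
  rw [dif_pos h]
  exact (Classical.choose_spec (Nat.exists_prime_lt_and_le_two_mul n h)).2.2

/-- the primes `q_k` (number of modes at level `k`) -/
noncomputable def q : ℕ → ℕ
  | 0 => bp (2 ^ 14)
  | k + 1 => bp (8 * q k)

/-- number of reservoir spacers per column -/
noncomputable def sp : ℕ → ℕ
  | 0 => 1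
  | k + 1 => q k ^ 6 * sp k

/-- the ratio `h_k / sp_k` -/
def H : ℕ → ℕ
  | 0 => 4096
  | k + 1 => 4 * H k + 3

/-- height of the level `k` blocks -/
noncomputable def h (k : ℕ) : ℕ := H k * sp k

/-- range of the random offsets -/
noncomputable def S (k : ℕ) : ℕ := q k ^ 4 * h k

/-- number of superblocks -/
noncomputable def U (k : ℕ) : ℕ := 4 * q k

/-- number of sub-blocks in a superblock -/
noncomputable def N (k : ℕ) : ℕ := q k ^ 5

/-- number of sub-blocks in a block -/
noncomputable def L (k : ℕ) : ℕ := U k * N k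

/-- length of a superblock -/
noncomputable def ell (k : ℕ) : ℕ := S k + N k * h k

/-- number of global spacers in a block -/
noncomputable def G (k : ℕ) : ℕ := 3 * sp (k + 1) - U k * S k

theorem q_prime (k : ℕ) : (q k).Prime := by
  cases k with
  | zero => exact bp_prime _
  | succ k => exact bp_prime _

theorem q_zero_lt : 2 ^ 14 < q 0 := bp_lt (by norm_num)

theorem q_pos (k : ℕ) : 0 < q k := (q_prime k).pos

theorem lt_q_succ (k : ℕ) : 8 * q k < q (k + 1) := bp_lt (by have := q_pos k; omega)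

theorem q_succ_le (k : ℕ) : q (k + 1) ≤ 16 * q k := by
  have := bp_le (n := 8 * q k) (by have := q_pos k; omega)
  show bp (8 * q k) ≤ _
  omega

theorem two_pow_lt_q (k : ℕ) : 2 ^ 14 * 8 ^ k < q k := by
  induction k with
  | zero => simpa using q_zero_lt
  | succ k ih =>
    have := lt_q_succ k
    rw [pow_succ]
    omega

theorem q_ge (k : ℕ) : 2 ^ 14 < q k := by
  have h1 := two_pow_lt_q k
  have h2 : 1 ≤ 8 ^ k := Nat.one_le_pow _ _ (by norm_num)
  calc 2 ^ 14 ≤ 2 ^ 14 * 8 ^ k := Nat.le_mul_of_pos_right _ h2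
    _ < q k := h1

theorem H_add_one (k : ℕ) : H k + 1 = 4 ^ k * 4097 := by
  induction k with
  | zero => rfl
  | succ k ih => rw [pow_succ]; show 4 * H k + 3 + 1 = _; omega

theorem two_H_lt_q (k : ℕ) : 2 * H k + 2 ≤ q k := by
  have h1 := two_pow_lt_q k
  have h2 := H_add_one k
  have h3 : 4 ^ k ≤ 8 ^ k := Nat.pow_le_pow_left (by norm_num) k
  have : (2:ℕ)^14 = 16384 := by norm_num
  rw [this] at h1
  calc 2 * H k + 2 = 2 * (H k + 1) := by ring
    _ = 2 * (4 ^ k * 4097) := by rw [h2]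
    _ ≤ 16384 * 8 ^ k := by nlinarith
    _ ≤ q k := le_of_lt h1

theorem H_ge (k : ℕ) : 4096 ≤ H k := by
  induction k with
  | zero => exact le_refl _
  | succ k ih => show 4096 ≤ 4 * H k + 3; omega

theorem sp_pos (k : ℕ) : 0 < sp k := by
  induction k with
  | zero => exact Nat.one_pos
  | succ k ih => exact Nat.mul_pos (pow_pos (q_pos k) 6) ih

theorem h_pos (k : ℕ) : 0 < h k := Nat.mul_pos (by have := H_ge k; omega) (sp_pos k)

theorem S_pos (k : ℕ) : 0 < S k := Nat.mul_pos (pow_pos (q_pos k) 4) (h_pos k)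

theorem U_pos (k : ℕ) : 0 < U k := Nat.mul_pos (by norm_num) (q_pos k)

theorem N_pos (k : ℕ) : 0 < N k := pow_pos (q_pos k) 5

theorem L_pos (k : ℕ) : 0 < L k := Nat.mul_pos (U_pos k) (N_pos k)

theorem ell_pos (k : ℕ) : 0 < ell k := Nat.add_pos_left (S_pos k) _

theorem L_eq (k : ℕ) : L k = 4 * q k ^ 6 := by unfold L U N; ring

theorem sp_succ (k : ℕ) : sp (k + 1) = q k ^ 6 * sp k := rfl

theorem H_succ (k : ℕ) : H (k + 1) = 4 * H k + 3 := rfl

theorem L_mul_sp (k : ℕ) : L k * sp k = 4 * sp (k + 1) := by rw [L_eq, sp_succ]; ring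

theorem S_eq (k : ℕ) : S k = q k ^ 4 * H k * sp k := by unfold S h; ring

/-- `U S + S ≤ 3 sp'` -/
theorem US_add_S_le (k : ℕ) : U k * S k + S k ≤ 3 * sp (k + 1) := by
  rw [S_eq, sp_succ]
  unfold U
  have h1 := two_H_lt_q k
  have h2 := q_pos k
  have key : (4 * q k + 1) * H k ≤ 3 * q k ^ 2 := by nlinarith
  calc 4 * q k * (q k ^ 4 * H k * sp k) + q k ^ 4 * H k * sp k
      = (q k ^ 4 * sp k) * ((4 * q k + 1) * H k) := by ring
    _ ≤ (q k ^ 4 * sp k) * (3 * q k ^ 2) := Nat.mul_le_mul_left _ key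
    _ = 3 * (q k ^ 6 * sp k) := by ring

theorem US_add_G (k : ℕ) : U k * S k + G k = 3 * sp (k + 1) := by
  have := US_add_S_le k
  unfold G
  omega

theorem S_le_G (k : ℕ) : S k ≤ G k := by
  have := US_add_S_le k
  unfold G
  omega

theorem h_succ (k : ℕ) : h (k + 1) = U k * ell k + G k := by
  have h1 := US_add_G k
  have h2 : U k * ell k = U k * S k + L k * h k := by unfold ell L; ring
  have h3 : h (k + 1) = L k * h k + 3 * sp (k + 1) := by
    rw [L_eq]; unfold h; rw [H_succ, sp_succ]; ring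
  omega

theorem h_succ' (k : ℕ) : h (k + 1) = L k * h k + 3 * sp (k + 1) := by
  rw [L_eq]; unfold h; rw [H_succ, sp_succ]; ring

theorem h_add_sp (k : ℕ) : h (k + 1) + sp (k + 1) = L k * (h k + sp k) := by
  rw [h_succ', mul_add, L_mul_sp]; ring

theorem four_q_succ_le (k : ℕ) : 4 * q (k + 1) ≤ q k ^ 2 := by
  have h1 := q_succ_le k
  have h2 := q_ge k
  nlinarith

theorem L_mul_q_le (k : ℕ) : L k * q (k + 1) ≤ q k ^ 8 := by
  rw [L_eq]
  have := four_q_succ_le k
  calc 4 * q k ^ 6 * q (k + 1) = q k ^ 6 * (4 * q (k + 1)) := by ring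
    _ ≤ q k ^ 6 * q k ^ 2 := Nat.mul_le_mul_left _ this
    _ = q k ^ 8 := by ring

theorem ell_eq (k : ℕ) : ell k = (q k ^ 4 + q k ^ 5) * h k := by unfold ell S N; ring

end KAut
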