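import Mathlib

/-!
# MP_33914b_an, file WordDef
Paper: /team-store/kaut_paper.md

PROOF / HINTS:
the universal word
-/
set_option autoImplicit false

namespace KAut

/-- the universal word -/
def W (q m : ℕ) : ℕ :=
  ((m % q) ^ 8 + ∑ j ∈ Finset.range 7, (m / q / q ^ j % q) * (m % q) ^ j) % q

theorem W_lt {q : ℕ} (hq : 0 < q) (m : ℕ) : W q m < q := Nat.mod_lt _ hq

end KAut
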