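import Mathlib
import Pool.Agent.Lib.MP_33914b_an.Par
import Pool.Agent.Lib.MP_33914b_an.WordDef

/-!
# MP_33914b_an, file StageDef
Paper: /team-store/kaut_paper.md

PROOF / HINTS:
types
-/
set_option autoImplicit false

namespace KAut

/-- random offsets `(g_0, (g_u)_{u<U})` of a level `k+1` block -/
abbrev Offs (k : ℕ) : Type := Fin (S k) × (Fin (U k) → Fin (S k))

/-- inner randomness of the level `k` blocks -/
def R : ℕ → Type
  | 0 => Unit
  | k + 1 => Offs k × (Fin (L k) → R k)

noncomputable instance instFintypeR : ∀ k, Fintype (R k)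
  | 0 => inferInstanceAs (Fintype Unit)
  | k + 1 => by
    haveI := instFintypeR k
    classical
    exact inferInstanceAs (Fintype (Offs k × (Fin (L k) → R k)))

instance instNonemptyR : ∀ k, Nonempty (R k)
  | 0 => inferInstanceAs (Nonempty Unit)
  | k + 1 => by
    have := instNonemptyR k
    have : NeZero (S k) := ⟨(S_pos k).ne'⟩
    exact inferInstanceAs (Nonempty (Offs k × (Fin (L k) → R k)))

/-- columns at level `k`: mode and inner randomness -/
abbrev C (k : ℕ) : Type := Fin (q k) × R k

/-- positions in a level `k` column (block positions, reservoir spacers) -/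
abbrev Cell (k : ℕ) : Type := Fin (h k) ⊕ Fin (sp k)

/-- the level `k` space -/
abbrev E (k : ℕ) : Type := C k × Cell k

/-- the inner randomness at level `k+1`, as a pair -/
abbrev mkR {k : ℕ} (ω : Offs k) (ρ : Fin (L k) → R k) : R (k + 1) := (ω, ρ)

/-- offsets of a level `k+1` column -/
def offs {k : ℕ} (c : C (k + 1)) : Offs k := (show Offs k × (Fin (L k) → R k) from c.2).1

/-- inner randomness of the sub-blocks of a level `k+1` column -/
def inner {k : ℕ} (c : C (k + 1)) : Fin (L k) → R k := (show Offs k × (Fin (L k) → R k) from c.2).2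

/-- mode of the `i`-th sub-block of a level `k+1` block of mode `J` -/
noncomputable def w (k : ℕ) (J : Fin (q (k + 1))) (i : Fin (L k)) : Fin (q k) :=
  ⟨W (q k) (L k * J + i), W_lt (q_pos k) _⟩

/-- the `i`-th sub-column -/
noncomputable def sub {k : ℕ} (c : C (k + 1)) (i : Fin (L k)) : C k := (w k c.1 i, inner c i)

/-- offset of superblock `u`: `g_u` if `u < a` (type II), `0` otherwise (type I) -/
noncomputable def ofs (a : ℕ) {k : ℕ} (ω : Offs k) (u : ℕ) : ℕ :=
  if h : u < U k then (if u < a then (ω.2 ⟨u, h⟩ : ℕ) else 0) else 0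

/-- position of the first cell of sub-block `i` -/
noncomputable def pos (a : ℕ) {k : ℕ} (ω : Offs k) (i : ℕ) : ℕ :=
  (ω.1 : ℕ) + (i / N k) * ell k + ofs a ω (i / N k) + (i % N k) * h k

theorem ofs_lt (a : ℕ) {k : ℕ} (ω : Offs k) (u : ℕ) : ofs a ω u < S k := by
  unfold ofs
  split
  · split
    · exact (ω.2 _).2
    · exact S_pos k
  · exact S_pos k

end KAut
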