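import Mathlib
import Pool.Agent.Lib.MP_33914b_an.StageDef

/-!
# MP_33914b_an, file Lay  (ROW ka-Lay)
Paper: /team-store/kaut_paper.md

PROOF / HINTS:
The layout. u = i/N < U, j = i%N < N. pos_add_lt: pos <= S + (U-1) ell + S + (N-1)h etc: g_0 + u ell + ofs_u + j h + p < S + (u+1) ell <= S + U ell <= G + U ell = h (k+1)
(h_succ, S_le_G; inside superblock: ofs_u + j h + p < S + N h = ell).
exists_Lay: build the equivalence as a composition:
 Fin L x (Fin h + Fin sp) = (Fin L x Fin h) + (Fin L x Fin sp);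
 Fin L x Fin sp = Fin (L*sp) = Fin (4 sp') = Fin (U*S) + Fin G + Fin sp'  (US_add_G: U S + G = 3 sp'; L_mul_sp)  and Fin (U*S) = Fin U x Fin S;
 Fin L = Fin U x Fin N (finProdFinEquiv), Fin N x Fin h = Fin (N h);
 for every u: ins(o) : Fin (N h) + Fin S = Fin (S + N h),  inl x |-> o + x,  inr f |-> f if f < o, N h + f otherwise  (o = ofs a w u <= S);
 Fin U x Fin ell = Fin (U ell); then ins(g_0) : Fin (U ell) + Fin G = Fin (h (k+1)).
 Write one lemma for ins (insert a block of length A at offset o <= B into B cells; Fin A + Fin B = Fin (A+B)).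
 The only dependence on a is through ofs a w u; ofs a w u = ofs b w u unless a <= u < b. So Lay a w x and Lay b w x differ only for x in superblocks a <= u < b, which contain
 N h + S = ell cells each: Nat.card <= (b-a) ell. (cells (i, inl p) with i/N = u, and the spacers that correspond to Fin {u} x Fin S.)
-/
set_option autoImplicit false

namespace KAut

theorem pos_add_lt (a : ℕ) {k : ℕ} (ω : Offs k) (i : Fin (L k)) (p : Fin (h k)) :
    pos a ω i + p < h (k + 1) := by
  have h1 : (ω.1 : ℕ) < S k := ω.1.2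
  have h2 := ofs_lt a ω ((i : ℕ) / N k)
  have h3 : (i : ℕ) / N k < U k := by
    rw [Nat.div_lt_iff_lt_mul (N_pos k)]
    exact i.2
  have h4 : (i : ℕ) % N k < N k := Nat.mod_lt _ (N_pos k)
  have h5 : ((i : ℕ) % N k) * h k + p < N k * h k := by
    have h6 : ((i : ℕ) % N k) * h k + h k ≤ N k * h k := by
      have h7 : ((i : ℕ) % N k + 1) * h k ≤ N k * h k := Nat.mul_le_mul_right _ h4
      rw [Nat.add_mul, Nat.one_mul] at h7
      exact h7
    have := p.2
    omega
  have h8 : ((i : ℕ) / N k) * ell k + ell k ≤ U k * ell k := by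
    have h7 : ((i : ℕ) / N k + 1) * ell k ≤ U k * ell k := Nat.mul_le_mul_right _ h3
    rw [Nat.add_mul, Nat.one_mul] at h7
    exact h7
  have h9 : ell k = S k + N k * h k := rfl
  have h10 := S_le_G k
  rw [h_succ]
  unfold pos
  omega

/-- insert a block of length `A` at offset `o ≤ B` into `B` cells -/
def Lay_ins (A B o : ℕ) (ho : o ≤ B) : Fin A ⊕ Fin B ≃ Fin (B + A) where
  toFun x := match x with
    | Sum.inl x => ⟨o + x, by have := x.2; omega⟩
    | Sum.inr f => if f < o then ⟨f, by have := f.2; omega⟩ else ⟨A + f, by have := f.2; omega⟩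
  invFun y := if h1 : y < o then Sum.inr ⟨y, by omega⟩ else
    if h2 : y < o + A then Sum.inl ⟨y - o, by omega⟩ else Sum.inr ⟨y - A, by have := y.2; omega⟩
  left_inv x := by
    rcases x with x | f
    · have h1 : ¬ (o + (x : ℕ) < o) := by omega
      have h2 : o + (x : ℕ) < o + A := by have := x.2; omega
      simp only [h1, h2, dif_neg, dif_pos, not_false_eq_true]
      congr 1
      ext
      simp
    · by_cases hf : (f : ℕ) < o
      · simp only [hf, if_true, dif_pos]
      · have h1 : ¬ (A + (f : ℕ) < o) := by omega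
        have h2 : ¬ (A + (f : ℕ) < o + A) := by omega
        simp only [hf, if_false, h1, h2, dif_neg, not_false_eq_true]
        congr 1
        ext
        simp
  right_inv y := by
    by_cases h1 : (y : ℕ) < o
    · simp only [h1, dif_pos, if_true]
    · by_cases h2 : (y : ℕ) < o + A
      · simp only [h1, h2, dif_neg, dif_pos, not_false_eq_true]
        ext
        simp only
        omega
      · simp only [h1, h2, dif_neg, not_false_eq_true]
        have h3 : ¬ ((y : ℕ) - A < o) := by omega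
        simp only [h3, if_false]
        ext
        simp only
        omega

theorem Lay_ins_inl (A B o : ℕ) (ho : o ≤ B) (x : Fin A) :
    ((Lay_ins A B o ho (Sum.inl x) : Fin (B + A)) : ℕ) = o + x := rfl

/-- the cells of the sub-blocks and the other cells of the superblock `u` -/
noncomputable def Lay_A (k : ℕ) : Fin (L k) × Fin (h k) ≃ Fin (U k) × Fin (N k * h k) :=
  (Equiv.prodCongr (finProdFinEquiv (m := U k) (n := N k)).symm (Equiv.refl (Fin (h k)))).trans
    ((Equiv.prodAssoc _ _ _).trans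
      (Equiv.prodCongr (Equiv.refl (Fin (U k))) (finProdFinEquiv (m := N k) (n := h k))))

theorem Lay_A_fst (k : ℕ) (i : Fin (L k)) (p : Fin (h k)) :
    ((Lay_A k (i, p)).1 : ℕ) = (i : ℕ) / N k := rfl

theorem Lay_A_snd (k : ℕ) (i : Fin (L k)) (p : Fin (h k)) :
    ((Lay_A k (i, p)).2 : ℕ) = p + h k * ((i : ℕ) % N k) := rfl

/-- the spacers -/
noncomputable def Lay_B (k : ℕ) :
    Fin (L k) × Fin (sp k) ≃ (Fin (U k) × Fin (S k)) ⊕ (Fin (G k) ⊕ Fin (sp (k + 1))) :=
  Fintype.equivOfCardEq (by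
    rw [Fintype.card_prod, Fintype.card_sum, Fintype.card_sum, Fintype.card_prod, Fintype.card_fin,
      Fintype.card_fin, Fintype.card_fin, Fintype.card_fin, Fintype.card_fin, Fintype.card_fin,
      L_mul_sp]
    have := US_add_G k
    omega)

/-- the part of the layout which does not depend on the offsets -/
noncomputable def Lay_E0 (k : ℕ) : Fin (L k) × Cell k ≃
    (Fin (U k) × (Fin (N k * h k) ⊕ Fin (S k))) ⊕ (Fin (G k) ⊕ Fin (sp (k + 1))) :=
  (Equiv.prodSumDistrib _ _ _).trans ((Equiv.sumCongr (Lay_A k) (Lay_B k)).trans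
    ((Equiv.sumAssoc _ _ _).symm.trans
      (Equiv.sumCongr (Equiv.prodSumDistrib _ _ _).symm (Equiv.refl _))))

theorem Lay_E0_inl (k : ℕ) (i : Fin (L k)) (p : Fin (h k)) :
    Lay_E0 k (i, Sum.inl p) = Sum.inl ((Lay_A k (i, p)).1, Sum.inl (Lay_A k (i, p)).2) := rfl

/-- the part of the layout which depends on the offsets -/
noncomputable def Lay_M (a : ℕ) {k : ℕ} (ω : Offs k) :
    (Fin (U k) × (Fin (N k * h k) ⊕ Fin (S k))) ⊕ (Fin (G k) ⊕ Fin (sp (k + 1))) ≃ Cell (k + 1) :=
  (Equiv.sumCongr ((Equiv.prodCongrRight fun u : Fin (U k) =>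
      Lay_ins (N k * h k) (S k) (ofs a ω u) (ofs_lt a ω u).le).trans
        (finProdFinEquiv (m := U k) (n := ell k))) (Equiv.refl _)).trans
    ((Equiv.sumAssoc _ _ _).symm.trans
      (Equiv.sumCongr ((Lay_ins (U k * ell k) (G k) ω.1 (ω.1.2.le.trans (S_le_G k))).trans
        (finCongr (by rw [h_succ, Nat.add_comm]))) (Equiv.refl _)))

theorem Lay_M_inl (a : ℕ) {k : ℕ} (ω : Offs k) (u : Fin (U k)) (y : Fin (N k * h k) ⊕ Fin (S k)) :
    Lay_M a ω (Sum.inl (u, y)) = Sum.inl (finCongr (by rw [h_succ, Nat.add_comm])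
      (Lay_ins (U k * ell k) (G k) ω.1 (ω.1.2.le.trans (S_le_G k))
        (Sum.inl (finProdFinEquiv (m := U k) (n := ell k)
          (u, Lay_ins (N k * h k) (S k) (ofs a ω u) (ofs_lt a ω u).le y))))) := rfl

theorem Lay_M_inr (a b : ℕ) {k : ℕ} (ω : Offs k) (z : Fin (G k) ⊕ Fin (sp (k + 1))) :
    Lay_M a ω (Sum.inr z) = Lay_M b ω (Sum.inr z) := by
  rcases z with z | z <;> rfl

theorem Lay_M_eq (a b : ℕ) {k : ℕ} (ω : Offs k) (u : Fin (U k))
    (hu : ofs a ω u = ofs b ω u) (y : Fin (N k * h k) ⊕ Fin (S k)) :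
    Lay_M a ω (Sum.inl (u, y)) = Lay_M b ω (Sum.inl (u, y)) := by
  rw [Lay_M_inl, Lay_M_inl]
  have h1 : ∀ (o o' : ℕ) (ho : o ≤ S k) (ho' : o' ≤ S k), o = o' →
      Lay_ins (N k * h k) (S k) o ho y = Lay_ins (N k * h k) (S k) o' ho' y := by
    intro o o' ho ho' e
    subst e
    rfl
  rw [h1 _ _ _ _ hu]

/-- the layout of a level `k+1` block: where the cells of the sub-columns go -/
theorem exists_Lay (k : ℕ) : ∃ Lay : ℕ → Offs k → (Fin (L k) × Cell k ≃ Cell (k + 1)),
    (∀ a ω i p, Lay a ω (i, Sum.inl p) = Sum.inl ⟨pos a ω i + p, pos_add_lt a ω i p⟩) ∧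
    (∀ a b ω, a ≤ b → Nat.card {x : Fin (L k) × Cell k // Lay a ω x ≠ Lay b ω x} ≤ (b - a) * ell k) := by
  refine ⟨fun a ω => (Lay_E0 k).trans (Lay_M a ω), ?_, ?_⟩
  · intro a ω i p
    rw [Equiv.trans_apply, Lay_E0_inl, Lay_M_inl]
    congr 1
    ext
    show (ω.1 : ℕ) + ((ofs a ω ((Lay_A k (i, p)).1 : ℕ) + ((Lay_A k (i, p)).2 : ℕ)) +
      ell k * ((Lay_A k (i, p)).1 : ℕ)) = pos a ω i + p
    rw [Lay_A_fst, Lay_A_snd]
    unfold pos
    ring
  · intro a b ω hab
    have key : ∀ x : {x : Fin (L k) × Cell k // (Lay_E0 k).trans (Lay_M a ω) x ≠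
        (Lay_E0 k).trans (Lay_M b ω) x}, ∃ (u : Fin (U k)) (y : Fin (N k * h k) ⊕ Fin (S k)),
        Lay_E0 k x.1 = Sum.inl (u, y) ∧ a ≤ (u : ℕ) ∧ (u : ℕ) < b := by
      rintro ⟨x, hx⟩
      rw [Equiv.trans_apply, Equiv.trans_apply] at hx
      rcases hE : Lay_E0 k x with ⟨u, y⟩ | z
      · refine ⟨u, y, rfl, ?_⟩
        rw [hE] at hx
        have h1 : ofs a ω u ≠ ofs b ω u := fun h2 => hx (Lay_M_eq a b ω u h2 y)
        unfold ofs at h1
        rw [dif_pos u.2, dif_pos u.2] at h1
        by_contra hcon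
        rw [not_and_or, not_le, not_lt] at hcon
        rcases hcon with h2 | h2
        · rw [if_pos h2, if_pos (by omega)] at h1
          exact h1 rfl
        · rw [if_neg (by omega), if_neg (by omega)] at h1
          exact h1 rfl
      · rw [hE] at hx
        exact absurd (Lay_M_inr a b ω z) hx
    choose u y hE hu hu' using key
    have hcard : Nat.card (Fin (b - a) × (Fin (N k * h k) ⊕ Fin (S k))) = (b - a) * ell k := by
      rw [Nat.card_eq_fintype_card, Fintype.card_prod, Fintype.card_sum, Fintype.card_fin,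
        Fintype.card_fin, Fintype.card_fin]
      unfold ell
      ring
    rw [← hcard]
    refine Nat.card_le_card_of_injective
      (fun x => ((⟨(u x : ℕ) - a, by have := hu x; have := hu' x; omega⟩ : Fin (b - a)), y x)) ?_
    intro x x' hxx
    have h1 := congrArg Prod.fst hxx
    have h2 : y x = y x' := congrArg Prod.snd hxx
    have h3 : (u x : ℕ) - a = (u x' : ℕ) - a := congrArg Fin.val h1
    have h4 : u x = u x' := by
      ext
      have := hu x
      have := hu x'
      omega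
    apply Subtype.ext
    apply (Lay_E0 k).injective
    rw [hE x, hE x', h4, h2]

noncomputable def Lay (a : ℕ) {k : ℕ} (ω : Offs k) : Fin (L k) × Cell k ≃ Cell (k + 1) :=
  Classical.choose (exists_Lay k) a ω

theorem Lay_inl (a : ℕ) {k : ℕ} (ω : Offs k) (i : Fin (L k)) (p : Fin (h k)) :
    Lay a ω (i, Sum.inl p) = Sum.inl ⟨pos a ω i + p, pos_add_lt a ω i p⟩ :=
  (Classical.choose_spec (exists_Lay k)).1 a ω i p

theorem Lay_ne_card (a b : ℕ) {k : ℕ} (ω : Offs k) (hab : a ≤ b) :
    Nat.card {x : Fin (L k) × Cell k // Lay a ω x ≠ Lay b ω x} ≤ (b - a) * ell k :=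
  (Classical.choose_spec (exists_Lay k)).2 a b ω hab

end KAut
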