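import Mathlib
import Pool.Agent.Lib.MP_33914b_an.WordDef

/-!
# MP_33914b_an, file W0  (ROW ka-W0)
Paper: /team-store/kaut_paper.md

PROOF / HINTS:
(W0) On an aligned interval [q^2 B, q^2(B+1)): write i = q c + b with c, b < q (Nat.div_add_mod). m = q^2 B + i = q (q B + c) + b, so m % q = b,
m / q = q B + c, digits: (m/q)/q^j % q is c for j = 0 and does not depend on c for j >= 1 (for j>=1: (qB+c)/q = B). So W = (c + const_b) % q and for
every b exactly one c gives the value v. W0_total: sum over the M aligned intervals (range (q^2*M) is a disjoint union).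
-/
set_option autoImplicit false

namespace KAut

theorem W0_W_eq {q : ℕ} (hq : 0 < q) (B c b : ℕ) (hc : c < q) (hb : b < q) :
    W q (q ^ 2 * B + (q * c + b)) =
      (c + (b ^ 8 + ∑ j ∈ Finset.range 6, (B / q ^ j % q) * b ^ (j + 1))) % q := by
  have h1 : q ^ 2 * B + (q * c + b) = q * (q * B + c) + b := by ring
  have h2 : (q * (q * B + c) + b) % q = b := by
    rw [Nat.mul_add_mod, Nat.mod_eq_of_lt hb]
  have h3 : (q * (q * B + c) + b) / q = q * B + c := by
    rw [Nat.mul_add_div hq, Nat.div_eq_of_lt hb, add_zero]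
  have h4 : (q * B + c) % q = c := by
    rw [Nat.mul_add_mod, Nat.mod_eq_of_lt hc]
  have h5 : (q * B + c) / q = B := by
    rw [Nat.mul_add_div hq, Nat.div_eq_of_lt hc, add_zero]
  unfold W
  rw [h1, h2, h3, Finset.sum_range_succ']
  congr 1
  have h6 : ∀ j, (q * B + c) / q ^ (j + 1) = B / q ^ j := by
    intro j
    rw [pow_succ', ← Nat.div_div_eq_div_mul, h5]
  simp only [h6, pow_zero, Nat.div_one, h4, mul_one]
  ring

theorem W0_one {q : ℕ} (hq : 0 < q) (K v : ℕ) (hv : v < q) :
    ((Finset.range q).filter (fun c => (c + K) % q = v)).card = 1 := by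
  rw [Finset.card_eq_one]
  have h1 : ((v + (q - 1) * K) % q + K) % q = v := by
    rw [Nat.mod_add_mod]
    have h2 : v + (q - 1) * K + K = v + q * K := by
      obtain ⟨m, rfl⟩ : ∃ m, q = m + 1 := ⟨q - 1, by omega⟩
      rw [Nat.add_sub_cancel]
      ring
    rw [h2, Nat.add_mul_mod_self_left, Nat.mod_eq_of_lt hv]
  refine ⟨(v + (q - 1) * K) % q, ?_⟩
  ext c
  rw [Finset.mem_filter, Finset.mem_range, Finset.mem_singleton]
  constructor
  · rintro ⟨hc, hc2⟩
    have h3 : c + K ≡ (v + (q - 1) * K) % q + K [MOD q] := by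
      unfold Nat.ModEq
      rw [hc2, h1]
    have h4 := Nat.ModEq.add_right_cancel' K h3
    unfold Nat.ModEq at h4
    rw [Nat.mod_eq_of_lt hc, Nat.mod_mod] at h4
    exact h4
  · intro hc
    rw [hc]
    exact ⟨Nat.mod_lt _ hq, h1⟩

/-- (W0) -/
theorem W0 {q : ℕ} (hq : q.Prime) (B v : ℕ) (hv : v < q) :
    ((Finset.range (q ^ 2)).filter (fun i => W q (q ^ 2 * B + i) = v)).card = q := by
  have hq0 : 0 < q := hq.pos
  have h1 : ((Finset.range (q ^ 2)).filter (fun i => W q (q ^ 2 * B + i) = v)).card =
      ((Finset.range q).sigma (fun b => (Finset.range q).filter (fun c =>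
        (c + (b ^ 8 + ∑ j ∈ Finset.range 6, (B / q ^ j % q) * b ^ (j + 1))) % q = v))).card := by
    symm
    refine Finset.card_bij (fun x _ => q * x.2 + x.1) ?_ ?_ ?_
    · rintro ⟨b, c⟩ hx
      rw [Finset.mem_sigma, Finset.mem_range, Finset.mem_filter, Finset.mem_range] at hx
      obtain ⟨hb, hc, hw⟩ := hx
      rw [Finset.mem_filter, Finset.mem_range]
      refine ⟨?_, ?_⟩
      · change q * c + b < q ^ 2
        change c < q at hc
        change b < q at hb
        calc q * c + b < q * c + q := by omega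
          _ = q * (c + 1) := by ring
          _ ≤ q * q := Nat.mul_le_mul_left _ hc
          _ = q ^ 2 := by ring
      · change W q (q ^ 2 * B + (q * c + b)) = v
        rw [W0_W_eq hq0 B c b hc hb]
        exact hw
    · rintro ⟨b, c⟩ hx ⟨b', c'⟩ hx' heq
      rw [Finset.mem_sigma, Finset.mem_range, Finset.mem_filter, Finset.mem_range] at hx hx'
      change q * c + b = q * c' + b' at heq
      have hb : b < q := hx.1
      have hb' : b' < q := hx'.1
      have e1 : b = b' := by
        have := congrArg (fun t => t % q) heq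
        simpa [Nat.mul_add_mod, Nat.mod_eq_of_lt hb, Nat.mod_eq_of_lt hb'] using this
      subst e1
      have e2 : q * c = q * c' := by omega
      have e3 : c = c' := Nat.eq_of_mul_eq_mul_left hq0 e2
      subst e3
      rfl
    · intro i hi
      rw [Finset.mem_filter, Finset.mem_range] at hi
      have hdm : q * (i / q) + i % q = i := Nat.div_add_mod i q
      have hb : i % q < q := Nat.mod_lt _ hq0
      have hc : i / q < q := by
        rw [Nat.div_lt_iff_lt_mul hq0, ← sq]
        exact hi.1
      refine ⟨⟨i % q, i / q⟩, ?_, hdm⟩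
      rw [Finset.mem_sigma, Finset.mem_range, Finset.mem_filter, Finset.mem_range]
      refine ⟨hb, hc, ?_⟩
      have h2 := hi.2
      rw [← hdm, W0_W_eq hq0 B (i / q) (i % q) hc hb] at h2
      exact h2
  rw [h1, Finset.card_sigma]
  rw [Finset.sum_congr rfl (fun b _ => W0_one hq0 _ v hv)]
  simp

/-- (W0) summed -/
theorem W0_total {q : ℕ} (hq : q.Prime) (M v : ℕ) (hv : v < q) :
    ((Finset.range (q ^ 2 * M)).filter (fun i => W q i = v)).card = q * M := by
  induction M with
  | zero => simp
  | succ M ih =>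
    have h1 := W0 hq M v hv
    rw [Finset.card_filter] at ih h1 ⊢
    rw [mul_add, mul_one, Finset.sum_range_add, ih, h1]
    ring

end KAut
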