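import Mathlib
import Pool.Agent.Lib.MP_33914b_an.StageDef
import Pool.Agent.Lib.MP_33914b_an.W0

/-!
# MP_33914b_an, file Theta  (ROW ka-Theta)
Paper: /team-store/kaut_paper.md

PROOF / HINTS:
card_w_eq: (J,i) |-> L J + i is a bijection Fin q' x Fin L = Fin (L q'), L q' = q^2 * (4 q^4 q'), W0_total gives q * (4 q^4 q') = n' k.
exists_theta: for every mode v choose a bijection b_v : Fin (n' k) = {(J',i) | w J' i = v} (card_w_eq). theta ((J,rho),(z1,om,rest)) = ((J',(om, rho vector)), i) with (J',i) = b_J z1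
and rho vector = rho at i, rest at the other places (an equivalence {i' // i' != i} = Fin (L-1), or Equiv.piSplitAt / Fin.insertNthEquiv after writing L = (L-1)+1).
R (k+1) is by definition Offs k x (Fin L -> R k); use mkR, offs, inner.
-/
set_option autoImplicit false

namespace KAut

/-- number of occurrences of every mode -/
noncomputable def n' (k : ℕ) : ℕ := 4 * q k ^ 5 * q (k + 1)

/-- the choices made when a level `k` column is put into a level `k+1` column -/
abbrev Z (k : ℕ) : Type := Fin (n' k) × Offs k × (Fin (L k - 1) → R k)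

noncomputable instance instFintypeZ (k : ℕ) : Fintype (Z k) := by
  classical
  exact inferInstance

instance instNonemptyZ (k : ℕ) : Nonempty (Z k) := by
  have : NeZero (S k) := ⟨(S_pos k).ne'⟩
  have : NeZero (n' k) := ⟨by
    have h1 := q_pos k
    have h2 := q_pos (k + 1)
    unfold n'
    positivity⟩
  exact inferInstance

theorem Theta_card_fin (M : ℕ) (p : ℕ → Prop) [DecidablePred p] :
    Nat.card {x : Fin M // p x.1} = ((Finset.range M).filter p).card := by
  rw [Nat.card_eq_fintype_card, ← Fintype.card_coe]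
  refine Fintype.card_congr ⟨fun x => ⟨x.1.1, ?_⟩, fun y => ⟨⟨y.1, ?_⟩, ?_⟩, fun x => rfl, fun y => rfl⟩
  · exact Finset.mem_filter.2 ⟨Finset.mem_range.2 x.1.2, x.2⟩
  · exact Finset.mem_range.1 (Finset.mem_filter.1 y.2).1
  · exact (Finset.mem_filter.1 y.2).2

/-- by (W0) every mode occurs `n' k` times in the words of level `k+1` -/
theorem card_w_eq (k : ℕ) (v : Fin (q k)) :
    Nat.card {x : Fin (q (k + 1)) × Fin (L k) // w k x.1 x.2 = v} = n' k := by
  classical
  have h1 : Nat.card {x : Fin (q (k + 1)) × Fin (L k) // w k x.1 x.2 = v} =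
      Nat.card {y : Fin (q (k + 1) * L k) // W (q k) y.1 = v.1} := by
    refine Nat.card_congr (Equiv.subtypeEquiv finProdFinEquiv fun x => ?_)
    rw [Fin.ext_iff]
    show W (q k) (L k * x.1 + x.2) = v.1 ↔ W (q k) (x.2 + L k * x.1) = v.1
    rw [Nat.add_comm]
  rw [h1, Theta_card_fin (q (k + 1) * L k) (fun y => W (q k) y = v.1)]
  have h2 : q (k + 1) * L k = q k ^ 2 * (4 * q k ^ 4 * q (k + 1)) := by
    rw [L_eq]
    ring
  rw [h2, W0_total (q_prime k) _ v.1 v.2]
  unfold n'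
  ring

/-- insert one coordinate -/
theorem Theta_ins {A : Type} {m n : ℕ} (hmn : m = n + 1) (i : Fin m) :
    ∃ I : A × (Fin n → A) ≃ (Fin m → A), (∀ r f, I (r, f) i = r) ∧
      ∀ r r' f j, j ≠ i → I (r, f) j = I (r', f) j := by
  subst hmn
  refine ⟨Fin.insertNthEquiv (fun _ => A) i, ?_, ?_⟩
  · intro r f
    simp
  · intro r r' f j hj
    obtain ⟨j', rfl⟩ := Fin.exists_succAbove_eq hj
    simp

/-- a map with fibres of equal size -/
theorem Theta_fib {A V : Type} [Finite A] (w' : A → V) (n : ℕ)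
    (hn : ∀ v, Nat.card {x : A // w' x = v} = n) :
    ∃ B : V × Fin n ≃ A, ∀ x, w' (B x) = x.1 := by
  classical
  have h1 : ∀ v : V, Nonempty (Fin n ≃ {x : A // w' x = v}) := by
    intro v
    exact ⟨(Finite.equivFinOfCardEq (hn v)).symm⟩
  let e : ∀ v : V, Fin n ≃ {x : A // w' x = v} := fun v => Classical.choice (h1 v)
  refine ⟨(Equiv.sigmaEquivProd V (Fin n)).symm.trans
    ((Equiv.sigmaCongrRight e).trans (Equiv.sigmaFiberEquiv w')), ?_⟩
  rintro ⟨v, z⟩
  exact (e v z).2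

/-- the positions of the modes -/
theorem Theta_B (k : ℕ) : ∃ B : Fin (q k) × Fin (n' k) ≃ Fin (q (k + 1)) × Fin (L k),
    ∀ x, w k (B x).1 (B x).2 = x.1 := by
  obtain ⟨B, hB⟩ := Theta_fib (fun x : Fin (q (k + 1)) × Fin (L k) => w k x.1 x.2) (n' k)
    (card_w_eq k)
  exact ⟨B, hB⟩

theorem exists_theta (k : ℕ) : ∃ θ : C k × Z k ≃ C (k + 1) × Fin (L k),
    (∀ x, sub (θ x).1 (θ x).2 = x.1) ∧
    (∀ (J : Fin (q k)) (ρ ρ' : R k) (z : Z k),
      (θ ((J, ρ), z)).2 = (θ ((J, ρ'), z)).2 ∧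
      (θ ((J, ρ), z)).1.1 = (θ ((J, ρ'), z)).1.1 ∧
      offs (θ ((J, ρ), z)).1 = offs (θ ((J, ρ'), z)).1 ∧
      ∀ i, i ≠ (θ ((J, ρ), z)).2 → inner (θ ((J, ρ), z)).1 i = inner (θ ((J, ρ'), z)).1 i) := by
  obtain ⟨B, hB⟩ := Theta_B k
  have hL : L k = L k - 1 + 1 := by
    have := L_pos k
    omega
  choose I hI1 hI2 using fun i : Fin (L k) => Theta_ins (A := R k) hL i
  let θ : C k × Z k ≃ C (k + 1) × Fin (L k) :=
    { toFun := fun y => (((B (y.1.1, y.2.1)).1,
        mkR y.2.2.1 (I (B (y.1.1, y.2.1)).2 (y.1.2, y.2.2.2))), (B (y.1.1, y.2.1)).2)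
      invFun := fun y => (((B.symm (y.1.1, y.2)).1, ((I y.2).symm (inner y.1)).1),
        ((B.symm (y.1.1, y.2)).2, offs y.1, ((I y.2).symm (inner y.1)).2))
      left_inv := by
        rintro ⟨⟨J, ρ⟩, ⟨z, om, rest⟩⟩
        simp [offs, inner]
      right_inv := by
        rintro ⟨⟨J, ρ⟩, i⟩
        simp [offs, inner] }
  refine ⟨θ, ?_, ?_⟩
  · rintro ⟨⟨J, ρ⟩, ⟨z, om, rest⟩⟩
    show (w k (B (J, z)).1 (B (J, z)).2, I (B (J, z)).2 (ρ, rest) (B (J, z)).2) = (J, ρ)
    rw [hB, hI1]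
  · rintro J ρ ρ' ⟨z, om, rest⟩
    refine ⟨rfl, rfl, rfl, ?_⟩
    intro i hi
    exact hI2 (B (J, z)).2 ρ ρ' rest i hi

/-- `C k × Z k ≃ C (k+1) × Fin (L k)` -/
noncomputable def theta (k : ℕ) : C k × Z k ≃ C (k + 1) × Fin (L k) := Classical.choose (exists_theta k)

theorem sub_theta {k : ℕ} (x : C k × Z k) : sub (theta k x).1 (theta k x).2 = x.1 :=
  (Classical.choose_spec (exists_theta k)).1 x

theorem theta_par {k : ℕ} (J : Fin (q k)) (ρ ρ' : R k) (z : Z k) :
    (theta k ((J, ρ), z)).2 = (theta k ((J, ρ'), z)).2 ∧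
      (theta k ((J, ρ), z)).1.1 = (theta k ((J, ρ'), z)).1.1 ∧
      offs (theta k ((J, ρ), z)).1 = offs (theta k ((J, ρ'), z)).1 ∧
      ∀ i, i ≠ (theta k ((J, ρ), z)).2 →
        inner (theta k ((J, ρ), z)).1 i = inner (theta k ((J, ρ'), z)).1 i :=
  (Classical.choose_spec (exists_theta k)).2 J ρ ρ' z

end KAut
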