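import Mathlib
import Pool.Agent.Lib.MP_33914b_an.Lay
import Pool.Agent.Lib.MP_33914b_an.Theta

/-!
# MP_33914b_an, file Up  (ROW ka-Up)
Paper: /team-store/kaut_paper.md

PROOF / HINTS:
down1_Lay: by surjectivity of theta write (c,i) = theta (c0,z); then up a ((c0,r),z) = (c, Lay a (offs c) (i,r)) and sub c i = c0 (sub_theta).
tk_inl: finRotate on p with p+1<h (finRotate_of_lt or Fin computations). up_tk: c' = (theta (c,z)).1, p' = pos a (offs c') i + p (Lay_inl, pos_add_lt at p+1).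
up_ne_card: E x Z = (via theta) C' x (Fin L x Cell); up a x != up b x iff Lay a (offs c') y != Lay b (offs c') y; so Nat.card <= card C' * (b-a) ell (Lay_ne_card);
card (E x Z) = card C' * L (h+sp) = card C' (h'+sp') >= card C' * U ell (h_add_sp, h_succ).
-/
set_option autoImplicit false

namespace KAut

/-- `E k × Z k ≃ E (k+1)`, depending on the parameter `a = a_k` -/
noncomputable def up (a k : ℕ) : E k × Z k ≃ E (k + 1) where
  toFun x := ((theta k (x.1.1, x.2)).1,
    Lay a (offs (theta k (x.1.1, x.2)).1) ((theta k (x.1.1, x.2)).2, x.1.2))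
  invFun y :=
    let ir := (Lay a (offs y.1)).symm y.2
    let cz := (theta k).symm (y.1, ir.1)
    ((cz.1, ir.2), cz.2)
  left_inv := by
    rintro ⟨⟨c, r⟩, z⟩
    simp
  right_inv := by
    rintro ⟨c, r⟩
    simp

/-- the level `k` coordinate of a level `k+1` point -/
noncomputable def down1 (a : ℕ) {k : ℕ} (e : E (k + 1)) : E k := ((up a k).symm e).1

/-- the digit of a level `k+1` point -/
noncomputable def dig (a : ℕ) {k : ℕ} (e : E (k + 1)) : Z k := ((up a k).symm e).2

theorem up_eta (a : ℕ) {k : ℕ} (e : E (k + 1)) : up a k (down1 a e, dig a e) = e := by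
  unfold down1 dig
  simp

@[simp] theorem down1_up (a : ℕ) {k : ℕ} (e : E k) (z : Z k) : down1 a (up a k (e, z)) = e := by
  unfold down1
  simp

@[simp] theorem dig_up (a : ℕ) {k : ℕ} (e : E k) (z : Z k) : dig a (up a k (e, z)) = z := by
  unfold dig
  simp

/-- `down1 (c', r') = (sub c' i, r)` where `(i, r) = Lay⁻¹ r'` -/
theorem down1_Lay (a : ℕ) {k : ℕ} (c : C (k + 1)) (i : Fin (L k)) (r : Cell k) :
    down1 a (c, Lay a (offs c) (i, r)) = (sub c i, r) := by
  obtain ⟨⟨c0, z⟩, hz⟩ := (theta k).surjective (c, i)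
  have h1 : (theta k (c0, z)).1 = c := by rw [hz]
  have h2 : (theta k (c0, z)).2 = i := by rw [hz]
  have h3 : up a k ((c0, r), z) = (c, Lay a (offs c) (i, r)) := by
    change ((theta k (c0, z)).1, Lay a (offs (theta k (c0, z)).1) ((theta k (c0, z)).2, r)) = _
    rw [h1, h2]
  have h4 := sub_theta (c0, z)
  rw [h1, h2] at h4
  rw [← h3, down1_up, h4]

/-- position `pos i + p` belongs to sub-block `i` -/
theorem down1_pos (a : ℕ) {k : ℕ} (c : C (k + 1)) (i : Fin (L k)) (p : Fin (h k)) :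
    down1 a (c, Sum.inl ⟨pos a (offs c) i + p, pos_add_lt a (offs c) i p⟩) = (sub c i, Sum.inl p) := by
  rw [← Lay_inl, down1_Lay]

/-- composition of `down1`: from level `m + d` to level `m` -/
noncomputable def down (a : ℕ → ℕ) (m : ℕ) : ∀ d : ℕ, E (m + d) → E m
  | 0, e => e
  | d + 1, e => down a m d (down1 (a (m + d)) (k := m + d) e)

/-- from level `k` to level `0` -/
noncomputable def down0 (a : ℕ → ℕ) : ∀ k : ℕ, E k → E 0
  | 0, e => e
  | k + 1, e => down0 a k (down1 (a k) e)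

/-- one step up in the block: `(c, p) ↦ (c, p+1)` cyclically, spacers fixed -/
noncomputable def tk (k : ℕ) : Equiv.Perm (E k) :=
  Equiv.prodCongr (Equiv.refl _) (Equiv.sumCongr (finRotate (h k)) (Equiv.refl _))

theorem Up_rot (n p : ℕ) (hp : p + 1 < n) (hp0 : p < n) :
    finRotate n ⟨p, hp0⟩ = ⟨p + 1, hp⟩ := by
  cases n with
  | zero => omega
  | succ n => exact finRotate_of_lt (by omega)

theorem tk_inl {k : ℕ} (c : C k) (p : ℕ) (hp : p + 1 < h k) :
    tk k (c, Sum.inl ⟨p, by omega⟩) = (c, Sum.inl ⟨p + 1, hp⟩) := by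
  have h1 := Up_rot (h k) p hp (by omega)
  simp only [tk, Equiv.prodCongr_apply, Prod.map_apply, Equiv.refl_apply,
    Equiv.sumCongr_apply, Sum.map_inl, h1]

theorem Up_apply_inl (a : ℕ) {k : ℕ} (c : C k) (p : Fin (h k)) (z : Z k) :
    up a k ((c, Sum.inl p), z) = ((theta k (c, z)).1,
      Sum.inl ⟨pos a (offs (theta k (c, z)).1) (theta k (c, z)).2 + p,
        pos_add_lt a (offs (theta k (c, z)).1) (theta k (c, z)).2 p⟩) := by
  rw [← Lay_inl]
  rfl

/-- `up` commutes with the step below the top of the block -/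
theorem up_tk (a : ℕ) {k : ℕ} (c : C k) (p : ℕ) (hp : p + 1 < h k) (z : Z k) :
    ∃ (c' : C (k + 1)) (p' : ℕ) (hp' : p' + 1 < h (k + 1)),
      up a k ((c, Sum.inl ⟨p, by omega⟩), z) = (c', Sum.inl ⟨p', by omega⟩) ∧
      up a k ((c, Sum.inl ⟨p + 1, hp⟩), z) = (c', Sum.inl ⟨p' + 1, hp'⟩) := by
  refine ⟨(theta k (c, z)).1, pos a (offs (theta k (c, z)).1) (theta k (c, z)).2 + p,
    pos_add_lt a (offs (theta k (c, z)).1) (theta k (c, z)).2 ⟨p + 1, hp⟩, ?_, ?_⟩
  · rw [Up_apply_inl]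
  · rw [Up_apply_inl]
    rfl

/-- `E k × Z k` as columns of the next level times cells -/
noncomputable def Up_eqv (k : ℕ) : E k × Z k ≃ C (k + 1) × (Fin (L k) × Cell k) where
  toFun x := ((theta k (x.1.1, x.2)).1, ((theta k (x.1.1, x.2)).2, x.1.2))
  invFun y := ((((theta k).symm (y.1, y.2.1)).1, y.2.2), ((theta k).symm (y.1, y.2.1)).2)
  left_inv := by
    rintro ⟨⟨c, r⟩, z⟩
    simp
  right_inv := by
    rintro ⟨c, i, r⟩
    simp

theorem Up_eqv_up (a : ℕ) {k : ℕ} (x : E k × Z k) :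
    up a k x = ((Up_eqv k x).1, Lay a (offs (Up_eqv k x).1) (Up_eqv k x).2) := rfl

theorem Up_ne_iff (a b : ℕ) {k : ℕ} (x : E k × Z k) :
    up a k x ≠ up b k x ↔
      Lay a (offs (Up_eqv k x).1) (Up_eqv k x).2 ≠ Lay b (offs (Up_eqv k x).1) (Up_eqv k x).2 := by
  rw [Up_eqv_up, Up_eqv_up]
  simp only [ne_eq, Prod.mk.injEq, true_and]

/-- number of `(e,z)` on which `up a` and `up b` differ -/
theorem up_ne_card (a b k : ℕ) (hab : a ≤ b) :
    Nat.card {x : E k × Z k // up a k x ≠ up b k x} * U k ≤ (b - a) * Nat.card (E k × Z k) := by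
  have e1 : {x : E k × Z k // up a k x ≠ up b k x} ≃
      {y : C (k + 1) × (Fin (L k) × Cell k) // Lay a (offs y.1) y.2 ≠ Lay b (offs y.1) y.2} :=
    (Up_eqv k).subtypeEquiv (fun x => Up_ne_iff a b x)
  have e2 : {y : C (k + 1) × (Fin (L k) × Cell k) // Lay a (offs y.1) y.2 ≠ Lay b (offs y.1) y.2} ≃
      Σ c : C (k + 1), {y : Fin (L k) × Cell k // Lay a (offs c) y ≠ Lay b (offs c) y} :=
    { toFun := fun y => ⟨y.1.1, y.1.2, y.2⟩
      invFun := fun y => ⟨(y.1, y.2.1), y.2.2⟩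
      left_inv := fun _ => rfl
      right_inv := fun _ => rfl }
  have h1 : Nat.card {x : E k × Z k // up a k x ≠ up b k x}
      ≤ Nat.card (C (k + 1)) * ((b - a) * ell k) := by
    rw [Nat.card_congr (e1.trans e2), Nat.card_sigma]
    calc ∑ c : C (k + 1), Nat.card {y : Fin (L k) × Cell k // Lay a (offs c) y ≠ Lay b (offs c) y}
        ≤ ∑ _c : C (k + 1), (b - a) * ell k :=
          Finset.sum_le_sum (fun c _ => Lay_ne_card a b (offs c) hab)
      _ = Nat.card (C (k + 1)) * ((b - a) * ell k) := by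
          rw [Finset.sum_const, Finset.card_univ, smul_eq_mul, Nat.card_eq_fintype_card]
  have h2 : Nat.card (E k × Z k) = Nat.card (C (k + 1)) * (h (k + 1) + sp (k + 1)) := by
    rw [Nat.card_congr (Up_eqv k), Nat.card_prod, Nat.card_prod, h_add_sp]
    congr 2
    simp
  have h3 : U k * ell k ≤ h (k + 1) + sp (k + 1) := by
    have := h_succ k
    omega
  rw [h2]
  calc Nat.card {x : E k × Z k // up a k x ≠ up b k x} * U k
      ≤ Nat.card (C (k + 1)) * ((b - a) * ell k) * U k := Nat.mul_le_mul_right _ h1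
    _ = (b - a) * (Nat.card (C (k + 1)) * (U k * ell k)) := by ring
    _ ≤ (b - a) * (Nat.card (C (k + 1)) * (h (k + 1) + sp (k + 1))) :=
        Nat.mul_le_mul_left _ (Nat.mul_le_mul_left _ h3)

end KAut
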