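import Mathlib
import Pool.Agent.Lib.MP_33914b_an.Up
import Pool.Agent.Lib.MP_33914b_an.I2
import Pool.Agent.Lib.MP_33914b_an.I3
import Pool.Agent.Lib.MP_33914b_an.I4

/-!
# MP_33914b_an, file TDef
Paper: /team-store/kaut_paper.md
-/
set_option autoImplicit false

open MeasureTheory

namespace KAut

noncomputable instance instFintypeC (k : ℕ) : Fintype (C k) := inferInstance

noncomputable instance instFintypeE (k : ℕ) : Fintype (E k) := inferInstance

instance instNonemptyC (k : ℕ) : Nonempty (C k) := by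
  have : NeZero (q k) := ⟨(q_pos k).ne'⟩
  exact inferInstance

instance instNonemptyE (k : ℕ) : Nonempty (E k) := by
  have : NeZero (h k) := ⟨(h_pos k).ne'⟩
  exact inferInstance

/-- number of choices at stage `k` -/
noncomputable def nn (k : ℕ) : ℕ := Fintype.card (Z k)

/-- number of intervals at level `k` (`= card (E k)`) -/
noncomputable def NN : ℕ → ℕ
  | 0 => Fintype.card (E 0)
  | k + 1 => NN k * nn k

instance instNeZero_nn (k : ℕ) : NeZero (nn k) := ⟨Fintype.card_ne_zero⟩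

theorem NN_ne_zero : ∀ k, NN k ≠ 0
  | 0 => Fintype.card_ne_zero
  | k + 1 => Nat.mul_ne_zero (NN_ne_zero k) (NeZero.ne _)

instance instNeZero_NN (k : ℕ) : NeZero (NN k) := ⟨NN_ne_zero k⟩

/-- coordinates at level `k` -/
noncomputable def coord (a : ℕ → ℕ) : ∀ k, Fin (NN k) ≃ E k
  | 0 => (Fintype.equivFin (E 0)).symm
  | k + 1 => finProdFinEquiv.symm.trans
      ((Equiv.prodCongr (coord a k) (Fintype.equivFin (Z k)).symm).trans (up (a k) k))

/-- the level `k` coordinate of a point `x ∈ [0,1)` -/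
noncomputable def X (a : ℕ → ℕ) (k : ℕ) (x : ℝ) : E k := coord a k (Y (NN k) x)

/-- the digits above level `k`, as a fractional part -/
noncomputable def fr (k : ℕ) (x : ℝ) : ℝ := Int.fract ((NN k : ℝ) * x)

/-- the action of a permutation of `E k` on `[0,1)` -/
noncomputable def act (a : ℕ → ℕ) (k : ℕ) (π : Equiv.Perm (E k)) : ℝ → ℝ :=
  IE (NN k) ((coord a k).trans (π.trans (coord a k).symm))

theorem measurePreserving_act (a : ℕ → ℕ) (k : ℕ) (π : Equiv.Perm (E k)) :
    MeasurePreserving (act a k π) lam lam := measurePreserving_IE _ _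

theorem act_mem (a : ℕ → ℕ) (k : ℕ) (π : Equiv.Perm (E k)) {x : ℝ} (hx : x ∈ Set.Ico (0 : ℝ) 1) :
    act a k π x ∈ Set.Ico (0 : ℝ) 1 := IE_mem _ hx

theorem X_act (a : ℕ → ℕ) (k : ℕ) (π : Equiv.Perm (E k)) {x : ℝ} (hx : x ∈ Set.Ico (0 : ℝ) 1) :
    X a k (act a k π x) = π (X a k x) := by
  unfold X act
  rw [Y_IE _ hx]
  simp

theorem fr_act (a : ℕ → ℕ) (k : ℕ) (π : Equiv.Perm (E k)) {x : ℝ} (hx : x ∈ Set.Ico (0 : ℝ) 1) :
    fr k (act a k π x) = fr k x := fract_IE _ hx

theorem ext_X (a : ℕ → ℕ) (k : ℕ) {x y : ℝ} (hx : x ∈ Set.Ico (0 : ℝ) 1) (hy : y ∈ Set.Ico (0 : ℝ) 1)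
    (h1 : X a k x = X a k y) (h2 : fr k x = fr k y) : x = y :=
  ext_Y hx hy ((coord a k).injective h1) h2

/-- the digit of stage `k` of a point, as a function of `fr k x` -/
noncomputable def digit (k : ℕ) (x : ℝ) : Z k := (Fintype.equivFin (Z k)).symm (Y (nn k) (fr k x))

theorem digit_congr (k : ℕ) {x y : ℝ} (hf : fr k x = fr k y) : digit k x = digit k y := by
  unfold digit
  rw [hf]

/-- the finite approximations of `T a` -/
noncomputable def Tk (a : ℕ → ℕ) (k : ℕ) : ℝ → ℝ := act a k (tk k)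

/-- the transformation `T_a` -/
noncomputable def T (a : ℕ → ℕ) : ℝ → ℝ := evLim (Tk a)

/-- its inverse (a.e.) -/
noncomputable def Tinv (a : ℕ → ℕ) : ℝ → ℝ := evLim (fun k => act a k (tk k).symm)

/-- finite approximations of the isomorphism from `T a` to `T b` -/
noncomputable def Phik (a b : ℕ → ℕ) (k : ℕ) : ℝ → ℝ :=
  IE (NN k) ((coord a k).trans (coord b k).symm)

noncomputable def Phi (a b : ℕ → ℕ) : ℝ → ℝ := evLim (Phik a b)

end KAut
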