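import Mathlib
import Pool.Agent.Lib.MP_33914b_an.TDef

/-!
# MP_33914b_an, file T1  (ROW ka-T1)
Paper: /team-store/kaut_paper.md

PROOF / HINTS:
X_succ: unfold coord, Y_mul (I3). fr_succ_congr: fract_mul. card_E: induction, up is an equivalence. lam_X: lam_Y (I2) with the finset of indices y with coord a k y in s.
-/
set_option autoImplicit false

open MeasureTheory

namespace KAut

theorem X_succ (a : ℕ → ℕ) (k : ℕ) {x : ℝ} (hx : x ∈ Set.Ico (0 : ℝ) 1) :
    X a (k + 1) x = up (a k) k (X a k x, digit k x) := by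
  have h1 := Y_mul (n := NN k) (m := nn k) hx
  exact congrArg (fun z => up (a k) k (Prod.map (coord a k) (Fintype.equivFin (Z k)).symm z)) h1

theorem fr_succ_congr (k : ℕ) {x y : ℝ} (hf : fr k x = fr k y) : fr (k + 1) x = fr (k + 1) y := by
  unfold fr at hf ⊢
  show Int.fract (((NN k * nn k : ℕ) : ℝ) * x) = Int.fract (((NN k * nn k : ℕ) : ℝ) * y)
  rw [fract_mul, fract_mul, hf]

theorem down1_X (a : ℕ → ℕ) (k : ℕ) {x : ℝ} (hx : x ∈ Set.Ico (0 : ℝ) 1) :
    down1 (a k) (X a (k + 1) x) = X a k x := by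
  rw [X_succ a k hx, down1_up]

theorem down_X (a : ℕ → ℕ) (m d : ℕ) {x : ℝ} (hx : x ∈ Set.Ico (0 : ℝ) 1) :
    down a m d (X a (m + d) x) = X a m x := by
  induction d with
  | zero => rfl
  | succ d ih =>
    show down a m d (down1 (a (m + d)) (X a ((m + d) + 1) x)) = _
    rw [down1_X a (m + d) hx, ih]

theorem card_E (k : ℕ) : Fintype.card (E k) = NN k := by
  induction k with
  | zero => rfl
  | succ k ih =>
    rw [← Fintype.card_congr (up 0 k), Fintype.card_prod, ih]
    rfl

theorem T1_preim (a : ℕ → ℕ) (k : ℕ) (s : Set (E k)) :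
    {x | X a k x ∈ s} = {x | Y (NN k) x ∈ (Set.toFinite ((coord a k) ⁻¹' s)).toFinset} := by
  ext x
  simp only [Set.mem_ofPred_eq, Set.Finite.mem_toFinset, Set.mem_preimage]
  rfl

theorem lam_X (a : ℕ → ℕ) (k : ℕ) (s : Set (E k)) :
    lam {x | X a k x ∈ s} = (Nat.card s : ENNReal) / Nat.card (E k) := by
  rw [T1_preim, lam_Y]
  have h1 : (Set.toFinite ((coord a k) ⁻¹' s)).toFinset.card = Nat.card s := by
    rw [← Set.ncard_eq_toFinset_card _ (Set.toFinite _), ← Nat.card_coe_set_eq]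
    exact Nat.card_congr ((coord a k).subtypeEquiv fun x => Iff.rfl)
  rw [h1, Nat.card_eq_fintype_card (α := E k), card_E]

theorem measurable_X (a : ℕ → ℕ) (k : ℕ) (s : Set (E k)) : MeasurableSet {x | X a k x ∈ s} := by
  rw [T1_preim]
  exact measurable_Y (NN k) (Set.toFinite _).measurableSet

end KAut
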