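import Mathlib
import Pool.Agent.Lib.MP_33914b_an.T1

/-!
# MP_33914b_an, file T2  (ROW ka-T2)
Paper: /team-store/kaut_paper.md

PROOF / HINTS:
Tk_eq: it is enough to compare levels j and j+1 (k<=j; by induction X a j x is also a block position (c_j,p_j) with p_j+1<h_j: up_tk and X_succ). Levels j, j+1: both Tk a j x and Tk a (j+1) x lie in [0,1) and
X a (j+1) (Tk a (j+1) x) = tk (X a (j+1) x) = up (tk (X a j x), digit) by up_tk/tk_inl; X a (j+1) (Tk a j x) = up (X a j (Tk a j x), digit j (Tk a j x)) = up (tk (X a j x), digit j x) (X_succ, X_act, digit_congr, fr_act);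
the fr (j+1) agree (fr_act, fr_succ_congr); ext_X.
lam_Tk_ne: {x in [0,1) : Tk a k x != Tk a (k+1) x} subset {X a k x = (c, inl p) with p = h-1, or spacer}: card = card C * (1+sp) of card C * (h+sp): (1+sp)/(h+sp) <= 2 sp/(H sp).
T_facts: lim_lemma with Phi = Tk a, Psi = act a k (tk k).symm (they are inverse: IE_comp, IE_refl; outside [0,1) identity). Sum 2/H_j <= (4/3) 2/H_k since H_{j+1} >= 4 H_j.
-/
set_option autoImplicit false

open MeasureTheory

namespace KAut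

/-- one step of the comparison of the levels -/
theorem T2_step (a : ℕ → ℕ) {k : ℕ} {x : ℝ} (hx : x ∈ Set.Ico (0 : ℝ) 1)
    (c : C k) (p : ℕ) (hp : p + 1 < h k) (hX : X a k x = (c, Sum.inl ⟨p, by omega⟩)) :
    ∃ (c' : C (k + 1)) (p' : ℕ) (hp' : p' + 1 < h (k + 1)),
      X a (k + 1) x = (c', Sum.inl ⟨p', by omega⟩) ∧ Tk a (k + 1) x = Tk a k x := by
  obtain ⟨c', p', hp', h1, h2⟩ := up_tk (a k) c p hp (digit k x)
  have h3 : X a (k + 1) x = (c', Sum.inl ⟨p', by omega⟩) := by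
    rw [X_succ a k hx, hX, h1]
  refine ⟨c', p', hp', h3, ?_⟩
  have hy : Tk a k x ∈ Set.Ico (0 : ℝ) 1 := act_mem a k (tk k) hx
  have hy' : Tk a (k + 1) x ∈ Set.Ico (0 : ℝ) 1 := act_mem a (k + 1) (tk (k + 1)) hx
  have hf : fr k (Tk a k x) = fr k x := fr_act a k (tk k) hx
  have hf' : fr (k + 1) (Tk a (k + 1) x) = fr (k + 1) x := fr_act a (k + 1) (tk (k + 1)) hx
  refine ext_X a (k + 1) hy' hy ?_ ?_
  · have h4 : X a (k + 1) (Tk a (k + 1) x) = tk (k + 1) (X a (k + 1) x) := X_act a (k + 1) (tk (k + 1)) hx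
    have h5 : X a k (Tk a k x) = tk k (X a k x) := X_act a k (tk k) hx
    rw [h4, h3, tk_inl c' p' hp', X_succ a k hy, h5, hX, tk_inl c p hp, digit_congr k hf, h2]
  · rw [hf', fr_succ_congr k hf]

theorem T2_all (a : ℕ → ℕ) {k j : ℕ} (hkj : k ≤ j) {x : ℝ} (hx : x ∈ Set.Ico (0 : ℝ) 1)
    (c : C k) (p : ℕ) (hp : p + 1 < h k) (hX : X a k x = (c, Sum.inl ⟨p, by omega⟩)) :
    ∃ (c' : C j) (p' : ℕ) (hp' : p' + 1 < h j),
      X a j x = (c', Sum.inl ⟨p', by omega⟩) ∧ Tk a j x = Tk a k x := by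
  induction j, hkj using Nat.le_induction with
  | base => exact ⟨c, p, hp, hX, rfl⟩
  | succ j hj ih =>
    obtain ⟨c1, p1, hp1, h1, h2⟩ := ih hX
    obtain ⟨c2, p2, hp2, h3, h4⟩ := T2_step a hx c1 p1 hp1 h1
    exact ⟨c2, p2, hp2, h3, h4.trans h2⟩

/-- the levels `k` and `j ≥ k` agree at `x` if `x` is in a level `k` block below the top -/
theorem Tk_eq (a : ℕ → ℕ) {k j : ℕ} (hkj : k ≤ j) {x : ℝ} (hx : x ∈ Set.Ico (0 : ℝ) 1)
    (c : C k) (p : ℕ) (hp : p + 1 < h k) (hX : X a k x = (c, Sum.inl ⟨p, by omega⟩)) :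
    Tk a j x = Tk a k x := by
  obtain ⟨_, _, _, _, h1⟩ := T2_all a hkj hx c p hp hX
  exact h1

theorem T_eq_Tk (a : ℕ → ℕ) {k : ℕ} {x : ℝ} (hx : x ∈ Set.Ico (0 : ℝ) 1)
    (c : C k) (p : ℕ) (hp : p + 1 < h k) (hX : X a k x = (c, Sum.inl ⟨p, by omega⟩)) :
    T a x = Tk a k x :=
  evLim_eq (fun _ hj => Tk_eq a hj hx c p hp hX)

theorem T2_card (k : ℕ) :
    Nat.card {e : E k | ¬ ∃ (c : C k) (p : ℕ) (hp : p + 1 < h k), e = (c, Sum.inl ⟨p, by omega⟩)} * H k ≤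
      2 * Nat.card (E k) := by
  have hh := h_pos k
  let g : C k × Option (Fin (sp k)) → E k := fun y =>
    (y.1, match y.2 with
      | none => Sum.inl ⟨h k - 1, by omega⟩
      | some f => Sum.inr f)
  have h1 : {e : E k | ¬ ∃ (c : C k) (p : ℕ) (hp : p + 1 < h k), e = (c, Sum.inl ⟨p, by omega⟩)} ⊆
      Set.range g := by
    rintro ⟨c, r⟩ he
    rcases r with ⟨p, hp⟩ | f
    · have h2 : ¬ (p + 1 < h k) := fun h3 => he ⟨c, p, h3, rfl⟩
      have h3 : p = h k - 1 := by omega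
      subst h3
      exact ⟨(c, none), rfl⟩
    · exact ⟨(c, some f), rfl⟩
  have h2 : Nat.card {e : E k | ¬ ∃ (c : C k) (p : ℕ) (hp : p + 1 < h k), e = (c, Sum.inl ⟨p, by omega⟩)} ≤
      Nat.card (C k) * (sp k + 1) := by
    calc Nat.card {e : E k | ¬ ∃ (c : C k) (p : ℕ) (hp : p + 1 < h k), e = (c, Sum.inl ⟨p, by omega⟩)}
        ≤ Nat.card (Set.range g) := Nat.card_mono (Set.toFinite _) h1
      _ ≤ Nat.card (C k × Option (Fin (sp k))) := Finite.card_range_le g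
      _ = Nat.card (C k) * (sp k + 1) := by
        rw [Nat.card_prod]
        simp
  have h3 : Nat.card (E k) = Nat.card (C k) * (H k * sp k + sp k) := by
    rw [Nat.card_prod]
    have h4 : h k = H k * sp k := rfl
    rw [← h4]
    simp
  have hsp := sp_pos k
  rw [h3]
  calc Nat.card {e : E k | ¬ ∃ (c : C k) (p : ℕ) (hp : p + 1 < h k), e = (c, Sum.inl ⟨p, by omega⟩)} * H k
      ≤ (Nat.card (C k) * (sp k + 1)) * H k := Nat.mul_le_mul_right _ h2
    _ ≤ (Nat.card (C k) * (2 * sp k)) * H k :=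
        Nat.mul_le_mul_right _ (Nat.mul_le_mul_left _ (by omega))
    _ = 2 * (Nat.card (C k) * (H k * sp k)) := by ring
    _ ≤ 2 * (Nat.card (C k) * (H k * sp k + sp k)) :=
        Nat.mul_le_mul_left _ (Nat.mul_le_mul_left _ (by omega))

theorem lam_Tk_ne (a : ℕ → ℕ) (k : ℕ) :
    lam {x | Tk a k x ≠ Tk a (k + 1) x} ≤ ENNReal.ofReal (2 / H k) := by
  have h1 : {x | Tk a k x ≠ Tk a (k + 1) x} ⊆
      {x | X a k x ∈ {e : E k | ¬ ∃ (c : C k) (p : ℕ) (hp : p + 1 < h k), e = (c, Sum.inl ⟨p, by omega⟩)}} := by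
    intro x hx hcon
    obtain ⟨c, p, hp, he⟩ := hcon
    apply hx
    by_cases h2 : x ∈ Set.Ico (0 : ℝ) 1
    · obtain ⟨_, _, _, _, h3⟩ := T2_step a h2 c p hp he
      exact h3.symm
    · unfold Tk act IE
      rw [if_neg h2, if_neg h2]
  refine (measure_mono h1).trans ?_
  rw [lam_X]
  have hE : (0 : ℝ) < (Nat.card (E k) : ℝ) := by
    exact_mod_cast Nat.card_pos
  have hH : (0 : ℝ) < (H k : ℝ) := by
    have := H_ge k
    exact_mod_cast (by omega : 0 < H k)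
  refine ENNReal.div_le_of_le_mul ?_
  have h2 := T2_card k
  rw [← ENNReal.ofReal_natCast, ← ENNReal.ofReal_natCast, ← ENNReal.ofReal_mul (by positivity)]
  refine ENNReal.ofReal_le_ofReal ?_
  have h3 : ((Nat.card {e : E k | ¬ ∃ (c : C k) (p : ℕ) (hp : p + 1 < h k), e = (c, Sum.inl ⟨p, by omega⟩)} : ℕ) : ℝ) * H k ≤
      2 * (Nat.card (E k) : ℝ) := by
    exact_mod_cast h2
  rw [div_mul_eq_mul_div, le_div_iff₀ hH]
  exact h3

theorem T2_H_pow (k j : ℕ) : 4 ^ j * H k ≤ H (j + k) := by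
  induction j with
  | zero => simp
  | succ j ih =>
    have h1 : H (j + 1 + k) = 4 * H (j + k) + 3 := by
      rw [show j + 1 + k = (j + k) + 1 by ring]
      rfl
    rw [h1, pow_succ]
    calc 4 ^ j * 4 * H k = 4 * (4 ^ j * H k) := by ring
      _ ≤ 4 * H (j + k) := Nat.mul_le_mul_left _ ih
      _ ≤ _ := by omega

theorem T2_tsum (a : ℕ → ℕ) (k : ℕ) :
    ∑' j, lam {x | Tk a (j + k) x ≠ Tk a (j + k + 1) x} ≤ ENNReal.ofReal (4 / H k) := by
  have hH : (0 : ℝ) < (H k : ℝ) := by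
    have := H_ge k
    exact_mod_cast (by omega : 0 < H k)
  have h1 : ∀ j, lam {x | Tk a (j + k) x ≠ Tk a (j + k + 1) x} ≤
      ENNReal.ofReal ((2 / H k) * (1 / 4) ^ j) := by
    intro j
    refine (lam_Tk_ne a (j + k)).trans (ENNReal.ofReal_le_ofReal ?_)
    have h2 : (4 : ℝ) ^ j * H k ≤ H (j + k) := by exact_mod_cast T2_H_pow k j
    have h3 : (0 : ℝ) < 4 ^ j := by positivity
    have h4 : (2 / H k : ℝ) * (1 / 4) ^ j = 2 / (4 ^ j * H k) := by
      rw [one_div_pow]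
      field_simp
    rw [h4]
    exact div_le_div_of_nonneg_left (by norm_num) (by positivity) h2
  refine (ENNReal.tsum_le_tsum h1).trans ?_
  have hsum : HasSum (fun j : ℕ => (2 / H k : ℝ) * (1 / 4) ^ j) ((2 / H k : ℝ) * (1 - 1 / 4)⁻¹) :=
    (hasSum_geometric_of_lt_one (by norm_num) (by norm_num)).mul_left _
  rw [← ENNReal.ofReal_tsum_of_nonneg (fun j => by positivity) hsum.summable, hsum.tsum_eq]
  refine ENNReal.ofReal_le_ofReal ?_
  rw [div_mul_eq_mul_div]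
  exact div_le_div_of_nonneg_right (by norm_num) hH.le

theorem T_facts (a : ℕ → ℕ) :
    MeasurePreserving (T a) lam lam ∧ MeasurePreserving (Tinv a) lam lam ∧
      (∀ᵐ x ∂lam, Tinv a (T a x) = x) ∧ (∀ᵐ x ∂lam, T a (Tinv a x) = x) ∧
      (∀ k, lam {x | T a x ≠ Tk a k x} ≤ ENNReal.ofReal (4 / H k)) := by
  have h1 : ∀ k x, (fun k => act a k (tk k).symm) k (Tk a k x) = x := by
    intro k x
    show IE (NN k) _ (IE (NN k) _ x) = x
    rw [IE_comp]
    convert IE_refl (NN k) x using 2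
    ext y
    simp
  have h2 : ∀ k x, Tk a k ((fun k => act a k (tk k).symm) k x) = x := by
    intro k x
    show IE (NN k) _ (IE (NN k) _ x) = x
    rw [IE_comp]
    convert IE_refl (NN k) x using 2
    ext y
    simp
  have hs : ∑' k, lam {x | Tk a k x ≠ Tk a (k + 1) x} ≠ ⊤ := by
    have h3 := T2_tsum a 0
    exact ne_top_of_le_ne_top ENNReal.ofReal_ne_top h3
  obtain ⟨c1, c2, c3, c4, _, c6⟩ := lim_lemma lam (Tk a) (fun k => act a k (tk k).symm)
    (fun k => measurePreserving_act a k (tk k)) (fun k => measurePreserving_act a k (tk k).symm) h1 h2 hs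
  exact ⟨c1, c2, c3, c4, fun k => (c6 k).trans (T2_tsum a k)⟩

end KAut
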