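import Mathlib
import Pool.Agent.Lib.MP_33914b_an.T2

/-!
# MP_33914b_an, file T3  (ROW ka-T3)
Paper: /team-store/kaut_paper.md

PROOF / HINTS:
T_iter: induction on t; T_eq_Tk, X_act, tk_inl, fr_act. ae_good: lam{x : X a k x is (c, inl p) with p+t<h k} >= 1 - (t+sp)/(h+sp) and (t+sp_k)/(h_k+sp_k) <= t/h_k + 1/H_k -> 0 (h_k >= H_k >= 4^k); so for
fixed t,k0 the set of x that are good for some k>=k0 has full measure; intersect over t,k0.
-/
set_option autoImplicit false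

open MeasureTheory

namespace KAut

/-- the orbit inside a level `k` block -/
theorem T_iter (a : ℕ → ℕ) {k : ℕ} {x : ℝ} (hx : x ∈ Set.Ico (0 : ℝ) 1)
    (c : C k) (p t : ℕ) (hp : p + t < h k) (hX : X a k x = (c, Sum.inl ⟨p, by omega⟩)) :
    (T a)^[t] x ∈ Set.Ico (0 : ℝ) 1 ∧ X a k ((T a)^[t] x) = (c, Sum.inl ⟨p + t, hp⟩) ∧
      fr k ((T a)^[t] x) = fr k x := by
  induction t with
  | zero => exact ⟨hx, hX, rfl⟩
  | succ t ih =>
    obtain ⟨h1, h2, h3⟩ := ih (by omega) hX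
    rw [Function.iterate_succ_apply', T_eq_Tk a h1 c (p + t) (by omega) h2]
    refine ⟨act_mem a k _ h1, ?_, ?_⟩
    · unfold Tk
      rw [X_act a k _ h1, h2, tk_inl c (p + t) (by omega)]
      rfl
    · unfold Tk
      rw [fr_act a k _ h1, h3]

/-- cells from which one cannot move `t` steps -/
def T3_bad (t k : ℕ) : Set (Cell k) :=
  Set.range Sum.inr ∪ Sum.inl '' {p : Fin (h k) | h k ≤ (p : ℕ) + t}

theorem T3_bad_card (t k : ℕ) : (T3_bad t k).ncard ≤ sp k + t := by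
  unfold T3_bad
  refine (Set.ncard_union_le _ _).trans (Nat.add_le_add ?_ ?_)
  · rw [← Set.image_univ]
    refine (Set.ncard_image_le (Set.toFinite _)).trans (le_of_eq ?_)
    rw [Set.ncard_univ, Nat.card_fin]
  · refine (Set.ncard_image_le (Set.toFinite _)).trans ?_
    have h1 := Set.ncard_le_ncard_of_injOn (s := {p : Fin (h k) | h k ≤ (p : ℕ) + t})
      (t := (Finset.range t : Set ℕ)) (fun p => h k - 1 - (p : ℕ)) (by
        intro p hp
        rw [Set.mem_ofPred_eq] at hp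
        rw [Finset.coe_range, Set.mem_Iio]
        have h2 := p.2
        omega) (by
        intro p _ p' _ he
        have h2 := p.2
        have h3 := p'.2
        apply Fin.ext
        have he' : h k - 1 - (p : ℕ) = h k - 1 - (p' : ℕ) := he
        omega) (Finset.finite_toSet _)
    rwa [Set.ncard_coe_finset, Finset.card_range] at h1

theorem T3_lt_H (k : ℕ) : k + 1 ≤ H k := by
  have h1 := H_add_one k
  have h2 : k < 4 ^ k := Nat.lt_pow_self (by norm_num)
  omega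

theorem T3_lam_bad (a : ℕ → ℕ) (t k : ℕ) :
    lam {x | (X a k x).2 ∈ T3_bad t k} ≤ (((1 + t : ℕ) : ENNReal)) / ((k + 1 : ℕ) : ENNReal) := by
  have h1 := lam_X a k {e : E k | e.2 ∈ T3_bad t k}
  have h2 : lam {x | (X a k x).2 ∈ T3_bad t k} = lam {x | X a k x ∈ {e : E k | e.2 ∈ T3_bad t k}} := rfl
  rw [h2, h1]
  have h3 : Nat.card {e : E k | e.2 ∈ T3_bad t k} = Nat.card (C k) * (T3_bad t k).ncard := by
    have h4 : {e : E k | e.2 ∈ T3_bad t k} = (Set.univ : Set (C k)) ×ˢ T3_bad t k := by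
      ext e
      simp
    rw [Nat.card_coe_set_eq, h4, Set.ncard_prod, Set.ncard_univ]
  have h5 : Nat.card (E k) = Nat.card (C k) * (h k + sp k) := by
    unfold E
    rw [Nat.card_prod]
    unfold Cell
    rw [Nat.card_sum, Nat.card_fin, Nat.card_fin]
  rw [h3, h5]
  apply ENNReal.div_le_of_le_mul
  rw [← ENNReal.mul_div_right_comm, ENNReal.le_div_iff_mul_le (Or.inl (by simp)) (Or.inl (by simp))]
  norm_cast
  have h6 := T3_bad_card t k
  have h7 := T3_lt_H k
  have h8 := sp_pos k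
  have h9 : (T3_bad t k).ncard * (k + 1) ≤ (h k + sp k) * (1 + t) := by
    have h10 : (T3_bad t k).ncard ≤ sp k * (1 + t) := by nlinarith
    calc (T3_bad t k).ncard * (k + 1) ≤ (sp k * (1 + t)) * H k := Nat.mul_le_mul h10 h7
      _ = (H k * sp k) * (1 + t) := by ring
      _ ≤ (h k + sp k) * (1 + t) := Nat.mul_le_mul_right _ (by unfold h; omega)
  calc Nat.card (C k) * (T3_bad t k).ncard * (k + 1)
      = Nat.card (C k) * ((T3_bad t k).ncard * (k + 1)) := by ring
    _ ≤ Nat.card (C k) * ((h k + sp k) * (1 + t)) := Nat.mul_le_mul_left _ h9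
    _ = (1 + t) * (Nat.card (C k) * (h k + sp k)) := by ring

/-- almost every point is, for every `t`, in a block in which it can move `t` steps -/
theorem ae_good (a : ℕ → ℕ) : ∀ᵐ x ∂lam, x ∈ Set.Ico (0 : ℝ) 1 ∧
    ∀ t k0 : ℕ, ∃ k, k0 ≤ k ∧ ∃ (c : C k) (p : ℕ) (hp : p + t < h k),
      X a k x = (c, Sum.inl ⟨p, by omega⟩) := by
  have hmain : ∀ᵐ x ∂lam, ∀ t k0 : ℕ, ∃ k, k0 ≤ k ∧ (X a k x).2 ∉ T3_bad t k := by
    rw [ae_all_iff]
    intro t
    rw [ae_all_iff]
    intro k0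
    rw [ae_iff]
    have h1 : ∀ k, k0 ≤ k → lam {x | ¬ ∃ k, k0 ≤ k ∧ (X a k x).2 ∉ T3_bad t k} ≤
        (((1 + t : ℕ) : ENNReal)) / ((k + 1 : ℕ) : ENNReal) := by
      intro k hk
      refine (measure_mono ?_).trans (T3_lam_bad a t k)
      intro x hx
      rw [Set.mem_ofPred_eq] at hx ⊢
      by_contra hcon
      exact hx ⟨k, hk, hcon⟩
    have h2 : Filter.Tendsto (fun k : ℕ => (((1 + t : ℕ) : ENNReal)) / ((k + 1 : ℕ) : ENNReal))
        Filter.atTop (nhds 0) := by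
      have h3 := (ENNReal.tendsto_inv_nat_nhds_zero.comp (Filter.tendsto_add_atTop_nat 1))
      have h4 := ENNReal.Tendsto.const_mul (a := (((1 + t : ℕ) : ENNReal))) h3
        (Or.inr (ENNReal.natCast_ne_top _))
      rw [mul_zero] at h4
      exact h4
    refine le_antisymm (ge_of_tendsto h2 ?_) zero_le
    filter_upwards [Filter.eventually_ge_atTop k0] with k hk using h1 k hk
  have hico : ∀ᵐ x ∂lam, x ∈ Set.Ico (0 : ℝ) 1 := ae_mem_Ico
  filter_upwards [hmain, hico] with x hx1 hx2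
  refine ⟨hx2, fun t k0 => ?_⟩
  obtain ⟨k, hk, hb⟩ := hx1 t k0
  refine ⟨k, hk, ?_⟩
  obtain ⟨e, he⟩ : ∃ e, e = X a k x := ⟨_, rfl⟩
  rw [← he] at hb ⊢
  obtain ⟨c, r⟩ := e
  cases r with
  | inr s => exact absurd (Or.inl ⟨s, rfl⟩) hb
  | inl p =>
    have hp : (p : ℕ) + t < h k := by
      by_contra hcon
      exact hb (Or.inr ⟨p, not_lt.mp hcon, rfl⟩)
    exact ⟨c, p, hp, rfl⟩

end KAut
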