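import Mathlib
import Pool.Agent.Lib.MP_33914b_an.T3

/-!
# MP_33914b_an, file F1  (ROW ka-F1)
Paper: /team-store/kaut_paper.md

PROOF / HINTS:
down1_inr: Lay^-1 (inr s) = (i, r); r cannot be inl (Lay_inl), so r = inr s'; down1_Lay. ag_of_fr: induction on d. Step: X a (n+d+1) x = up (X a (n+d) x, z), same z for x' (digit_congr, fr_succ_congr); theta_par (the two columns have the same mode: Ag implies c.1 = c'.1)
gives same J', i, offs, other inner; sub_theta gives sub = c, c'. new alpha = pos (a (n+d)) (offs) i + alpha. pos_add_lt-like bound: pos i + h (n+d) <= h (n+d+1).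
-/
set_option autoImplicit false

open MeasureTheory

namespace KAut

/-- a set of level `m` cells without spacers -/
def NoSp {m : ℕ} (F : Set (E m)) : Prop := ∀ (c : C m) (s : Fin (sp m)), (c, Sum.inr s) ∉ F

/-- spacers stay spacers -/
theorem down1_inr (a : ℕ) {k : ℕ} (c : C (k + 1)) (s : Fin (sp (k + 1))) :
    ∃ (c' : C k) (s' : Fin (sp k)), down1 a (c, Sum.inr s) = (c', Sum.inr s') := by
  obtain ⟨⟨i, r⟩, hir⟩ := (Lay a (offs c)).surjective (Sum.inr s)
  cases r with
  | inl p =>
    rw [Lay_inl] at hir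
    cases hir
  | inr s' =>
    refine ⟨sub c i, s', ?_⟩
    rw [← hir, down1_Lay]

/-- `Ag a n d c c' α`: the level `n+d` columns `c, c'` agree outside one level `n` block occupying `[α, α + h n)`, and the
modes of that block are the same -/
def Ag (a : ℕ → ℕ) (n : ℕ) : ∀ d : ℕ, C (n + d) → C (n + d) → ℕ → Prop
  | 0, c, c', α => c.1 = c'.1 ∧ α = 0
  | d + 1, c, c', α => c.1 = c'.1 ∧ offs (k := n + d) c = offs (k := n + d) c' ∧
      ∃ (i : Fin (L (n + d))) (α' : ℕ), (∀ i', i' ≠ i → inner (k := n + d) c i' = inner (k := n + d) c' i') ∧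
        Ag a n d (sub (k := n + d) c i) (sub (k := n + d) c' i) α' ∧
        α = pos (a (n + d)) (offs (k := n + d) c) i + α'

theorem F1_Ag_mode {a : ℕ → ℕ} {n : ℕ} : ∀ {d : ℕ} {c c' : C (n + d)} {α : ℕ},
    Ag a n d c c' α → c.1 = c'.1
  | 0, _, _, _, hA => hA.1
  | _ + 1, _, _, _, hA => hA.1

theorem F1_fr (n : ℕ) {x x' : ℝ} (hfr : fr n x = fr n x') (d : ℕ) :
    fr (n + d) x = fr (n + d) x' := by
  induction d with
  | zero => exact hfr
  | succ d ih => exact fr_succ_congr (n + d) ih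

/-- going up: two points with the same digits above level `n`, in level `n` blocks of the same mode, at the same position -/
theorem ag_of_fr (a : ℕ → ℕ) (n : ℕ) {x x' : ℝ} (hx : x ∈ Set.Ico (0 : ℝ) 1) (hx' : x' ∈ Set.Ico (0 : ℝ) 1)
    (J : Fin (q n)) (ρ ρ' : R n) (p : Fin (h n)) (h1 : X a n x = ((J, ρ), Sum.inl p))
    (h2 : X a n x' = ((J, ρ'), Sum.inl p)) (hfr : fr n x = fr n x') (d : ℕ) :
    ∃ (c c' : C (n + d)) (α : ℕ) (hα : α + h n ≤ h (n + d)), Ag a n d c c' α ∧
      X a (n + d) x = (c, Sum.inl ⟨α + p, by have := p.2; omega⟩) ∧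
      X a (n + d) x' = (c', Sum.inl ⟨α + p, by have := p.2; omega⟩) := by
  induction d with
  | zero =>
    refine ⟨(J, ρ), (J, ρ'), 0, by simp, ⟨rfl, rfl⟩, ?_, ?_⟩
    · change X a n x = _
      rw [h1]
      congr 2
      exact Fin.ext (by simp)
    · change X a n x' = _
      rw [h2]
      congr 2
      exact Fin.ext (by simp)
  | succ d ih =>
    obtain ⟨⟨J1, ρ1⟩, ⟨J2, ρ2⟩, α, hα, hA, hX1, hX2⟩ := ih
    have hJ : J1 = J2 := F1_Ag_mode hA
    subst hJ
    have hz : digit (n + d) x = digit (n + d) x' := digit_congr (n + d) (F1_fr n hfr d)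
    obtain ⟨t1, t2, t3, t4⟩ := theta_par J1 ρ1 ρ2 (digit (n + d) x)
    have s1 := sub_theta ((J1, ρ1), digit (n + d) x)
    have s2 := sub_theta ((J1, ρ2), digit (n + d) x)
    have u1 : X a (n + d + 1) x = _ := X_succ a (n + d) hx
    have u2 : X a (n + d + 1) x' = _ := X_succ a (n + d) hx'
    rw [hX1, Up_apply_inl] at u1
    rw [hX2, ← hz, Up_apply_inl] at u2
    have hb : pos (a (n + d)) (offs (theta (n + d) ((J1, ρ1), digit (n + d) x)).1)
        (theta (n + d) ((J1, ρ1), digit (n + d) x)).2 + α + h n ≤ h (n + d + 1) := by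
      have hn := h_pos n
      have := pos_add_lt (a (n + d)) (offs (theta (n + d) ((J1, ρ1), digit (n + d) x)).1)
        (theta (n + d) ((J1, ρ1), digit (n + d) x)).2 ⟨α + h n - 1, by omega⟩
      simp only at this
      omega
    refine ⟨(theta (n + d) ((J1, ρ1), digit (n + d) x)).1,
      (theta (n + d) ((J1, ρ2), digit (n + d) x)).1,
      pos (a (n + d)) (offs (theta (n + d) ((J1, ρ1), digit (n + d) x)).1)
        (theta (n + d) ((J1, ρ1), digit (n + d) x)).2 + α, hb, ⟨t2, t3,
      (theta (n + d) ((J1, ρ1), digit (n + d) x)).2, α, t4, ?_, rfl⟩, ?_, ?_⟩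
    · rw [s1]
      rw [← t1] at s2
      rw [s2]
      exact hA
    · change X a (n + d + 1) x = _
      rw [u1]
      congr 2
      exact Fin.ext (by simp only; omega)
    · change X a (n + d + 1) x' = _
      rw [u2]
      congr 2
      apply Fin.ext
      simp only
      rw [← t3, ← t1]
      omega

end KAut
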