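import Mathlib
import Pool.Agent.Lib.MP_33914b_an.F1

/-!
# MP_33914b_an, file F2  (ROW ka-F2)
Paper: /team-store/kaut_paper.md

PROOF / HINTS:
induction on d. d=0: alpha = 0, p outside [0,h n) impossible. d+1: (i',r) = Lay^-1 (inl p) (same for c, c' since offs equal). down1 = (sub c i', r), (sub c' i', r). r = inr: both spacers at level n+d, and spacers stay spacers below (down1_inr, down1_X).
r = inl p'': p = pos i' + p''. If i' != i: sub c i' = sub c' i' (same mode, inner equal): equal coordinates at level n+d, hence at level m (down_X; write n+d = m+e). If i' = i: p'' outside [alpha', alpha'+h n): induction hypothesis.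
-/
set_option autoImplicit false

open MeasureTheory

namespace KAut

/-- spacers stay spacers on the way down to level `m` -/
theorem F2_spacer (a : ℕ → ℕ) (m e : ℕ) {y : ℝ} (hy : y ∈ Set.Ico (0 : ℝ) 1) :
    ∀ (K : ℕ), K = m + e → ∀ (c0 : C K) (s : Fin (sp K)), X a K y = (c0, Sum.inr s) →
      ∃ c1 s1, X a m y = (c1, Sum.inr s1) := by
  induction e with
  | zero =>
    rintro K rfl c0 s hX
    exact ⟨c0, s, hX⟩
  | succ e ih =>
    rintro K rfl c0 s hX
    obtain ⟨c', s', h'⟩ := down1_inr (a (m + e)) (k := m + e) c0 s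
    refine ih (m + e) rfl c' s' ?_
    rw [← down1_X a (m + e) hy, ← h']
    exact congrArg _ hX

theorem F2_eq (a : ℕ → ℕ) (m e : ℕ) {y y' : ℝ} (hy : y ∈ Set.Ico (0 : ℝ) 1) (hy' : y' ∈ Set.Ico (0 : ℝ) 1) :
    ∀ (K : ℕ), K = m + e → X a K y = X a K y' → X a m y = X a m y' := by
  rintro K rfl hX
  rw [← down_X a m e hy, ← down_X a m e hy', hX]

/-- going down: outside of the exceptional block the lower coordinates are equal or both spacers -/
theorem same_or_spacer (a : ℕ → ℕ) (n m : ℕ) (hm : m ≤ n) (d : ℕ) (c c' : C (n + d)) (α : ℕ) (hA : Ag a n d c c' α)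
    {y y' : ℝ} (hy : y ∈ Set.Ico (0 : ℝ) 1) (hy' : y' ∈ Set.Ico (0 : ℝ) 1) (p : ℕ) (hp : p < h (n + d))
    (hpα : p < α ∨ α + h n ≤ p) (h1 : X a (n + d) y = (c, Sum.inl ⟨p, hp⟩))
    (h2 : X a (n + d) y' = (c', Sum.inl ⟨p, hp⟩)) :
    X a m y = X a m y' ∨ ((∃ c1 s1, X a m y = (c1, Sum.inr s1)) ∧ (∃ c2 s2, X a m y' = (c2, Sum.inr s2))) := by
  induction d generalizing α p with
  | zero =>
    obtain ⟨-, h0⟩ := hA
    have hp' : p < h n := hp
    omega
  | succ d ih =>
    obtain ⟨hc, ho, i, α', hin, hA', hα⟩ := hA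
    obtain ⟨e, he⟩ : ∃ e, n + d = m + e := ⟨n + d - m, by omega⟩
    obtain ⟨⟨i', r⟩, hir⟩ := (Lay (a (n + d)) (offs (k := n + d) c)).surjective (Sum.inl ⟨p, hp⟩)
    have hy1 : X a (n + d) y = (sub (k := n + d) c i', r) := by
      rw [← down1_X a (n + d) hy, ← down1_Lay (a (n + d)) (k := n + d) c i' r, hir]
      exact congrArg _ h1
    have hy2 : X a (n + d) y' = (sub (k := n + d) c' i', r) := by
      rw [← down1_X a (n + d) hy', ← down1_Lay (a (n + d)) (k := n + d) c' i' r, ← ho, hir]
      exact congrArg _ h2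
    rcases r with p' | s
    · rw [Lay_inl] at hir
      have hpp : pos (a (n + d)) (offs (k := n + d) c) i' + p' = p := by
        have h3 := Sum.inl.inj hir
        exact congrArg Fin.val h3
      by_cases hi : i' = i
      · subst hi
        refine ih (sub (k := n + d) c i') (sub (k := n + d) c' i') α' hA' p' p'.2 ?_ hy1 hy2
        omega
      · left
        refine F2_eq a m e hy hy' (n + d) he ?_
        rw [hy1, hy2]
        unfold sub
        rw [hin i' hi, hc]
    · right
      exact ⟨F2_spacer a m e hy (n + d) he _ _ hy1, F2_spacer a m e hy' (n + d) he _ _ hy2⟩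

end KAut
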