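import Mathlib
import Pool.Agent.Lib.MP_33914b_an.F2

/-!
# MP_33914b_an, file F3  (ROW ka-F3)
Paper: /team-store/kaut_paper.md

PROOF / HINTS:
by ag_of_fr (level n+d): X a (n+d) x = (c, inl (alpha+p)), so pK = alpha+p, X a (n+d) x' = (c', inl(alpha+p)). T_iter for both points: at time t position pK+t >= alpha + h n. same_or_spacer at p := pK+t. Spacers are not in F.
-/
set_option autoImplicit false

open MeasureTheory

namespace KAut

/-- (LOCAL) Two points with the same digits above level `n` which lie at the same position `p` of level `n` blocks of the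
same mode are, at all times `t ≥ h n`, in the same spacer-free level `m` sets (`m ≤ n`). -/
theorem local_lemma (a : ℕ → ℕ) (n m : ℕ) (hm : m ≤ n) (F : Set (E m)) (hF : NoSp F) {x x' : ℝ}
    (hx : x ∈ Set.Ico (0 : ℝ) 1) (hx' : x' ∈ Set.Ico (0 : ℝ) 1) (J : Fin (q n)) (ρ ρ' : R n)
    (p : Fin (h n)) (h1 : X a n x = ((J, ρ), Sum.inl p)) (h2 : X a n x' = ((J, ρ'), Sum.inl p))
    (hfr : fr n x = fr n x') (t : ℕ) (ht : h n ≤ t)
    (d : ℕ) (c : C (n + d)) (pK : ℕ) (hpK : pK + t < h (n + d))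
    (hXK : X a (n + d) x = (c, Sum.inl ⟨pK, by omega⟩)) :
    (X a m ((T a)^[t] x) ∈ F ↔ X a m ((T a)^[t] x') ∈ F) := by
  obtain ⟨c0, c0', α, hα, hA, e1, e2⟩ := ag_of_fr a n hx hx' J ρ ρ' p h1 h2 hfr d
  have hpn : (p : ℕ) < h n := p.2
  rw [hXK] at e1
  have ec : c = c0 := (Prod.ext_iff.mp e1).1
  have ep : pK = α + p := by
    have := (Prod.ext_iff.mp e1).2
    have h3 := Sum.inl.inj this
    exact Fin.mk.inj_iff.mp h3
  subst ec
  have hlt : α + (p : ℕ) + t < h (n + d) := by omega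
  obtain ⟨m1, x1, f1⟩ := T_iter a hx c pK t hpK hXK
  obtain ⟨m2, x2, f2⟩ := T_iter a hx' c0' (α + p) t hlt e2
  have x2' : X a (n + d) ((T a)^[t] x') = (c0', Sum.inl ⟨pK + t, hpK⟩) := by
    rw [x2]
    congr 2
    simp [ep]
  rcases same_or_spacer a n m hm d c c0' α hA m1 m2 (pK + t) hpK (Or.inr (by omega)) x1 x2' with hE | ⟨⟨c1, s1, g1⟩, ⟨c2, s2, g2⟩⟩
  · rw [hE]
  · rw [g1, g2]
    exact iff_of_false (hF _ _) (hF _ _)

end KAut
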