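import Mathlib
import Pool.Agent.Lib.MP_33914b_an.WordDef

/-!
# MP_33914b_an, file W2  (ROW ka-W2, helper44)
Paper: /team-store/kaut_paper.md

PROOF / HINTS:
(W2) aligned interval of length q^3: i = q^2 c1 + q c0 + b, m = q^3 B + i, m/q = q^2 B + q c1 + c0 =: A. For b < q-1: m+1 has the same A and b+1; the two values are
c0 + c1 b + r_b and c0 + c1 (b+1) + r_{b+1} mod q with r independent of (c0,c1) [digits j>=2 of A do not depend on (c0,c1)]: (c0,c1) -> values is a bijection of F_q^2. For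
b = q-1: m+1 = q (A+1), value at b=0 is the digit 0 of A+1, = (c0+1) % q (all other terms vanish, 0^0 = 1 in Lean), and the first value is c0 + c1 (q-1) + const: again
a bijection. So q values of b give q solutions in all.
Windows of length q^4 = q * q^3: [m, m+q^4) contains >= q-1 aligned intervals of length q^3 and is contained in the union of q+1 of them. (n0 = ceil(m/q^3).)
-/
set_option autoImplicit false

namespace KAut

theorem W2_cast {q : ℕ} (hq : 0 < q) {A b : ℕ} (hb : b < q) :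
    ((W q (q * A + b) : ℕ) : ZMod q) = ((b : ℕ) : ZMod q) ^ 8 +
      ∑ j ∈ Finset.range 7, ((A / q ^ j % q : ℕ) : ZMod q) * ((b : ℕ) : ZMod q) ^ j := by
  have h1 : (q * A + b) % q = b := by
    rw [Nat.mul_add_mod]; exact Nat.mod_eq_of_lt hb
  have h2 : (q * A + b) / q = A := by
    rw [Nat.mul_add_div hq]; rw [Nat.div_eq_of_lt hb]; rfl
  unfold W
  rw [h1, h2, ZMod.natCast_mod]
  push_cast
  rfl

/-- the part of the value that does not depend on the two low digits -/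
def W2_r (q B b : ℕ) : ZMod q :=
  ((b : ℕ) : ZMod q) ^ 8 +
    ∑ j ∈ Finset.range 5, ((B / q ^ j % q : ℕ) : ZMod q) * ((b : ℕ) : ZMod q) ^ (j + 2)

theorem W2_val {q : ℕ} (hq : 0 < q) {B c1 c0 b : ℕ} (h1 : c1 < q) (h0 : c0 < q) (hb : b < q) :
    ((W q (q ^ 3 * B + (q ^ 2 * c1 + q * c0 + b)) : ℕ) : ZMod q) =
      (c0 : ZMod q) + (c1 : ZMod q) * (b : ZMod q) + W2_r q B b := by
  have hrw : q ^ 3 * B + (q ^ 2 * c1 + q * c0 + b) = q * (q * (q * B + c1) + c0) + b := by ring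
  rw [hrw, W2_cast hq hb, Finset.sum_range_succ', Finset.sum_range_succ']
  have e0 : (q * (q * B + c1) + c0) / q ^ 0 % q = c0 := by
    rw [pow_zero, Nat.div_one, Nat.mul_add_mod, Nat.mod_eq_of_lt h0]
  have ed : (q * (q * B + c1) + c0) / q = q * B + c1 := by
    rw [Nat.mul_add_div hq, Nat.div_eq_of_lt h0, Nat.add_zero]
  have ed2 : (q * B + c1) / q = B := by
    rw [Nat.mul_add_div hq, Nat.div_eq_of_lt h1, Nat.add_zero]
  have e1 : (q * (q * B + c1) + c0) / q ^ (0 + 1) % q = c1 := by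
    rw [zero_add, pow_one, ed, Nat.mul_add_mod, Nat.mod_eq_of_lt h1]
  have e2 : ∀ j, (q * (q * B + c1) + c0) / q ^ (j + 1 + 1) % q = B / q ^ j % q := by
    intro j
    rw [pow_succ', ← Nat.div_div_eq_div_mul, ed, pow_succ', ← Nat.div_div_eq_div_mul, ed2]
  rw [e0, e1]
  simp only [e2]
  unfold W2_r
  ring

theorem W2_next0 {q : ℕ} (hq : 0 < q) (A : ℕ) :
    ((W q (q * A) : ℕ) : ZMod q) = (A : ZMod q) := by
  have h := W2_cast hq (A := A) (b := 0) hq
  rw [Nat.add_zero] at h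
  rw [h, Finset.sum_range_succ', Finset.sum_eq_zero]
  · simp
  · intro j _
    simp

theorem W2_decomp {q : ℕ} (hq : 0 < q) {i : ℕ} (hi : i < q ^ 3) :
    i / q ^ 2 < q ∧ i / q % q < q ∧ i % q < q ∧ i = q ^ 2 * (i / q ^ 2) + q * (i / q % q) + i % q := by
  refine ⟨?_, Nat.mod_lt _ hq, Nat.mod_lt _ hq, ?_⟩
  · rw [Nat.div_lt_iff_lt_mul (by positivity)]
    calc i < q ^ 3 := hi
      _ = q * q ^ 2 := by ring
  · have h1 := Nat.div_add_mod i q
    have h2 := Nat.div_add_mod (i / q) q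
    rw [Nat.div_div_eq_div_mul] at h2
    conv_lhs => rw [← h1, ← h2]
    ring_nf

theorem W2_eq_iff {q : ℕ} (hq : 0 < q) (m α : ℕ) (hα : α < q) :
    W q m = α ↔ ((W q m : ℕ) : ZMod q) = (α : ZMod q) := by
  rw [ZMod.natCast_eq_natCast_iff', Nat.mod_eq_of_lt (W_lt hq m), Nat.mod_eq_of_lt hα]

/-- the two values as linear forms in the two low digits -/
theorem W2_pair {q : ℕ} (hq : q.Prime) {B c1 c0 b : ℕ} (h1 : c1 < q) (h0 : c0 < q) (hb : b < q)
    (α β : ℕ) (hα : α < q) (hβ : β < q) :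
    (W q (q ^ 3 * B + (q ^ 2 * c1 + q * c0 + b)) = α ∧
      W q (q ^ 3 * B + (q ^ 2 * c1 + q * c0 + b) + 1) = β) ↔
    if b + 1 < q then
      ((c1 : ZMod q) = (β : ZMod q) - α - W2_r q B (b + 1) + W2_r q B b ∧
      (c0 : ZMod q) = (α : ZMod q) - W2_r q B b -
        ((β : ZMod q) - α - W2_r q B (b + 1) + W2_r q B b) * (b : ZMod q))
    else ((c1 : ZMod q) = (β : ZMod q) - 1 + W2_r q B b - α ∧ (c0 : ZMod q) = (β : ZMod q) - 1) := by
  have hq0 := hq.pos
  rw [W2_eq_iff hq0 _ α hα, W2_eq_iff hq0 _ β hβ, W2_val hq0 h1 h0 hb]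
  split_ifs with hb1
  · have hrw : q ^ 3 * B + (q ^ 2 * c1 + q * c0 + b) + 1
      = q ^ 3 * B + (q ^ 2 * c1 + q * c0 + (b + 1)) := by ring
    rw [hrw, W2_val hq0 h1 h0 hb1]
    push_cast
    constructor
    · rintro ⟨e1, e2⟩
      have e3 : (c1 : ZMod q) = (β : ZMod q) - α - W2_r q B (b + 1) + W2_r q B b := by
        rw [← e1, ← e2]; ring
      refine ⟨e3, ?_⟩
      rw [← e3, ← e1]; ring
    · rintro ⟨e1, e2⟩
      rw [e1, e2]
      constructor <;> ring
  · have hbq : b + 1 = q := by omega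
    have hrw : q ^ 3 * B + (q ^ 2 * c1 + q * c0 + b) + 1
      = q * (q * (q * B + c1) + c0 + 1) := by
      calc q ^ 3 * B + (q ^ 2 * c1 + q * c0 + b) + 1
          = q ^ 3 * B + q ^ 2 * c1 + q * c0 + (b + 1) := by ring
        _ = q ^ 3 * B + q ^ 2 * c1 + q * c0 + q := by rw [hbq]
        _ = _ := by ring
    have hbm : (b : ZMod q) = -1 := by
      have : ((b + 1 : ℕ) : ZMod q) = 0 := by rw [hbq]; simp
      push_cast at this
      exact eq_neg_of_add_eq_zero_left this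
    rw [hrw, W2_next0 hq0, hbm]
    push_cast
    rw [ZMod.natCast_self]
    constructor
    · rintro ⟨e1, e2⟩
      have e3 : (c0 : ZMod q) = (β : ZMod q) - 1 := by
        rw [← e2]; ring
      refine ⟨?_, e3⟩
      rw [← e3, ← e1]; ring
    · rintro ⟨e1, e2⟩
      rw [e1, e2]
      constructor <;> ring

theorem W2_unique {q : ℕ} (hq : q.Prime) (B α β : ℕ) (hα : α < q) (hβ : β < q) {b : ℕ} (hb : b < q) :
    ∃! i, i ∈ ((Finset.range (q ^ 3)).filter
      (fun i => W q (q ^ 3 * B + i) = α ∧ W q (q ^ 3 * B + i + 1) = β)).filter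
        (fun i => i % q = b) := by
  have hq0 := hq.pos
  have : NeZero q := ⟨hq.ne_zero⟩
  obtain ⟨y, x, hyx⟩ : ∃ y x : ZMod q, ∀ c1 c0 : ℕ, c1 < q → c0 < q →
      ((W q (q ^ 3 * B + (q ^ 2 * c1 + q * c0 + b)) = α ∧
      W q (q ^ 3 * B + (q ^ 2 * c1 + q * c0 + b) + 1) = β) ↔
        (c1 : ZMod q) = y ∧ (c0 : ZMod q) = x) := by
    by_cases hb1 : b + 1 < q
    · refine ⟨(β : ZMod q) - α - W2_r q B (b + 1) + W2_r q B b, (α : ZMod q) - W2_r q B b -
        ((β : ZMod q) - α - W2_r q B (b + 1) + W2_r q B b) * (b : ZMod q), fun c1 c0 h1 h0 => ?_⟩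
      rw [W2_pair hq h1 h0 hb α β hα hβ, if_pos hb1]
    · refine ⟨(β : ZMod q) - 1 + W2_r q B b - α, (β : ZMod q) - 1, fun c1 c0 h1 h0 => ?_⟩
      rw [W2_pair hq h1 h0 hb α β hα hβ, if_neg hb1]
  refine ⟨q ^ 2 * y.val + q * x.val + b, ?_, ?_⟩
  · simp only [Finset.mem_filter, Finset.mem_range]
    have hy := ZMod.val_lt y
    have hx := ZMod.val_lt x
    refine ⟨⟨?_, ?_⟩, ?_⟩
    · calc q ^ 2 * y.val + q * x.val + b < q ^ 2 * y.val + q * x.val + q := by omega
        _ = q ^ 2 * y.val + q * (x.val + 1) := by ring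
        _ ≤ q ^ 2 * y.val + q * q := by
          exact Nat.add_le_add_left (Nat.mul_le_mul_left _ hx) _
        _ = q ^ 2 * (y.val + 1) := by ring
        _ ≤ q ^ 2 * q := Nat.mul_le_mul_left _ hy
        _ = q ^ 3 := by ring
    · rw [hyx _ _ hy hx]
      simp
    · have : q ^ 2 * y.val + q * x.val + b = q * (q * y.val + x.val) + b := by ring
      rw [this, Nat.mul_add_mod, Nat.mod_eq_of_lt hb]
  · intro i hi
    simp only [Finset.mem_filter, Finset.mem_range] at hi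
    obtain ⟨⟨hi3, hW⟩, hib⟩ := hi
    obtain ⟨h1, h0, _, hdec⟩ := W2_decomp hq0 hi3
    rw [hib] at hdec
    rw [hdec, hyx _ _ h1 h0] at hW
    rw [hdec]
    have e1 : i / q ^ 2 = y.val := by
      rw [← hW.1, ZMod.val_natCast, Nat.mod_eq_of_lt h1]
    have e0 : i / q % q = x.val := by
      rw [← hW.2, ZMod.val_natCast, Nat.mod_eq_of_lt h0]
    rw [e1, e0]

/-- (W2) -/
theorem W2 {q : ℕ} (hq : q.Prime) (B α β : ℕ) (hα : α < q) (hβ : β < q) :
    ((Finset.range (q ^ 3)).filter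
      (fun i => W q (q ^ 3 * B + i) = α ∧ W q (q ^ 3 * B + i + 1) = β)).card = q := by
  have hq0 := hq.pos
  rw [Finset.card_eq_sum_card_fiberwise (f := fun i => i % q) (t := Finset.range q)
    (fun i _ => Finset.mem_coe.mpr (Finset.mem_range.mpr (Nat.mod_lt i hq0)))]
  rw [Finset.sum_congr rfl (g := fun _ => 1)]
  · simp
  · intro b hb
    rw [Finset.card_eq_one]
    obtain ⟨i, hi, hu⟩ := W2_unique hq B α β hα hβ (Finset.mem_range.mp hb)
    exact ⟨i, Finset.eq_singleton_iff_unique_mem.mpr ⟨hi, hu⟩⟩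

theorem W2_count {q : ℕ} (hq : q.Prime) (α β : ℕ) (hα : α < q) (hβ : β < q) (n : ℕ) :
    Nat.count (fun k => W q k = α ∧ W q (k + 1) = β) (q ^ 3 * n) = q * n := by
  induction n with
  | zero => simp
  | succ n ih =>
    rw [Nat.mul_succ, Nat.count_add, ih, Nat.mul_succ]
    congr 1
    rw [Nat.count_eq_card_filter_range]
    exact W2 hq n α β hα hβ

theorem W2_window {q : ℕ} (m α β : ℕ) :
    Nat.count (fun k => W q k = α ∧ W q (k + 1) = β) m + ((Finset.range (q ^ 4)).filter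
      (fun i => W q (m + i) = α ∧ W q (m + i + 1) = β)).card
    = Nat.count (fun k => W q k = α ∧ W q (k + 1) = β) (m + q ^ 4) := by
  rw [Nat.count_add]
  congr 1
  rw [Nat.count_eq_card_filter_range]

/-- (W2) on windows of length `q^4`, lower bound -/
theorem W2_window_ge {q : ℕ} (hq : q.Prime) (m α β : ℕ) (hα : α < q) (hβ : β < q) :
    (q - 1) * q ≤ ((Finset.range (q ^ 4)).filter
      (fun i => W q (m + i) = α ∧ W q (m + i + 1) = β)).card := by
  have hq0 := hq.pos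
  have h3 : 0 < q ^ 3 := by positivity
  have hw := W2_window (q := q) m α β
  have h1 : Nat.count (fun k => W q k = α ∧ W q (k + 1) = β) m ≤ q * (m / q ^ 3 + 1) := by
    rw [← W2_count hq α β hα hβ]
    apply Nat.count_monotone
    exact (Nat.lt_mul_div_succ m h3).le
  have h2 : q * (m / q ^ 3 + q) ≤ Nat.count (fun k => W q k = α ∧ W q (k + 1) = β) (m + q ^ 4) := by
    rw [← W2_count hq α β hα hβ]
    apply Nat.count_monotone
    calc q ^ 3 * (m / q ^ 3 + q) = q ^ 3 * (m / q ^ 3) + q ^ 4 := by ring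
      _ ≤ m + q ^ 4 := Nat.add_le_add_right (Nat.mul_div_le m _) _
  have h4 : q * (m / q ^ 3 + q) = q * (m / q ^ 3 + 1) + (q - 1) * q := by
    obtain ⟨p, rfl⟩ : ∃ p, q = p + 1 := ⟨q - 1, by omega⟩
    simp only [Nat.add_sub_cancel]
    ring
  omega

/-- (W2) on windows of length `q^4`, upper bound -/
theorem W2_window_le {q : ℕ} (hq : q.Prime) (m α β : ℕ) (hα : α < q) (hβ : β < q) :
    ((Finset.range (q ^ 4)).filter
      (fun i => W q (m + i) = α ∧ W q (m + i + 1) = β)).card ≤ (q + 1) * q := by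
  have hq0 := hq.pos
  have h3 : 0 < q ^ 3 := by positivity
  have hw := W2_window (q := q) m α β
  have h1 : q * (m / q ^ 3) ≤ Nat.count (fun k => W q k = α ∧ W q (k + 1) = β) m := by
    rw [← W2_count hq α β hα hβ]
    apply Nat.count_monotone
    exact Nat.mul_div_le m _
  have h2 : Nat.count (fun k => W q k = α ∧ W q (k + 1) = β) (m + q ^ 4)
      ≤ q * (m / q ^ 3 + q + 1) := by
    rw [← W2_count hq α β hα hβ]
    apply Nat.count_monotone
    calc m + q ^ 4 ≤ q ^ 3 * (m / q ^ 3 + 1) + q ^ 4 :=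
          Nat.add_le_add_right (Nat.lt_mul_div_succ m h3).le _
      _ = q ^ 3 * (m / q ^ 3 + q + 1) := by ring
  have h4 : q * (m / q ^ 3 + q + 1) = q * (m / q ^ 3) + (q + 1) * q := by ring
  omega

end KAut
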