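import Mathlib
import Pool.Agent.Lib.MP_33914b_an.W2

/-!
# MP_33914b_an, file W3  (ROW ka-W3, helper44)
Paper: /team-store/kaut_paper.md

PROOF / HINTS:
g in range (q^4 h), v - g runs (injectively) over the q^4 h consecutive naturals (v - q^4 h, v]. For fixed residue pi mod h, the numbers n = v-g with n % h = pi are
n = h k + pi with k running over q^4 consecutive naturals k0..k0+q^4-1. So the count is the count of i<q^4 with W(m+k0+i)=alpha, W(m+k0+i+1)=beta: W2_window_ge/le. Give a
bijection (Finset.card_bij / card_nbij').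
-/
set_option autoImplicit false

namespace KAut

/-- reduction: the offsets with residue `π` correspond to `N` consecutive quotients -/
theorem W3_bij {h N : ℕ} (hh : 0 < h) (v π : ℕ) (hπ : π < h) (hv : N * h ≤ v + 1)
    (Q : ℕ → Prop) [DecidablePred Q] :
    ∃ k0, ((Finset.range (N * h)).filter (fun g => (v - g) % h = π ∧ Q ((v - g) / h))).card
      = ((Finset.range N).filter (fun i => Q (k0 + i))).card := by
  -- v' = v + 1 - N h, first element
  obtain ⟨v', hv'⟩ : ∃ v', v + 1 = v' + N * h := ⟨v + 1 - N * h, by omega⟩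
  obtain ⟨k0, hk1, hk2⟩ : ∃ k0, v' ≤ h * k0 + π ∧ h * k0 + π < v' + h := by
    have hd := Nat.div_add_mod v' h
    have hm := Nat.mod_lt v' hh
    by_cases hc : v' % h ≤ π
    · exact ⟨v' / h, by omega, by omega⟩
    · refine ⟨v' / h + 1, ?_, ?_⟩
      · rw [Nat.mul_succ]; omega
      · rw [Nat.mul_succ]; omega
  refine ⟨k0, ?_⟩
  symm
  apply Finset.card_bij (fun i _ => v - (h * (k0 + i) + π))
  · intro i hi
    simp only [Finset.mem_filter, Finset.mem_range] at hi ⊢
    obtain ⟨hiN, hQ⟩ := hi
    have h1 : h * (i + 1) ≤ N * h := by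
      rw [Nat.mul_comm N h]; exact Nat.mul_le_mul_left h hiN
    have h2 : h * (k0 + i) + π < v' + N * h := by
      have : h * (k0 + i) + π = h * k0 + π + h * i := by ring
      rw [this]
      have h3 : h * (i + 1) = h * i + h := by ring
      omega
    have h4 : h * k0 ≤ h * (k0 + i) := Nat.mul_le_mul_left h (Nat.le_add_right _ _)
    have hsub : v - (v - (h * (k0 + i) + π)) = h * (k0 + i) + π := by omega
    refine ⟨by omega, ?_, ?_⟩
    · rw [hsub, Nat.mul_add_mod, Nat.mod_eq_of_lt hπ]
    · rw [hsub, Nat.mul_add_div hh, Nat.div_eq_of_lt hπ, Nat.add_zero]; exact hQ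
  · intro i hi j hj hij
    simp only [Finset.mem_filter, Finset.mem_range] at hi hj
    have hb : ∀ i < N, h * (k0 + i) + π ≤ v := by
      intro i hiN
      have h1 : h * (i + 1) ≤ N * h := by
        rw [Nat.mul_comm N h]; exact Nat.mul_le_mul_left h hiN
      have : h * (k0 + i) + π = h * k0 + π + h * i := by ring
      rw [this]
      have h3 : h * (i + 1) = h * i + h := by ring
      omega
    have h1 := hb i hi.1
    have h2 := hb j hj.1
    have h3 : h * (k0 + i) = h * (k0 + j) := by omega
    have h4 := Nat.eq_of_mul_eq_mul_left hh h3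
    omega
  · intro g hg
    simp only [Finset.mem_filter, Finset.mem_range] at hg
    obtain ⟨hgN, hmod, hQ⟩ := hg
    have hdm := Nat.div_add_mod (v - g) h
    rw [hmod] at hdm
    have hk : k0 ≤ (v - g) / h := by
      by_contra hcon
      push Not at hcon
      have : h * ((v - g) / h + 1) ≤ h * k0 := Nat.mul_le_mul_left h hcon
      rw [Nat.mul_succ] at this
      omega
    have hkN : (v - g) / h < k0 + N := by
      by_contra hcon
      push Not at hcon
      have h5 : h * (k0 + N) ≤ h * ((v - g) / h) := Nat.mul_le_mul_left h hcon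
      rw [Nat.mul_add, Nat.mul_comm h N] at h5
      omega
    refine ⟨(v - g) / h - k0, ?_, ?_⟩
    · simp only [Finset.mem_filter, Finset.mem_range]
      refine ⟨by omega, ?_⟩
      rw [Nat.add_sub_cancel' hk]; exact hQ
    · rw [Nat.add_sub_cancel' hk, hdm]
      omega

/-- counting offsets: for `g < q^4 h` the number `v - g` runs over `q^4 h` consecutive integers, so every residue
`π` mod `h` occurs together with `q^4` consecutive quotients. Lower bound -/
theorem offs_count_ge {q h : ℕ} (hq : q.Prime) (hh : 0 < h) (m v π α β : ℕ) (hπ : π < h)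
    (hv : q ^ 4 * h ≤ v + 1) (hα : α < q) (hβ : β < q) :
    (q - 1) * q ≤ ((Finset.range (q ^ 4 * h)).filter
      (fun g => (v - g) % h = π ∧ W q (m + (v - g) / h) = α ∧ W q (m + (v - g) / h + 1) = β)).card := by
  obtain ⟨k0, hk⟩ := W3_bij hh v π hπ hv (fun k => W q (m + k) = α ∧ W q (m + k + 1) = β)
  rw [hk]
  simp only [← Nat.add_assoc]
  exact W2_window_ge hq (m + k0) α β hα hβ

/-- counting offsets, upper bound -/
theorem offs_count_le {q h : ℕ} (hq : q.Prime) (hh : 0 < h) (m v π α β : ℕ) (hπ : π < h)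
    (hv : q ^ 4 * h ≤ v + 1) (hα : α < q) (hβ : β < q) :
    ((Finset.range (q ^ 4 * h)).filter
      (fun g => (v - g) % h = π ∧ W q (m + (v - g) / h) = α ∧ W q (m + (v - g) / h + 1) = β)).card
      ≤ (q + 1) * q := by
  obtain ⟨k0, hk⟩ := W3_bij hh v π hπ hv (fun k => W q (m + k) = α ∧ W q (m + k + 1) = β)
  rw [hk]
  simp only [← Nat.add_assoc]
  exact W2_window_le hq (m + k0) α β hα hβ

/-- counting offsets: every residue `π` occurs exactly `q^4` times -/
theorem phase_count {q h : ℕ} (hh : 0 < h) (v π : ℕ) (hπ : π < h) (hv : q ^ 4 * h ≤ v + 1) :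
    ((Finset.range (q ^ 4 * h)).filter (fun g => (v - g) % h = π)).card = q ^ 4 := by
  obtain ⟨k0, hk⟩ := W3_bij hh v π hπ hv (fun _ => True)
  simpa using hk

end KAut
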