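import Mathlib
import Pool.Agent.Lib.MP_33914b_an.T1

/-!
# MP_33914b_an, file Y1  (ROW ka-Y1)
Paper: /team-store/kaut_paper.md

PROOF / HINTS:
g_0, ofs < S, p % ell >= 2S: no truncation in vp; vp < (N-1) h; vp/h <= N-2, so (idx)/N = p/ell, idx % N = vp/h, and p = pos a w idx + ph, hence down1_pos. Second part: p+s = pos (idx+1) + (ph + s - h) (idx+1 is in the same superblock).
-/
set_option autoImplicit false

open MeasureTheory

namespace KAut

/-- `p` lies in the safe part of a superblock `u < U` -/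
def TypW (k p : ℕ) : Prop := p / ell k < U k ∧ 2 * S k ≤ p % ell k ∧ p % ell k < (N k - 1) * h k

/-- `p` lies in the safe part of a superblock `u` with `u + 1 < U` -/
def Typ (k p : ℕ) : Prop := p / ell k + 1 < U k ∧ 2 * S k ≤ p % ell k ∧ p % ell k < (N k - 1) * h k

theorem Typ.typW {k p : ℕ} (hp : Typ k p) : TypW k p := ⟨by have := hp.1; omega, hp.2⟩

theorem Typ.typW_add {k p : ℕ} (hp : Typ k p) : TypW k (p + ell k) := by
  obtain ⟨h1, h2, h3⟩ := hp
  refine ⟨?_, ?_, ?_⟩
  · rw [Nat.add_div_right _ (ell_pos k)]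
    exact h1
  · rw [Nat.add_mod_right]
    exact h2
  · rw [Nat.add_mod_right]
    exact h3

/-- position inside the sub-block region of the superblock -/
noncomputable def vp (a : ℕ) {k : ℕ} (ω : Offs k) (p : ℕ) : ℕ :=
  p % ell k - (ω.1 : ℕ) - ofs a ω (p / ell k)

/-- index of the sub-block containing the (typical) position `p` -/
noncomputable def idx (a : ℕ) {k : ℕ} (ω : Offs k) (p : ℕ) : ℕ := (p / ell k) * N k + vp a ω p / h k

/-- phase of the (typical) position `p` -/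
noncomputable def ph (a : ℕ) {k : ℕ} (ω : Offs k) (p : ℕ) : ℕ := vp a ω p % h k

theorem ph_lt (a : ℕ) {k : ℕ} (ω : Offs k) (p : ℕ) : ph a ω p < h k := Nat.mod_lt _ (h_pos k)

theorem Y1_vp_add (a : ℕ) {k : ℕ} (ω : Offs k) {p : ℕ} (hp : TypW k p) :
    (ω.1 : ℕ) + ofs a ω (p / ell k) + vp a ω p = p % ell k := by
  have h1 := hp.2.1
  have h2 : (ω.1 : ℕ) < S k := ω.1.2
  have h3 := ofs_lt a ω (p / ell k)
  unfold vp
  omega

theorem Y1_vp_div (a : ℕ) {k : ℕ} (ω : Offs k) {p : ℕ} (hp : TypW k p) :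
    vp a ω p / h k + 1 < N k := by
  have h1 := Y1_vp_add a ω hp
  have h2 := hp.2.2
  have h3 : vp a ω p < (N k - 1) * h k := by omega
  have h4 := (Nat.div_lt_iff_lt_mul (h_pos k)).2 h3
  exact Nat.lt_sub_iff_add_lt.1 h4

theorem Y1_idx_div (a : ℕ) {k : ℕ} (ω : Offs k) {p : ℕ} (hp : TypW k p) {j : ℕ} (hj : j < N k) :
    ((p / ell k) * N k + j) / N k = p / ell k := by
  rw [Nat.add_comm, Nat.add_mul_div_right _ _ (N_pos k), Nat.div_eq_of_lt hj, zero_add]

theorem idx_succ_lt (a : ℕ) {k : ℕ} (ω : Offs k) {p : ℕ} (hp : TypW k p) : idx a ω p + 1 < L k := by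
  have h1 := Y1_vp_div a ω hp
  have h2 : (p / ell k + 1) * N k ≤ U k * N k := Nat.mul_le_mul_right _ hp.1
  unfold idx L
  rw [add_mul, one_mul] at h2
  omega

theorem Y1_pos_idx (a : ℕ) {k : ℕ} (ω : Offs k) {p : ℕ} (hp : TypW k p) :
    pos a ω (idx a ω p) + ph a ω p = p := by
  have h1 := Y1_vp_div a ω hp
  have h2 : vp a ω p / h k < N k := by omega
  have h3 : idx a ω p / N k = p / ell k := Y1_idx_div a ω hp h2
  have h4 : idx a ω p % N k = vp a ω p / h k := by
    unfold idx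
    rw [Nat.add_comm, Nat.add_mul_mod_self_right, Nat.mod_eq_of_lt h2]
  have h5 := Y1_vp_add a ω hp
  have h6 := Nat.div_add_mod' (vp a ω p) (h k)
  have h7 := Nat.div_add_mod' p (ell k)
  unfold pos ph
  rw [h3, h4]
  omega

theorem Y1_pos_idx_succ (a : ℕ) {k : ℕ} (ω : Offs k) {p : ℕ} (hp : TypW k p) :
    pos a ω (idx a ω p + 1) + ph a ω p = p + h k := by
  have h1 := Y1_vp_div a ω hp
  have h2 : vp a ω p / h k < N k := by omega
  have h3 : idx a ω p / N k = p / ell k := Y1_idx_div a ω hp h2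
  have h4 : idx a ω p % N k = vp a ω p / h k := by
    unfold idx
    rw [Nat.add_comm, Nat.add_mul_mod_self_right, Nat.mod_eq_of_lt h2]
  have h3' : (idx a ω p + 1) / N k = p / ell k := Y1_idx_div a ω hp h1
  have h4' : (idx a ω p + 1) % N k = vp a ω p / h k + 1 := by
    unfold idx
    rw [Nat.add_assoc, Nat.add_comm, Nat.add_mul_mod_self_right, Nat.mod_eq_of_lt h1]
  have h8 := Y1_pos_idx a ω hp
  unfold pos at h8 ⊢
  rw [h3, h4] at h8
  rw [h3', h4', add_mul, one_mul]
  omega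

theorem TypW.lt {k p : ℕ} (hp : TypW k p) : p + h k < h (k + 1) := by
  obtain ⟨h1, h2, h3⟩ := hp
  have h7 := Nat.div_add_mod' p (ell k)
  have h8 : (p / ell k + 1) * ell k ≤ U k * ell k := Nat.mul_le_mul_right _ h1
  have h9 := h_succ k
  have hN := N_pos k
  have h10 : (N k - 1) * h k + h k = N k * h k := by
    rw [← Nat.succ_mul, Nat.succ_eq_add_one, Nat.sub_add_cancel hN]
  have h11 : S k + N k * h k = ell k := rfl
  rw [add_mul, one_mul] at h8
  omega

/-- (LOC) first part of the window -/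
theorem down1_typ (a : ℕ) {k : ℕ} (c : C (k + 1)) {p : ℕ} (hp : TypW k p) (s : ℕ) (hs : ph a (offs c) p + s < h k)
    (hps : p + s < h (k + 1)) :
    down1 a (c, Sum.inl ⟨p + s, hps⟩) =
      (sub c ⟨idx a (offs c) p, by have := idx_succ_lt a (offs c) hp; omega⟩,
        Sum.inl ⟨ph a (offs c) p + s, hs⟩) := by
  have h1 := Y1_pos_idx a (offs c) hp
  rw [← down1_pos]
  congr 3
  apply Fin.ext
  show p + s = pos a (offs c) (idx a (offs c) p) + (ph a (offs c) p + s)
  omega

/-- (LOC) second part of the window -/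
theorem down1_typ' (a : ℕ) {k : ℕ} (c : C (k + 1)) {p : ℕ} (hp : TypW k p) (s : ℕ) (hs : s < h k)
    (hs' : h k ≤ ph a (offs c) p + s) (hps : p + s < h (k + 1)) :
    down1 a (c, Sum.inl ⟨p + s, hps⟩) =
      (sub c ⟨idx a (offs c) p + 1, idx_succ_lt a (offs c) hp⟩,
        Sum.inl ⟨ph a (offs c) p + s - h k, by have := ph_lt a (offs c) p; omega⟩) := by
  have h1 := Y1_pos_idx_succ a (offs c) hp
  rw [← down1_pos]
  congr 3
  apply Fin.ext
  show p + s = pos a (offs c) (idx a (offs c) p + 1) + (ph a (offs c) p + s - h k)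
  omega

/-- two consecutive sub-columns and the phase -/
abbrev Xi (k : ℕ) : Type := C k × C k × Fin (h k)

/-- the window data at a typical position -/
noncomputable def xi (a : ℕ) {k : ℕ} (c : C (k + 1)) (p : ℕ) (hp : TypW k p) : Xi k :=
  (sub c ⟨idx a (offs c) p, by have := idx_succ_lt a (offs c) hp; omega⟩,
    sub c ⟨idx a (offs c) p + 1, idx_succ_lt a (offs c) hp⟩,
    ⟨ph a (offs c) p, ph_lt a (offs c) p⟩)

/-- with all superblocks of type I the phase at `p + ell` is the phase at `p` -/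
theorem ph_add_ell (k : ℕ) (ω : Offs k) (p : ℕ) (hp : Typ k p) : ph 0 ω (p + ell k) = ph 0 ω p := by
  have h1 : ∀ u, ofs 0 ω u = 0 := by
    intro u
    unfold ofs
    split
    · rw [if_neg (Nat.not_lt_zero u)]
    · rfl
  unfold ph vp
  rw [h1, h1, Nat.add_mod_right]

/-- the set of points of `[0,1)` whose level `k+1` coordinate is a typical block position -/
def TypSet (a : ℕ → ℕ) (k : ℕ) : Set ℝ :=
  {x | x ∈ Set.Ico (0 : ℝ) 1 ∧ ∃ (c : C (k + 1)) (p : ℕ) (hp : p < h (k + 1)),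
    Typ k p ∧ X a (k + 1) x = (c, Sum.inl ⟨p, hp⟩)}

end KAut
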