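import Mathlib
import Pool.Agent.Lib.MP_33914b_an.Y1
import Pool.Agent.Lib.MP_33914b_an.W3

/-!
# MP_33914b_an, file Y2  (ROW ka-Y2)
Paper: /team-store/kaut_paper.md

PROOF / HINTS:
rho in R (k+1) = ((g0, g), rr) with rr : Fin L -> R k. u = p/ell, v = p%ell - ofs(u) (independent of g0), vp = v - g0, v >= S >= q^4 h - 1. xi = alpha iff (v-g0)%h = alpha phase, W(m + (v-g0)/h) = mode 1, W(m+(v-g0)/h+1) = mode 2 (m = L J + u N), and
rr(idx) = rho_1, rr(idx+1) = rho_2. For fixed g: number of g0 is in [(q-1)q,(q+1)q] (offs_count), for each of them |R|^(L-2) vectors rr. Total: S^U * count * |R|^(L-2); card (R (k+1)) = S * S^U * |R|^L, card Xi = q^2 |R|^2 h, S = q^4 h.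
To avoid |R|^(L-2) use: card{rr | rr i = r1, rr i' = r2} * |R|^2 = |R|^L for i != i'. card_ph_eq: phase_count.
-/
set_option autoImplicit false

open MeasureTheory

namespace KAut

/-- prescribing the values at the elements of `s` -/
theorem Y2_card_pi {n : ℕ} {Q : Type} [Fintype Q] (s : Finset (Fin n)) (f : Fin n → Q) :
    Nat.card {r : Fin n → Q // ∀ i ∈ s, r i = f i} * Nat.card Q ^ s.card = Nat.card Q ^ n := by
  classical
  have h1 : Nat.card {r : Fin n → Q // ∀ i ∈ s, r i = f i} =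
      (Fintype.piFinset (fun i => if i ∈ s then ({f i} : Finset Q) else Finset.univ)).card := by
    rw [Nat.card_eq_fintype_card, Fintype.card_subtype]
    congr 1
    ext r
    simp only [Finset.mem_filter, Finset.mem_univ, true_and, Fintype.mem_piFinset]
    refine forall_congr' fun i => ?_
    by_cases hi : i ∈ s <;> simp [hi]
  have h3 : Nat.card Q ^ s.card = ∏ i : Fin n, if i ∈ s then Nat.card Q else 1 := by
    rw [Finset.prod_ite_mem, Finset.univ_inter, Finset.prod_const]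
  rw [h1, Fintype.card_piFinset, h3, ← Finset.prod_mul_distrib]
  have h4 : ∀ i : Fin n, (if i ∈ s then ({f i} : Finset Q) else Finset.univ).card *
      (if i ∈ s then Nat.card Q else 1) = Nat.card Q := by
    intro i
    by_cases hi : i ∈ s <;> simp [hi]
  rw [Finset.prod_congr rfl fun i _ => h4 i, Finset.prod_const, Finset.card_univ, Fintype.card_fin]

theorem Y2_card_prod {A B : Type} [Fintype A] [Finite B] (P : A → B → Prop) :
    Nat.card {p : A × B // P p.1 p.2} = ∑ a, Nat.card {b // P a b} := by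
  rw [Nat.card_congr (Equiv.subtypeProdEquivSigmaSubtype P), Nat.card_sigma]

/-- sum over the offsets -/
theorem Y2_card_R {k : ℕ} (P : Offs k → (Fin (L k) → R k) → Prop) :
    Nat.card {ρ : R (k + 1) // P (show Offs k × (Fin (L k) → R k) from ρ).1
      (show Offs k × (Fin (L k) → R k) from ρ).2} = ∑ ω : Offs k, Nat.card {r // P ω r} :=
  Y2_card_prod P

theorem Y2_card_R_succ (k : ℕ) :
    Nat.card (R (k + 1)) = S k * S k ^ U k * Nat.card (R k) ^ L k := by
  change Nat.card ((Fin (S k) × (Fin (U k) → Fin (S k))) × (Fin (L k) → R k)) = _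
  rw [Nat.card_prod, Nat.card_prod, Nat.card_fun, Nat.card_fun, Nat.card_eq_fintype_card,
    Fintype.card_fin, Nat.card_eq_fintype_card (α := Fin (U k)), Fintype.card_fin,
    Nat.card_eq_fintype_card (α := Fin (L k)), Fintype.card_fin]

theorem Y2_card_R_pos (k : ℕ) : 0 < Nat.card (R k) := Nat.card_pos

theorem Y2_card_Xi (k : ℕ) : Nat.card (Xi k) = q k ^ 2 * h k * Nat.card (R k) ^ 2 := by
  change Nat.card ((Fin (q k) × R k) × (Fin (q k) × R k) × Fin (h k)) = _
  rw [Nat.card_prod, Nat.card_prod (Fin (q k) × R k) (Fin (h k)), Nat.card_prod (Fin (q k)) (R k),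
    Nat.card_eq_fintype_card (α := Fin (q k)),
    Fintype.card_fin, Nat.card_eq_fintype_card (α := Fin (h k)), Fintype.card_fin]
  ring

/-- the conditions on the offsets -/
def Y2_Good (a k : ℕ) (J : Fin (q (k + 1))) (p : ℕ) (α : Xi k) (ω : Offs k) : Prop :=
  ph a ω p = (α.2.2 : ℕ) ∧ W (q k) (L k * J + idx a ω p) = (α.1.1 : ℕ) ∧
    W (q k) (L k * J + (idx a ω p + 1)) = (α.2.1.1 : ℕ)

theorem Y2_xi_eq_iff (a k : ℕ) (J : Fin (q (k + 1))) (p : ℕ) (hp : TypW k p) (α : Xi k)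
    (ω : Offs k) (r : Fin (L k) → R k) :
    xi a ((J, mkR ω r) : C (k + 1)) p hp = α ↔ Y2_Good a k J p α ω ∧
      r ⟨idx a ω p, by have := idx_succ_lt a ω hp; omega⟩ = α.1.2 ∧
      r ⟨idx a ω p + 1, idx_succ_lt a ω hp⟩ = α.2.1.2 := by
  unfold xi Y2_Good
  rw [Prod.ext_iff, Prod.ext_iff, Prod.ext_iff, Prod.ext_iff]
  simp only [sub, w, Fin.ext_iff]
  change ((W (q k) (L k * J + idx a ω p) = (α.1.1 : ℕ) ∧
      r ⟨idx a ω p, _⟩ = α.1.2) ∧ (W (q k) (L k * J + (idx a ω p + 1)) = (α.2.1.1 : ℕ) ∧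
      r ⟨idx a ω p + 1, _⟩ = α.2.1.2) ∧ ph a ω p = (α.2.2 : ℕ)) ↔ _
  tauto

open Classical in
theorem Y2_fib (a k : ℕ) (J : Fin (q (k + 1))) (p : ℕ) (hp : TypW k p) (α : Xi k) (ω : Offs k) :
    Nat.card {r : Fin (L k) → R k // xi a ((J, mkR ω r) : C (k + 1)) p hp = α} *
      Nat.card (R k) ^ 2 = if Y2_Good a k J p α ω then Nat.card (R k) ^ L k else 0 := by
  split_ifs with hG
  · have hi := idx_succ_lt a ω hp
    set i1 : Fin (L k) := ⟨idx a ω p, by omega⟩ with hi1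
    set i2 : Fin (L k) := ⟨idx a ω p + 1, hi⟩ with hi2
    have hne : i1 ≠ i2 := by
      intro he
      have := congrArg Fin.val he
      simp only [hi1, hi2] at this
      omega
    have hs : ({i1, i2} : Finset (Fin (L k))).card = 2 := Finset.card_pair hne
    rw [← Y2_card_pi ({i1, i2} : Finset (Fin (L k))) (fun i => if i = i1 then α.1.2 else α.2.1.2), hs]
    congr 1
    refine Nat.card_congr (Equiv.subtypeEquivRight fun r => ?_)
    rw [Y2_xi_eq_iff]
    constructor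
    · rintro ⟨-, h1, h2⟩ i hi
      rw [Finset.mem_insert, Finset.mem_singleton] at hi
      rcases hi with rfl | rfl
      · rw [if_pos rfl]
        exact h1
      · rw [if_neg hne.symm]
        exact h2
    · intro hr
      refine ⟨hG, ?_, ?_⟩
      · have := hr i1 (by simp)
        rw [if_pos rfl] at this
        exact this
      · have := hr i2 (by simp)
        rw [if_neg hne.symm] at this
        exact this
  · have : IsEmpty {r : Fin (L k) → R k // xi a ((J, mkR ω r) : C (k + 1)) p hp = α} := by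
      refine ⟨fun r => hG ?_⟩
      exact ((Y2_xi_eq_iff a k J p hp α ω r.1).1 r.2).1
    rw [Nat.card_of_isEmpty, zero_mul]

theorem Y2_card_xi (a k : ℕ) (J : Fin (q (k + 1))) (p : ℕ) (hp : TypW k p) (α : Xi k) :
    Nat.card {ρ : R (k + 1) // xi a ((J, ρ) : C (k + 1)) p hp = α} * Nat.card (R k) ^ 2 =
      Nat.card {ω : Offs k // Y2_Good a k J p α ω} * Nat.card (R k) ^ L k := by
  classical
  have h1 := Y2_card_R (k := k) (fun ω r => xi a ((J, mkR ω r) : C (k + 1)) p hp = α)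
  have h2 : Nat.card {ρ : R (k + 1) // xi a ((J, ρ) : C (k + 1)) p hp = α} =
      ∑ ω : Offs k, Nat.card {r // xi a ((J, mkR ω r) : C (k + 1)) p hp = α} := h1
  rw [h2, Finset.sum_mul, Finset.sum_congr rfl fun ω _ => Y2_fib a k J p hp α ω,
    ← Finset.sum_filter, Finset.sum_const,
    Nat.card_eq_fintype_card (α := {ω : Offs k // Y2_Good a k J p α ω}), Fintype.card_subtype,
    smul_eq_mul]

/-- the number of good `g_0` for fixed `g` -/
theorem Y2_card_fin (n : ℕ) (P : ℕ → Prop) [DecidablePred P] :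
    Nat.card {x : Fin n // P x} = ((Finset.range n).filter P).card := by
  rw [Nat.card_eq_fintype_card, Fintype.card_subtype]
  refine Finset.card_bij (fun x _ => (x : ℕ)) ?_ ?_ ?_
  · intro x hx
    rw [Finset.mem_filter] at hx ⊢
    exact ⟨Finset.mem_range.2 x.2, hx.2⟩
  · intro x _ y _ hxy
    exact Fin.ext hxy
  · intro x hx
    rw [Finset.mem_filter, Finset.mem_range] at hx
    exact ⟨⟨x, hx.1⟩, by simpa using hx.2, rfl⟩

theorem Y2_card_Offs {k : ℕ} (P : Offs k → Prop) :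
    Nat.card {ω : Offs k // P ω} = ∑ γ : Fin (U k) → Fin (S k),
      Nat.card {g0 : Fin (S k) // P (g0, γ)} := by
  rw [← Y2_card_prod (fun (γ : Fin (U k) → Fin (S k)) (g0 : Fin (S k)) => P (g0, γ))]
  refine Nat.card_congr ?_
  exact (Equiv.prodComm _ _).subtypeEquiv (fun ω => Iff.rfl)

/-- `ofs` does not depend on `g_0` -/
theorem Y2_ofs_eq (a : ℕ) {k : ℕ} (g0 g1 : Fin (S k)) (γ : Fin (U k) → Fin (S k)) (u : ℕ) :
    ofs a ((g0, γ) : Offs k) u = ofs a ((g1, γ) : Offs k) u := rfl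

theorem Y2_vp_eq (a : ℕ) {k : ℕ} (g0 : Fin (S k)) (γ : Fin (U k) → Fin (S k)) (p : ℕ) :
    vp a ((g0, γ) : Offs k) p =
      (p % ell k - ofs a ((⟨0, S_pos k⟩, γ) : Offs k) (p / ell k)) - (g0 : ℕ) := by
  unfold vp
  rw [Y2_ofs_eq a g0 ⟨0, S_pos k⟩ γ]
  exact Nat.sub_right_comm _ _ _

theorem Y2_good_count (a k : ℕ) (J : Fin (q (k + 1))) (p : ℕ) (hp : TypW k p) (α : Xi k)
    (γ : Fin (U k) → Fin (S k)) :
    (q k - 1) * q k ≤ Nat.card {g0 : Fin (S k) // Y2_Good a k J p α ((g0, γ) : Offs k)} ∧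
      Nat.card {g0 : Fin (S k) // Y2_Good a k J p α ((g0, γ) : Offs k)} ≤ (q k + 1) * q k := by
  classical
  set v := p % ell k - ofs a ((⟨0, S_pos k⟩, γ) : Offs k) (p / ell k) with hv
  have hofs := ofs_lt a ((⟨0, S_pos k⟩, γ) : Offs k) (p / ell k)
  have hvS : q k ^ 4 * h k ≤ v + 1 := by
    have := hp.2.1
    have hS : S k = q k ^ 4 * h k := rfl
    rw [← hS]
    omega
  have e : Nat.card {g0 : Fin (S k) // Y2_Good a k J p α ((g0, γ) : Offs k)} =
      ((Finset.range (q k ^ 4 * h k)).filter (fun g => (v - g) % h k = (α.2.2 : ℕ) ∧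
        W (q k) ((L k * J + p / ell k * N k) + (v - g) / h k) = (α.1.1 : ℕ) ∧
        W (q k) ((L k * J + p / ell k * N k) + (v - g) / h k + 1) = (α.2.1.1 : ℕ))).card := by
    have := Y2_card_fin (S k) (fun g => (v - g) % h k = (α.2.2 : ℕ) ∧
        W (q k) ((L k * J + p / ell k * N k) + (v - g) / h k) = (α.1.1 : ℕ) ∧
        W (q k) ((L k * J + p / ell k * N k) + (v - g) / h k + 1) = (α.2.1.1 : ℕ))
    rw [show q k ^ 4 * h k = S k from rfl, ← this]
    refine Nat.card_congr (Equiv.subtypeEquivRight fun g0 => ?_)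
    unfold Y2_Good ph idx
    rw [Y2_vp_eq a g0 γ p, ← hv]
    simp only [add_assoc]
  rw [e]
  exact ⟨offs_count_ge (q_prime k) (h_pos k) _ v _ _ _ α.2.2.2 hvS α.1.1.2 α.2.1.1.2,
    offs_count_le (q_prime k) (h_pos k) _ v _ _ _ α.2.2.2 hvS α.1.1.2 α.2.1.1.2⟩

theorem Y2_card_gamma (k : ℕ) :
    (Finset.univ : Finset (Fin (U k) → Fin (S k))).card = S k ^ U k := by
  rw [Finset.card_univ, Fintype.card_fun, Fintype.card_fin, Fintype.card_fin]

/-- (EQ2), upper bound -/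
theorem card_xi_le (a k : ℕ) (J : Fin (q (k + 1))) (p : ℕ) (hp : TypW k p) (α : Xi k) :
    (Nat.card {ρ : R (k + 1) // xi a ((J, ρ) : C (k + 1)) p hp = α} : ℝ) * Nat.card (Xi k) ≤
      (1 + 1 / q k) * Nat.card (R (k + 1)) := by
  have h1 := Y2_card_xi a k J p hp α
  have h2 : Nat.card {ω : Offs k // Y2_Good a k J p α ω} ≤ S k ^ U k * ((q k + 1) * q k) := by
    rw [Y2_card_Offs]
    calc _ ≤ ∑ _γ : Fin (U k) → Fin (S k), (q k + 1) * q k :=
          Finset.sum_le_sum fun γ _ => (Y2_good_count a k J p hp α γ).2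
      _ = _ := by rw [Finset.sum_const, Y2_card_gamma, smul_eq_mul]
  set X1 := Nat.card {ρ : R (k + 1) // xi a ((J, ρ) : C (k + 1)) p hp = α}
  set X2 := Nat.card {ω : Offs k // Y2_Good a k J p α ω}
  have hq : (0 : ℝ) < q k := by exact_mod_cast q_pos k
  have e1 : ((X1 * Nat.card (Xi k) : ℕ) : ℝ) = (X2 : ℝ) * (Nat.card (R k) : ℝ) ^ L k *
      ((q k : ℝ) ^ 2 * h k) := by
    have : X1 * Nat.card (Xi k) = X2 * Nat.card (R k) ^ L k * (q k ^ 2 * h k) := by
      rw [← h1, Y2_card_Xi]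
      ring
    rw [this]
    push_cast
    ring
  have e2 : (Nat.card (R (k + 1)) : ℝ) = (q k : ℝ) ^ 4 * h k * (S k : ℝ) ^ U k *
      (Nat.card (R k) : ℝ) ^ L k := by
    rw [Y2_card_R_succ]
    push_cast
    rw [show (S k : ℝ) = (q k : ℝ) ^ 4 * h k from by unfold S; push_cast; ring]
  have h3 : (X2 : ℝ) ≤ (S k : ℝ) ^ U k * (((q k : ℝ) + 1) * q k) := by exact_mod_cast h2
  have e3 : (X1 : ℝ) * Nat.card (Xi k) = ((X1 * Nat.card (Xi k) : ℕ) : ℝ) := by push_cast; ring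
  rw [e3, e1, e2]
  have e4 : (1 + 1 / (q k : ℝ)) * ((q k : ℝ) ^ 4 * h k * (S k : ℝ) ^ U k *
      (Nat.card (R k) : ℝ) ^ L k) = (S k : ℝ) ^ U k * (((q k : ℝ) + 1) * q k) *
      ((Nat.card (R k) : ℝ) ^ L k * ((q k : ℝ) ^ 2 * h k)) := by
    field_simp
  rw [e4]
  calc (X2 : ℝ) * (Nat.card (R k) : ℝ) ^ L k * ((q k : ℝ) ^ 2 * h k)
      = (X2 : ℝ) * ((Nat.card (R k) : ℝ) ^ L k * ((q k : ℝ) ^ 2 * h k)) := by ring
    _ ≤ _ := mul_le_mul_of_nonneg_right h3 (by positivity)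

/-- (EQ2), lower bound -/
theorem card_xi_ge (a k : ℕ) (J : Fin (q (k + 1))) (p : ℕ) (hp : TypW k p) (α : Xi k) :
    (1 - 1 / q k) * Nat.card (R (k + 1)) ≤
      (Nat.card {ρ : R (k + 1) // xi a ((J, ρ) : C (k + 1)) p hp = α} : ℝ) * Nat.card (Xi k) := by
  have h1 := Y2_card_xi a k J p hp α
  have h2 : S k ^ U k * ((q k - 1) * q k) ≤ Nat.card {ω : Offs k // Y2_Good a k J p α ω} := by
    rw [Y2_card_Offs]
    calc _ = ∑ _γ : Fin (U k) → Fin (S k), (q k - 1) * q k := by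
          rw [Finset.sum_const, Y2_card_gamma, smul_eq_mul]
      _ ≤ _ := Finset.sum_le_sum fun γ _ => (Y2_good_count a k J p hp α γ).1
  set X1 := Nat.card {ρ : R (k + 1) // xi a ((J, ρ) : C (k + 1)) p hp = α}
  set X2 := Nat.card {ω : Offs k // Y2_Good a k J p α ω}
  have hq : (0 : ℝ) < q k := by exact_mod_cast q_pos k
  have e1 : ((X1 * Nat.card (Xi k) : ℕ) : ℝ) = (X2 : ℝ) * (Nat.card (R k) : ℝ) ^ L k *
      ((q k : ℝ) ^ 2 * h k) := by
    have : X1 * Nat.card (Xi k) = X2 * Nat.card (R k) ^ L k * (q k ^ 2 * h k) := by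
      rw [← h1, Y2_card_Xi]
      ring
    rw [this]
    push_cast
    ring
  have e2 : (Nat.card (R (k + 1)) : ℝ) = (q k : ℝ) ^ 4 * h k * (S k : ℝ) ^ U k *
      (Nat.card (R k) : ℝ) ^ L k := by
    rw [Y2_card_R_succ]
    push_cast
    rw [show (S k : ℝ) = (q k : ℝ) ^ 4 * h k from by unfold S; push_cast; ring]
  have h3 : (S k : ℝ) ^ U k * (((q k : ℝ) - 1) * q k) ≤ (X2 : ℝ) := by
    have h4 : ((S k ^ U k * ((q k - 1) * q k) : ℕ) : ℝ) ≤ (X2 : ℝ) := by exact_mod_cast h2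
    have h5 : ((q k - 1 : ℕ) : ℝ) = (q k : ℝ) - 1 := by
      rw [Nat.cast_sub (q_pos k)]
      simp
    push_cast at h4
    rw [h5] at h4
    exact h4
  have e3 : (X1 : ℝ) * Nat.card (Xi k) = ((X1 * Nat.card (Xi k) : ℕ) : ℝ) := by push_cast; ring
  rw [e3, e1, e2]
  have e4 : (1 - 1 / (q k : ℝ)) * ((q k : ℝ) ^ 4 * h k * (S k : ℝ) ^ U k *
      (Nat.card (R k) : ℝ) ^ L k) = (S k : ℝ) ^ U k * (((q k : ℝ) - 1) * q k) *
      ((Nat.card (R k) : ℝ) ^ L k * ((q k : ℝ) ^ 2 * h k)) := by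
    field_simp
  rw [e4]
  calc _ ≤ (X2 : ℝ) * ((Nat.card (R k) : ℝ) ^ L k * ((q k : ℝ) ^ 2 * h k)) :=
        mul_le_mul_of_nonneg_right h3 (by positivity)
    _ = _ := by ring

/-- the phases are exactly uniform over `g_0` -/
theorem card_ph_eq (a k : ℕ) (p π : ℕ) (hp : TypW k p) (hπ : π < h k) (J : Fin (q (k + 1))) :
    Nat.card {ρ : R (k + 1) // ph a (offs ((J, ρ) : C (k + 1))) p = π} * h k = Nat.card (R (k + 1)) := by
  classical
  have h1 := Y2_card_R (k := k) (fun ω _ => ph a ω p = π)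
  have h2 : Nat.card {ρ : R (k + 1) // ph a (offs ((J, ρ) : C (k + 1))) p = π} =
      ∑ ω : Offs k, Nat.card {_r : Fin (L k) → R k // ph a ω p = π} := h1
  have h3 : ∀ ω : Offs k, Nat.card {_r : Fin (L k) → R k // ph a ω p = π} =
      if ph a ω p = π then Nat.card (R k) ^ L k else 0 := by
    intro ω
    split_ifs with hω
    · rw [Nat.card_congr (Equiv.subtypeUnivEquiv fun _ => hω), Nat.card_fun,
        Nat.card_eq_fintype_card (α := Fin (L k)), Fintype.card_fin]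
    · have : IsEmpty {_r : Fin (L k) → R k // ph a ω p = π} := ⟨fun r => hω r.2⟩
      exact Nat.card_of_isEmpty
  have h4 : ∀ γ : Fin (U k) → Fin (S k),
      Nat.card {g0 : Fin (S k) // ph a ((g0, γ) : Offs k) p = π} = q k ^ 4 := by
    intro γ
    set v := p % ell k - ofs a ((⟨0, S_pos k⟩, γ) : Offs k) (p / ell k) with hv
    have hofs := ofs_lt a ((⟨0, S_pos k⟩, γ) : Offs k) (p / ell k)
    have hvS : q k ^ 4 * h k ≤ v + 1 := by
      have := hp.2.1
      have hS : S k = q k ^ 4 * h k := rfl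
      rw [← hS]
      omega
    have e := Y2_card_fin (S k) (fun g => (v - g) % h k = π)
    rw [← phase_count (h_pos k) v π hπ hvS, show q k ^ 4 * h k = S k from rfl, ← e]
    refine Nat.card_congr (Equiv.subtypeEquivRight fun g0 => ?_)
    unfold ph
    rw [Y2_vp_eq a g0 γ p, ← hv]
  have h5 : Nat.card {ω : Offs k // ph a ω p = π} = S k ^ U k * q k ^ 4 := by
    rw [Y2_card_Offs, Finset.sum_congr rfl fun γ _ => h4 γ, Finset.sum_const, Y2_card_gamma,
      smul_eq_mul]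
  rw [h2, Finset.sum_congr rfl fun ω _ => h3 ω, ← Finset.sum_filter, Finset.sum_const, smul_eq_mul,
    ← Fintype.card_subtype, ← Nat.card_eq_fintype_card, h5, Y2_card_R_succ]
  unfold S
  ring

end KAut
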