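import Mathlib
import Pool.Agent.Lib.MP_33914b_an.Y1

/-!
# MP_33914b_an, file Y4  (ROW ka-Y4)
Paper: /team-store/kaut_paper.md

PROOF / HINTS:
lam_X. Complement: block positions p<h' not typical, and spacers. Among p<U ell: last superblock ell positions; in each superblock p%ell<2S or >= (N-1)h: 2S + S + h; p >= U ell: G. Total/(h'+sp') with h'+sp' = L(h+sp) >= U ell:
1/U + (3S+h)/ell + G/h' + sp'/(h'+sp') <= 1/(4q) + 3/(q+1) + 1/(q^4+q^5) + 3/(4H+3) + 1/(4H+4) < 3/H (q >= 2H+2).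
-/
set_option autoImplicit false

open MeasureTheory

namespace KAut

/-- the set of level `k+1` points in typical positions -/
def Y4_good (k : ℕ) : Set (E (k + 1)) :=
  {e | ∃ (c : C (k + 1)) (p : ℕ) (hp : p < h (k + 1)), Typ k p ∧ e = (c, Sum.inl ⟨p, hp⟩)}

theorem Y4_TypSet_eq (a : ℕ → ℕ) (k : ℕ) :
    TypSet a k = Set.Ico (0 : ℝ) 1 ∩ {x | X a (k + 1) x ∈ Y4_good k} := rfl

theorem measurableSet_TypSet (a : ℕ → ℕ) (k : ℕ) : MeasurableSet (TypSet a k) := by
  rw [Y4_TypSet_eq]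
  exact measurableSet_Ico.inter (measurable_X a (k + 1) (Y4_good k))

theorem Y4_arith (k : ℕ) :
    H k * (G k + ell k + U k * (2 * S k + (S k + h k)) + sp (k + 1)) ≤
      3 * (h (k + 1) + sp (k + 1)) := by
  have h1 := US_add_G k
  have h2 := h_add_sp k
  have h3 := two_H_lt_q k
  have h4 := ell_eq k
  have h5 : G k + ell k + U k * (2 * S k + (S k + h k)) + sp (k + 1) =
      4 * sp (k + 1) + 2 * (U k * S k) + ell k + U k * h k := by
    have : U k * (2 * S k + (S k + h k)) = 3 * (U k * S k) + U k * h k := by ring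
    omega
  rw [h5, h2, h4, sp_succ, L_eq, S_eq]
  unfold U h
  generalize q k = x at *
  generalize H k = y at *
  generalize sp k = z at *
  have hx : 2 * y ≤ x := by omega
  have h6 : y * (9 * x ^ 5 + x ^ 4 + 4 * x) ≤ 8 * x ^ 6 := by
    have hx1 : 1 ≤ x := by omega
    have h7 : 2 * (y * (9 * x ^ 5 + x ^ 4 + 4 * x)) ≤ x * (9 * x ^ 5 + x ^ 4 + 4 * x) := by
      calc 2 * (y * (9 * x ^ 5 + x ^ 4 + 4 * x)) = (2 * y) * (9 * x ^ 5 + x ^ 4 + 4 * x) := by ring
        _ ≤ x * (9 * x ^ 5 + x ^ 4 + 4 * x) := Nat.mul_le_mul_right _ hx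
    have h8 : x ^ 5 ≤ x ^ 6 := Nat.pow_le_pow_right hx1 (by norm_num)
    have h9 : x ^ 2 ≤ x ^ 6 := Nat.pow_le_pow_right hx1 (by norm_num)
    have h10 : x * (9 * x ^ 5 + x ^ 4 + 4 * x) = 9 * x ^ 6 + x ^ 5 + 4 * x ^ 2 := by ring
    rw [h10] at h7
    omega
  calc y * (4 * (x ^ 6 * z) + 2 * (4 * x * (x ^ 4 * y * z)) + (x ^ 4 + x ^ 5) * (y * z) +
        4 * x * (y * z))
      = (y * z) * (4 * x ^ 6 + y * (9 * x ^ 5 + x ^ 4 + 4 * x)) := by ring
    _ ≤ (y * z) * (4 * x ^ 6 + 8 * x ^ 6) := by gcongr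
    _ = 12 * x ^ 6 * (y * z) := by ring
    _ ≤ 12 * x ^ 6 * (y * z + z) := Nat.mul_le_mul_left _ (Nat.le_add_right _ _)
    _ = 3 * (4 * x ^ 6 * (y * z + z)) := by ring

theorem Y4_count (k : ℕ) (P : Finset ℕ)
    (hP : ∀ p ∈ P, p < h (k + 1) ∧ ¬ Typ k p) :
    P.card ≤ G k + ell k + U k * (2 * S k + (S k + h k)) := by
  classical
  have hell := ell_pos k
  have hsub : P ⊆ (Finset.Ico (U k * ell k) (h (k + 1)) ∪
      Finset.Ico ((U k - 1) * ell k) (U k * ell k)) ∪
      ((Finset.range (U k)) ×ˢ (Finset.range (2 * S k) ∪ Finset.Ico ((N k - 1) * h k) (ell k))).image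
        (fun x : ℕ × ℕ => x.1 * ell k + x.2) := by
    intro p hp
    obtain ⟨hp1, hp2⟩ := hP p hp
    have hdm : p / ell k * ell k + p % ell k = p := Nat.div_add_mod' p (ell k)
    have hmod : p % ell k < ell k := Nat.mod_lt _ hell
    by_cases hA : U k * ell k ≤ p
    · exact Finset.mem_union_left _ (Finset.mem_union_left _ (Finset.mem_Ico.2 ⟨hA, hp1⟩))
    · rw [not_le] at hA
      by_cases hB : (U k - 1) * ell k ≤ p
      · exact Finset.mem_union_left _ (Finset.mem_union_right _ (Finset.mem_Ico.2 ⟨hB, hA⟩))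
      · rw [not_le] at hB
        apply Finset.mem_union_right
        have hdiv : p / ell k < U k := (Nat.div_lt_iff_lt_mul hell).2 hA
        have hdiv' : p / ell k < U k - 1 := (Nat.div_lt_iff_lt_mul hell).2 hB
        refine Finset.mem_image.2 ⟨(p / ell k, p % ell k), ?_, hdm⟩
        refine Finset.mem_product.2 ⟨Finset.mem_range.2 hdiv, ?_⟩
        rw [Finset.mem_union, Finset.mem_range, Finset.mem_Ico]
        by_contra hcon
        rw [not_or, not_lt, not_and, not_lt] at hcon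
        apply hp2
        refine ⟨Nat.add_lt_of_lt_sub hdiv', hcon.1, ?_⟩
        by_contra h2
        rw [not_lt] at h2
        exact absurd hmod (by simpa using hcon.2 h2)
  refine (Finset.card_le_card hsub).trans ?_
  refine (Finset.card_union_le _ _).trans ?_
  refine add_le_add ((Finset.card_union_le _ _).trans (add_le_add ?_ ?_)) ?_
  · rw [Nat.card_Ico, h_succ]
    omega
  · rw [Nat.card_Ico]
    have h1 : U k * ell k = (U k - 1) * ell k + ell k := by
      have := U_pos k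
      obtain ⟨m, hm⟩ : ∃ m, U k = m + 1 := ⟨U k - 1, by omega⟩
      rw [hm, Nat.add_sub_cancel]
      ring
    omega
  · refine Finset.card_image_le.trans ?_
    rw [Finset.card_product, Finset.card_range]
    refine Nat.mul_le_mul_left _ ?_
    refine (Finset.card_union_le _ _).trans ?_
    rw [Finset.card_range, Nat.card_Ico]
    have h1 : ell k = S k + ((N k - 1) * h k + h k) := by
      have := N_pos k
      obtain ⟨m, hm⟩ : ∃ m, N k = m + 1 := ⟨N k - 1, by omega⟩
      unfold ell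
      rw [hm, Nat.add_sub_cancel]
      ring
    omega

theorem Y4_card (k : ℕ) :
    Nat.card ((Y4_good k)ᶜ : Set (E (k + 1))) * H k ≤ 3 * Nat.card (E (k + 1)) := by
  classical
  set P : Finset (Fin (h (k + 1))) := Finset.univ.filter (fun p => ¬ Typ k p.1) with hPdef
  have hsub : ((Y4_good k)ᶜ : Set (E (k + 1))) ⊆
      ((Finset.univ : Finset (C (k + 1))) ×ˢ
        (P.disjSum (Finset.univ : Finset (Fin (sp (k + 1))))) : Finset (E (k + 1))) := by
    rintro ⟨c, r⟩ he
    rw [Finset.mem_coe, Finset.mem_product]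
    refine ⟨Finset.mem_univ _, ?_⟩
    rcases r with p | f
    · rw [Finset.inl_mem_disjSum, hPdef, Finset.mem_filter]
      refine ⟨Finset.mem_univ _, fun ht => he ⟨c, p.1, p.2, ht, rfl⟩⟩
    · rw [Finset.inr_mem_disjSum]
      exact Finset.mem_univ _
  have h1 : Nat.card ((Y4_good k)ᶜ : Set (E (k + 1))) ≤
      Fintype.card (C (k + 1)) * (P.card + sp (k + 1)) := by
    have h2 := Set.ncard_le_ncard hsub (Finset.finite_toSet _)
    rw [Set.ncard_coe_finset, Finset.card_product, Finset.card_disjSum, Finset.card_univ,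
      Finset.card_univ, Fintype.card_fin] at h2
    exact h2
  have h3 : P.card ≤ G k + ell k + U k * (2 * S k + (S k + h k)) := by
    have h4 := Y4_count k (P.map Fin.valEmbedding) (by
      intro p hp
      rw [Finset.mem_map] at hp
      obtain ⟨x, hx, rfl⟩ := hp
      rw [hPdef, Finset.mem_filter] at hx
      exact ⟨x.2, hx.2⟩)
    rw [Finset.card_map] at h4
    exact h4
  have h5 := Y4_arith k
  have h6 : Nat.card (E (k + 1)) = Fintype.card (C (k + 1)) * (h (k + 1) + sp (k + 1)) := by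
    rw [Nat.card_prod, Nat.card_sum, Nat.card_fin, Nat.card_fin, Nat.card_eq_fintype_card]
  rw [h6]
  calc Nat.card ((Y4_good k)ᶜ : Set (E (k + 1))) * H k
      ≤ (Fintype.card (C (k + 1)) * (P.card + sp (k + 1))) * H k := Nat.mul_le_mul_right _ h1
    _ ≤ (Fintype.card (C (k + 1)) *
        ((G k + ell k + U k * (2 * S k + (S k + h k))) + sp (k + 1))) * H k := by gcongr
    _ = Fintype.card (C (k + 1)) *
        (H k * (G k + ell k + U k * (2 * S k + (S k + h k)) + sp (k + 1))) := by ring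
    _ ≤ Fintype.card (C (k + 1)) * (3 * (h (k + 1) + sp (k + 1))) := Nat.mul_le_mul_left _ h5
    _ = 3 * (Fintype.card (C (k + 1)) * (h (k + 1) + sp (k + 1))) := by ring

theorem lam_TypSet (a : ℕ → ℕ) (k : ℕ) : lam (TypSet a k)ᶜ ≤ ENNReal.ofReal (3 / H k) := by
  have h0 : lam (Set.Ico (0 : ℝ) 1)ᶜ = 0 := by
    unfold lam
    rw [Measure.restrict_apply measurableSet_Ico.compl]
    have : (Set.Ico (0 : ℝ) 1)ᶜ ∩ Set.Icc (0 : ℝ) 1 ⊆ {1} := by
      rintro x ⟨hx1, hx2⟩
      rw [Set.mem_singleton_iff]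
      by_contra hne
      exact hx1 ⟨hx2.1, lt_of_le_of_ne hx2.2 hne⟩
    exact measure_mono_null this Real.volume_singleton
  have h1 : lam (TypSet a k)ᶜ ≤ lam {x | X a (k + 1) x ∈ (Y4_good k)ᶜ} := by
    rw [Y4_TypSet_eq, Set.compl_inter]
    refine (measure_union_le _ _).trans ?_
    rw [h0, zero_add]
    exact le_of_eq rfl
  refine h1.trans ?_
  rw [lam_X]
  have h2 := Y4_card k
  have hH : 0 < H k := by have := H_ge k; omega
  have hE : 0 < Nat.card (E (k + 1)) := Nat.card_pos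
  have hHr : (0 : ℝ) < H k := by exact_mod_cast hH
  have hEr : (0 : ℝ) < Nat.card (E (k + 1)) := by exact_mod_cast hE
  have h3 : ((Nat.card ((Y4_good k)ᶜ : Set (E (k + 1))) : ℕ) : ENNReal) / Nat.card (E (k + 1)) =
      ENNReal.ofReal ((Nat.card ((Y4_good k)ᶜ : Set (E (k + 1))) : ℝ) / Nat.card (E (k + 1))) := by
    rw [ENNReal.ofReal_div_of_pos hEr, ENNReal.ofReal_natCast, ENNReal.ofReal_natCast]
  rw [h3]
  apply ENNReal.ofReal_le_ofReal
  rw [div_le_div_iff₀ hEr hHr]
  exact_mod_cast h2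

end KAut
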