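import Mathlib
import Pool.Agent.Lib.MP_33914b_an.F3
import Pool.Agent.Lib.MP_33914b_an.Y2
import Pool.Agent.Lib.MP_33914b_an.Y4
import Pool.Agent.Lib.MP_33914b_an.EntDef

/-!
# MP_33914b_an, file F4  (ROW ka-F4)
Paper: /team-store/kaut_paper.md

PROOF / HINTS:
n = k+1, M = card (R n), e : R n = Fin M, rotation sigma_j (j<M) of the inner randomness: permutation of E n: ((J,rho), inl p) |-> ((J, rho + j), inl p), spacers fixed. act a n sigma_j is measure preserving and, by local_lemma + ae_good, leaves the set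
FF = {names in SS} invariant up to null sets. So lam(f^-1 F cap FF) = (1/M) sum_j lam({act_j x in f^-1F} cap FF) = integral over FF of phi, phi(x) = (1/M) #{j : act_j x in f^-1 F}. For x with X a n x = ((J,rho), inl p), p typical:
phi(x) = #{rho' : down1 ((J,rho'), inl p) in Fk}/M where Fk = {e in E k : down to level m in F} and by down1_typ, card_xi_le/ge (sum over the second coordinate of Xi) |phi - pi| <= 1/q, pi = |{(c,s) in C k x Fin h : (c, inl s) in Fk}|/(|C k| h k).
Hence |lam(f^-1F cap FF) - pi lam(FF)| <= 1/q + lam(TypSet^c) <= 1/q + 3/H for every SS; take SS = univ for lam(f^-1 F). (You may avoid integrals: finite sums over the level n coordinate e and the sets {X a n x = e} cap FF.)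
-/
set_option autoImplicit false

open MeasureTheory

namespace KAut

theorem F4_ind_meas {A : Set ℝ} (hA : MeasurableSet A) : Measurable (ind A) := by
  apply measurable_to_bool
  have e : (ind A) ⁻¹' {true} = A := by ext x; simp [ind]
  rw [e]; exact hA

theorem F4_B_meas (a : ℕ → ℕ) (k m : ℕ) (F : Set (E m)) (r : ℕ) (SS : Set (Fin r → Bool)) :
    MeasurableSet {x | (fun j : Fin r => ind {x | X a m x ∈ F} ((T a)^[(j + 1) * h (k + 1)] x)) ∈ SS} := by
  have hT := (T_facts a).1.measurable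
  have h1 : Measurable
      (fun x => (fun j : Fin r => ind {x | X a m x ∈ F} ((T a)^[(j + 1) * h (k + 1)] x))) := by
    rw [measurable_pi_iff]
    intro j
    exact (F4_ind_meas (measurable_X a m F)).comp (hT.iterate _)
  exact h1 (MeasurableSet.of_discrete)

theorem F4_fib_meas (a : ℕ → ℕ) (n : ℕ) (e : E n) : MeasurableSet {x | X a n x = e} := by
  have := measurable_X a n {e}
  simpa using this

/-- the measures of the pieces do not depend on the inner randomness -/
theorem F4_inv (a : ℕ → ℕ) (k m : ℕ) (hm : m ≤ k) (F : Set (E m)) (hF : NoSp F) (r : ℕ)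
    (SS : Set (Fin r → Bool)) (J : Fin (q (k + 1))) (ρ ρ' : R (k + 1)) (p : Fin (h (k + 1))) :
    lam ({x | X a (k + 1) x = ((J, ρ), Sum.inl p)} ∩
      {x | (fun j : Fin r => ind {x | X a m x ∈ F} ((T a)^[(j + 1) * h (k + 1)] x)) ∈ SS}) =
    lam ({x | X a (k + 1) x = ((J, ρ'), Sum.inl p)} ∩
      {x | (fun j : Fin r => ind {x | X a m x ∈ F} ((T a)^[(j + 1) * h (k + 1)] x)) ∈ SS}) := by
  classical
  set e : E (k + 1) := ((J, ρ), Sum.inl p) with he
  set e' : E (k + 1) := ((J, ρ'), Sum.inl p) with he'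
  have mp := measurePreserving_act a (k + 1) (Equiv.swap e e')
  have hD := (F4_fib_meas a (k + 1) e').inter (F4_B_meas a k m F r SS)
  rw [← mp.measure_preimage hD.nullMeasurableSet]
  apply measure_congr
  filter_upwards [ae_good a] with x hx
  obtain ⟨hx, hgood⟩ := hx
  apply propext
  have hX := X_act a (k + 1) (Equiv.swap e e') hx
  have hfr := fr_act a (k + 1) (Equiv.swap e e') hx
  have hmem := act_mem a (k + 1) (Equiv.swap e e') hx
  change (X a (k + 1) x = e ∧ _) ↔ (X a (k + 1) (act a (k + 1) (Equiv.swap e e') x) = e' ∧ _)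
  rw [hX]
  by_cases hxe : X a (k + 1) x = e
  · have hX' : X a (k + 1) (act a (k + 1) (Equiv.swap e e') x) = e' := by
      rw [hX, hxe, Equiv.swap_apply_left]
    have key : (fun j : Fin r => ind {x | X a m x ∈ F} ((T a)^[(j + 1) * h (k + 1)] x)) =
        (fun j : Fin r => ind {x | X a m x ∈ F}
          ((T a)^[(j + 1) * h (k + 1)] (act a (k + 1) (Equiv.swap e e') x))) := by
      funext j
      have ht : h (k + 1) ≤ ((j : ℕ) + 1) * h (k + 1) := Nat.le_mul_of_pos_left _ (Nat.succ_pos _)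
      obtain ⟨K', hK', c, pK, hpK, hXK⟩ := hgood (((j : ℕ) + 1) * h (k + 1)) (k + 1)
      obtain ⟨d, rfl⟩ := Nat.exists_eq_add_of_le hK'
      have := local_lemma a (k + 1) m (by omega) F hF hx hmem J ρ ρ' p hxe hX' hfr.symm
        (((j : ℕ) + 1) * h (k + 1)) ht d c pK hpK hXK
      simp only [ind, Set.mem_ofPred_eq, this]
    constructor
    · rintro ⟨_, h2⟩
      refine ⟨by rw [hxe, Equiv.swap_apply_left], ?_⟩
      change (fun j : Fin r => ind {x | X a m x ∈ F}
          ((T a)^[(j + 1) * h (k + 1)] (act a (k + 1) (Equiv.swap e e') x))) ∈ SS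
      rw [← key]; exact h2
    · rintro ⟨_, h2⟩
      refine ⟨hxe, ?_⟩
      change (fun j : Fin r => ind {x | X a m x ∈ F} ((T a)^[(j + 1) * h (k + 1)] x)) ∈ SS
      rw [key]; exact h2
  · constructor
    · rintro ⟨h1, _⟩; exact absurd h1 hxe
    · rintro ⟨h1, _⟩
      exfalso
      apply hxe
      have : Equiv.swap e e' (X a (k + 1) x) = Equiv.swap e e' e := by
        rw [h1, Equiv.swap_apply_left]
      exact (Equiv.swap e e').injective this

/-- the counting lemma at a typical position -/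
theorem F4_count (a k : ℕ) (J : Fin (q (k + 1))) (p : ℕ) (hp : TypW k p) (ψ : Xi k → ℝ)
    (hψ0 : ∀ α, 0 ≤ ψ α) (hψ1 : ∀ α, ψ α ≤ 1) :
    |∑ ρ : R (k + 1), ψ (xi a ((J, ρ) : C (k + 1)) p hp) -
      ((∑ α : Xi k, ψ α) / Nat.card (Xi k)) * Nat.card (R (k + 1))| ≤
      1 / q k * Nat.card (R (k + 1)) := by
  classical
  have hne : Nonempty (Xi k) := by
    have : NeZero (h k) := ⟨(h_pos k).ne'⟩
    infer_instance
  have hN : (0 : ℝ) < Nat.card (Xi k) := by exact_mod_cast Nat.card_pos
  set M : ℝ := ((Nat.card (R (k + 1)) : ℕ) : ℝ) with hM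
  set NX : ℝ := ((Nat.card (Xi k) : ℕ) : ℝ) with hNX
  have hM0 : 0 ≤ M := Nat.cast_nonneg _
  have e1 : ∑ ρ : R (k + 1), ψ (xi a ((J, ρ) : C (k + 1)) p hp) =
      ∑ α : Xi k, ψ α * Nat.card {ρ : R (k + 1) // xi a ((J, ρ) : C (k + 1)) p hp = α} := by
    rw [← Finset.sum_fiberwise Finset.univ (fun ρ : R (k + 1) => xi a ((J, ρ) : C (k + 1)) p hp)]
    refine Finset.sum_congr rfl fun α _ => ?_
    rw [Finset.sum_congr rfl (g := fun _ => ψ α)]
    · rw [Finset.sum_const, nsmul_eq_mul, mul_comm, Nat.card_eq_fintype_card, Fintype.card_subtype]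
    · intro ρ hρ
      rw [Finset.mem_filter] at hρ
      rw [hρ.2]
  have e2 : (∑ α : Xi k, ψ α) / NX * M = ∑ α : Xi k, ψ α * (M / NX) := by
    rw [← Finset.sum_mul]; ring
  rw [e1, e2, ← Finset.sum_sub_distrib]
  refine (Finset.abs_sum_le_sum_abs _ _).trans ?_
  have hq : (0 : ℝ) < q k := by exact_mod_cast q_pos k
  have hterm : ∀ α ∈ (Finset.univ : Finset (Xi k)),
      |ψ α * (Nat.card {ρ : R (k + 1) // xi a ((J, ρ) : C (k + 1)) p hp = α} : ℝ) - ψ α * (M / NX)| ≤
        1 / q k * M / NX := by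
    intro α _
    rw [← mul_sub, abs_mul, abs_of_nonneg (hψ0 α)]
    have hu := card_xi_le a k J p hp α
    have hl := card_xi_ge a k J p hp α
    have hb : |(Nat.card {ρ : R (k + 1) // xi a ((J, ρ) : C (k + 1)) p hp = α} : ℝ) - M / NX| ≤
        1 / q k * M / NX := by
      set cα : ℝ := (Nat.card {ρ : R (k + 1) // xi a ((J, ρ) : C (k + 1)) p hp = α} : ℝ) with hc
      rw [abs_le]
      constructor
      · rw [neg_le_sub_iff_le_add, div_le_iff₀ hN, add_mul, div_mul_cancel₀ _ hN.ne']
        linarith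
      · rw [sub_le_iff_le_add, ← add_div, le_div_iff₀ hN]
        linarith
    calc ψ α * |(Nat.card {ρ : R (k + 1) // xi a ((J, ρ) : C (k + 1)) p hp = α} : ℝ) - M / NX|
        ≤ 1 * (1 / q k * M / NX) := mul_le_mul (hψ1 α) hb (abs_nonneg _) zero_le_one
      _ = _ := one_mul _
  refine (Finset.sum_le_sum hterm).trans ?_
  rw [Finset.sum_const, nsmul_eq_mul, Finset.card_univ, ← Nat.card_eq_fintype_card, ← hNX]
  rw [mul_div_cancel₀ _ hN.ne']

/-- the main estimate: conditioning on the future does not matter -/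
theorem F4_main (a : ℕ → ℕ) (k m : ℕ) (hm : m ≤ k) (F : Set (E m)) (hF : NoSp F) :
    ∃ pp : ℝ, ∀ (r : ℕ) (SS : Set (Fin r → Bool)),
    |lam.real ({x | X a m x ∈ F} ∩
        {x | (fun j : Fin r => ind {x | X a m x ∈ F} ((T a)^[(j + 1) * h (k + 1)] x)) ∈ SS}) -
      pp * lam.real {x | (fun j : Fin r => ind {x | X a m x ∈ F} ((T a)^[(j + 1) * h (k + 1)] x)) ∈ SS}| ≤
      1 / q k + 3 / H k := by
  classical
  obtain ⟨d, rfl⟩ := Nat.exists_eq_add_of_le hm
  set k := m + d with hk
  set Fk : Set (E (m + d)) := {e | down a m d e ∈ F} with hFk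
  set ψ : Xi (m + d) → ℝ := fun α => if ((α.1, Sum.inl α.2.2) : E (m + d)) ∈ Fk then 1 else 0 with hψ
  have hψ0 : ∀ α, 0 ≤ ψ α := fun α => by simp only [hψ]; split_ifs <;> norm_num
  have hψ1 : ∀ α, ψ α ≤ 1 := fun α => by simp only [hψ]; split_ifs <;> norm_num
  have hne : Nonempty (Xi (m + d)) := by
    have : NeZero (h (m + d)) := ⟨(h_pos (m + d)).ne'⟩
    infer_instance
  have hN : (0 : ℝ) < Nat.card (Xi (m + d)) := by exact_mod_cast Nat.card_pos
  set pp : ℝ := (∑ α : Xi (m + d), ψ α) / Nat.card (Xi (m + d)) with hpp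
  have hpp0 : 0 ≤ pp := div_nonneg (Finset.sum_nonneg fun α _ => hψ0 α) hN.le
  have hpp1 : pp ≤ 1 := by
    rw [hpp, div_le_one hN]
    refine (Finset.sum_le_sum fun α _ => hψ1 α).trans ?_
    rw [Finset.sum_const, nsmul_eq_mul, mul_one, Finset.card_univ, Nat.card_eq_fintype_card]
  refine ⟨pp, fun r SS => ?_⟩
  set B : Set ℝ :=
    {x | (fun j : Fin r => ind {x | X a m x ∈ F} ((T a)^[(j + 1) * h (k + 1)] x)) ∈ SS} with hB
  set μ : Measure ℝ := lam.restrict B with hμ
  set g : E (k + 1) → ℝ := fun e => μ.real ((X a (k + 1)) ⁻¹' {e}) with hg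
  set φ : E (k + 1) → ℝ := fun e => if down1 (a (m + d)) (k := m + d) e ∈ Fk then 1 else 0 with hφ
  have hg0 : ∀ e, 0 ≤ g e := fun e => measureReal_nonneg
  have hmeas : ∀ e, MeasurableSet ((X a (k + 1)) ⁻¹' {e}) := fun e => F4_fib_meas a (k + 1) e
  have hsum : ∀ s : Finset (E (k + 1)), ∑ e ∈ s, g e = μ.real ((X a (k + 1)) ⁻¹' (s : Set (E (k + 1)))) := by
    intro s
    exact sum_measureReal_preimage_singleton s (fun e _ => hmeas e)
  have hfin : ∀ s : Set (E (k + 1)), MeasurableSet ((X a (k + 1)) ⁻¹' s) := fun s => measurable_X a (k + 1) s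
  have hS1 : ∑ e, g e = lam.real B := by
    rw [hsum]
    simp only [Finset.coe_univ, Set.preimage_univ]
    rw [hμ, measureReal_def, Measure.restrict_apply_univ, ← measureReal_def]
  have hS2 : ∑ e, φ e * g e = lam.real ({x | X a m x ∈ F} ∩ B) := by
    have e1 : ∑ e, φ e * g e = ∑ e ∈ Finset.univ.filter (fun e : E (k + 1) => down1 (a (m + d)) (k := m + d) e ∈ Fk), g e := by
      rw [Finset.sum_filter]
      refine Finset.sum_congr rfl fun e _ => ?_
      simp only [hφ]
      split_ifs <;> simp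
    rw [e1, hsum, hμ, measureReal_def, Measure.restrict_apply (hfin _), measureReal_def]
    congr 1
    apply measure_congr
    filter_upwards [ae_good a] with x hx
    apply propext
    have h1 := down1_X a (m + d) hx.1
    have h2 := down_X a m d hx.1
    have h3 : X a (k + 1) x ∈ ((Finset.univ.filter
        (fun e : E (k + 1) => down1 (a (m + d)) (k := m + d) e ∈ Fk) : Finset (E (k + 1))) : Set (E (k + 1))) ↔
        X a m x ∈ F := by
      rw [Finset.mem_coe, Finset.mem_filter]
      simp only [Finset.mem_univ, true_and]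
      change down a m d (down1 (a (m + d)) (X a (m + d + 1) x)) ∈ F ↔ _
      rw [h1, h2]
    exact and_congr h3 Iff.rfl
  have hginv : ∀ (J : Fin (q (k + 1))) (ρ ρ' : R (k + 1)) (p : Fin (h (k + 1))),
      g ((J, ρ), Sum.inl p) = g ((J, ρ'), Sum.inl p) := by
    intro J ρ ρ' p
    simp only [hg, hμ, measureReal_def]
    rw [Measure.restrict_apply (hmeas _), Measure.restrict_apply (hmeas _)]
    congr 1
    exact F4_inv a k m hm F hF r SS J ρ ρ' p
  set typr : Cell (k + 1) → Prop := fun r => ∃ p : Fin (h (k + 1)), r = Sum.inl p ∧ Typ k p with htypr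
  have hnt : ∑ e ∈ Finset.univ.filter (fun e : E (k + 1) => ¬ typr e.2), g e ≤ 3 / H k := by
    rw [hsum]
    have h1 : μ.real ((X a (k + 1)) ⁻¹' ((Finset.univ.filter (fun e : E (k + 1) => ¬ typr e.2) :
        Finset (E (k + 1))) : Set (E (k + 1)))) ≤ lam.real (TypSet a k)ᶜ := by
      rw [hμ, measureReal_def, measureReal_def]
      refine ENNReal.toReal_mono (measure_ne_top _ _) ?_
      refine (Measure.restrict_le_self _).trans (measure_mono ?_)
      intro x hx hx2
      obtain ⟨_, c, p, hp, htyp, hXx⟩ := hx2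
      rw [Set.mem_preimage, Finset.mem_coe, Finset.mem_filter] at hx
      apply hx.2
      rw [hXx]
      exact ⟨⟨p, hp⟩, rfl, htyp⟩
    refine h1.trans ?_
    rw [measureReal_def]
    exact ENNReal.toReal_le_of_le_ofReal (by positivity) (lam_TypSet a k)
  -- the difference
  have hdiff : lam.real ({x | X a m x ∈ F} ∩ B) - pp * lam.real B = ∑ e, (φ e - pp) * g e := by
    rw [← hS1, ← hS2, Finset.mul_sum, ← Finset.sum_sub_distrib]
    refine Finset.sum_congr rfl fun e _ => by ring
  rw [hdiff]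
  have hφb : ∀ e, |φ e - pp| ≤ 1 := by
    intro e
    simp only [hφ]
    split_ifs
    · rw [abs_of_nonneg (by linarith)]; linarith
    · rw [zero_sub, abs_neg, abs_of_nonneg hpp0]; exact hpp1
  have hq : (0 : ℝ) < q k := by exact_mod_cast q_pos k
  -- inner sums
  have hinner : ∀ (J : Fin (q (k + 1))) (c : Cell (k + 1)),
      |∑ ρ : R (k + 1), (φ ((J, ρ), c) - pp) * g ((J, ρ), c)| ≤
        ∑ ρ : R (k + 1), (1 / q k * g ((J, ρ), c) + (if typr c then 0 else g ((J, ρ), c))) := by
    intro J c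
    by_cases hc : typr c
    · obtain ⟨p, rfl, htp⟩ := hc
      have hc' : typr (Sum.inl p) := ⟨p, rfl, htp⟩
      obtain ⟨ρ0⟩ := instNonemptyR (k + 1)
      have e1 : ∀ ρ : R (k + 1), g ((J, ρ), Sum.inl p) = g ((J, ρ0), Sum.inl p) := fun ρ => hginv J ρ ρ0 p
      simp only [e1, if_pos hc', add_zero]
      rw [← Finset.sum_mul, ← Finset.sum_mul, abs_mul, abs_of_nonneg (hg0 _)]
      refine mul_le_mul_of_nonneg_right ?_ (hg0 _)
      have hcount := F4_count (a k) k J p htp.typW ψ hψ0 hψ1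
      have e2 : ∀ ρ : R (k + 1), φ ((J, ρ), Sum.inl p) = ψ (xi (a k) ((J, ρ) : C (k + 1)) p htp.typW) := by
        intro ρ
        have hps : (p : ℕ) + 0 < h (k + 1) := p.2
        have hs : ph (a k) (offs ((J, ρ) : C (k + 1))) p + 0 < h k := ph_lt _ _ _
        have := down1_typ (a k) ((J, ρ) : C (k + 1)) htp.typW 0 hs hps
        simp only [hφ, hψ]
        have e3 : down1 (a (m + d)) (k := m + d) (((J, ρ), Sum.inl p) : E (k + 1)) =
            ((xi (a k) ((J, ρ) : C (k + 1)) p htp.typW).1,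
              Sum.inl (xi (a k) ((J, ρ) : C (k + 1)) p htp.typW).2.2) := this
        rw [e3]
      simp only [e2]
      rw [Finset.sum_sub_distrib, Finset.sum_const, nsmul_eq_mul, Finset.card_univ,
        ← Nat.card_eq_fintype_card, mul_comm (Nat.card (R (k + 1)) : ℝ) pp]
      refine hcount.trans (le_of_eq ?_)
      rw [Finset.sum_const, nsmul_eq_mul, Finset.card_univ, ← Nat.card_eq_fintype_card, mul_comm]
    · refine (Finset.abs_sum_le_sum_abs _ _).trans (Finset.sum_le_sum fun ρ _ => ?_)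
      rw [if_neg hc, abs_mul, abs_of_nonneg (hg0 _)]
      have h1 : |φ ((J, ρ), c) - pp| * g ((J, ρ), c) ≤ 1 * g ((J, ρ), c) :=
        mul_le_mul_of_nonneg_right (hφb _) (hg0 _)
      have h2 : 0 ≤ 1 / (q k : ℝ) * g ((J, ρ), c) := mul_nonneg (by positivity) (hg0 _)
      linarith
  have hre : ∀ f : E (k + 1) → ℝ, ∑ e, f e = ∑ J : Fin (q (k + 1)), ∑ c : Cell (k + 1), ∑ ρ : R (k + 1), f ((J, ρ), c) := by
    intro f
    rw [Fintype.sum_prod_type, Fintype.sum_prod_type]
    refine Finset.sum_congr rfl fun J _ => ?_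
    exact Finset.sum_comm
  calc |∑ e, (φ e - pp) * g e|
      = |∑ J : Fin (q (k + 1)), ∑ c : Cell (k + 1), ∑ ρ : R (k + 1), (φ ((J, ρ), c) - pp) * g ((J, ρ), c)| := by
        rw [hre]
    _ ≤ ∑ J : Fin (q (k + 1)), ∑ c : Cell (k + 1), ∑ ρ : R (k + 1),
          (1 / q k * g ((J, ρ), c) + (if typr c then 0 else g ((J, ρ), c))) := by
        refine (Finset.abs_sum_le_sum_abs _ _).trans (Finset.sum_le_sum fun J _ => ?_)
        exact (Finset.abs_sum_le_sum_abs _ _).trans (Finset.sum_le_sum fun c _ => hinner J c)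
    _ = ∑ e : E (k + 1), (1 / q k * g e + (if typr e.2 then 0 else g e)) :=
        (hre (fun e => 1 / q k * g e + (if typr e.2 then 0 else g e))).symm
    _ = 1 / q k * lam.real B + ∑ e ∈ Finset.univ.filter (fun e : E (k + 1) => ¬ typr e.2), g e := by
        rw [Finset.sum_add_distrib, ← Finset.mul_sum, hS1, Finset.sum_filter]
        congr 1
        refine Finset.sum_congr rfl fun e _ => ?_
        by_cases he : typr e.2 <;> simp [he]
    _ ≤ 1 / q k + 3 / H k := by
        have h1 : lam.real B ≤ 1 := by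
          have := measureReal_mono (μ := lam) (Set.subset_univ B)
          rwa [probReal_univ] at this
        have h2 : 1 / (q k : ℝ) * lam.real B ≤ 1 / q k * 1 := mul_le_mul_of_nonneg_left h1 (by positivity)
        linarith

/-- FORGETTING LEMMA -/
theorem forgetting (a : ℕ → ℕ) (k m : ℕ) (hm : m ≤ k) (F : Set (E m)) (hF : NoSp F) (r : ℕ)
    (SS : Set (Fin r → Bool)) :
    |lam.real ({x | X a m x ∈ F} ∩
        {x | (fun j : Fin r => ind {x | X a m x ∈ F} ((T a)^[(j + 1) * h (k + 1)] x)) ∈ SS}) -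
      lam.real {x | X a m x ∈ F} *
        lam.real {x | (fun j : Fin r => ind {x | X a m x ∈ F} ((T a)^[(j + 1) * h (k + 1)] x)) ∈ SS}| ≤
      2 * (1 / q k + 3 / H k) := by
  obtain ⟨pp, hpp⟩ := F4_main a k m hm F hF
  have h1 := hpp r SS
  have h2 := hpp r Set.univ
  set A : Set ℝ := {x | X a m x ∈ F} with hA
  set B : Set ℝ := {x | (fun j : Fin r => ind A ((T a)^[(j + 1) * h (k + 1)] x)) ∈ SS} with hB
  have e1 : {x : ℝ | (fun j : Fin r => ind A ((T a)^[(j + 1) * h (k + 1)] x)) ∈ (Set.univ : Set (Fin r → Bool))} =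
      Set.univ := by ext x; simp
  rw [e1, Set.inter_univ, probReal_univ, mul_one] at h2
  have hB0 : 0 ≤ lam.real B := measureReal_nonneg
  have hB1 : lam.real B ≤ 1 := by
    have := measureReal_mono (μ := lam) (Set.subset_univ B)
    rwa [probReal_univ] at this
  have h3 : |(pp - lam.real A) * lam.real B| ≤ 1 / q k + 3 / H k := by
    rw [abs_mul, abs_of_nonneg hB0, abs_sub_comm]
    calc |lam.real A - pp| * lam.real B ≤ (1 / q k + 3 / H k) * 1 :=
          mul_le_mul h2 hB1 hB0 (by positivity)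
      _ = _ := mul_one _
  have e2 : lam.real (A ∩ B) - lam.real A * lam.real B =
      (lam.real (A ∩ B) - pp * lam.real B) + (pp - lam.real A) * lam.real B := by ring
  rw [e2]
  refine (abs_add_le _ _).trans ?_
  linarith

end KAut
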