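import Mathlib
import Pool.Agent.Lib.MP_33914b_an.F1

/-!
# MP_33914b_an, file F5  (ROW ka-F5)
Paper: /team-store/kaut_paper.md

PROOF / HINTS:
level_fun_dense: for every value i a compact K_i subset f^-1{i} (inner regularity) with total measure of the complement of the union <= eps; the K_i have positive mutual distance delta; 1/NN m < delta for m >= m0 (NN m >= 2^m or NN m -> inf); F(e) = the i such that the
interval {Y = coord^-1 e} meets K_i. Intervals of length 1/NN. (Or use MeasureTheory.exists_measure_symmDiff_lt_of_generateFrom_isSetSemiring.) level_sets_dense: apply it to the indicator of A and remove the spacers: lam{X a m x spacer} = sp/(h+sp) <= 1/H_m -> 0 as m -> inf.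
-/
set_option autoImplicit false

open MeasureTheory

namespace KAut

theorem F5_lt_NN (m : ℕ) : m < NN m := by
  rw [← card_E]
  have e0 : NeZero (KAut.h m) := ⟨(h_pos m).ne'⟩
  have e1 : Fintype.card (Fin (q m)) ≤ Fintype.card (E m) := by
    refine Fintype.card_le_of_injective
      (fun j : Fin (q m) => (((j, Classical.arbitrary (R m)), Sum.inl 0) : E m)) ?_
    intro i j hij
    exact congrArg (fun e : E m => e.1.1) hij
  rw [Fintype.card_fin] at e1
  have e2 := two_pow_lt_q m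
  have e3 : m < 8 ^ m := Nat.lt_pow_self (by norm_num)
  have e4 : 8 ^ m ≤ 2 ^ 14 * 8 ^ m := Nat.le_mul_of_pos_left _ (by norm_num)
  omega

theorem F5_dist {a : ℕ → ℕ} {m : ℕ} {x y : ℝ} (hx : x ∈ Set.Ico (0 : ℝ) 1) (hy : y ∈ Set.Ico (0 : ℝ) 1)
    (hxy : X a m x = X a m y) : |x - y| < 1 / (NN m : ℝ) := by
  have e1 : Y (NN m) x = Y (NN m) y := (coord a m).injective hxy
  have e2 : (Y (NN m) x : ℕ) = (Y (NN m) y : ℕ) := by rw [e1]
  rw [Y_val hx, Y_val hy] at e2
  have hn : (0 : ℝ) < (NN m : ℝ) := by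
    have := F5_lt_NN m
    exact_mod_cast (lt_of_le_of_lt (Nat.zero_le m) this)
  have a1 := Nat.floor_le (mul_nonneg hn.le hx.1)
  have a2 := Nat.lt_floor_add_one ((NN m : ℝ) * x)
  have b1 := Nat.floor_le (mul_nonneg hn.le hy.1)
  have b2 := Nat.lt_floor_add_one ((NN m : ℝ) * y)
  rw [e2] at a1 a2
  rw [lt_div_iff₀ hn]
  have e3 : |(NN m : ℝ) * x - (NN m : ℝ) * y| < 1 := by
    rw [abs_lt]
    constructor <;> linarith
  have e4 : (NN m : ℝ) * x - (NN m : ℝ) * y = (x - y) * (NN m : ℝ) := by ring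
  rw [e4, abs_mul, abs_of_pos hn] at e3
  exact e3

theorem F5_compl : lam.real (Set.Ico (0 : ℝ) 1)ᶜ = 0 := by
  have e1 : lam (Set.Ico (0 : ℝ) 1)ᶜ = 0 := ae_mem_Ico
  rw [measureReal_def, e1]
  rfl

theorem F5_regular : lam.InnerRegularCompactLTTop := by
  unfold lam
  infer_instance

theorem F5_sep (K K' : Set ℝ) (hK : IsCompact K) (hK' : IsCompact K') (hd : Disjoint K K') :
    ∃ m0 : ℕ, ∀ m, m0 ≤ m → ∀ x ∈ K, ∀ y ∈ K', ¬ |x - y| < 1 / (NN m : ℝ) := by
  obtain ⟨δ, hδ, hdis⟩ := hd.exists_thickenings hK hK'.isClosed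
  obtain ⟨m0, hm0⟩ := exists_nat_gt (1 / δ)
  refine ⟨m0, fun m hm x hx y hy hlt => ?_⟩
  have hpos : (0 : ℝ) < 1 / δ := by positivity
  have e1 : (m0 : ℝ) < (NN m : ℝ) := by
    exact_mod_cast lt_of_le_of_lt hm (F5_lt_NN m)
  have e2 : 1 / (NN m : ℝ) < δ := by
    rw [div_lt_iff₀ (by linarith)]
    have e3 : 1 / δ < (NN m : ℝ) := by linarith
    rw [div_lt_iff₀ hδ] at e3
    linarith
  have e4 : dist y x < δ := by
    rw [Real.dist_eq, abs_sub_comm]
    linarith
  exact Set.disjoint_left.1 hdis (Metric.mem_thickening_iff.2 ⟨x, hx, e4⟩)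
    (Metric.self_subset_thickening hδ K' hy)

/-- finite level functions with values in a finite type are dense -/
theorem F5_fun_dense {ι : Type} [Fintype ι] [Nonempty ι] (a : ℕ → ℕ) (f : ℝ → ι)
    (hf : ∀ i, MeasurableSet (f ⁻¹' {i})) (ε : ℝ) (hε : 0 < ε) :
    ∃ m0 : ℕ, ∀ m, m0 ≤ m → ∃ F : E m → ι, lam.real {x | f x ≠ F (X a m x)} ≤ ε := by
  classical
  have hreg := F5_regular
  have hc : (0 : ℝ) < (Fintype.card ι : ℝ) := by exact_mod_cast Fintype.card_pos
  have hε' : ENNReal.ofReal (ε / (Fintype.card ι : ℝ)) ≠ 0 := by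
    have : 0 < ε / (Fintype.card ι : ℝ) := div_pos hε hc
    exact (ENNReal.ofReal_pos.2 this).ne'
  have hK0 : ∀ i, ∃ K ⊆ f ⁻¹' {i}, IsCompact K ∧
      lam ((f ⁻¹' {i}) \ K) < ENNReal.ofReal (ε / (Fintype.card ι : ℝ)) := fun i =>
    MeasurableSet.exists_isCompact_sdiff_lt (hf i) (measure_ne_top _ _) hε'
  choose K hKs hKc hKm using hK0
  have hdis : ∀ i j, i ≠ j → Disjoint (K i) (K j) := by
    intro i j hij
    rw [Set.disjoint_left]
    intro x hx hx'
    have e1 := hKs i hx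
    have e2 := hKs j hx'
    simp only [Set.mem_preimage, Set.mem_singleton_iff] at e1 e2
    exact hij (e1.symm.trans e2)
  have hsep : ∀ p : ι × ι, ∃ m0 : ℕ, ∀ m, m0 ≤ m → p.1 ≠ p.2 → ∀ x ∈ K p.1, ∀ y ∈ K p.2,
      ¬ |x - y| < 1 / (NN m : ℝ) := by
    intro p
    by_cases hp : p.1 = p.2
    · exact ⟨0, fun m _ hne => absurd hp hne⟩
    · obtain ⟨m0, hm0⟩ := F5_sep (K p.1) (K p.2) (hKc _) (hKc _) (hdis _ _ hp)
      exact ⟨m0, fun m hm _ => hm0 m hm⟩
  choose mm hmm using hsep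
  refine ⟨Finset.univ.sup mm, fun m hm => ?_⟩
  have hmp : ∀ p, mm p ≤ m := fun p => (Finset.le_sup (Finset.mem_univ p)).trans hm
  let P : E m → ι → Prop := fun e i => ∃ x ∈ K i, x ∈ Set.Ico (0 : ℝ) 1 ∧ X a m x = e
  let F : E m → ι := fun e => if hex : ∃ i, P e i then Classical.choose hex else Classical.arbitrary ι
  have hF : ∀ i, ∀ x ∈ K i, x ∈ Set.Ico (0 : ℝ) 1 → F (X a m x) = i := by
    intro i x hx hx1
    have hex : ∃ i, P (X a m x) i := ⟨i, x, hx, hx1, rfl⟩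
    have e1 : F (X a m x) = Classical.choose hex := dif_pos hex
    obtain ⟨y, hy, hy1, hyx⟩ := Classical.choose_spec hex
    rw [e1]
    by_contra hne
    exact hmm (Classical.choose hex, i) m (hmp _) hne y hy x hx (F5_dist hy1 hx1 hyx)
  refine ⟨F, ?_⟩
  have hsub : {x | f x ≠ F (X a m x)} ⊆ (⋃ i ∈ (Finset.univ : Finset ι), (f ⁻¹' {i}) \ K i) ∪
      (Set.Ico (0 : ℝ) 1)ᶜ := by
    intro x hx
    by_cases hx1 : x ∈ Set.Ico (0 : ℝ) 1
    · left
      simp only [Finset.mem_univ, Set.iUnion_true, Set.mem_iUnion]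
      refine ⟨f x, rfl, fun hxK => ?_⟩
      exact hx (hF (f x) x hxK hx1).symm
    · right
      exact hx1
  calc lam.real {x | f x ≠ F (X a m x)}
      ≤ lam.real ((⋃ i ∈ (Finset.univ : Finset ι), (f ⁻¹' {i}) \ K i) ∪ (Set.Ico (0 : ℝ) 1)ᶜ) :=
        measureReal_mono hsub (measure_ne_top _ _)
    _ ≤ lam.real (⋃ i ∈ (Finset.univ : Finset ι), (f ⁻¹' {i}) \ K i) + lam.real (Set.Ico (0 : ℝ) 1)ᶜ :=
        measureReal_union_le _ _
    _ ≤ (∑ i : ι, lam.real ((f ⁻¹' {i}) \ K i)) + 0 := by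
        rw [F5_compl]
        exact add_le_add (measureReal_biUnion_finset_le _ _) le_rfl
    _ ≤ (∑ _i : ι, ε / (Fintype.card ι : ℝ)) + 0 := by
        refine add_le_add (Finset.sum_le_sum fun i _ => ?_) le_rfl
        rw [measureReal_def]
        exact ENNReal.toReal_le_of_le_ofReal (div_pos hε hc).le (hKm i).le
    _ = ε := by
        rw [Finset.sum_const, Finset.card_univ, nsmul_eq_mul, add_zero]
        field_simp

/-- the level `m` spacers have measure at most `1/(H m + 1)` -/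
theorem F5_spacer (a : ℕ → ℕ) (m : ℕ) :
    lam.real {x | X a m x ∈ {e : E m | ∃ (c : C m) (s : Fin (sp m)), e = (c, Sum.inr s)}} ≤
      1 / ((KAut.H m : ℝ) + 1) := by
  classical
  set Sp : Set (E m) := {e : E m | ∃ (c : C m) (s : Fin (sp m)), e = (c, Sum.inr s)} with hSp
  have e1 : Nat.card Sp ≤ Nat.card (C m × Fin (sp m)) := by
    have : Finite (C m × Fin (sp m)) := Finite.of_fintype _
    refine Nat.card_le_card_of_surjective
      (fun z : C m × Fin (sp m) => (⟨(z.1, Sum.inr z.2), z.1, z.2, rfl⟩ : Sp)) ?_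
    rintro ⟨e, c, s, rfl⟩
    exact ⟨(c, s), rfl⟩
  have e2 : Nat.card (C m × Fin (sp m)) = Nat.card (C m) * sp m := by
    rw [Nat.card_prod, Nat.card_fin]
  have e3 : Nat.card (E m) = Nat.card (C m) * ((KAut.H m + 1) * sp m) := by
    have : Nat.card (E m) = Nat.card (C m) * Nat.card (Cell m) := Nat.card_prod _ _
    rw [this, Nat.card_sum, Nat.card_fin, Nat.card_fin]
    unfold KAut.h
    ring
  have c0 : 0 < Nat.card (C m) := Nat.card_pos
  have s0 := sp_pos m
  rw [measureReal_def, lam_X a m Sp, ENNReal.toReal_div, ENNReal.toReal_natCast, ENNReal.toReal_natCast]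
  rw [e2] at e1
  have f1 : (Nat.card Sp : ℝ) ≤ (Nat.card (C m) : ℝ) * (sp m : ℝ) := by exact_mod_cast e1
  have f3 : (Nat.card (E m) : ℝ) = (Nat.card (C m) : ℝ) * (((KAut.H m : ℝ) + 1) * (sp m : ℝ)) := by
    rw [e3]; push_cast; ring
  have f0 : (0 : ℝ) < (Nat.card (C m) : ℝ) := by exact_mod_cast c0
  have g0 : (0 : ℝ) < (sp m : ℝ) := by exact_mod_cast s0
  have k0 : (0 : ℝ) < (KAut.H m : ℝ) + 1 := by positivity
  rw [f3, div_le_div_iff₀ (by positivity) k0]
  calc (Nat.card Sp : ℝ) * ((KAut.H m : ℝ) + 1)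
      ≤ ((Nat.card (C m) : ℝ) * (sp m : ℝ)) * ((KAut.H m : ℝ) + 1) :=
        mul_le_mul_of_nonneg_right f1 k0.le
    _ = 1 * ((Nat.card (C m) : ℝ) * (((KAut.H m : ℝ) + 1) * (sp m : ℝ))) := by ring

theorem F5_lt_H (m : ℕ) : m < KAut.H m + 1 := by
  rw [H_add_one]
  have e3 : m < 4 ^ m := Nat.lt_pow_self (by norm_num)
  have e4 : 4 ^ m ≤ 4 ^ m * 4097 := Nat.le_mul_of_pos_right _ (by norm_num)
  omega

/-- spacer-free finite level sets are dense in the measure algebra -/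
theorem level_sets_dense (a : ℕ → ℕ) (A : Set ℝ) (hA : MeasurableSet A) (ε : ℝ) (hε : 0 < ε) :
    ∃ (m : ℕ) (F : Set (E m)), NoSp F ∧ lam.real (symmDiff A {x | X a m x ∈ F}) ≤ ε := by
  classical
  obtain ⟨m0, hm0⟩ := F5_fun_dense a (fun x => decide (x ∈ A)) (by
    intro i
    cases i with
    | false =>
      have : (fun x => decide (x ∈ A)) ⁻¹' {false} = Aᶜ := by ext x; simp
      rw [this]; exact hA.compl
    | true =>
      have : (fun x => decide (x ∈ A)) ⁻¹' {true} = A := by ext x; simp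
      rw [this]; exact hA) (ε / 2) (by linarith)
  obtain ⟨n0, hn0⟩ := exists_nat_gt (2 / ε)
  obtain ⟨m, hm1, hm2⟩ : ∃ m, m0 ≤ m ∧ n0 ≤ m := ⟨max m0 n0, le_max_left _ _, le_max_right _ _⟩
  obtain ⟨F, hF⟩ := hm0 m hm1
  refine ⟨m, {e | F e = true ∧ ¬ ∃ (c : C m) (s : Fin (sp m)), e = (c, Sum.inr s)}, ?_, ?_⟩
  · intro c s hcs
    exact hcs.2 ⟨c, s, rfl⟩
  · have hsub : symmDiff A {x | X a m x ∈ {e | F e = true ∧ ¬ ∃ (c : C m) (s : Fin (sp m)), e = (c, Sum.inr s)}} ⊆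
        {x | decide (x ∈ A) ≠ F (X a m x)} ∪
        {x | X a m x ∈ {e : E m | ∃ (c : C m) (s : Fin (sp m)), e = (c, Sum.inr s)}} := by
      intro x hx
      by_cases hs : ∃ (c : C m) (s : Fin (sp m)), X a m x = (c, Sum.inr s)
      · right; exact hs
      · left
        rw [Set.mem_symmDiff] at hx
        intro heq
        rcases hx with ⟨h1, h2⟩ | ⟨h1, h2⟩
        · apply h2
          refine ⟨?_, hs⟩
          rw [← heq]
          exact decide_eq_true h1
        · apply h2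
          have h3 : F (X a m x) = true := h1.1
          rw [← heq] at h3
          exact of_decide_eq_true h3
    have e1 := F5_spacer a m
    have e2 : 1 / ((KAut.H m : ℝ) + 1) ≤ ε / 2 := by
      have k0 : (0 : ℝ) < (KAut.H m : ℝ) + 1 := by positivity
      rw [div_le_iff₀ k0]
      have k1 : (n0 : ℝ) < (KAut.H m : ℝ) + 1 := by
        have := F5_lt_H m
        exact_mod_cast lt_of_le_of_lt hm2 this
      have k2 : 2 / ε < (KAut.H m : ℝ) + 1 := by linarith
      rw [div_lt_iff₀ hε] at k2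
      linarith
    calc lam.real (symmDiff A {x | X a m x ∈ {e | F e = true ∧ ¬ ∃ (c : C m) (s : Fin (sp m)), e = (c, Sum.inr s)}})
        ≤ lam.real ({x | decide (x ∈ A) ≠ F (X a m x)} ∪
          {x | X a m x ∈ {e : E m | ∃ (c : C m) (s : Fin (sp m)), e = (c, Sum.inr s)}}) :=
          measureReal_mono hsub (measure_ne_top _ _)
      _ ≤ lam.real {x | decide (x ∈ A) ≠ F (X a m x)} +
          lam.real {x | X a m x ∈ {e : E m | ∃ (c : C m) (s : Fin (sp m)), e = (c, Sum.inr s)}} :=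
          measureReal_union_le _ _
      _ ≤ ε / 2 + ε / 2 := add_le_add hF (e1.trans e2)
      _ = ε := by ring

/-- finite level functions with values in a finite type are dense -/
theorem level_fun_dense {ι : Type} [Fintype ι] [Nonempty ι] (a : ℕ → ℕ) (f : ℝ → ι)
    (hf : ∀ i, MeasurableSet (f ⁻¹' {i})) (ε : ℝ) (hε : 0 < ε) :
    ∃ m0 : ℕ, ∀ m, m0 ≤ m → ∃ F : E m → ι, lam.real {x | f x ≠ F (X a m x)} ≤ ε :=
  F5_fun_dense a f hf ε hε

end KAut
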