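import Mathlib
import Pool.Agent.Lib.MP_33914b_an.F4
import Pool.Agent.Lib.MP_33914b_an.F5
import Pool.Agent.Lib.MP_33914b_an.E5

/-!
# MP_33914b_an, file F6  (ROW ka-F6)
Paper: /team-store/kaut_paper.md

PROOF / HINTS:
entropy_lemma (Omega = R, mu = lam) with D = {{x | X a m x in F} : F NoSp}. hforget: given m, F, eps choose k>=m with 2(1/q_k+3/H_k) <= eps, n0 = h (k+1) (q_k > H_k >= 4^k -> inf).
-/
set_option autoImplicit false

open MeasureTheory

namespace KAut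

theorem F6_pow_lt_H (k : ℕ) : 4 ^ k ≤ H k := by
  have h2 := H_add_one k
  have h3 : 1 ≤ 4 ^ k := Nat.one_le_pow _ _ (by norm_num)
  omega

theorem F6_small (m : ℕ) (ε : ℝ) (hε : 0 < ε) :
    ∃ k, m ≤ k ∧ 2 * (1 / (q k : ℝ) + 3 / (H k : ℝ)) ≤ ε := by
  obtain ⟨n, hn⟩ := pow_unbounded_of_one_lt (8 / ε) (by norm_num : (1 : ℝ) < 4)
  refine ⟨max m n, le_max_left _ _, ?_⟩
  set k := max m n with hk
  have h1 : (4 : ℝ) ^ n ≤ 4 ^ k := pow_le_pow_right₀ (by norm_num) (le_max_right _ _)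
  have h2 : (4 : ℝ) ^ k ≤ H k := by exact_mod_cast F6_pow_lt_H k
  have h3 : (8 : ℝ) / ε < H k := by linarith only [hn, h1, h2]
  have h4 : (H k : ℝ) ≤ q k := by
    have h5 := two_H_lt_q k
    exact_mod_cast (by omega : H k ≤ q k)
  have hpos : (0 : ℝ) < H k := lt_trans (by positivity) h3
  have h6 : 1 / (q k : ℝ) ≤ 1 / (H k : ℝ) := one_div_le_one_div_of_le hpos h4
  have h7 : 8 / (H k : ℝ) < ε := by
    rw [div_lt_iff₀ hpos]
    rw [div_lt_iff₀ hε] at h3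
    linarith only [h3]
  have h8 : 2 * (1 / (H k : ℝ) + 3 / (H k : ℝ)) = 8 / (H k : ℝ) := by ring
  linarith only [h6, h7, h8]

/-- completely positive entropy of `T a` -/
theorem T_positive_entropy (a : ℕ → ℕ) (A : Set ℝ) (hA : MeasurableSet A) (h0 : 0 < lam.real A)
    (h1 : lam.real A < 1) : 0 < hPart lam (T a) (ind A) := by
  refine entropy_lemma lam (T a) (T_facts a).1
    {B | ∃ (m : ℕ) (F : Set (E m)), NoSp F ∧ B = {x | X a m x ∈ F}} ?_ ?_ ?_ A hA h0 h1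
  · rintro B ⟨m, F, -, rfl⟩
    exact measurable_X a m F
  · intro A hA ε hε
    obtain ⟨m, F, hF, hle⟩ := level_sets_dense a A hA ε hε
    exact ⟨_, ⟨m, F, hF, rfl⟩, hle⟩
  · rintro B ⟨m, F, hF, rfl⟩ ε hε
    obtain ⟨k, hmk, hk⟩ := F6_small m ε hε
    refine ⟨h (k + 1), h_pos (k + 1), fun r SS => ?_⟩
    exact (forgetting a k m hmk F hF r SS).trans hk

end KAut
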