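import Mathlib
import Pool.Agent.Lib.MP_33914b_an.Defs
import Pool.Agent.Lib.MP_33914b_an.T2

/-!
# MP_33914b_an, file MDef
Paper: /team-store/kaut_paper.md
-/
set_option autoImplicit false

open MeasureTheory Topology Filter Set

namespace KAut

/-- `T a` as an element of `AutMap` -/
noncomputable def TA (a : ℕ → ℕ) : AutMap :=
  ⟨T a, (T_facts a).1, Tinv a, (T_facts a).2.1, (T_facts a).2.2.1, (T_facts a).2.2.2.1⟩

/-- `T a` modulo null sets -/
noncomputable def TQ (a : ℕ → ℕ) : Aut := Quotient.mk autSetoid (TA a)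

/-- the parameter of a real sequence -/
noncomputable def prm (x : ℕ → ℝ) : ℕ → ℕ := fun k => ⌊(U k : ℝ) * |x k|⌋₊

end KAut
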