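import Mathlib
import Pool.Agent.Lib.MP_33914b_an.MDef
import Pool.Agent.Lib.MP_33914b_an.F6

/-!
# MP_33914b_an, file M1  (ROW ka-M1)
Paper: /team-store/kaut_paper.md

PROOF / HINTS:
hPart_congr: iterates agree a.e. (S measure preserving), so names agree a.e. TQ_isK: t ~ T a; B in the factor with lam B != 0, lam B^c != 0; f = indicator of B with values in Fin 2, measurable for the factor; hPart lam t f = hPart lam (T a) f = hPart lam (T a) (ind B) (shannon_comp_injective / atoms) > 0 (T_positive_entropy).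
-/
set_option autoImplicit false

open MeasureTheory Topology Filter Set

namespace KAut

theorem M1_iterate_ae (f g : ℝ → ℝ) (hf : MeasurePreserving f lam lam)
    (hfg : ∀ᵐ x ∂lam, f x = g x) (n : ℕ) : ∀ᵐ x ∂lam, f^[n] x = g^[n] x := by
  induction n with
  | zero => exact ae_of_all _ fun _ => rfl
  | succ n ih =>
    have h1 : ∀ᵐ x ∂lam, f (f^[n] x) = g (f^[n] x) :=
      (hf.iterate n).quasiMeasurePreserving.ae hfg
    filter_upwards [ih, h1] with x hx hx1
    rw [Function.iterate_succ_apply', Function.iterate_succ_apply', hx1, hx]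

theorem M1_shannon_congr {ι : Type*} [Fintype ι] (f g : ℝ → ι) (hfg : ∀ᵐ x ∂lam, f x = g x) :
    shannon lam f = shannon lam g := by
  unfold shannon
  refine Finset.sum_congr rfl fun i _ => ?_
  congr 1
  unfold Measure.real
  congr 1
  apply measure_congr
  filter_upwards [hfg] with x hx
  apply propext
  change f x = i ↔ g x = i
  rw [hx]

/-- entropy does not change when `T` is changed on a null set -/
theorem hPart_congr {ι : Type} [Fintype ι] (S T : ℝ → ℝ) (hS : MeasurePreserving S lam lam)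
    (h : ∀ᵐ x ∂lam, S x = T x) (f : ℝ → ι) : hPart lam S f = hPart lam T f := by
  unfold hPart
  congr 1
  funext n
  congr 1
  apply M1_shannon_congr
  have h1 : ∀ i : Fin n, ∀ᵐ x ∂lam, S^[(i : ℕ)] x = T^[(i : ℕ)] x := fun i => M1_iterate_ae S T hS h i
  rw [← ae_all_iff] at h1
  filter_upwards [h1] with x hx
  funext i
  unfold name
  rw [hx i]

theorem M1_hPart_comp {ι κ : Type} [Fintype ι] [Fintype κ] (R : ℝ → ℝ) (f : ℝ → ι) (g : ι → κ)
    (hg : Function.Injective g) : hPart lam R (g ∘ f) = hPart lam R f := by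
  unfold hPart
  congr 1
  funext n
  congr 1
  have h1 : name R (g ∘ f) n = (fun w : Fin n → ι => g ∘ w) ∘ name R f n := by
    funext x
    funext i
    rfl
  rw [h1]
  apply shannon_comp_injective
  intro w1 w2 hw
  funext i
  exact hg (congrFun hw i)

/-- the recoding `Bool → Fin 2` -/
def M1_g (b : Bool) : Fin 2 := if b then 1 else 0

theorem M1_g_inj : Function.Injective M1_g := by
  intro b c
  cases b <;> cases c <;> simp [M1_g]

theorem M1_pos (a : ℕ → ℕ) (t : ℝ → ℝ) (ht : MeasurePreserving t lam lam)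
    (hte : ∀ᵐ x ∂lam, t x = T a x) (A : Set ℝ) (hAb : MeasurableSet A) (hA0 : lam A ≠ 0) (hA1 : lam Aᶜ ≠ 0) :
    0 < hPart lam t (M1_g ∘ ind A) := by
  rw [hPart_congr t (T a) ht hte, M1_hPart_comp (T a) (ind A) M1_g M1_g_inj]
  apply T_positive_entropy a A hAb
  · unfold Measure.real
    exact ENNReal.toReal_pos hA0 (measure_ne_top _ _)
  · have h1 : lam.real Aᶜ = 1 - lam.real A := by
      rw [measureReal_compl hAb]
      simp
    have h2 : 0 < lam.real Aᶜ := by
      unfold Measure.real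
      exact ENNReal.toReal_pos hA1 (measure_ne_top _ _)
    linarith

theorem M1_hP_pos (a : ℕ → ℕ) (t : ℝ → ℝ) (ht : MeasurePreserving t lam lam)
    (hte : ∀ᵐ x ∂lam, t x = T a x) (A : Set ℝ) (hAb : MeasurableSet[borel ℝ] A) (hA0 : lam A ≠ 0)
    (hA1 : lam Aᶜ ≠ 0) : 0 < hP t (M1_g ∘ ind A) := by
  have h5 : Real.measurableSpace = borel ℝ := BorelSpace.measurable_eq
  unfold hP
  refine ENNReal.ofReal_pos.mpr (M1_pos a t ht hte A ?_ hA0 hA1)
  rw [h5]
  exact hAb

theorem M1_meas (A : Set ℝ) (V : Set (Fin 2)) :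
    (M1_g ∘ ind A) ⁻¹' V =
      (open Classical in (if (1 : Fin 2) ∈ V then A else ∅) ∪ (if (0 : Fin 2) ∈ V then Aᶜ else ∅)) := by
  classical
  ext x
  by_cases hx : x ∈ A <;> by_cases h1 : (1 : Fin 2) ∈ V <;> by_cases h0 : (0 : Fin 2) ∈ V <;>
    simp [M1_g, ind, hx, h1, h0]

theorem TQ_isK (a : ℕ → ℕ) : (TQ a).IsK := by
  intro t ht ℬ hF hnt
  have hte : ∀ᵐ x ∂lam, t.1 x = T a x := Quotient.exact ht
  unfold IsTrivialFactor at hnt
  push Not at hnt
  obtain ⟨A, hA, hA0, hA1⟩ := hnt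
  have hAb : MeasurableSet[borel ℝ] A := hF.1 A hA
  have hpos : 0 < hP t.1 (M1_g ∘ ind A) := M1_hP_pos a t.1 t.2.1 hte A hAb hA0 hA1
  have hmeas : @Measurable ℝ (Fin 2) ℬ ⊤ (M1_g ∘ ind A) := by
    intro V _
    rw [M1_meas]
    refine @MeasurableSet.union ℝ ℬ _ _ ?_ ?_
    · split_ifs
      · exact hA
      · exact @MeasurableSet.empty ℝ ℬ
    · split_ifs
      · exact @MeasurableSet.compl ℝ A ℬ hA
      · exact @MeasurableSet.empty ℝ ℬ
  have h4 : hP t.1 (M1_g ∘ ind A) ≤ entropyOn t.1 ℬ := by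
    unfold entropyOn
    exact le_iSup_of_le 2 (le_iSup_of_le (M1_g ∘ ind A) (le_iSup_of_le hmeas le_rfl))
  exact lt_of_lt_of_le hpos h4

end KAut
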