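import Mathlib
import Pool.Agent.Lib.MP_33914b_an.T2

/-!
# MP_33914b_an, file T5  (ROW ka-T5)
Paper: /team-store/kaut_paper.md

PROOF / HINTS:
if a j = b j for j<k then coord a k = coord b k (induction), so Tk a k = Tk b k; {T a != T b} subset {T a != Tk a k} union {T b != Tk b k}: T_facts.
-/
set_option autoImplicit false

open MeasureTheory

namespace KAut

theorem T5_coord (a b : ℕ → ℕ) (k : ℕ) (hab : ∀ j, j < k → a j = b j) : coord a k = coord b k := by
  induction k with
  | zero => rfl
  | succ k ih =>
    have h1 : coord a k = coord b k := ih (fun j hj => hab j (by omega))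
    have h2 : a k = b k := hab k (by omega)
    show finProdFinEquiv.symm.trans
      ((Equiv.prodCongr (coord a k) (Fintype.equivFin (Z k)).symm).trans (up (a k) k)) =
      finProdFinEquiv.symm.trans
      ((Equiv.prodCongr (coord b k) (Fintype.equivFin (Z k)).symm).trans (up (b k) k))
    rw [h1, h2]

/-- `T a` depends on the first `k` parameters up to a set of small measure -/
theorem T_close (a b : ℕ → ℕ) (k : ℕ) (hab : ∀ j, j < k → a j = b j) :
    lam {x | T a x ≠ T b x} ≤ ENNReal.ofReal (8 / H k) := by
  have h1 : Tk a k = Tk b k := by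
    unfold Tk act
    rw [T5_coord a b k hab]
  have hsub : {x | T a x ≠ T b x} ⊆ {x | T a x ≠ Tk a k x} ∪ {x | T b x ≠ Tk b k x} := by
    intro x hx
    by_contra hcon
    rw [Set.mem_union, not_or] at hcon
    have e1 : T a x = Tk a k x := not_not.1 hcon.1
    have e2 : T b x = Tk b k x := not_not.1 hcon.2
    apply hx
    rw [e1, e2, h1]
  have ha := (T_facts a).2.2.2.2 k
  have hb := (T_facts b).2.2.2.2 k
  refine (measure_mono hsub).trans ((measure_union_le _ _).trans ((add_le_add ha hb).trans ?_))
  rw [← ENNReal.ofReal_add (by positivity) (by positivity)]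
  apply ENNReal.ofReal_le_ofReal
  apply le_of_eq
  ring

end KAut
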