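import Mathlib
import Pool.Agent.Lib.MP_33914b_an.M1
import Pool.Agent.Lib.MP_33914b_an.T5

/-!
# MP_33914b_an, file M2  (ROW ka-M2)
Paper: /team-store/kaut_paper.md

PROOF / HINTS:
continuous_iInf_rng / continuous_induced_rng: a |-> lam(A cap (T a)^-1 B) is continuous: |..| <= lam{T a != T b} <= 8/H_k if a,b agree below k; H_k -> inf. measurable_TK: Continuous.measurable (Aut has the Borel sigma algebra; N->N BorelSpace), Measurable.subtype_mk.
-/
set_option autoImplicit false

open MeasureTheory Topology Filter Set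

namespace KAut

theorem M2_H_ge (k : ℕ) : k ≤ H k := by
  have h1 := H_add_one k
  have h2 : k < 4 ^ k := Nat.lt_pow_self (by norm_num)
  omega

theorem M2_exists (ε : ENNReal) (hε : 0 < ε) : ∃ k : ℕ, ENNReal.ofReal (8 / H k) ≤ ε := by
  have h1 : Tendsto (fun k : ℕ => (8 : ℝ) / H k) atTop (𝓝 0) := by
    refine Tendsto.div_atTop tendsto_const_nhds ?_
    exact tendsto_natCast_atTop_atTop.comp
      (tendsto_atTop_mono M2_H_ge tendsto_id)
  have h2 : Tendsto (fun k : ℕ => ENNReal.ofReal ((8 : ℝ) / H k)) atTop (𝓝 0) := by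
    have := ENNReal.tendsto_ofReal h1
    simpa using this
  have h3 := h2.eventually (Iio_mem_nhds hε)
  obtain ⟨k, hk⟩ := h3.exists
  exact ⟨k, le_of_lt hk⟩

theorem M2_le (a b : ℕ → ℕ) (A B : Set ℝ) :
    lam (A ∩ T a ⁻¹' B) ≤ lam (A ∩ T b ⁻¹' B) + lam {x | T a x ≠ T b x} := by
  refine le_trans (measure_mono ?_) (measure_union_le _ _)
  intro x hx
  by_cases h1 : T a x = T b x
  · left
    refine ⟨hx.1, ?_⟩
    have h2 : T a x ∈ B := hx.2
    rw [h1] at h2
    exact h2
  · right
    exact h1

theorem M2_cont (A B : Set ℝ) : Continuous (fun a : ℕ → ℕ => lam (A ∩ T a ⁻¹' B)) := by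
  rw [continuous_iff_continuousAt]
  intro a
  unfold ContinuousAt
  rw [ENNReal.tendsto_nhds (measure_ne_top _ _)]
  intro ε hε
  obtain ⟨k, hk⟩ := M2_exists ε hε
  have h1 : ∀ᶠ b in 𝓝 a, ∀ j ∈ Finset.range k, b j = a j := by
    rw [Filter.eventually_all_finset]
    intro j _
    have h2 : Continuous (fun b : ℕ → ℕ => b j) := continuous_apply j
    exact h2.continuousAt.eventually (IsOpen.mem_nhds (isOpen_discrete {a j}) rfl)
  filter_upwards [h1] with b hb
  have h3 : lam {x | T a x ≠ T b x} ≤ ε :=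
    le_trans (T_close a b k fun j hj => (hb j (Finset.mem_range.mpr hj)).symm) hk
  have h4 : lam {x | T b x ≠ T a x} ≤ ε :=
    le_trans (T_close b a k fun j hj => hb j (Finset.mem_range.mpr hj)) hk
  constructor
  · rw [tsub_le_iff_right]
    exact le_trans (M2_le a b A B) (by gcongr)
  · exact le_trans (M2_le b a A B) (by gcongr)

theorem continuous_TQ : Continuous TQ := by
  refine continuous_iInf_rng.mpr fun A => continuous_iInf_rng.mpr fun _ => continuous_iInf_rng.mpr fun B =>
    continuous_iInf_rng.mpr fun _ => continuous_induced_rng.mpr ?_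
  exact M2_cont A B

/-- the K-automorphism `T a` -/
noncomputable def TK (a : ℕ → ℕ) : KAutos := ⟨TQ a, TQ_isK a⟩

theorem measurable_TK : Measurable TK := by
  exact Measurable.subtype_mk continuous_TQ.measurable

end KAut
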