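import Mathlib
import Pool.Agent.Lib.MP_33914b_an.WordDef

/-!
# MP_33914b_an, file SepDef
Paper: /team-store/kaut_paper.md
-/
set_option autoImplicit false

namespace KAut

section abstract_step
variable {A C C' : Type} [DecidableEq A]

/-- columns with different modes are `e`-separated on every interval of overlap of length `≥ r` -/
def Sep (B : C → ℕ → A) (md : C → ℕ) (h : ℕ) (r e : ℝ) : Prop :=
  ∀ c c' : C, md c ≠ md c' → ∀ t α β : ℤ, 0 ≤ α → t ≤ α → α ≤ β → β ≤ h → β ≤ t + h → r ≤ β - α →
    e * (β - α) ≤ (((Finset.Ico α β).filter (fun z : ℤ => B c z.toNat ≠ B c' (z - t).toNat)).card : ℝ)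

/-- data of one step of the construction: `B'` is built from `B` -/
structure StepData (A C C' : Type) where
  (q h S U N G : ℕ)
  (B : C → ℕ → A)
  (md : C → ℕ)
  (B' : C' → ℕ → A)
  (md' : C' → ℕ)
  (g : C' → ℕ)
  (o : C' → ℕ → ℕ)
  (sub : C' → ℕ → C)
  hq : q.Prime
  hq2 : 2 < q
  hh : 0 < h
  hN : 0 < N
  hU : 0 < U
  hg : ∀ c, g c < S
  hSG : S ≤ G
  ho : ∀ c u, u < U → o c u < S
  hmode : ∀ c i, i < U * N → md (sub c i) = W q ((U * N) * md' c + i)
  hmd' : ∀ c, (U * N) * (md' c + 1) ≤ q ^ 8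
  hB' : ∀ c u j p, u < U → j < N → p < h →
    B' c (g c + u * (S + N * h) + o c u + j * h + p) = B (sub c (u * N + j)) p

namespace StepData
variable (D : StepData A C C')

/-- superblock length -/
def l : ℕ := D.S + D.N * D.h

/-- block length -/
def H' : ℕ := D.U * D.l + D.G

/-- position of sub-block `i` -/
def ps (c : C') (i : ℕ) : ℕ := D.g c + (i / D.N) * D.l + D.o c (i / D.N) + (i % D.N) * D.h

/-- the cells of sub-block `i` of `c` and sub-block `i'` of `c'` (shifted by `t`) in the window `[α,β)` -/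
noncomputable def cell (c c' : C') (t α β : ℤ) (i i' : ℕ) : Finset ℤ :=
  Finset.Ico (max α (max (D.ps c i) (t + D.ps c' i'))) (min β (min (D.ps c i + D.h) (t + D.ps c' i' + D.h)))

/-- the pairs of sub-blocks meeting inside the window -/
noncomputable def pairs (c c' : C') (t α β : ℤ) : Finset (ℕ × ℕ) :=
  ((Finset.range (D.U * D.N)) ×ˢ (Finset.range (D.U * D.N))).filter
    (fun x => (D.cell c c' t α β x.1 x.2).Nonempty)

end StepData
end abstract_step

end KAut
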