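import Mathlib
import Pool.Agent.Lib.MP_33914b_an.Up
import Pool.Agent.Lib.MP_33914b_an.SepDef

/-!
# MP_33914b_an, file NmDef
Paper: /team-store/kaut_paper.md
-/
set_option autoImplicit false

namespace KAut

/-- the finite partition: mode of the level `0` block, `none` on level `0` spacers -/
noncomputable def P0 (e : E 0) : Option (Fin (q 0)) :=
  match e with
  | (c, Sum.inl _) => some c.1
  | (_, Sum.inr _) => none

/-- name of a level `k` block -/
noncomputable def nm (a : ℕ → ℕ) {k : ℕ} (c : C k) (z : ℕ) : Option (Fin (q 0)) :=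
  if hz : z < h k then P0 (down0 a k (c, Sum.inl ⟨z, hz⟩)) else none

/-- separation constant -/
noncomputable def ee (k : ℕ) : ℝ := (1 + (1 / 2) ^ k) / 2

/-- threshold -/
noncomputable def rr (k : ℕ) : ℝ := if k = 0 then 0 else (1 / 2) ^ (k + 4)

/-- name of the window of length `h k` starting at phase `π` of the block `c`, followed by the block `c'` -/
noncomputable def win (a : ℕ → ℕ) {k : ℕ} (c c' : C k) (π s : ℕ) : Option (Fin (q 0)) :=
  if π + s < h k then nm a c (π + s) else nm a c' (π + s - h k)

end KAut
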