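import Mathlib
import Pool.Agent.Lib.MP_33914b_an.Y1
import Pool.Agent.Lib.MP_33914b_an.NmDef

/-!
# MP_33914b_an, file NonDef
Paper: /team-store/kaut_paper.md
-/
set_option autoImplicit false

open MeasureTheory

namespace KAut

/-- `y` is typical at level `k+1`, with window data `α` at time `0` and `α'` at time `ell k` and phase `π` at time `0` -/
def XiAt (b : ℕ → ℕ) (k : ℕ) (y : ℝ) (α α' : Xi k) : Prop :=
  y ∈ Set.Ico (0 : ℝ) 1 ∧ ∃ (c : C (k + 1)) (p : ℕ) (hp : p < h (k + 1)) (ht : Typ k p),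
    X b (k + 1) y = (c, Sum.inl ⟨p, hp⟩) ∧ xi (b k) c p ht.typW = α ∧ xi (b k) c (p + ell k) ht.typW_add = α'

theorem exists_xiAt {b : ℕ → ℕ} {k : ℕ} {y : ℝ} (hy : y ∈ TypSet b k) : ∃ α α', XiAt b k y α α' := by
  obtain ⟨h0, c, p, hp, ht, hX⟩ := hy
  exact ⟨_, _, h0, c, p, hp, ht, hX, rfl, rfl⟩

end KAut
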