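import Mathlib
import Pool.Agent.Lib.MP_33914b_an.Y1
import Pool.Agent.Lib.MP_33914b_an.W3
import Pool.Agent.Lib.MP_33914b_an.Y2

/-!
# MP_33914b_an, file Y3  (ROW ka-Y3)
Paper: /team-store/kaut_paper.md

PROOF / HINTS:
b >= U: ofs b w u = g_u for all u<U. Fix g0 and all g_u' except u = p/ell and u+1. v = p%ell - g0 >= S; (p+ell)/ell = u+1, (p+ell)%ell = p%ell. xi = alpha, xi' = alpha' iff g_u satisfies the condition of offs_count_ge with m = L J + u N, g_{u+1} with
m = L J + (u+1) N, and rr has 4 prescribed values at 4 distinct indices (two in superblock u, two in superblock u+1). Count >= S * S^(U-2) * ((q-1)q)^2 * |R|^(L-4). Work with products: card{...} * |R|^4 * S^2 >= ((q-1) q)^2 * card (R (k+1)).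
-/
set_option autoImplicit false

open MeasureTheory

namespace KAut

/-- conditions on two coordinates -/
theorem Y3_two {n : ℕ} {Q : Type} [Fintype Q] (u u' : Fin n) (hne : u ≠ u') (P P' : Q → Prop) :
    Nat.card {γ : Fin n → Q // P (γ u) ∧ P' (γ u')} * Nat.card Q ^ 2 =
      Nat.card {x // P x} * Nat.card {x // P' x} * Nat.card Q ^ n := by
  classical
  have h1 : Nat.card {γ : Fin n → Q // P (γ u) ∧ P' (γ u')} =
      (Fintype.piFinset (fun i => if i = u then Finset.univ.filter P else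
        if i = u' then Finset.univ.filter P' else (Finset.univ : Finset Q))).card := by
    rw [Nat.card_eq_fintype_card, Fintype.card_subtype]
    congr 1
    ext r
    simp only [Finset.mem_filter, Finset.mem_univ, true_and, Fintype.mem_piFinset]
    constructor
    · rintro ⟨h1, h2⟩ i
      by_cases hi : i = u
      · subst hi
        simpa using h1
      · by_cases hi' : i = u'
        · subst hi'
          simpa [hi] using h2
        · simp [hi, hi']
    · intro hr
      refine ⟨?_, ?_⟩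
      · simpa using hr u
      · simpa [hne.symm] using hr u'
  have ha : Nat.card {x // P x} = (Finset.univ.filter P).card := by
    rw [Nat.card_eq_fintype_card, Fintype.card_subtype]
  have hb : Nat.card {x // P' x} = (Finset.univ.filter P').card := by
    rw [Nat.card_eq_fintype_card, Fintype.card_subtype]
  rw [h1, Fintype.card_piFinset, ha, hb]
  have hd : Nat.card Q ^ 2 = ∏ i : Fin n, ((if i = u then Nat.card Q else 1) *
      (if i = u' then Nat.card Q else 1)) := by
    rw [Finset.prod_mul_distrib, Finset.prod_ite_eq', Finset.prod_ite_eq', if_pos (Finset.mem_univ _),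
      if_pos (Finset.mem_univ _), sq]
  have he : (Finset.univ.filter P).card * (Finset.univ.filter P').card =
      ∏ i : Fin n, ((if i = u then (Finset.univ.filter P).card else 1) *
      (if i = u' then (Finset.univ.filter P').card else 1)) := by
    rw [Finset.prod_mul_distrib, Finset.prod_ite_eq', Finset.prod_ite_eq', if_pos (Finset.mem_univ _),
      if_pos (Finset.mem_univ _)]
  have hn : Nat.card Q ^ n = ∏ _i : Fin n, Nat.card Q := by
    rw [Finset.prod_const, Finset.card_univ, Fintype.card_fin]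
  rw [hd, he, hn, ← Finset.prod_mul_distrib, ← Finset.prod_mul_distrib]
  refine Finset.prod_congr rfl fun i _ => ?_
  by_cases hi : i = u
  · subst hi
    simp [hne]
  · by_cases hi' : i = u'
    · subst hi'
      simp [hi]
    · simp [hi, hi']

theorem Y3_div (k p : ℕ) : (p + ell k) / ell k = p / ell k + 1 :=
  Nat.add_div_right p (ell_pos k)

theorem Y3_mod (k p : ℕ) : (p + ell k) % ell k = p % ell k := Nat.add_mod_right p (ell k)

theorem Y3_idx_lt (b : ℕ) {k : ℕ} (ω : Offs k) {p : ℕ} (hp : Typ k p) :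
    idx b ω p + 1 < idx b ω (p + ell k) := by
  unfold idx
  rw [Y3_div]
  have h1 : vp b ω p / h k < N k - 1 := by
    rw [Nat.div_lt_iff_lt_mul (h_pos k)]
    unfold vp
    have := hp.2.2
    omega
  have h2 : (p / ell k + 1) * N k = p / ell k * N k + N k := by ring
  rw [h2]
  generalize vp b ω p / h k = x at h1 ⊢
  generalize vp b ω (p + ell k) / h k = y
  omega

open Classical in
theorem Y3_fib (b k : ℕ) (J : Fin (q (k + 1))) (p : ℕ) (hp : Typ k p) (α α' : Xi k) (ω : Offs k) :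
    Nat.card {r : Fin (L k) → R k // xi b ((J, mkR ω r) : C (k + 1)) p hp.typW = α ∧
        xi b ((J, mkR ω r) : C (k + 1)) (p + ell k) hp.typW_add = α'} *
      Nat.card (R k) ^ 4 = if Y2_Good b k J p α ω ∧ Y2_Good b k J (p + ell k) α' ω
        then Nat.card (R k) ^ L k else 0 := by
  split_ifs with hG
  · have hi := idx_succ_lt b ω hp.typW
    have hi' := idx_succ_lt b ω hp.typW_add
    have hlt := Y3_idx_lt b ω hp
    set i1 : Fin (L k) := ⟨idx b ω p, by omega⟩ with hi1
    set i2 : Fin (L k) := ⟨idx b ω p + 1, hi⟩ with hi2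
    set i3 : Fin (L k) := ⟨idx b ω (p + ell k), by omega⟩ with hi3
    set i4 : Fin (L k) := ⟨idx b ω (p + ell k) + 1, hi'⟩ with hi4
    have h12 : i1 ≠ i2 := Fin.ne_of_val_ne (by simp only [hi1, hi2]; omega)
    have h13 : i1 ≠ i3 := Fin.ne_of_val_ne (by simp only [hi1, hi3]; omega)
    have h14 : i1 ≠ i4 := Fin.ne_of_val_ne (by simp only [hi1, hi4]; omega)
    have h23 : i2 ≠ i3 := Fin.ne_of_val_ne (by simp only [hi2, hi3]; omega)
    have h24 : i2 ≠ i4 := Fin.ne_of_val_ne (by simp only [hi2, hi4]; omega)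
    have h34 : i3 ≠ i4 := Fin.ne_of_val_ne (by simp only [hi3, hi4]; omega)
    have hs : ({i1, i2, i3, i4} : Finset (Fin (L k))).card = 4 := by
      rw [Finset.card_insert_of_notMem, Finset.card_insert_of_notMem, Finset.card_insert_of_notMem,
        Finset.card_singleton]
      · simpa using h34
      · simp [h23, h24]
      · simp [h12, h13, h14]
    rw [← Y2_card_pi ({i1, i2, i3, i4} : Finset (Fin (L k))) (fun i => if i = i1 then α.1.2 else
      if i = i2 then α.2.1.2 else if i = i3 then α'.1.2 else α'.2.1.2), hs]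
    congr 1
    refine Nat.card_congr (Equiv.subtypeEquivRight fun r => ?_)
    rw [Y2_xi_eq_iff, Y2_xi_eq_iff]
    constructor
    · rintro ⟨⟨-, h1, h2⟩, -, h3, h4⟩ i hi
      rw [Finset.mem_insert, Finset.mem_insert, Finset.mem_insert, Finset.mem_singleton] at hi
      rcases hi with rfl | rfl | rfl | rfl
      · rw [if_pos rfl]
        exact h1
      · rw [if_neg h12.symm, if_pos rfl]
        exact h2
      · rw [if_neg h13.symm, if_neg h23.symm, if_pos rfl]
        exact h3
      · rw [if_neg h14.symm, if_neg h24.symm, if_neg h34.symm]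
        exact h4
    · intro hr
      refine ⟨⟨hG.1, ?_, ?_⟩, hG.2, ?_, ?_⟩
      · have := hr i1 (by simp)
        rw [if_pos rfl] at this
        exact this
      · have := hr i2 (by simp)
        rw [if_neg h12.symm, if_pos rfl] at this
        exact this
      · have := hr i3 (by simp)
        rw [if_neg h13.symm, if_neg h23.symm, if_pos rfl] at this
        exact this
      · have := hr i4 (by simp)
        rw [if_neg h14.symm, if_neg h24.symm, if_neg h34.symm] at this
        exact this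
  · have : IsEmpty {r : Fin (L k) → R k // xi b ((J, mkR ω r) : C (k + 1)) p hp.typW = α ∧
        xi b ((J, mkR ω r) : C (k + 1)) (p + ell k) hp.typW_add = α'} := by
      refine ⟨fun r => hG ⟨?_, ?_⟩⟩
      · exact ((Y2_xi_eq_iff b k J p hp.typW α ω r.1).1 r.2.1).1
      · exact ((Y2_xi_eq_iff b k J (p + ell k) hp.typW_add α' ω r.1).1 r.2.2).1
    rw [Nat.card_of_isEmpty, zero_mul]

theorem Y3_card_xi (b k : ℕ) (J : Fin (q (k + 1))) (p : ℕ) (hp : Typ k p) (α α' : Xi k) :
    Nat.card {ρ : R (k + 1) // xi b ((J, ρ) : C (k + 1)) p hp.typW = α ∧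
        xi b ((J, ρ) : C (k + 1)) (p + ell k) hp.typW_add = α'} * Nat.card (R k) ^ 4 =
      Nat.card {ω : Offs k // Y2_Good b k J p α ω ∧ Y2_Good b k J (p + ell k) α' ω} *
        Nat.card (R k) ^ L k := by
  classical
  have h1 := Y2_card_R (k := k) (fun ω r => xi b ((J, mkR ω r) : C (k + 1)) p hp.typW = α ∧
        xi b ((J, mkR ω r) : C (k + 1)) (p + ell k) hp.typW_add = α')
  have h2 : Nat.card {ρ : R (k + 1) // xi b ((J, ρ) : C (k + 1)) p hp.typW = α ∧
        xi b ((J, ρ) : C (k + 1)) (p + ell k) hp.typW_add = α'} =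
      ∑ ω : Offs k, Nat.card {r // xi b ((J, mkR ω r) : C (k + 1)) p hp.typW = α ∧
        xi b ((J, mkR ω r) : C (k + 1)) (p + ell k) hp.typW_add = α'} := h1
  rw [h2, Finset.sum_mul, Finset.sum_congr rfl fun ω _ => Y3_fib b k J p hp α α' ω,
    ← Finset.sum_filter, Finset.sum_const,
    Nat.card_eq_fintype_card
      (α := {ω : Offs k // Y2_Good b k J p α ω ∧ Y2_Good b k J (p + ell k) α' ω}),
    Fintype.card_subtype, smul_eq_mul]

/-- the condition on one offset -/
def Y3_P (k m v : ℕ) (α : Xi k) (x : ℕ) : Prop :=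
  (v - x) % h k = (α.2.2 : ℕ) ∧ W (q k) (m + (v - x) / h k) = (α.1.1 : ℕ) ∧
    W (q k) (m + (v - x) / h k + 1) = (α.2.1.1 : ℕ)

theorem Y3_good_iff (b k : ℕ) (hb : U k ≤ b) (J : Fin (q (k + 1))) (p : ℕ) (hp : p / ell k < U k)
    (α : Xi k) (g0 : Fin (S k)) (γ : Fin (U k) → Fin (S k)) :
    Y2_Good b k J p α ((g0, γ) : Offs k) ↔
      Y3_P k (L k * J + p / ell k * N k) (p % ell k - (g0 : ℕ)) α (γ ⟨p / ell k, hp⟩) := by
  have h1 : vp b ((g0, γ) : Offs k) p = p % ell k - (g0 : ℕ) - (γ ⟨p / ell k, hp⟩ : ℕ) := by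
    unfold vp ofs
    rw [dif_pos hp, if_pos (lt_of_lt_of_le hp hb)]
  unfold Y2_Good Y3_P ph idx
  rw [h1]
  simp only [add_assoc]

theorem Y3_count (k m v : ℕ) (α : Xi k) (hv : S k ≤ v + 1) :
    (q k - 1) * q k ≤ Nat.card {x : Fin (S k) // Y3_P k m v α x} := by
  classical
  rw [Y2_card_fin (S k) (Y3_P k m v α)]
  have := offs_count_ge (q_prime k) (h_pos k) m v _ _ _ α.2.2.2 (show q k ^ 4 * h k ≤ v + 1 from hv)
    α.1.1.2 α.2.1.1.2
  refine this.trans (le_of_eq ?_)
  change ((Finset.range (S k)).filter _).card = _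
  congr 1
  ext x
  simp only [Finset.mem_filter]
  rfl

theorem Y3_card_Offs {k : ℕ} (P : Offs k → Prop) :
    Nat.card {ω : Offs k // P ω} = ∑ g0 : Fin (S k),
      Nat.card {γ : Fin (U k) → Fin (S k) // P (g0, γ)} :=
  Y2_card_prod (fun (g0 : Fin (S k)) (γ : Fin (U k) → Fin (S k)) => P (g0, γ))

theorem Y3_good_count (b k : ℕ) (hb : U k ≤ b) (J : Fin (q (k + 1))) (p : ℕ) (hp : Typ k p)
    (α α' : Xi k) :
    S k * (((q k - 1) * q k) ^ 2 * S k ^ U k) ≤
      Nat.card {ω : Offs k // Y2_Good b k J p α ω ∧ Y2_Good b k J (p + ell k) α' ω} * S k ^ 2 := by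
  rw [Y3_card_Offs, Finset.sum_mul]
  have hS : Nat.card (Fin (S k)) = S k := by rw [Nat.card_eq_fintype_card, Fintype.card_fin]
  have hu : p / ell k < U k := by have := hp.1; omega
  have hu' : (p + ell k) / ell k < U k := by rw [Y3_div]; exact hp.1
  have key : ∀ g0 : Fin (S k), ((q k - 1) * q k) ^ 2 * S k ^ U k ≤
      Nat.card {γ : Fin (U k) → Fin (S k) // Y2_Good b k J p α (g0, γ) ∧
        Y2_Good b k J (p + ell k) α' (g0, γ)} * S k ^ 2 := by
    intro g0
    have hne : (⟨p / ell k, hu⟩ : Fin (U k)) ≠ ⟨(p + ell k) / ell k, hu'⟩ := by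
      refine Fin.ne_of_val_ne ?_
      simp only
      rw [Y3_div]
      omega
    have h1 := Y3_two (n := U k) (Q := Fin (S k)) _ _ hne
      (fun x => Y3_P k (L k * J + p / ell k * N k) (p % ell k - (g0 : ℕ)) α x)
      (fun x => Y3_P k (L k * J + (p + ell k) / ell k * N k) ((p + ell k) % ell k - (g0 : ℕ)) α' x)
    have h2 : Nat.card {γ : Fin (U k) → Fin (S k) // Y2_Good b k J p α (g0, γ) ∧
        Y2_Good b k J (p + ell k) α' (g0, γ)} = Nat.card {γ : Fin (U k) → Fin (S k) //
        Y3_P k (L k * J + p / ell k * N k) (p % ell k - (g0 : ℕ)) α (γ ⟨p / ell k, hu⟩) ∧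
        Y3_P k (L k * J + (p + ell k) / ell k * N k) ((p + ell k) % ell k - (g0 : ℕ)) α'
          (γ ⟨(p + ell k) / ell k, hu'⟩)} := by
      refine Nat.card_congr (Equiv.subtypeEquivRight fun γ => ?_)
      rw [Y3_good_iff b k hb J p hu α g0 γ, Y3_good_iff b k hb J (p + ell k) hu' α' g0 γ]
    rw [hS] at h1
    rw [h2, h1]
    have hg := g0.2
    have hr := hp.2.1
    have c1 := Y3_count k (L k * J + p / ell k * N k) (p % ell k - (g0 : ℕ)) α (by omega)
    have c2 := Y3_count k (L k * J + (p + ell k) / ell k * N k) ((p + ell k) % ell k - (g0 : ℕ)) α'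
      (by rw [Y3_mod]; omega)
    rw [sq ((q k - 1) * q k)]
    exact Nat.mul_le_mul_right _ (Nat.mul_le_mul c1 c2)
  calc S k * (((q k - 1) * q k) ^ 2 * S k ^ U k)
      = ∑ _g0 : Fin (S k), ((q k - 1) * q k) ^ 2 * S k ^ U k := by
        rw [Finset.sum_const, Finset.card_univ, Fintype.card_fin, smul_eq_mul]
    _ ≤ _ := Finset.sum_le_sum fun g0 _ => key g0

/-- (ii): with all superblocks of type II the windows at `p` and at `p + ell` are independent -/
theorem card_xi_pair_ge (b k : ℕ) (hb : U k ≤ b) (J : Fin (q (k + 1))) (p : ℕ) (hp : Typ k p) (α α' : Xi k) :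
    (1 - 1 / q k) ^ 2 * Nat.card (R (k + 1)) ≤
      (Nat.card {ρ : R (k + 1) // xi b ((J, ρ) : C (k + 1)) p hp.typW = α ∧
        xi b ((J, ρ) : C (k + 1)) (p + ell k) hp.typW_add = α'} : ℝ) * Nat.card (Xi k) ^ 2 := by
  have h1 := Y3_card_xi b k J p hp α α'
  have h2 := Y3_good_count b k hb J p hp α α'
  set X1 := Nat.card {ρ : R (k + 1) // xi b ((J, ρ) : C (k + 1)) p hp.typW = α ∧
        xi b ((J, ρ) : C (k + 1)) (p + ell k) hp.typW_add = α'}
  set X2 := Nat.card {ω : Offs k // Y2_Good b k J p α ω ∧ Y2_Good b k J (p + ell k) α' ω}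
  have hq : (0 : ℝ) < q k := by exact_mod_cast q_pos k
  have hh : (0 : ℝ) < h k := by exact_mod_cast h_pos k
  have e1 : ((X1 * Nat.card (Xi k) ^ 2 : ℕ) : ℝ) = (X2 : ℝ) * ((q k : ℝ) ^ 4 * (h k : ℝ) ^ 2) *
      (Nat.card (R k) : ℝ) ^ L k := by
    have : X1 * Nat.card (Xi k) ^ 2 = X2 * Nat.card (R k) ^ L k * (q k ^ 4 * h k ^ 2) := by
      rw [← h1, Y2_card_Xi]
      ring
    rw [this]
    push_cast
    ring
  have hSr : (S k : ℝ) = (q k : ℝ) ^ 4 * h k := by unfold S; push_cast; ring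
  have e2 : (Nat.card (R (k + 1)) : ℝ) = (S k : ℝ) * (S k : ℝ) ^ U k *
      (Nat.card (R k) : ℝ) ^ L k := by
    rw [Y2_card_R_succ]
    push_cast
    ring
  have h5 : ((q k - 1 : ℕ) : ℝ) = (q k : ℝ) - 1 := by
    rw [Nat.cast_sub (q_pos k)]
    simp
  have h3 : (S k : ℝ) * ((((q k : ℝ) - 1) * q k) ^ 2 * (S k : ℝ) ^ U k) ≤ (X2 : ℝ) * (S k : ℝ) ^ 2 := by
    have h4 : ((S k * (((q k - 1) * q k) ^ 2 * S k ^ U k) : ℕ) : ℝ) ≤ ((X2 * S k ^ 2 : ℕ) : ℝ) := by
      exact_mod_cast h2
    push_cast at h4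
    rw [h5] at h4
    exact h4
  have e3 : (X1 : ℝ) * (Nat.card (Xi k) : ℝ) ^ 2 = ((X1 * Nat.card (Xi k) ^ 2 : ℕ) : ℝ) := by
    push_cast; ring
  rw [e3, e1, e2, ← mul_assoc]
  refine mul_le_mul_of_nonneg_right ?_ (by positivity)
  have hpos : (0 : ℝ) < (q k : ℝ) ^ 4 := by positivity
  have e4 : (1 - 1 / (q k : ℝ)) ^ 2 * ((S k : ℝ) * (S k : ℝ) ^ U k) * (q k : ℝ) ^ 4 =
      (S k : ℝ) * ((((q k : ℝ) - 1) * q k) ^ 2 * (S k : ℝ) ^ U k) := by
    field_simp
  have e5 : (X2 : ℝ) * ((q k : ℝ) ^ 4 * (h k : ℝ) ^ 2) * (q k : ℝ) ^ 4 = (X2 : ℝ) * (S k : ℝ) ^ 2 := by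
    rw [hSr]
    ring
  refine le_of_mul_le_mul_right ?_ hpos
  rw [e4, e5]
  exact h3

end KAut
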