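import Mathlib
import Pool.Agent.Lib.MP_33914b_an.NonDef
import Pool.Agent.Lib.MP_33914b_an.Y2
import Pool.Agent.Lib.MP_33914b_an.Y3
import Pool.Agent.Lib.MP_33914b_an.Y4
import Pool.Agent.Lib.MP_33914b_an.T1

/-!
# MP_33914b_an, file N1  (ROW ka-N1)
Paper: /team-store/kaut_paper.md

PROOF / HINTS:
lam_X: the sets are {x in [0,1) : X x in s}; s = {((J,rho), inl p) : p typical, xi = alpha ..}: card = sum over J, p of card{rho : ..}; divide by card(E (k+1)) = q' |R'| (h'+sp'). pair: lower bound (number of typical p)/(h'+sp') >= 1 - 3/H: this is lam_TypSet (Y4) read as a count. lam_phase_ge: card_ph_eq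
(each phase has exactly |R'|/h elements rho).
-/
set_option autoImplicit false

open MeasureTheory

namespace KAut

/-- points of `E (k+1)` at a typical position with a property -/
def N1_set (k : ℕ) (Q : ∀ p, Typ k p → C (k + 1) → Prop) : Set (E (k + 1)) :=
  {e | ∃ (c : C (k + 1)) (p : ℕ) (hp : p < h (k + 1)) (ht : Typ k p),
    e = (c, Sum.inl ⟨p, hp⟩) ∧ Q p ht c}

/-- the map used to count `N1_set` -/
def N1_fun (k : ℕ) (Q : ∀ p, Typ k p → C (k + 1) → Prop)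
    (x : Σ (_ : Fin (q (k + 1))) (p : {p : Fin (h (k + 1)) // Typ k p}), {ρ : R (k + 1) // Q p.1 p.2 (‹Fin (q (k + 1))›, ρ)}) :
    N1_set k Q :=
  ⟨((x.1, x.2.2.1), Sum.inl x.2.1.1), (x.1, x.2.2.1), x.2.1.1, x.2.1.1.2, x.2.1.2, rfl, x.2.2.2⟩

theorem N1_bij (k : ℕ) (Q : ∀ p, Typ k p → C (k + 1) → Prop) : Function.Bijective (N1_fun k Q) := by
  constructor
  · rintro ⟨J, ⟨p, hp⟩, ⟨ρ, hρ⟩⟩ ⟨J', ⟨p', hp'⟩, ⟨ρ', hρ'⟩⟩ hxy
    have h1 := congrArg Subtype.val hxy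
    simp only [N1_fun, Prod.mk.injEq, Sum.inl.injEq] at h1
    obtain ⟨⟨rfl, rfl⟩, rfl⟩ := h1
    rfl
  · rintro ⟨e, c, p, hp, ht, rfl, hQ⟩
    exact ⟨⟨c.1, ⟨⟨p, hp⟩, ht⟩, ⟨c.2, hQ⟩⟩, rfl⟩

open Classical in
theorem N1_card (k : ℕ) (Q : ∀ p, Typ k p → C (k + 1) → Prop) :
    Nat.card (N1_set k Q) = ∑ J : Fin (q (k + 1)), ∑ p : {p : Fin (h (k + 1)) // Typ k p},
      Nat.card {ρ : R (k + 1) // Q p.1 p.2 (J, ρ)} := by
  rw [← Nat.card_congr (Equiv.ofBijective _ (N1_bij k Q)), Nat.card_sigma]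
  refine Finset.sum_congr rfl (fun J _ => ?_)
  rw [Nat.card_sigma]

/-- proportion of the typical positions -/
noncomputable def N1_th (k : ℕ) : ℝ :=
  (Nat.card {p : Fin (h (k + 1)) // Typ k p} : ℝ) / ((h (k + 1) : ℝ) + sp (k + 1))

theorem N1_cardE (k : ℕ) : (Nat.card (E (k + 1)) : ℝ) =
    (q (k + 1) : ℝ) * Nat.card (R (k + 1)) * ((h (k + 1) : ℝ) + sp (k + 1)) := by
  have h1 : Nat.card (E (k + 1)) = (q (k + 1) * Nat.card (R (k + 1))) * (h (k + 1) + sp (k + 1)) := by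
    change Nat.card ((Fin (q (k + 1)) × R (k + 1)) × (Fin (h (k + 1)) ⊕ Fin (sp (k + 1)))) = _
    rw [Nat.card_prod, Nat.card_prod, Nat.card_sum, Nat.card_fin, Nat.card_fin, Nat.card_fin]
  rw [h1]; push_cast; ring

theorem N1_RR (k : ℕ) : (0 : ℝ) < Nat.card (R (k + 1)) := by
  have : 0 < Nat.card (R (k + 1)) := Nat.card_pos
  exact_mod_cast this

theorem N1_qq (k : ℕ) : (0 : ℝ) < q (k + 1) := by exact_mod_cast q_pos (k + 1)

theorem N1_hs (k : ℕ) : (0 : ℝ) < (h (k + 1) : ℝ) + sp (k + 1) := by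
  have h1 : (0 : ℝ) < h (k + 1) := by exact_mod_cast h_pos (k + 1)
  have h2 : (0 : ℝ) < sp (k + 1) := by exact_mod_cast sp_pos (k + 1)
  linarith

theorem N1_th_nonneg (k : ℕ) : 0 ≤ N1_th k := div_nonneg (Nat.cast_nonneg _) (N1_hs k).le

theorem N1_th_le (k : ℕ) : N1_th k ≤ 1 := by
  unfold N1_th
  rw [div_le_one (N1_hs k)]
  have h1 : Nat.card {p : Fin (h (k + 1)) // Typ k p} ≤ h (k + 1) := by
    have := Nat.card_le_card_of_injective (Subtype.val : {p : Fin (h (k + 1)) // Typ k p} → _)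
      Subtype.val_injective
    rwa [Nat.card_fin] at this
  have h2 : (0 : ℝ) < sp (k + 1) := by exact_mod_cast sp_pos (k + 1)
  have h3 : (Nat.card {p : Fin (h (k + 1)) // Typ k p} : ℝ) ≤ h (k + 1) := by exact_mod_cast h1
  linarith

theorem N1_ratio (k : ℕ) (β : ℝ) :
    (q (k + 1) : ℝ) * ((Nat.card {p : Fin (h (k + 1)) // Typ k p} : ℝ) * (β * Nat.card (R (k + 1))))
      / Nat.card (E (k + 1)) = N1_th k * β := by
  rw [N1_cardE]
  unfold N1_th
  have h1 := N1_RR k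
  have h2 := N1_qq k
  have h3 := N1_hs k
  field_simp

theorem N1_E_pos (k : ℕ) : (0 : ℝ) < Nat.card (E (k + 1)) := by
  rw [N1_cardE]
  exact mul_pos (mul_pos (N1_qq k) (N1_RR k)) (N1_hs k)

theorem N1_card_le (k : ℕ) (Q : ∀ p, Typ k p → C (k + 1) → Prop) (β : ℝ)
    (hQ : ∀ (J : Fin (q (k + 1))) (p : ℕ) (ht : Typ k p),
      (Nat.card {ρ : R (k + 1) // Q p ht (J, ρ)} : ℝ) ≤ β * Nat.card (R (k + 1))) :
    (Nat.card (N1_set k Q) : ℝ) / Nat.card (E (k + 1)) ≤ N1_th k * β := by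
  classical
  rw [← N1_ratio k β]
  apply div_le_div_of_nonneg_right _ (Nat.cast_nonneg _)
  rw [N1_card]
  push_cast
  refine (Finset.sum_le_sum (fun J _ => Finset.sum_le_sum (fun p _ => hQ J p.1 p.2))).trans ?_
  simp only [Finset.sum_const, Finset.card_univ, Fintype.card_fin, nsmul_eq_mul,
    Nat.card_eq_fintype_card]
  exact le_of_eq (by ring)

theorem N1_card_ge (k : ℕ) (Q : ∀ p, Typ k p → C (k + 1) → Prop) (β : ℝ)
    (hQ : ∀ (J : Fin (q (k + 1))) (p : ℕ) (ht : Typ k p),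
      β * Nat.card (R (k + 1)) ≤ (Nat.card {ρ : R (k + 1) // Q p ht (J, ρ)} : ℝ)) :
    N1_th k * β ≤ (Nat.card (N1_set k Q) : ℝ) / Nat.card (E (k + 1)) := by
  classical
  rw [← N1_ratio k β]
  apply div_le_div_of_nonneg_right _ (Nat.cast_nonneg _)
  rw [N1_card]
  push_cast
  refine le_trans ?_ (Finset.sum_le_sum (fun J _ => Finset.sum_le_sum (fun p _ => hQ J p.1 p.2)))
  simp only [Finset.sum_const, Finset.card_univ, Fintype.card_fin, nsmul_eq_mul,
    Nat.card_eq_fintype_card]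
  exact le_of_eq (by ring)

theorem N1_lam (a : ℕ → ℕ) (k : ℕ) (s : Set (E (k + 1))) :
    lam {x | X a (k + 1) x ∈ s} = ENNReal.ofReal ((Nat.card s : ℝ) / Nat.card (E (k + 1))) := by
  rw [lam_X, ENNReal.ofReal_div_of_pos (N1_E_pos k), ENNReal.ofReal_natCast, ENNReal.ofReal_natCast]

theorem N1_th_ge (k : ℕ) : 1 - 3 / H k ≤ N1_th k := by
  have h1 := lam_TypSet (fun _ => 0) k
  have h2 : lam (TypSet (fun _ => 0) k) ≤ ENNReal.ofReal (N1_th k) := by
    have h3 : TypSet (fun _ => 0) k ⊆ {x | X (fun _ => 0) (k + 1) x ∈ N1_set k (fun _ _ _ => True)} := by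
      rintro x ⟨_, c, p, hp, ht, hX⟩
      exact ⟨c, p, hp, ht, hX, trivial⟩
    refine (measure_mono h3).trans ?_
    rw [N1_lam]
    apply ENNReal.ofReal_le_ofReal
    have h4 := N1_card_le k (fun _ _ _ => True) 1 (by
      intro J p ht
      rw [one_mul]
      have := Nat.card_le_card_of_injective
        (Subtype.val : {ρ : R (k + 1) // True} → _) Subtype.val_injective
      exact_mod_cast this)
    rwa [mul_one] at h4
  have h5 : (1 : ENNReal) ≤ ENNReal.ofReal (N1_th k + 3 / H k) := by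
    rw [ENNReal.ofReal_add (N1_th_nonneg k) (by positivity)]
    calc (1 : ENNReal) = lam Set.univ := measure_univ.symm
      _ ≤ lam (TypSet (fun _ => 0) k) + lam (TypSet (fun _ => 0) k)ᶜ := by
          rw [← Set.union_compl_self (TypSet (fun _ => 0) k)]
          exact measure_union_le _ _
      _ ≤ _ := add_le_add h2 h1
  rw [ENNReal.one_le_ofReal] at h5
  linarith

theorem N1_Xi_pos (k : ℕ) : (0 : ℝ) < Nat.card (Xi k) := by
  have : NeZero (h k) := ⟨(h_pos k).ne'⟩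
  have : 0 < Nat.card (Xi k) := Nat.card_pos
  exact_mod_cast this

theorem lam_xi_le (b : ℕ → ℕ) (k : ℕ) (α : Xi k) :
    lam {y | ∃ α', XiAt b k y α α'} ≤ ENNReal.ofReal ((1 + 1 / q k) / Nat.card (Xi k)) := by
  have h3 : {y | ∃ α', XiAt b k y α α'} ⊆
      {x | X b (k + 1) x ∈ N1_set k (fun p ht c => xi (b k) c p ht.typW = α)} := by
    rintro y ⟨α', _, c, p, hp, ht, hX, h1, _⟩
    exact ⟨c, p, hp, ht, hX, h1⟩
  refine (measure_mono h3).trans ?_
  rw [N1_lam]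
  apply ENNReal.ofReal_le_ofReal
  have hβ : (0 : ℝ) ≤ (1 + 1 / q k) / Nat.card (Xi k) := by positivity
  refine (N1_card_le k _ ((1 + 1 / q k) / Nat.card (Xi k)) ?_).trans ?_
  · intro J p ht
    have := card_xi_le (b k) k J p ht.typW α
    rw [div_mul_eq_mul_div, le_div_iff₀ (N1_Xi_pos k)]
    exact this
  · exact mul_le_of_le_one_left hβ (N1_th_le k)

theorem lam_xi_le' (b : ℕ → ℕ) (k : ℕ) (α' : Xi k) :
    lam {y | ∃ α, XiAt b k y α α'} ≤ ENNReal.ofReal ((1 + 1 / q k) / Nat.card (Xi k)) := by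
  have h3 : {y | ∃ α, XiAt b k y α α'} ⊆
      {x | X b (k + 1) x ∈ N1_set k (fun p ht c => xi (b k) c (p + ell k) ht.typW_add = α')} := by
    rintro y ⟨α, _, c, p, hp, ht, hX, _, h1⟩
    exact ⟨c, p, hp, ht, hX, h1⟩
  refine (measure_mono h3).trans ?_
  rw [N1_lam]
  apply ENNReal.ofReal_le_ofReal
  have hβ : (0 : ℝ) ≤ (1 + 1 / q k) / Nat.card (Xi k) := by positivity
  refine (N1_card_le k _ ((1 + 1 / q k) / Nat.card (Xi k)) ?_).trans ?_
  · intro J p ht
    have := card_xi_le (b k) k J (p + ell k) ht.typW_add α'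
    rw [div_mul_eq_mul_div, le_div_iff₀ (N1_Xi_pos k)]
    exact this
  · exact mul_le_of_le_one_left hβ (N1_th_le k)

theorem lam_xi_pair_ge (b : ℕ → ℕ) (k : ℕ) (hb : U k ≤ b k) (α α' : Xi k) :
    ENNReal.ofReal ((1 - 1 / q k) ^ 2 * (1 - 3 / H k) / (Nat.card (Xi k) : ℝ) ^ 2) ≤
      lam {y | XiAt b k y α α'} := by
  have h3 : lam {x | X b (k + 1) x ∈ N1_set k (fun p ht c => xi (b k) c p ht.typW = α ∧
      xi (b k) c (p + ell k) ht.typW_add = α')} ≤ lam {y | XiAt b k y α α'} := by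
    apply measure_mono_ae
    filter_upwards [ae_mem_Ico] with x hx hX
    obtain ⟨c, p, hp, ht, hX, h1, h2⟩ := hX
    exact ⟨hx, c, p, hp, ht, hX, h1, h2⟩
  refine le_trans ?_ h3
  rw [N1_lam]
  apply ENNReal.ofReal_le_ofReal
  have hβ : (0 : ℝ) ≤ (1 - 1 / q k) ^ 2 / (Nat.card (Xi k) : ℝ) ^ 2 := by positivity
  refine le_trans ?_ (N1_card_ge k _ ((1 - 1 / q k) ^ 2 / (Nat.card (Xi k) : ℝ) ^ 2) ?_)
  · have h4 := mul_le_mul_of_nonneg_right (N1_th_ge k) hβ
    refine le_trans (le_of_eq ?_) h4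
    ring
  · intro J p ht
    have := card_xi_pair_ge (b k) k hb J p ht α α'
    rw [div_mul_eq_mul_div, div_le_iff₀ (pow_pos (N1_Xi_pos k) 2)]
    exact this

/-- phase of a typical point -/
theorem lam_phase_ge (a : ℕ → ℕ) (k lo hi : ℕ) (hlo : lo ≤ hi) (hhi : hi ≤ h k) :
    ENNReal.ofReal (((hi : ℝ) - lo) / h k * (1 - 3 / H k)) ≤
      lam {x | ∃ α α', XiAt a k x α α' ∧ lo ≤ (α.2.2 : ℕ) ∧ (α.2.2 : ℕ) < hi} := by
  classical
  have h3 : lam {x | X a (k + 1) x ∈ N1_set k (fun p _ c => lo ≤ ph (a k) (offs c) p ∧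
      ph (a k) (offs c) p < hi)} ≤
      lam {x | ∃ α α', XiAt a k x α α' ∧ lo ≤ (α.2.2 : ℕ) ∧ (α.2.2 : ℕ) < hi} := by
    apply measure_mono_ae
    filter_upwards [ae_mem_Ico] with x hx hX
    obtain ⟨c, p, hp, ht, hX, h1, h2⟩ := hX
    exact ⟨_, _, ⟨hx, c, p, hp, ht, hX, rfl, rfl⟩, h1, h2⟩
  refine le_trans ?_ h3
  rw [N1_lam]
  apply ENNReal.ofReal_le_ofReal
  have hh : (0 : ℝ) < h k := by exact_mod_cast h_pos k
  have hlh : (0 : ℝ) ≤ (hi : ℝ) - lo := by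
    have : (lo : ℝ) ≤ hi := by exact_mod_cast hlo
    linarith
  have hβ : (0 : ℝ) ≤ ((hi : ℝ) - lo) / h k := div_nonneg hlh hh.le
  refine le_trans ?_ (N1_card_ge k _ (((hi : ℝ) - lo) / h k) ?_)
  · have h4 := mul_le_mul_of_nonneg_right (N1_th_ge k) hβ
    linarith
  · intro J p ht
    have h5 : Nat.card {ρ : R (k + 1) // lo ≤ ph (a k) (offs ((J, ρ) : C (k + 1))) p ∧
        ph (a k) (offs ((J, ρ) : C (k + 1))) p < hi} =
        ∑ π ∈ Finset.Ico lo hi, Nat.card {ρ : R (k + 1) // ph (a k) (offs ((J, ρ) : C (k + 1))) p = π} := by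
      rw [Nat.card_eq_fintype_card, Fintype.card_subtype,
        Finset.card_eq_sum_card_fiberwise (f := fun ρ => ph (a k) (offs ((J, ρ) : C (k + 1))) p)
          (t := Finset.Ico lo hi)]
      · refine Finset.sum_congr rfl (fun π hπ => ?_)
        rw [Nat.card_eq_fintype_card, Fintype.card_subtype]
        congr 1
        ext ρ
        simp only [Finset.mem_filter, Finset.mem_univ, true_and]
        rw [Finset.mem_Ico] at hπ
        constructor
        · exact fun h => h.2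
        · exact fun h => ⟨by rw [h]; exact hπ, h⟩
      · intro ρ hρ
        simpa using hρ
    have h6 : ∀ π ∈ Finset.Ico lo hi,
        (Nat.card {ρ : R (k + 1) // ph (a k) (offs ((J, ρ) : C (k + 1))) p = π} : ℝ) =
          Nat.card (R (k + 1)) / h k := by
      intro π hπ
      rw [Finset.mem_Ico] at hπ
      have := card_ph_eq (a k) k p π ht.typW (by omega) J
      rw [eq_div_iff hh.ne']
      exact_mod_cast this
    change ((hi : ℝ) - lo) / h k * Nat.card (R (k + 1)) ≤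
      (Nat.card {ρ : R (k + 1) // lo ≤ ph (a k) (offs ((J, ρ) : C (k + 1))) p ∧
        ph (a k) (offs ((J, ρ) : C (k + 1))) p < hi} : ℝ)
    rw [h5]
    push_cast
    rw [Finset.sum_congr rfl h6, Finset.sum_const, Nat.card_Ico, nsmul_eq_mul, Nat.cast_sub hlo]
    exact le_of_eq (by ring)

end KAut
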