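import Mathlib
import Pool.Agent.Lib.MP_33914b_an.NonDef
import Pool.Agent.Lib.MP_33914b_an.T3

/-!
# MP_33914b_an, file N2  (ROW ka-N2)
Paper: /team-store/kaut_paper.md

PROOF / HINTS:
phase_eq: ph_add_ell. X_iter_typ: T_iter at level k+1 (p+s<h' by TypW.lt), then down1_X and down1_typ / down1_typ'. Second window: position p + (s+ell) = (p+ell)+s.
-/
set_option autoImplicit false

open MeasureTheory

namespace KAut

/-- for type I the phase at time `ell k` is the phase at time `0` -/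
theorem phase_eq {a : ℕ → ℕ} {k : ℕ} (ha : a k = 0) {x : ℝ} {α α' : Xi k} (hx : XiAt a k x α α') :
    α'.2.2 = α.2.2 := by
  obtain ⟨-, c, p, hp, ht, -, rfl, rfl⟩ := hx
  apply Fin.ext
  show ph (a k) (offs c) (p + ell k) = ph (a k) (offs c) p
  rw [ha]
  exact ph_add_ell k (offs c) p ht

/-- coordinates along a window starting at a position in the safe part -/
theorem N2_window {b : ℕ → ℕ} {k : ℕ} {y : ℝ} (hy : y ∈ Set.Ico (0 : ℝ) 1) (c : C (k + 1)) (p p' t0 : ℕ)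
    (hp : p < h (k + 1)) (hX : X b (k + 1) y = (c, Sum.inl ⟨p, hp⟩)) (hp' : p' = p + t0)
    (ht : TypW k p') (s : ℕ) (hs : s < h k) :
    (T b)^[s + t0] y ∈ Set.Ico (0 : ℝ) 1 ∧
    (∀ h1 : ((xi (b k) c p' ht).2.2 : ℕ) + s < h k, X b k ((T b)^[s + t0] y) =
      ((xi (b k) c p' ht).1, Sum.inl ⟨(xi (b k) c p' ht).2.2 + s, h1⟩)) ∧
    (∀ h2 : h k ≤ ((xi (b k) c p' ht).2.2 : ℕ) + s,
      X b k ((T b)^[s + t0] y) = ((xi (b k) c p' ht).2.1,
        Sum.inl ⟨(xi (b k) c p' ht).2.2 + s - h k, by have := (xi (b k) c p' ht).2.2.2; omega⟩)) := by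
  subst hp'
  have hlt := ht.lt
  obtain ⟨e1, e2, -⟩ := T_iter b (k := k + 1) hy c p (s + t0) (by omega) hX
  have e3 : X b (k + 1) ((T b)^[s + t0] y) = (c, Sum.inl ⟨(p + t0) + s, by omega⟩) := by
    rw [e2]
    have : (⟨p + (s + t0), by omega⟩ : Fin (h (k + 1))) = ⟨(p + t0) + s, by omega⟩ :=
      Fin.ext (by show p + (s + t0) = (p + t0) + s; omega)
    rw [this]
  refine ⟨e1, ?_, ?_⟩
  · intro h1
    rw [← down1_X b k e1, e3]
    exact down1_typ (b k) c ht s h1 (by omega)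
  · intro h2
    rw [← down1_X b k e1, e3]
    exact down1_typ' (b k) c ht s hs h2 (by omega)

/-- coordinates along the first window -/
theorem X_iter_typ {b : ℕ → ℕ} {k : ℕ} {y : ℝ} {α α' : Xi k} (hy : XiAt b k y α α') (s : ℕ) (hs : s < h k) :
    (T b)^[s] y ∈ Set.Ico (0 : ℝ) 1 ∧
    (∀ h1 : (α.2.2 : ℕ) + s < h k, X b k ((T b)^[s] y) = (α.1, Sum.inl ⟨α.2.2 + s, h1⟩)) ∧
    (∀ h2 : h k ≤ (α.2.2 : ℕ) + s,
      X b k ((T b)^[s] y) = (α.2.1, Sum.inl ⟨α.2.2 + s - h k, by have := α.2.2.2; omega⟩)) := by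
  obtain ⟨h0, c, p, hp, ht, hX, rfl, -⟩ := hy
  exact N2_window h0 c p p 0 hp hX rfl ht.typW s hs

/-- coordinates along the second window -/
theorem X_iter_typ' {b : ℕ → ℕ} {k : ℕ} {y : ℝ} {α α' : Xi k} (hy : XiAt b k y α α') (s : ℕ) (hs : s < h k) :
    (T b)^[s + ell k] y ∈ Set.Ico (0 : ℝ) 1 ∧
    (∀ h1 : (α'.2.2 : ℕ) + s < h k, X b k ((T b)^[s + ell k] y) = (α'.1, Sum.inl ⟨α'.2.2 + s, h1⟩)) ∧
    (∀ h2 : h k ≤ (α'.2.2 : ℕ) + s,
      X b k ((T b)^[s + ell k] y) = (α'.2.1, Sum.inl ⟨α'.2.2 + s - h k, by have := α'.2.2.2; omega⟩)) := by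
  obtain ⟨h0, c, p, hp, ht, hX, -, rfl⟩ := hy
  exact N2_window h0 c p (p + ell k) (ell k) hp hX rfl ht.typW_add s hs

end KAut
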