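import Mathlib
import Pool.Agent.Lib.MP_33914b_an.N2

/-!
# MP_33914b_an, file N3  (ROW ka-N3)
Paper: /team-store/kaut_paper.md

PROOF / HINTS:
k = m+e; F (X b m y) = F (down b m e (X b k y)) (down_X). Psi (c,c',pi) s = F(down (c, inl (pi+s))) if pi+s<h, F(down (c', inl (pi+s-h))) otherwise. P0_of_xi: X a 0 y = down0 a k (X a k y) (prove by induction) and the definition of nm, win.
-/
set_option autoImplicit false

open MeasureTheory

namespace KAut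

/-- the cell of the window `α` at time `s` -/
noncomputable def N3_cell {k : ℕ} (α : Xi k) (s : ℕ) (hs : s < h k) : E k :=
  if h1 : (α.2.2 : ℕ) + s < h k then (α.1, Sum.inl ⟨α.2.2 + s, h1⟩)
  else (α.2.1, Sum.inl ⟨α.2.2 + s - h k, by have := α.2.2.2; omega⟩)

theorem N3_X {b : ℕ → ℕ} {k : ℕ} {y : ℝ} {α α' : Xi k} (hy : XiAt b k y α α') (s : ℕ) (hs : s < h k) :
    (T b)^[s] y ∈ Set.Ico (0 : ℝ) 1 ∧ X b k ((T b)^[s] y) = N3_cell α s hs := by
  obtain ⟨e1, e2, e3⟩ := X_iter_typ hy s hs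
  refine ⟨e1, ?_⟩
  unfold N3_cell
  split
  · rename_i h1
    exact e2 h1
  · rename_i h1
    exact e3 (by omega)

theorem N3_X' {b : ℕ → ℕ} {k : ℕ} {y : ℝ} {α α' : Xi k} (hy : XiAt b k y α α') (s : ℕ) (hs : s < h k) :
    (T b)^[s + ell k] y ∈ Set.Ico (0 : ℝ) 1 ∧ X b k ((T b)^[s + ell k] y) = N3_cell α' s hs := by
  obtain ⟨e1, e2, e3⟩ := X_iter_typ' hy s hs
  refine ⟨e1, ?_⟩
  unfold N3_cell
  split
  · rename_i h1
    exact e2 h1
  · rename_i h1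
    exact e3 (by omega)

/-- level `m` functions of `y` on the two windows are functions of the window data (`m ≤ k`) -/
theorem name_of_xi {ι : Type} (b : ℕ → ℕ) (m k : ℕ) (hm : m ≤ k) (F : E m → ι) :
    ∃ Ψ : Xi k → ℕ → ι, ∀ (y : ℝ) (α α' : Xi k), XiAt b k y α α' → ∀ s, s < h k →
      F (X b m ((T b)^[s] y)) = Ψ α s ∧ F (X b m ((T b)^[s + ell k] y)) = Ψ α' s := by
  obtain ⟨e, rfl⟩ := Nat.exists_eq_add_of_le hm
  obtain ⟨e0⟩ := instNonemptyE m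
  refine ⟨fun α s => if hs : s < h (m + e) then F (down b m e (N3_cell α s hs)) else F e0, ?_⟩
  intro y α α' hy s hs
  obtain ⟨a1, a2⟩ := N3_X hy s hs
  obtain ⟨b1, b2⟩ := N3_X' hy s hs
  simp only [hs, dif_pos]
  rw [← a2, ← b2, down_X b m e a1, down_X b m e b1]
  exact ⟨rfl, rfl⟩

theorem N3_down0 (a : ℕ → ℕ) (k : ℕ) {x : ℝ} (hx : x ∈ Set.Ico (0 : ℝ) 1) :
    down0 a k (X a k x) = X a 0 x := by
  induction k with
  | zero => rfl
  | succ k ih =>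
    show down0 a k (down1 (a k) (X a (k + 1) x)) = _
    rw [down1_X a k hx, ih]

theorem N3_win (a : ℕ → ℕ) {k : ℕ} (α : Xi k) (s : ℕ) (hs : s < h k) :
    P0 (down0 a k (N3_cell α s hs)) = win a α.1 α.2.1 α.2.2 s := by
  unfold N3_cell win nm
  by_cases h1 : (α.2.2 : ℕ) + s < h k
  · rw [dif_pos h1, if_pos h1, dif_pos h1]
  · have h2 : (α.2.2 : ℕ) + s - h k < h k := by have := α.2.2.2; omega
    rw [dif_neg h1, if_neg h1, dif_pos h2]

/-- the names with respect to the partition `P0` -/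
theorem P0_of_xi (a : ℕ → ℕ) (k : ℕ) (x : ℝ) (α α' : Xi k) (hx : XiAt a k x α α') (s : ℕ) (hs : s < h k) :
    P0 (X a 0 ((T a)^[s] x)) = win a α.1 α.2.1 α.2.2 s ∧
      P0 (X a 0 ((T a)^[s + ell k] x)) = win a α'.1 α'.2.1 α'.2.2 s := by
  obtain ⟨a1, a2⟩ := N3_X hx s hs
  obtain ⟨b1, b2⟩ := N3_X' hx s hs
  rw [← N3_down0 a k a1, ← N3_down0 a k b1, a2, b2, N3_win, N3_win]
  exact ⟨rfl, rfl⟩

end KAut
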