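import Mathlib
import Pool.Agent.Lib.MP_33914b_an.IEDef

/-!
# MP_33914b_an, file N4  (ROW ka-N4)
Paper: /team-store/kaut_paper.md
-/
set_option autoImplicit false

open MeasureTheory

namespace KAut

/-- Markov inequality for the number of errors -/
theorem lam_err_le {ι : Type} (T : ℝ → ℝ) (hT : MeasurePreserving T lam lam) (B : Set ℝ) (hB : MeasurableSet B)
    (n t0 : ℕ) (hn : 0 < n) (δ : ℝ) (hδ : lam.real B ≤ δ) :
    lam {y | (n : ℝ) / 16 < Nat.card {s : Fin n // T^[s + t0] y ∈ B}} ≤ ENNReal.ofReal (16 * δ) := by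
  classical
  have hcard : ∀ y : ℝ, (Nat.card {s : Fin n // T^[s + t0] y ∈ B} : ENNReal)
      = ∑ s : Fin n, (T^[(s : ℕ) + t0] ⁻¹' B).indicator (fun _ => (1 : ENNReal)) y := by
    intro y
    rw [Nat.card_eq_fintype_card, Fintype.card_subtype]
    simp [Set.indicator_apply, Finset.sum_boole]
  have hpre : ∀ s : Fin n, MeasurableSet (T^[(s : ℕ) + t0] ⁻¹' B) := fun s =>
    (hT.iterate _).measurable hB
  have hint : ∫⁻ y, (Nat.card {s : Fin n // T^[s + t0] y ∈ B} : ENNReal) ∂lam = n * lam B := by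
    simp_rw [hcard]
    rw [lintegral_finset_sum _ (fun s _ => (measurable_const.indicator (hpre s)))]
    have : ∀ s : Fin n, ∫⁻ a, (T^[(s : ℕ) + t0] ⁻¹' B).indicator (fun _ => (1 : ENNReal)) a ∂lam = lam B := by
      intro s
      rw [lintegral_indicator_const (hpre s), one_mul]
      exact (hT.iterate _).measure_preimage hB.nullMeasurableSet
    simp [this]
  have hmeas : Measurable (fun y : ℝ => (Nat.card {s : Fin n // T^[s + t0] y ∈ B} : ENNReal)) := by
    simp_rw [hcard]
    exact Finset.measurable_sum _ (fun s _ => (measurable_const.indicator (hpre s)))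
  have hsub : {y | (n : ℝ) / 16 < Nat.card {s : Fin n // T^[s + t0] y ∈ B}}
      ⊆ {y | ENNReal.ofReal ((n : ℝ) / 16) ≤ (Nat.card {s : Fin n // T^[s + t0] y ∈ B} : ENNReal)} := by
    intro y hy
    simp only [Set.mem_setOf_eq] at hy ⊢
    calc ENNReal.ofReal ((n : ℝ) / 16) ≤ ENNReal.ofReal (Nat.card {s : Fin n // T^[s + t0] y ∈ B} : ℝ) :=
          ENNReal.ofReal_le_ofReal hy.le
      _ = _ := ENNReal.ofReal_natCast _
  refine (measure_mono hsub).trans ?_
  have hpos : (0 : ℝ) < (n : ℝ) / 16 := by positivity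
  refine (meas_ge_le_lintegral_div hmeas.aemeasurable (by simp [hn]) ENNReal.ofReal_ne_top).trans ?_
  rw [hint]
  have hB' : lam B = ENNReal.ofReal (lam.real B) := by
    rw [Measure.real, ENNReal.ofReal_toReal (measure_ne_top _ _)]
  rw [hB', ← ENNReal.ofReal_natCast n, ← ENNReal.ofReal_mul (Nat.cast_nonneg n),
    ← ENNReal.ofReal_div_of_pos hpos]
  apply ENNReal.ofReal_le_ofReal
  rw [div_le_iff₀ hpos]
  have hn' : (0 : ℝ) < n := by exact_mod_cast hn
  nlinarith

end KAut
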