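import Mathlib
import Pool.Agent.Lib.MP_33914b_an.SepDef

/-!
# MP_33914b_an, file S1  (ROW ka-S1)
Paper: /team-store/kaut_paper.md

PROOF / HINTS:
The cells cell(i,i') are disjoint; z in [alpha,beta) is in some cell iff z is in a sub-block of c (i.e. ps c i <= z < ps c i + h for some i<U N) and z-t in a sub-block of c'. So sum of cards = (beta-alpha) - #{z : z not in a sub-block of c, or z-t not in a sub-block of c'}.
Number of z in an interval of length len inside [0,H') outside the sub-blocks of c: <= G + S (len/l + 2): outside the superblocks [g + u l, g+(u+1) l), u<U: G positions in all; inside superblock u: S positions (its length l = S + N h contains N disjoint sub-blocks);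
the number of superblocks meeting an interval of length len is <= len/l + 2.
-/
set_option autoImplicit false

namespace KAut

section abstract_step
variable {A C C' : Type} [DecidableEq A]
namespace StepData
variable (D : StepData A C C')

omit [DecidableEq A] in
theorem S1_l_pos : 0 < D.l := by
  unfold l
  have := Nat.mul_pos D.hN D.hh
  omega

/-- the offset of superblock `u`, cut off at `S` -/
def S1_O (c : C') (u : ℤ) : ℕ := min (D.o c u.toNat) D.S

/-- `z` is in a sub-block of `c` -/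
def S1_cov (c : C') (z : ℤ) : Prop := ∃ i, i < D.U * D.N ∧ (D.ps c i : ℤ) ≤ z ∧ z < D.ps c i + D.h

omit [DecidableEq A] in
theorem S1_cover (c : C') (z : ℤ) (h1 : (D.g c : ℤ) ≤ z) (h2 : z < D.g c + D.U * D.l)
    (h3 : (D.S1_O c ((z - D.g c) / D.l) : ℤ) ≤ (z - D.g c) % D.l)
    (h4 : (z - D.g c) % D.l < D.S1_O c ((z - D.g c) / D.l) + D.N * D.h) : D.S1_cov c z := by
  have hl : (0 : ℤ) < D.l := by exact_mod_cast D.S1_l_pos
  have hh : (0 : ℤ) < D.h := by exact_mod_cast D.hh
  obtain ⟨y, hy⟩ : ∃ y : ℕ, (y : ℤ) = z - D.g c := ⟨(z - D.g c).toNat, Int.toNat_of_nonneg (by omega)⟩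
  rw [← hy] at h3 h4
  have hyU : y < D.U * D.l := by
    have : (y : ℤ) < D.U * D.l := by rw [hy]; omega
    exact_mod_cast this
  have huU : y / D.l < D.U := Nat.div_lt_of_lt_mul (by rw [mul_comm]; exact hyU)
  have ho := D.ho c (y / D.l) huU
  have hO : D.S1_O c ((y : ℤ) / D.l) = D.o c (y / D.l) := by
    unfold S1_O
    have e : (((y : ℤ) / (D.l : ℤ)).toNat) = y / D.l := by
      rw [← Int.natCast_div, Int.toNat_natCast]
    rw [e, min_eq_left ho.le]
  rw [hO] at h3 h4
  have h3' : D.o c (y / D.l) ≤ y % D.l := by exact_mod_cast h3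
  have h4' : y % D.l < D.o c (y / D.l) + D.N * D.h := by exact_mod_cast h4
  obtain ⟨r, hr⟩ : ∃ r, y % D.l = D.o c (y / D.l) + r := ⟨_, (Nat.add_sub_of_le h3').symm⟩
  have hrN : r < D.N * D.h := by omega
  have hj : r / D.h < D.N := Nat.div_lt_of_lt_mul (by rw [mul_comm]; exact hrN)
  have hi1 : (D.N * (y / D.l) + r / D.h) / D.N = y / D.l := by
    rw [Nat.mul_add_div D.hN, Nat.div_eq_of_lt hj, add_zero]
  have hi2 : (D.N * (y / D.l) + r / D.h) % D.N = r / D.h := by
    rw [Nat.mul_add_mod, Nat.mod_eq_of_lt hj]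
  have hps : D.ps c (D.N * (y / D.l) + r / D.h) + r % D.h = D.g c + y := by
    unfold ps
    rw [hi1, hi2]
    have e1 := Nat.div_add_mod y D.l
    have e2 := Nat.div_add_mod r D.h
    have e3 : y / D.l * D.l = D.l * (y / D.l) := mul_comm _ _
    have e4 : r / D.h * D.h = D.h * (r / D.h) := mul_comm _ _
    omega
  have hm : r % D.h < D.h := Nat.mod_lt _ D.hh
  refine ⟨D.N * (y / D.l) + r / D.h, ?_, ?_, ?_⟩
  · calc D.N * (y / D.l) + r / D.h < D.N * (y / D.l) + D.N := by omega
      _ = D.N * (y / D.l + 1) := by ring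
      _ ≤ D.N * D.U := Nat.mul_le_mul_left _ huU
      _ = D.U * D.N := mul_comm _ _
  · have : z = (D.g c : ℤ) + y := by omega
    rw [this]
    exact_mod_cast (by omega : D.ps c (D.N * (y / D.l) + r / D.h) ≤ D.g c + y)
  · have : z = (D.g c : ℤ) + y := by omega
    rw [this]
    exact_mod_cast (by omega : D.g c + y < D.ps c (D.N * (y / D.l) + r / D.h) + D.h)

omit [DecidableEq A] in
open scoped Classical in
theorem S1_bad (c : C') (α β : ℤ) (h0 : 0 ≤ α) (hab : α ≤ β) (hb : β ≤ D.H') :
    (((Finset.Ico α β).filter (fun z => ¬ D.S1_cov c z)).card : ℝ) ≤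
      D.G + D.S * (((β - α : ℤ) : ℝ) / D.l + 2) := by
  have hl : (0 : ℤ) < D.l := by exact_mod_cast D.S1_l_pos
  have hlR : (0 : ℝ) < D.l := by exact_mod_cast D.S1_l_pos
  have hgS := D.hg c
  have hSG := D.hSG
  have hlS : D.l = D.S + D.N * D.h := rfl
  have hH : (D.H' : ℤ) = D.U * D.l + D.G := by
    have : D.H' = D.U * D.l + D.G := rfl
    rw [this]
    push_cast
    ring
  have hsub : (Finset.Ico α β).filter (fun z => ¬ D.S1_cov c z) ⊆
      (Finset.Ico (0 : ℤ) (D.g c) ∪ Finset.Ico ((D.g c : ℤ) + D.U * D.l) D.H') ∪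
        (Finset.Icc ((α - D.g c) / D.l) ((β - D.g c) / D.l)).biUnion (fun u =>
          Finset.Ico ((D.g c : ℤ) + u * D.l) (D.g c + u * D.l + D.S1_O c u) ∪
          Finset.Ico ((D.g c : ℤ) + u * D.l + D.S1_O c u + D.N * D.h) (D.g c + u * D.l + D.l)) := by
    intro z hz
    rw [Finset.mem_filter, Finset.mem_Ico] at hz
    obtain ⟨⟨hz1, hz2⟩, hz3⟩ := hz
    by_cases c1 : z < D.g c
    · apply Finset.mem_union_left
      apply Finset.mem_union_left
      rw [Finset.mem_Ico]
      omega
    by_cases c2 : (D.g c : ℤ) + D.U * D.l ≤ z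
    · apply Finset.mem_union_left
      apply Finset.mem_union_right
      rw [Finset.mem_Ico]
      omega
    apply Finset.mem_union_right
    rw [Finset.mem_biUnion]
    have e1 := Int.emod_add_mul_ediv (z - D.g c) D.l
    have e2 := Int.emod_lt_of_pos (z - D.g c) hl
    have e3 := Int.emod_nonneg (z - D.g c) hl.ne'
    have e4 : (z - D.g c) / D.l * D.l = D.l * ((z - D.g c) / D.l) := mul_comm _ _
    refine ⟨(z - D.g c) / D.l, ?_, ?_⟩
    · rw [Finset.mem_Icc]
      exact ⟨Int.ediv_le_ediv hl (by omega), Int.ediv_le_ediv hl (by omega)⟩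
    · by_cases c3 : (z - D.g c) % D.l < D.S1_O c ((z - D.g c) / D.l)
      · apply Finset.mem_union_left
        rw [Finset.mem_Ico]
        omega
      · apply Finset.mem_union_right
        rw [Finset.mem_Ico]
        by_contra c4
        apply hz3
        refine D.S1_cover c z (by omega) (by omega) (by omega) ?_
        by_contra c5
        apply c4
        omega
  have hcard := Finset.card_le_card hsub
  have hc1 : ((Finset.Ico (0 : ℤ) (D.g c)) ∪ (Finset.Ico ((D.g c : ℤ) + D.U * D.l) D.H')).card ≤ D.G := by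
    refine (Finset.card_union_le _ _).trans ?_
    rw [Int.card_Ico, Int.card_Ico]
    omega
  have hc2 : ((Finset.Icc ((α - D.g c) / D.l) ((β - D.g c) / D.l)).biUnion (fun u =>
          Finset.Ico ((D.g c : ℤ) + u * D.l) (D.g c + u * D.l + D.S1_O c u) ∪
          Finset.Ico ((D.g c : ℤ) + u * D.l + D.S1_O c u + D.N * D.h) (D.g c + u * D.l + D.l))).card ≤
      (Finset.Icc ((α - D.g c) / D.l) ((β - D.g c) / D.l)).card * D.S := by
    refine Finset.card_biUnion_le_card_mul _ _ _ fun u _ => ?_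
    refine (Finset.card_union_le _ _).trans ?_
    rw [Int.card_Ico, Int.card_Ico]
    have hO : D.S1_O c u ≤ D.S := min_le_right _ _
    have hlZ : (D.l : ℤ) = D.S + D.N * D.h := by rw [hlS]; push_cast; ring
    omega
  have hc3 : (((Finset.Icc ((α - D.g c) / (D.l : ℤ)) ((β - D.g c) / D.l)).card : ℕ) : ℝ) ≤
      ((β - α : ℤ) : ℝ) / D.l + 2 := by
    rw [Int.card_Icc]
    have f1 : (α - D.g c) / (D.l : ℤ) ≤ (β - D.g c) / D.l := Int.ediv_le_ediv hl (by omega)
    have f2 : (((((β - D.g c) / (D.l : ℤ) + 1 - (α - D.g c) / D.l).toNat : ℕ) : ℤ)) =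
        (β - D.g c) / (D.l : ℤ) + 1 - (α - D.g c) / D.l := Int.toNat_of_nonneg (by omega)
    have f3 : (((((β - D.g c) / (D.l : ℤ) + 1 - (α - D.g c) / D.l).toNat : ℕ) : ℝ)) =
        (((β - D.g c) / (D.l : ℤ) + 1 - (α - D.g c) / D.l : ℤ) : ℝ) := by
      rw [← f2]
      push_cast
      rfl
    rw [f3]
    have g1 : (((β - D.g c) / (D.l : ℤ) : ℤ) : ℝ) * D.l ≤ ((β - D.g c : ℤ) : ℝ) := by
      exact_mod_cast Int.ediv_mul_le (β - D.g c) hl.ne'
    have g2 : ((α - D.g c : ℤ) : ℝ) ≤ ((((α - D.g c) / (D.l : ℤ) : ℤ) : ℝ) + 1) * D.l := by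
      have := Int.lt_ediv_add_one_mul_self (α - D.g c) hl
      exact_mod_cast this.le
    rw [← sub_le_iff_le_add, le_div_iff₀ hlR]
    push_cast at g1 g2 ⊢
    nlinarith
  have hS0 : (0 : ℝ) ≤ D.S := Nat.cast_nonneg _
  calc (((Finset.Ico α β).filter (fun z => ¬ D.S1_cov c z)).card : ℝ)
      ≤ ((D.G + (Finset.Icc ((α - D.g c) / (D.l : ℤ)) ((β - D.g c) / D.l)).card * D.S : ℕ) : ℝ) := by
        exact_mod_cast hcard.trans ((Finset.card_union_le _ _).trans (add_le_add hc1 hc2))
    _ = D.G + D.S * (((Finset.Icc ((α - D.g c) / (D.l : ℤ)) ((β - D.g c) / D.l)).card : ℕ) : ℝ) := by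
        push_cast
        ring
    _ ≤ _ := by
        have := mul_le_mul_of_nonneg_left hc3 hS0
        linarith

/-- (S1) the cells cover all but the spacers -/
theorem sum_cell_ge (c c' : C') (t α β : ℤ) (h1 : 0 ≤ α) (h2 : t ≤ α) (h3 : α ≤ β) (h4 : β ≤ D.H')
    (h5 : β ≤ t + D.H') :
    ((β - α : ℤ) : ℝ) - 2 * (D.G + D.S * (((β - α : ℤ) : ℝ) / D.l + 2)) ≤
      ∑ x ∈ D.pairs c c' t α β, ((D.cell c c' t α β x.1 x.2).card : ℝ) := by
  classical
  have hA := D.S1_bad c α β h1 h3 h4
  have hB := D.S1_bad c' (α - t) (β - t) (by omega) (by omega) (by omega)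
  have hBt : (β - t - (α - t) : ℤ) = β - α := by ring
  rw [hBt] at hB
  have hB' : (((Finset.Ico α β).filter (fun z => ¬ D.S1_cov c' (z - t))).card : ℝ) ≤
      D.G + D.S * (((β - α : ℤ) : ℝ) / D.l + 2) := by
    refine le_trans ?_ hB
    have : ((Finset.Ico α β).filter (fun z => ¬ D.S1_cov c' (z - t))).card ≤
        ((Finset.Ico (α - t) (β - t)).filter (fun z => ¬ D.S1_cov c' z)).card := by
      refine Finset.card_le_card_of_injOn (fun z => z - t) ?_ ?_
      · intro z hz
        rw [Finset.mem_coe, Finset.mem_filter, Finset.mem_Ico] at hz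
        show z - t ∈ _
        rw [Finset.mem_coe, Finset.mem_filter, Finset.mem_Ico]
        exact ⟨⟨by omega, by omega⟩, hz.2⟩
      · intro x _ y _ hxy
        have : x - t = y - t := hxy
        omega
    exact_mod_cast this
  have hsub : Finset.Ico α β ⊆
      ((D.pairs c c' t α β).biUnion (fun x => D.cell c c' t α β x.1 x.2)) ∪
        ((Finset.Ico α β).filter (fun z => ¬ D.S1_cov c z) ∪
          (Finset.Ico α β).filter (fun z => ¬ D.S1_cov c' (z - t))) := by
    intro z hz
    have hz' := Finset.mem_Ico.1 hz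
    by_cases c1 : D.S1_cov c z
    · by_cases c2 : D.S1_cov c' (z - t)
      · obtain ⟨i, hi, hi1, hi2⟩ := c1
        obtain ⟨i', hi', hi1', hi2'⟩ := c2
        have hm : z ∈ D.cell c c' t α β i i' := by
          unfold cell
          rw [Finset.mem_Ico, max_le_iff, max_le_iff, lt_min_iff, lt_min_iff]
          refine ⟨⟨hz'.1, hi1, by omega⟩, hz'.2, hi2, by omega⟩
        apply Finset.mem_union_left
        rw [Finset.mem_biUnion]
        refine ⟨(i, i'), ?_, hm⟩
        unfold pairs
        rw [Finset.mem_filter, Finset.mem_product, Finset.mem_range, Finset.mem_range]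
        exact ⟨⟨hi, hi'⟩, z, hm⟩
      · apply Finset.mem_union_right
        apply Finset.mem_union_right
        exact Finset.mem_filter.2 ⟨hz, c2⟩
    · apply Finset.mem_union_right
      apply Finset.mem_union_left
      exact Finset.mem_filter.2 ⟨hz, c1⟩
  have hcard := Finset.card_le_card hsub
  rw [Int.card_Ico] at hcard
  have h5 : (((β - α).toNat : ℕ) : ℝ) = ((β - α : ℤ) : ℝ) := by
    have : (((β - α).toNat : ℕ) : ℤ) = β - α := Int.toNat_of_nonneg (by omega)
    exact_mod_cast congrArg (fun x : ℤ => (x : ℝ)) this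
  have h6 : ((β - α : ℤ) : ℝ) ≤ ∑ x ∈ D.pairs c c' t α β, ((D.cell c c' t α β x.1 x.2).card : ℝ) +
      ((((Finset.Ico α β).filter (fun z => ¬ D.S1_cov c z)).card : ℝ) +
        (((Finset.Ico α β).filter (fun z => ¬ D.S1_cov c' (z - t))).card : ℝ)) := by
    rw [← h5]
    have h7 := hcard.trans ((Finset.card_union_le _ _).trans
      (add_le_add Finset.card_biUnion_le (Finset.card_union_le _ _)))
    exact_mod_cast h7
  linarith

end StepData
end abstract_step

end KAut
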