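import Mathlib
import Pool.Agent.Lib.MP_33914b_an.SepDef

/-!
# MP_33914b_an, file S2  (ROW ka-S2)
Paper: /team-store/kaut_paper.md
-/
set_option autoImplicit false

namespace KAut

/-- a finite set of naturals on which a function with gaps `≥ h` takes values in an open interval -/
theorem S2_gap_card {J : Finset ℕ} {f : ℕ → ℤ} {h a b : ℤ} (h0 : 0 ≤ h)
    (hf : ∀ x ∈ J, ∀ y ∈ J, x ≤ y → ((y : ℤ) - x) * h ≤ f y - f x)
    (hb : ∀ x ∈ J, a < f x ∧ f x < b) (hJ : J.Nonempty) : ((J.card : ℤ) - 1) * h < b - a := by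
  have hsub : J ⊆ Finset.Icc (J.min' hJ) (J.max' hJ) := fun x hx =>
    Finset.mem_Icc.2 ⟨J.min'_le x hx, J.le_max' x hx⟩
  have hle : J.min' hJ ≤ J.max' hJ := J.min'_le _ (J.max'_mem hJ)
  have hc := Finset.card_le_card hsub
  rw [Nat.card_Icc] at hc
  have hc' : (J.card : ℤ) - 1 ≤ (J.max' hJ : ℤ) - (J.min' hJ : ℤ) := by omega
  have h1 := hf _ (J.min'_mem hJ) _ (J.max'_mem hJ) hle
  have h2 := hb _ (J.min'_mem hJ)
  have h3 := hb _ (J.max'_mem hJ)
  have h4 : ((J.card : ℤ) - 1) * h ≤ ((J.max' hJ : ℤ) - (J.min' hJ : ℤ)) * h :=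
    mul_le_mul_of_nonneg_right hc' h0
  linarith [h2.1, h3.2]

section abstract_step
variable {A C C' : Type} [DecidableEq A]
namespace StepData
variable (D : StepData A C C')

theorem S2_gap (c : C') {i : ℕ} (hi : i + 1 < D.U * D.N) : D.ps c i + D.h ≤ D.ps c (i + 1) := by
  have hN := D.hN
  have hmod : i % D.N < D.N := Nat.mod_lt _ hN
  have hdm := Nat.div_add_mod i D.N
  unfold ps
  rcases lt_or_ge (i % D.N + 1) D.N with h1 | h1
  · obtain ⟨e1, e2⟩ := (Nat.div_mod_unique (a := i + 1) (b := D.N) (d := i / D.N)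
      (c := i % D.N + 1) hN).2 ⟨by omega, h1⟩
    rw [e1, e2]
    ring_nf
    omega
  · have h2 : i % D.N + 1 = D.N := by omega
    obtain ⟨e1, e2⟩ := (Nat.div_mod_unique (a := i + 1) (b := D.N) (d := i / D.N + 1)
      (c := 0) hN).2 ⟨by rw [Nat.mul_add]; omega, hN⟩
    rw [e1, e2]
    have hu : i / D.N < D.U := Nat.div_lt_of_lt_mul (by rw [Nat.mul_comm]; omega)
    have ho := D.ho c _ hu
    have h3 : (i % D.N) * D.h + D.h = D.N * D.h := by
      rw [← Nat.succ_mul, Nat.succ_eq_add_one, h2]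
    have h4 : (i / D.N + 1) * D.l = (i / D.N) * D.l + (D.S + D.N * D.h) := by
      rw [Nat.succ_mul]; rfl
    rw [h4]
    omega

theorem S2_gap' (c : C') {i i' : ℕ} (h : i ≤ i') (hi : i' < D.U * D.N) :
    ((i' : ℤ) - i) * D.h ≤ (D.ps c i' : ℤ) - D.ps c i := by
  induction i', h using Nat.le_induction with
  | base => simp
  | succ k hk ih =>
    have h1 := ih (by omega)
    have h2 := D.S2_gap c hi
    zify at h2
    push_cast
    linarith

theorem S2_mem {c c' : C'} {t α β : ℤ} {x : ℕ × ℕ} (hx : x ∈ D.pairs c c' t α β) :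
    x.1 < D.U * D.N ∧ x.2 < D.U * D.N ∧ α < D.ps c x.1 + D.h ∧ (D.ps c x.1 : ℤ) < β ∧
      (D.ps c x.1 : ℤ) < t + D.ps c' x.2 + D.h ∧ t + (D.ps c' x.2 : ℤ) < D.ps c x.1 + D.h := by
  rw [pairs, Finset.mem_filter, Finset.mem_product, Finset.mem_range, Finset.mem_range] at hx
  obtain ⟨⟨h1, h2⟩, h3⟩ := hx
  rw [cell, Finset.nonempty_Ico, max_lt_iff, max_lt_iff, lt_min_iff, lt_min_iff, lt_min_iff,
    lt_min_iff, lt_min_iff, lt_min_iff] at h3
  obtain ⟨⟨-, h4, -⟩, ⟨h5, -, h6⟩, ⟨-, h7, -⟩⟩ := h3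
  exact ⟨h1, h2, h4, h5, h6, h7⟩

/-- (S2) number of pairs -/
theorem card_pairs_le (c c' : C') (t α β : ℤ) (h3 : α ≤ β) :
    ((D.pairs c c' t α β).card : ℝ) ≤ 2 * (((β - α : ℤ) : ℝ) / D.h + 2) := by
  have hh : (0 : ℤ) < D.h := by exact_mod_cast D.hh
  have hhR : (0 : ℝ) < D.h := by exact_mod_cast D.hh
  -- fibres over the first coordinate
  have hfib : ∀ i ∈ (D.pairs c c' t α β).image Prod.fst,
      ((D.pairs c c' t α β).filter (fun x => x.1 = i)).card ≤ 2 := by
    intro i _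
    set J := ((D.pairs c c' t α β).filter (fun x => x.1 = i)).image Prod.snd with hJ
    have hcard : ((D.pairs c c' t α β).filter (fun x => x.1 = i)).card = J.card := by
      rw [hJ, Finset.card_image_of_injOn]
      rintro ⟨x1, x2⟩ hx ⟨y1, y2⟩ hy hxy
      have hx' := (Finset.mem_filter.1 (Finset.mem_coe.1 hx)).2
      have hy' := (Finset.mem_filter.1 (Finset.mem_coe.1 hy)).2
      exact Prod.ext (hx'.trans hy'.symm) hxy
    rw [hcard]
    rcases J.eq_empty_or_nonempty with h0 | h0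
    · rw [h0]; simp
    · have hmem : ∀ x ∈ J, (i, x) ∈ D.pairs c c' t α β := by
        intro x hx
        rw [hJ, Finset.mem_image] at hx
        obtain ⟨⟨y1, y2⟩, hy, rfl⟩ := hx
        obtain ⟨hy1, hy2⟩ := Finset.mem_filter.1 hy
        have : y1 = i := hy2
        rw [← this]; exact hy1
      have hlt := S2_gap_card (J := J) (f := fun x => (D.ps c' x : ℤ)) (h := D.h)
        (a := D.ps c i - t - D.h) (b := D.ps c i - t + D.h) hh.le
        (fun x _ y hy hxy => D.S2_gap' c' hxy (D.S2_mem (hmem y hy)).2.1)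
        (fun x hx => by
          have := D.S2_mem (hmem x hx)
          simp only at this
          constructor <;> linarith [this.2.2.2.2.1, this.2.2.2.2.2]) h0
      have h5 : ((J.card : ℤ) - 1) < 2 := by
        by_contra hcon
        push Not at hcon
        have := mul_le_mul_of_nonneg_right hcon hh.le
        linarith
      omega
  have h1 : (D.pairs c c' t α β).card ≤ 2 * ((D.pairs c c' t α β).image Prod.fst).card :=
    Finset.card_le_mul_card_image _ 2 hfib
  have h2 : ((((D.pairs c c' t α β).image Prod.fst).card : ℕ) : ℝ) ≤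
      ((β - α : ℤ) : ℝ) / D.h + 2 := by
    set J := (D.pairs c c' t α β).image Prod.fst with hJ
    have hnn : (0 : ℝ) ≤ ((β - α : ℤ) : ℝ) / D.h :=
      div_nonneg (by exact_mod_cast sub_nonneg.2 h3) hhR.le
    rcases J.eq_empty_or_nonempty with h0 | h0
    · rw [h0, Finset.card_empty, Nat.cast_zero]; linarith
    · have hmem : ∀ x ∈ J, x < D.U * D.N ∧ α < D.ps c x + D.h ∧ (D.ps c x : ℤ) < β := by
        intro x hx
        rw [hJ, Finset.mem_image] at hx
        obtain ⟨y, hy, rfl⟩ := hx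
        have := D.S2_mem hy
        exact ⟨this.1, this.2.2.1, this.2.2.2.1⟩
      have hlt := S2_gap_card (J := J) (f := fun x => (D.ps c x : ℤ)) (h := D.h)
        (a := α - D.h) (b := β) hh.le
        (fun x _ y hy hxy => D.S2_gap' c hxy (hmem y hy).1)
        (fun x hx => ⟨by linarith [(hmem x hx).2.1], (hmem x hx).2.2⟩) h0
      have hltR : ((J.card : ℝ) - 1) * D.h < ((β - α : ℤ) : ℝ) + D.h := by
        have : (((J.card : ℤ) - 1) * D.h : ℤ) < (β - α) + D.h := by linarith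
        exact_mod_cast this
      have h6 : ((J.card : ℝ) - 1) < ((β - α : ℤ) : ℝ) / D.h + 1 := by
        rw [← sub_lt_iff_lt_add, lt_div_iff₀ hhR]
        linarith
      linarith
  calc ((D.pairs c c' t α β).card : ℝ)
      ≤ ((2 * ((D.pairs c c' t α β).image Prod.fst).card : ℕ) : ℝ) := by exact_mod_cast h1
    _ = 2 * ((((D.pairs c c' t α β).image Prod.fst).card : ℕ) : ℝ) := by push_cast; ring
    _ ≤ 2 * (((β - α : ℤ) : ℝ) / D.h + 2) := mul_le_mul_of_nonneg_left h2 (by norm_num)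

end StepData
end abstract_step

end KAut
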