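import Mathlib
import Pool.Agent.Lib.MP_33914b_an.WordDef

/-!
# MP_33914b_an, file W1  (ROW ka-W1, helper44)
Paper: /team-store/kaut_paper.md

PROOF / HINTS:
W_roots: in F_q = ZMod q consider P(X) = X^8 + sum_{j<7} c_j(A) X^j - ((X+t)^8 + sum_{j<7} c_j(B)(X+t)^j), c_j(A) = (A/q^j)%q. It has degree <= 7 and is
nonzero: the coefficient of X^7 is -8 t, nonzero if q does not divide t (q odd prime); if q | t then P = sum (c_j(A)-c_j(B)) X^j and A != B, both < q^7, so some
digit differs (Nat.digits or: A = sum_{j<7} c_j(A) q^j). So at most 7 roots (Polynomial.card_roots'), and b |-> (b : ZMod q) is injective on range q. Note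
W q (q*A+b) for b<q has m%q = b, m/q = A; W q (q*B+(b+t)%q) similarly.
W1: wlog nothing. For j<R put A = (m1+j)/q. j |-> A takes at most R/q+2 values; for fixed A the j correspond to b = (m1+j)%q. m2+j = q*((m2+j)/q) + (m2+j)%q and
(m2+j)%q = (b+t)%q with t = (m2 + (q - m1 % q)) % q or similar (t depends only on m1,m2); (m2+j)/q is one of two consecutive values B, B+1 (depends on A):
for each of the two values W_roots gives <= 7 agreements. The hypothesis A != B or t%q != 0 holds, for if A = (m2+j)/q and t%q=0 then m1+j = m2+j. All A, B are < q^7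
because m1+j, m2+j < q^8. Total <= 14 (R/q+2). (For instance: Finset.card_le_mul_card_image on the map j |-> ((m1+j)/q, (m2+j)/q), whose image has at most 2(R/q+2)
elements [it is monotone in both coordinates: at most (R/q+1)+(R/q+1)+1 values], fibers of size <= 7.)
-/
set_option autoImplicit false

namespace KAut

theorem W1_cast {q : ℕ} (hq : 0 < q) {A b : ℕ} (hb : b < q) :
    ((W q (q * A + b) : ℕ) : ZMod q) = ((b : ℕ) : ZMod q) ^ 8 +
      ∑ j ∈ Finset.range 7, ((A / q ^ j % q : ℕ) : ZMod q) * ((b : ℕ) : ZMod q) ^ j := by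
  have h1 : (q * A + b) % q = b := by
    rw [Nat.mul_add_mod]; exact Nat.mod_eq_of_lt hb
  have h2 : (q * A + b) / q = A := by
    rw [Nat.mul_add_div hq]; rw [Nat.div_eq_of_lt hb]; rfl
  unfold W
  rw [h1, h2, ZMod.natCast_mod]
  push_cast
  rfl

/-- digits below `q ^ k` determine the number -/
theorem W1_digits {q : ℕ} (hq : 0 < q) : ∀ (k : ℕ) (A B : ℕ), A < q ^ k → B < q ^ k →
    (∀ j < k, A / q ^ j % q = B / q ^ j % q) → A = B := by
  intro k
  induction k with
  | zero => intro A B hA hB _; simp at hA hB; omega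
  | succ k ih =>
    intro A B hA hB h
    have h0 := h 0 (Nat.succ_pos k)
    simp only [pow_zero, Nat.div_one] at h0
    have hA' : A / q < q ^ k := by
      rw [Nat.div_lt_iff_lt_mul hq]; rw [pow_succ] at hA; exact hA
    have hB' : B / q < q ^ k := by
      rw [Nat.div_lt_iff_lt_mul hq]; rw [pow_succ] at hB; exact hB
    have h1 := ih (A / q) (B / q) hA' hB' (by
      intro j hj
      have := h (j + 1) (Nat.succ_lt_succ hj)
      rw [Nat.div_div_eq_div_mul, Nat.div_div_eq_div_mul, ← pow_succ']
      exact this)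
    rw [← Nat.div_add_mod A q, ← Nat.div_add_mod B q, h0, h1]

open Polynomial in
theorem W1_poly {F : Type*} [Field F] (h8 : (8 : F) ≠ 0) (a b : ℕ → F) (t : F)
    (hne : (∃ j < 7, a j ≠ b j) ∨ t ≠ 0) :
    ∃ P : F[X], P ≠ 0 ∧ P.natDegree ≤ 7 ∧ ∀ x : F, P.eval x =
      (x ^ 8 + ∑ j ∈ Finset.range 7, a j * x ^ j) -
      ((x + t) ^ 8 + ∑ j ∈ Finset.range 7, b j * (x + t) ^ j) := by
  refine ⟨(∑ j ∈ Finset.range 7, C (a j) * X ^ j) - (∑ j ∈ Finset.range 7, C (b j) * (X + C t) ^ j)
    - (C (8 * t) * X ^ 7 + C (28 * t ^ 2) * X ^ 6 + C (56 * t ^ 3) * X ^ 5 + C (70 * t ^ 4) * X ^ 4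
    + C (56 * t ^ 5) * X ^ 3 + C (28 * t ^ 6) * X ^ 2 + C (8 * t ^ 7) * X + C (t ^ 8)), ?_, ?_, ?_⟩
  · intro h0
    by_cases ht : t = 0
    · rcases hne with ⟨j, hj, hab⟩ | h
      · subst ht
        have h1 : (∑ j ∈ Finset.range 7, C (a j) * X ^ j) - (∑ j ∈ Finset.range 7, C (b j) * X ^ j)
          = (0 : F[X]) := by
          simpa using h0
        apply hab
        have h2 := congrArg (fun p => p.coeff j) h1
        simp only [coeff_sub, finsetSum_coeff, coeff_C_mul, coeff_X_pow, coeff_zero] at h2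
        simp only [mul_ite, mul_one, mul_zero] at h2
        rw [Finset.sum_ite_eq, Finset.sum_ite_eq] at h2
        simp only [Finset.mem_range, hj, if_true] at h2
        exact sub_eq_zero.mp h2
      · exact h ht
    · have h2 := congrArg (fun p => p.coeff 7) h0
      have hA : (∑ j ∈ Finset.range 7, C (a j) * X ^ j : F[X]).coeff 7 = 0 := by
        rw [finsetSum_coeff]
        apply Finset.sum_eq_zero
        intro j hj
        rw [coeff_C_mul, coeff_X_pow]
        have := Finset.mem_range.mp hj
        rw [if_neg (by omega), mul_zero]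
      have hB : (∑ j ∈ Finset.range 7, C (b j) * (X + C t) ^ j : F[X]).coeff 7 = 0 := by
        rw [finsetSum_coeff]
        apply Finset.sum_eq_zero
        intro j hj
        rw [coeff_C_mul, coeff_X_add_C_pow]
        have := Finset.mem_range.mp hj
        rw [Nat.choose_eq_zero_of_lt this]; simp
      simp only [coeff_sub, coeff_add, hA, hB, coeff_zero, coeff_C_mul, coeff_X_pow, coeff_X,
        coeff_C] at h2
      norm_num at h2
      rcases h2 with h2 | h2
      · exact h8 h2
      · exact ht h2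
  · have hA : (∑ j ∈ Finset.range 7, C (a j) * X ^ j : F[X]).natDegree ≤ 7 := by
      apply natDegree_sum_le_of_forall_le
      intro j hj
      have := Finset.mem_range.mp hj
      exact (natDegree_C_mul_X_pow_le _ _).trans (by omega)
    have hB : (∑ j ∈ Finset.range 7, C (b j) * (X + C t) ^ j : F[X]).natDegree ≤ 7 := by
      apply natDegree_sum_le_of_forall_le
      intro j hj
      have := Finset.mem_range.mp hj
      refine (natDegree_C_mul_le _ _).trans ?_
      refine natDegree_pow_le.trans ?_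
      rw [natDegree_X_add_C]; omega
    have hC : (C (8 * t) * X ^ 7 + C (28 * t ^ 2) * X ^ 6 + C (56 * t ^ 3) * X ^ 5 + C (70 * t ^ 4) * X ^ 4
    + C (56 * t ^ 5) * X ^ 3 + C (28 * t ^ 6) * X ^ 2 + C (8 * t ^ 7) * X + C (t ^ 8) : F[X]).natDegree ≤ 7 := by
      compute_degree
    exact (natDegree_sub_le_of_le (natDegree_sub_le_of_le hA hB) hC).trans (by simp)
  · intro x
    simp only [eval_sub, eval_add, eval_mul, eval_C, eval_pow, eval_X, eval_finsetSum]
    ring

/-- the `≤ 7` roots lemma: for fixed `A ≠ B` or `t % q ≠ 0`, the values of the polynomial of `A` at `b` and of the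
polynomial of `B` at `(b + t) % q` agree for at most 7 values `b < q`. -/
theorem W_roots {q : ℕ} (hq : q.Prime) (h2 : 2 < q) {A B t : ℕ} (hA : A < q ^ 7) (hB : B < q ^ 7)
    (hne : A ≠ B ∨ t % q ≠ 0) :
    ((Finset.range q).filter (fun b => W q (q * A + b) = W q (q * B + (b + t) % q))).card ≤ 7 := by
  have : Fact q.Prime := ⟨hq⟩
  have hq0 : 0 < q := hq.pos
  have h8 : (8 : ZMod q) ≠ 0 := by
    intro h
    have h' : ((8 : ℕ) : ZMod q) = 0 := by exact_mod_cast h
    rw [ZMod.natCast_eq_zero_iff] at h'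
    have : q ∣ 2 := hq.dvd_of_dvd_pow (show q ∣ 2 ^ 3 by norm_num; exact h')
    have := Nat.le_of_dvd (by norm_num) this
    omega
  obtain ⟨P, hP0, hPd, hPe⟩ := W1_poly (F := ZMod q) h8 (fun j => ((A / q ^ j % q : ℕ) : ZMod q))
    (fun j => ((B / q ^ j % q : ℕ) : ZMod q)) ((t : ℕ) : ZMod q) (by
      by_cases ht : t % q = 0
      · left
        have hAB : A ≠ B := by
          rcases hne with h | h
          · exact h
          · exact absurd ht h
        by_contra hcon
        push Not at hcon
        apply hAB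
        apply W1_digits hq0 7 A B hA hB
        intro j hj
        have := hcon j hj
        rw [ZMod.natCast_eq_natCast_iff'] at this
        simpa [Nat.mod_mod] using this
      · right
        rw [Ne, ZMod.natCast_eq_zero_iff]
        intro h
        exact ht (Nat.mod_eq_zero_of_dvd h))
  have hmap : ∀ b ∈ (Finset.range q).filter (fun b => W q (q * A + b) = W q (q * B + (b + t) % q)),
      ((b : ℕ) : ZMod q) ∈ P.roots.toFinset := by
    intro b hb
    rw [Finset.mem_filter, Finset.mem_range] at hb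
    obtain ⟨hbq, hb⟩ := hb
    rw [Multiset.mem_toFinset, Polynomial.mem_roots hP0, Polynomial.IsRoot.def, hPe, sub_eq_zero]
    have h1 := W1_cast hq0 (A := A) hbq
    have h2 := W1_cast hq0 (A := B) (Nat.mod_lt (b + t) hq0)
    rw [ZMod.natCast_mod] at h2
    rw [hb] at h1
    rw [h1] at h2
    push_cast at h2 ⊢
    exact h2
  calc ((Finset.range q).filter (fun b => W q (q * A + b) = W q (q * B + (b + t) % q))).card
      ≤ P.roots.toFinset.card := by
        apply Finset.card_le_card_of_injOn (fun b => ((b : ℕ) : ZMod q)) hmap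
        intro x hx y hy hxy
        have hx' := (Finset.mem_range.mp (Finset.mem_filter.mp (Finset.mem_coe.mp hx)).1)
        have hy' := (Finset.mem_range.mp (Finset.mem_filter.mp (Finset.mem_coe.mp hy)).1)
        have h := (ZMod.natCast_eq_natCast_iff' x y q).mp hxy
        rwa [Nat.mod_eq_of_lt hx', Nat.mod_eq_of_lt hy'] at h
    _ ≤ Multiset.card P.roots := Multiset.toFinset_card_le _
    _ ≤ P.natDegree := Polynomial.card_roots' P
    _ ≤ 7 := hPd


theorem W1_t {q : ℕ} (hq : 0 < q) (m1 m2 j : ℕ) :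
    ((m1 + j) % q + (m2 % q + (q - m1 % q))) % q = (m2 + j) % q := by
  have h : m1 % q ≤ q := (Nat.mod_lt _ hq).le
  rw [← ZMod.natCast_eq_natCast_iff']
  push_cast [Nat.cast_sub h]
  simp
  ring

/-- (W1) -/
theorem W1 {q : ℕ} (hq : q.Prime) (h2 : 2 < q) {m1 m2 R : ℕ} (hne : m1 ≠ m2)
    (hm1 : m1 + R ≤ q ^ 8) (hm2 : m2 + R ≤ q ^ 8) :
    ((Finset.range R).filter (fun j => W q (m1 + j) = W q (m2 + j))).card ≤ 14 * (R / q + 2) := by
  have hq0 : 0 < q := hq.pos
  have hp8 : q ^ 8 = q ^ 7 * q := pow_succ q 7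
  rcases Nat.eq_zero_or_pos R with hR | hR
  · subst hR; simp
  set S := (Finset.range R).filter (fun j => W q (m1 + j) = W q (m2 + j)) with hS
  set f : ℕ → ℕ := fun j => (m1 + j) / q + (m2 + j) / q with hf
  have hfib : ∀ a ∈ S.image f, (S.filter (fun x => f x = a)).card ≤ 7 := by
    intro a ha
    obtain ⟨j0, hj0, hfa⟩ := Finset.mem_image.mp ha
    rw [hS, Finset.mem_filter, Finset.mem_range] at hj0
    obtain ⟨hj0R, _⟩ := hj0
    have hcon : ∀ j, f j = a → (m1 + j) / q = (m1 + j0) / q ∧ (m2 + j) / q = (m2 + j0) / q := by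
      intro j hj
      have hs : (m1 + j) / q + (m2 + j) / q = (m1 + j0) / q + (m2 + j0) / q := by
        have : f j = f j0 := by rw [hj, hfa]
        exact this
      rcases le_total j j0 with h | h
      · have h1 : (m1 + j) / q ≤ (m1 + j0) / q := Nat.div_le_div_right (by omega)
        have h2 : (m2 + j) / q ≤ (m2 + j0) / q := Nat.div_le_div_right (by omega)
        omega
      · have h1 : (m1 + j0) / q ≤ (m1 + j) / q := Nat.div_le_div_right (by omega)
        have h2 : (m2 + j0) / q ≤ (m2 + j) / q := Nat.div_le_div_right (by omega)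
        omega
    have hA : (m1 + j0) / q < q ^ 7 := by
      rw [Nat.div_lt_iff_lt_mul hq0, ← hp8]; omega
    have hB : (m2 + j0) / q < q ^ 7 := by
      rw [Nat.div_lt_iff_lt_mul hq0, ← hp8]; omega
    have hne' : (m1 + j0) / q ≠ (m2 + j0) / q ∨ (m2 % q + (q - m1 % q)) % q ≠ 0 := by
      by_contra hcon
      push Not at hcon
      obtain ⟨h1, h2⟩ := hcon
      apply hne
      have h3 := W1_t hq0 m1 m2 j0
      rw [Nat.add_mod, h2, Nat.add_zero, Nat.mod_mod, Nat.mod_mod] at h3
      have h4 := Nat.div_add_mod (m1 + j0) q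
      rw [h1, h3, Nat.div_add_mod] at h4
      omega
    refine le_trans ?_ (W_roots hq h2 hA hB hne')
    apply Finset.card_le_card_of_injOn (fun j => (m1 + j) % q)
    · intro j hj
      rw [Finset.coe_filter, Set.mem_ofPred_eq] at hj
      obtain ⟨hjS, hja⟩ := hj
      rw [hS, Finset.mem_filter, Finset.mem_range] at hjS
      obtain ⟨h1, h2⟩ := hcon j hja
      simp only [Finset.coe_filter, Set.mem_ofPred_eq, Finset.mem_range]
      refine ⟨Nat.mod_lt _ hq0, ?_⟩
      rw [W1_t hq0, ← h1, ← h2, Nat.div_add_mod, Nat.div_add_mod]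
      exact hjS.2
    · intro j hj j' hj' hjj
      rw [Finset.coe_filter, Set.mem_ofPred_eq] at hj hj'
      obtain ⟨h1, _⟩ := hcon j hj.2
      obtain ⟨h1', _⟩ := hcon j' hj'.2
      have h3 := Nat.div_add_mod (m1 + j) q
      have h4 := Nat.div_add_mod (m1 + j') q
      simp only at hjj
      rw [h1, hjj] at h3
      rw [h1'] at h4
      omega
  have himg : (S.image f).card ≤ 2 * (R / q + 2) := by
    have hsub : S.image f ⊆ Finset.Icc (m1 / q + m2 / q) ((m1 + (R - 1)) / q + (m2 + (R - 1)) / q) := by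
      intro a ha
      obtain ⟨j, hj, hfa⟩ := Finset.mem_image.mp ha
      rw [hS, Finset.mem_filter, Finset.mem_range] at hj
      rw [Finset.mem_Icc, ← hfa]
      have hj1 := hj.1
      constructor
      · exact Nat.add_le_add (Nat.div_le_div_right (by omega)) (Nat.div_le_div_right (by omega))
      · exact Nat.add_le_add (Nat.div_le_div_right (by omega)) (Nat.div_le_div_right (by omega))
    refine (Finset.card_le_card hsub).trans ?_
    rw [Nat.card_Icc]
    have h3 : ∀ m : ℕ, (m + (R - 1)) / q ≤ m / q + R / q + 1 := by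
      intro m
      calc (m + (R - 1)) / q ≤ (m + R) / q := Nat.div_le_div_right (by omega)
        _ ≤ m / q + R / q + 1 := by
          rw [Nat.add_div hq0]
          split_ifs <;> omega
    have h4 := h3 m1
    have h5 := h3 m2
    omega
  calc S.card ≤ 7 * (S.image f).card := Finset.card_le_mul_card_image S 7 hfib
    _ ≤ 7 * (2 * (R / q + 2)) := Nat.mul_le_mul_left 7 himg
    _ = 14 * (R / q + 2) := by ring

end KAut
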