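import Mathlib
import Pool.Agent.Lib.MP_33914b_an.SepDef
import Pool.Agent.Lib.MP_33914b_an.W1

/-!
# MP_33914b_an, file S3  (ROW ka-S3)
Paper: /team-store/kaut_paper.md
-/
set_option autoImplicit false

namespace KAut

/-- a finite set of naturals on which a function with gaps `≥ h` takes values in an open interval -/
theorem S3_gap_card {J : Finset ℕ} {f : ℕ → ℤ} {h a b : ℤ} (h0 : 0 ≤ h)
    (hf : ∀ x ∈ J, ∀ y ∈ J, x ≤ y → ((y : ℤ) - x) * h ≤ f y - f x)
    (hb : ∀ x ∈ J, a < f x ∧ f x < b) (hJ : J.Nonempty) : ((J.card : ℤ) - 1) * h < b - a := by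
  have hsub : J ⊆ Finset.Icc (J.min' hJ) (J.max' hJ) := fun x hx =>
    Finset.mem_Icc.2 ⟨J.min'_le x hx, J.le_max' x hx⟩
  have hle : J.min' hJ ≤ J.max' hJ := J.min'_le _ (J.max'_mem hJ)
  have hc := Finset.card_le_card hsub
  rw [Nat.card_Icc] at hc
  have hc' : (J.card : ℤ) - 1 ≤ (J.max' hJ : ℤ) - (J.min' hJ : ℤ) := by omega
  have h1 := hf _ (J.min'_mem hJ) _ (J.max'_mem hJ) hle
  have h2 := hb _ (J.min'_mem hJ)
  have h3 := hb _ (J.max'_mem hJ)
  have h4 : ((J.card : ℤ) - 1) * h ≤ ((J.max' hJ : ℤ) - (J.min' hJ : ℤ)) * h :=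
    mul_le_mul_of_nonneg_right hc' h0
  linarith [h2.1, h3.2]

/-- at most two naturals `x` with `f x = e + x * h` in an open interval of length `≤ 2 * h` -/
theorem S3_two {J : Finset ℕ} {e h a b : ℤ} (h0 : 0 < h) (hab : b - a ≤ 2 * h)
    (hb : ∀ x ∈ J, a < e + x * h ∧ e + x * h < b) : J.card ≤ 2 := by
  rcases J.eq_empty_or_nonempty with hJ | hJ
  · rw [hJ, Finset.card_empty]; norm_num
  · have h1 := S3_gap_card (J := J) (f := fun x => e + x * h) h0.le
      (fun x _ y _ _ => by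
        show ((y : ℤ) - x) * h ≤ (e + y * h) - (e + x * h)
        exact le_of_eq (by ring)) hb hJ
    have h2 : ((J.card : ℤ) - 1) < 2 := by
      by_contra hcon
      push Not at hcon
      have := mul_le_mul_of_nonneg_right hcon h0.le
      linarith
    omega

section abstract_step
variable {A C C' : Type} [DecidableEq A]
namespace StepData
variable (D : StepData A C C')

theorem S3_mem {c c' : C'} {t α β : ℤ} {x : ℕ × ℕ} (hx : x ∈ D.pairs c c' t α β) :
    x.1 < D.U * D.N ∧ x.2 < D.U * D.N ∧ α < D.ps c x.1 + D.h ∧ (D.ps c x.1 : ℤ) < β ∧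
      (D.ps c x.1 : ℤ) < t + D.ps c' x.2 + D.h ∧ t + (D.ps c' x.2 : ℤ) < D.ps c x.1 + D.h := by
  rw [pairs, Finset.mem_filter, Finset.mem_product, Finset.mem_range, Finset.mem_range] at hx
  obtain ⟨⟨h1, h2⟩, h3⟩ := hx
  rw [cell, Finset.nonempty_Ico, max_lt_iff, max_lt_iff, lt_min_iff, lt_min_iff, lt_min_iff,
    lt_min_iff, lt_min_iff, lt_min_iff] at h3
  obtain ⟨⟨-, h4, -⟩, ⟨h5, -, h6⟩, ⟨-, h7, -⟩⟩ := h3
  exact ⟨h1, h2, h4, h5, h6, h7⟩

theorem S3_div_lt {i : ℕ} (hi : i < D.U * D.N) : i / D.N < D.U :=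
  Nat.div_lt_of_lt_mul (by rw [Nat.mul_comm]; exact hi)

theorem S3_lb (c : C') (i : ℕ) : (D.g c : ℤ) + ((i / D.N : ℕ) : ℤ) * D.l ≤ D.ps c i := by
  have h : D.g c + (i / D.N) * D.l ≤ D.ps c i := by
    unfold ps
    rw [Nat.add_assoc (D.g c + _)]
    exact Nat.le_add_right _ _
  exact_mod_cast h

theorem S3_ub (c : C') {i : ℕ} (hi : i < D.U * D.N) :
    (D.ps c i : ℤ) + D.h ≤ D.g c + ((i / D.N : ℕ) : ℤ) * D.l + D.l := by
  have ho := D.ho c _ (D.S3_div_lt hi)
  have hm : i % D.N < D.N := Nat.mod_lt _ D.hN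
  have h1 : (i % D.N + 1) * D.h ≤ D.N * D.h := Nat.mul_le_mul_right _ hm
  have h : D.ps c i + D.h ≤ D.g c + (i / D.N) * D.l + D.l := by
    have e : D.g c + (i / D.N) * D.l + D.l = D.g c + (i / D.N) * D.l + (D.S + D.N * D.h) := rfl
    rw [e]
    unfold ps
    rw [Nat.add_mul, Nat.one_mul] at h1
    omega
  exact_mod_cast h

theorem S3_l_pos : 0 < D.l := by
  unfold l
  have := Nat.mul_pos D.hN D.hh
  omega

/-- superblocks meeting the window -/
theorem S3_img1 (c c' : C') (t α β : ℤ) (h3 : α ≤ β) (P : Finset (ℕ × ℕ))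
    (hP : P ⊆ D.pairs c c' t α β) :
    ((P.image (fun x => x.1 / D.N)).card : ℝ) ≤ ((β - α : ℤ) : ℝ) / D.l + 2 := by
  have hl : (0 : ℤ) < D.l := by exact_mod_cast D.S3_l_pos
  have hlR : (0 : ℝ) < D.l := by exact_mod_cast D.S3_l_pos
  set J := P.image (fun x => x.1 / D.N) with hJ
  have hnn : (0 : ℝ) ≤ ((β - α : ℤ) : ℝ) / D.l :=
    div_nonneg (by exact_mod_cast sub_nonneg.2 h3) hlR.le
  rcases J.eq_empty_or_nonempty with h0 | h0
  · rw [h0, Finset.card_empty, Nat.cast_zero]; linarith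
  · have hb : ∀ u ∈ J, α - D.l < (D.g c : ℤ) + u * D.l ∧ (D.g c : ℤ) + u * D.l < β := by
      intro u hu
      rw [hJ, Finset.mem_image] at hu
      obtain ⟨x, hx, rfl⟩ := hu
      have hm := D.S3_mem (hP hx)
      have e1 := D.S3_lb c x.1
      have e2 := D.S3_ub c hm.1
      constructor <;> linarith [hm.2.2.1, hm.2.2.2.1]
    have hlt := S3_gap_card (J := J) (f := fun x => (D.g c : ℤ) + x * D.l) (h := D.l) hl.le
      (fun x _ y _ _ => by
        show ((y : ℤ) - x) * D.l ≤ ((D.g c : ℤ) + y * D.l) - ((D.g c : ℤ) + x * D.l)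
        exact le_of_eq (by ring)) hb h0
    have hltR : ((J.card : ℝ) - 1) * D.l < ((β - α : ℤ) : ℝ) + D.l := by
      have : (((J.card : ℤ) - 1) * D.l : ℤ) < (β - α) + D.l := by linarith
      exact_mod_cast this
    have h6 : ((J.card : ℝ) - 1) < ((β - α : ℤ) : ℝ) / D.l + 1 := by
      rw [← sub_lt_iff_lt_add, lt_div_iff₀ hlR]
      linarith
    linarith

/-- pairs of superblocks -/
theorem S3_img2 (c c' : C') (t α β : ℤ) (P : Finset (ℕ × ℕ)) (hP : P ⊆ D.pairs c c' t α β) :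
    (P.image (fun x => (x.1 / D.N, x.2 / D.N))).card ≤
      2 * (P.image (fun x => x.1 / D.N)).card := by
  have hl : (0 : ℤ) < D.l := by exact_mod_cast D.S3_l_pos
  have e : P.image (fun x => x.1 / D.N) =
      (P.image (fun x => (x.1 / D.N, x.2 / D.N))).image Prod.fst := by
    rw [Finset.image_image]; rfl
  rw [e]
  refine Finset.card_le_mul_card_image _ 2 ?_
  intro u _
  set F := (P.image (fun x => (x.1 / D.N, x.2 / D.N))).filter (fun y => y.1 = u) with hF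
  have hc : F.card = (F.image Prod.snd).card := by
    rw [Finset.card_image_of_injOn]
    rintro ⟨x1, x2⟩ hx ⟨y1, y2⟩ hy hxy
    have hx' := (Finset.mem_filter.1 (Finset.mem_coe.1 hx)).2
    have hy' := (Finset.mem_filter.1 (Finset.mem_coe.1 hy)).2
    exact Prod.ext (hx'.trans hy'.symm) hxy
  rw [hc]
  refine S3_two (e := D.g c') (h := D.l) (a := D.g c + u * D.l - t - D.l)
    (b := D.g c + u * D.l + D.l - t) hl (by linarith) ?_
  intro u' hu'
  rw [Finset.mem_image] at hu'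
  obtain ⟨y, hy, rfl⟩ := hu'
  rw [hF, Finset.mem_filter, Finset.mem_image] at hy
  obtain ⟨⟨x, hx, rfl⟩, rfl⟩ := hy
  have hm := D.S3_mem (hP hx)
  have e1 := D.S3_lb c x.1
  have e2 := D.S3_ub c hm.1
  have e3 := D.S3_lb c' x.2
  have e4 := D.S3_ub c' hm.2.1
  constructor <;> linarith [hm.2.2.2.2.1, hm.2.2.2.2.2]

/-- the shift between the two sub-blocks (plus `N`) -/
theorem S3_img3 (c c' : C') (t α β : ℤ) (P : Finset (ℕ × ℕ)) (hP : P ⊆ D.pairs c c' t α β) :
    (P.image (fun x => ((x.1 / D.N, x.2 / D.N), x.2 % D.N + (D.N - x.1 % D.N)))).card ≤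
      2 * (P.image (fun x => (x.1 / D.N, x.2 / D.N))).card := by
  have hh : (0 : ℤ) < D.h := by exact_mod_cast D.hh
  have e : P.image (fun x => (x.1 / D.N, x.2 / D.N)) =
      (P.image (fun x => ((x.1 / D.N, x.2 / D.N), x.2 % D.N + (D.N - x.1 % D.N)))).image
        Prod.fst := by
    rw [Finset.image_image]; rfl
  rw [e]
  refine Finset.card_le_mul_card_image _ 2 ?_
  intro u _
  set F := (P.image (fun x => ((x.1 / D.N, x.2 / D.N), x.2 % D.N + (D.N - x.1 % D.N)))).filter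
    (fun y => y.1 = u) with hF
  have hc : F.card = (F.image Prod.snd).card := by
    rw [Finset.card_image_of_injOn]
    rintro ⟨x1, x2⟩ hx ⟨y1, y2⟩ hy hxy
    have hx' := (Finset.mem_filter.1 (Finset.mem_coe.1 hx)).2
    have hy' := (Finset.mem_filter.1 (Finset.mem_coe.1 hy)).2
    exact Prod.ext (hx'.trans hy'.symm) hxy
  rw [hc]
  set K : ℤ := (D.g c + u.1 * D.l + D.o c u.1) - (D.g c' + u.2 * D.l + D.o c' u.2) - t with hK
  refine S3_two (e := 0) (h := D.h) (a := K + D.N * D.h - D.h)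
    (b := K + D.N * D.h + D.h) hh (by linarith) ?_
  intro d hd
  rw [Finset.mem_image] at hd
  obtain ⟨y, hy, rfl⟩ := hd
  rw [hF, Finset.mem_filter, Finset.mem_image] at hy
  obtain ⟨⟨x, hx, rfl⟩, rfl⟩ := hy
  have hm := D.S3_mem (hP hx)
  have hlt : x.1 % D.N < D.N := Nat.mod_lt _ D.hN
  have e1 : (D.ps c x.1 : ℤ) = D.g c + ((x.1 / D.N : ℕ) : ℤ) * D.l + D.o c (x.1 / D.N) +
      ((x.1 % D.N : ℕ) : ℤ) * D.h := by
    unfold ps; push_cast; ring
  have e2 : (D.ps c' x.2 : ℤ) = D.g c' + ((x.2 / D.N : ℕ) : ℤ) * D.l + D.o c' (x.2 / D.N) +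
      ((x.2 % D.N : ℕ) : ℤ) * D.h := by
    unfold ps; push_cast; ring
  have e3 : ((x.2 % D.N + (D.N - x.1 % D.N) : ℕ) : ℤ) =
      ((x.2 % D.N : ℕ) : ℤ) + D.N - ((x.1 % D.N : ℕ) : ℤ) := by omega
  simp only at hK ⊢
  rw [e3]
  have e4 : (((x.2 % D.N : ℕ) : ℤ) + D.N - ((x.1 % D.N : ℕ) : ℤ)) * D.h =
      ((x.2 % D.N : ℕ) : ℤ) * D.h + D.N * D.h - ((x.1 % D.N : ℕ) : ℤ) * D.h := by ring
  rw [e4]
  have m1 := hm.2.2.2.2.1
  have m2 := hm.2.2.2.2.2
  rw [e1, e2] at m1 m2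
  constructor <;> linarith

/-- the fibres: equal modes with a fixed shift -/
theorem S3_fib (c c' : C') (t α β : ℤ)
    (hne : D.md' c ≠ D.md' c' ∨ (2 * D.S + D.h : ℤ) ≤ |t|) (w : (ℕ × ℕ) × ℕ)
    (P : Finset (ℕ × ℕ)) (hP : P ⊆ D.pairs c c' t α β)
    (hmd : ∀ x ∈ P, D.md (D.sub c x.1) = D.md (D.sub c' x.2))
    (hw : ∀ x ∈ P, ((x.1 / D.N, x.2 / D.N), x.2 % D.N + (D.N - x.1 % D.N)) = w)
    (hPn : P.Nonempty) : P.card ≤ 14 * (D.N / D.q + 2) := by
  obtain ⟨⟨u, u'⟩, d⟩ := w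
  have hN := D.hN
  have hw1 : ∀ x ∈ P, x.1 / D.N = u := fun x hx => by
    have := hw x hx; exact congrArg (fun z => z.1.1) this
  have hw2 : ∀ x ∈ P, x.2 / D.N = u' := fun x hx => by
    have := hw x hx; exact congrArg (fun z => z.1.2) this
  have hw3 : ∀ x ∈ P, x.2 % D.N + (D.N - x.1 % D.N) = d := fun x hx => by
    have := hw x hx; exact congrArg (fun z => z.2) this
  set s1 := D.N - d with hs1
  set s2 := d - D.N with hs2
  set R := D.N - s1 - s2 with hR
  set m1 := (D.U * D.N) * D.md' c + (D.N * u + s1) with hm1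
  set m2 := (D.U * D.N) * D.md' c' + (D.N * u' + s2) with hm2
  have hx1 : ∀ x ∈ P, s1 ≤ x.1 % D.N ∧ x.1 % D.N - s1 < R ∧
      x.1 = D.N * u + s1 + (x.1 % D.N - s1) ∧ x.2 = D.N * u' + s2 + (x.1 % D.N - s1) := by
    intro x hx
    have a1 := hw1 x hx
    have a2 := hw2 x hx
    have a3 := hw3 x hx
    have b1 := Nat.div_add_mod x.1 D.N
    have b2 := Nat.div_add_mod x.2 D.N
    have c1 := Nat.mod_lt x.1 hN
    have c2 := Nat.mod_lt x.2 hN
    rw [a1] at b1
    rw [a2] at b2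
    refine ⟨by omega, by omega, by omega, by omega⟩
  obtain ⟨x0, hx0⟩ := hPn
  have hmem0 := D.S3_mem (hP hx0)
  have hu : u < D.U := by rw [← hw1 x0 hx0]; exact D.S3_div_lt hmem0.1
  have hu' : u' < D.U := by rw [← hw2 x0 hx0]; exact D.S3_div_lt hmem0.2.1
  have hNu : D.N * u + D.N ≤ D.U * D.N := by
    have := Nat.mul_le_mul_left D.N (Nat.succ_le_of_lt hu)
    rw [Nat.succ_eq_add_one, Nat.mul_add, Nat.mul_one, Nat.mul_comm D.N D.U] at this
    exact this
  have hNu' : D.N * u' + D.N ≤ D.U * D.N := by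
    have := Nat.mul_le_mul_left D.N (Nat.succ_le_of_lt hu')
    rw [Nat.succ_eq_add_one, Nat.mul_add, Nat.mul_one, Nat.mul_comm D.N D.U] at this
    exact this
  have hRpos : 0 < R := lt_of_le_of_lt (Nat.zero_le _) (hx1 x0 hx0).2.1
  have hc1 := D.hmd' c
  have hc2 := D.hmd' c'
  rw [Nat.mul_add, Nat.mul_one] at hc1 hc2
  have hb1 : m1 + R ≤ D.q ^ 8 := by omega
  have hb2 : m2 + R ≤ D.q ^ 8 := by omega
  have hmne : m1 ≠ m2 := by
    intro hmm
    obtain ⟨-, -, q1, q2⟩ := hx1 x0 hx0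
    have hUN : 0 < D.U * D.N := Nat.mul_pos D.hU hN
    have hsum : (D.U * D.N) * D.md' c + x0.1 = (D.U * D.N) * D.md' c' + x0.2 := by omega
    have r1 : ((D.U * D.N) * D.md' c + x0.1) / (D.U * D.N) = D.md' c := by
      rw [Nat.mul_add_div hUN, Nat.div_eq_of_lt hmem0.1, Nat.add_zero]
    have r2 : ((D.U * D.N) * D.md' c' + x0.2) / (D.U * D.N) = D.md' c' := by
      rw [Nat.mul_add_div hUN, Nat.div_eq_of_lt hmem0.2.1, Nat.add_zero]
    have hmdeq : D.md' c = D.md' c' := by rw [← r1, ← r2, hsum]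
    have hxe : x0.1 = x0.2 := by
      rw [hmdeq] at hsum
      exact Nat.add_left_cancel hsum
    rcases hne with h | h
    · exact h hmdeq
    · have hdiv : x0.1 / D.N < D.U := D.S3_div_lt hmem0.1
      have o1 := D.ho c _ hdiv
      have o2 := D.ho c' _ hdiv
      have g1 := D.hg c
      have g2 := D.hg c'
      have m3 := hmem0.2.2.2.2.1
      have m4 := hmem0.2.2.2.2.2
      rw [← hxe] at m3 m4
      unfold ps at m3 m4
      push_cast at m3 m4
      zify at o1 o2 g1 g2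
      have : |t| < 2 * D.S + D.h := by
        rw [abs_lt]
        constructor <;> linarith [Int.natCast_nonneg (D.g c), Int.natCast_nonneg (D.g c'),
          Int.natCast_nonneg (D.o c (x0.1 / D.N)), Int.natCast_nonneg (D.o c' (x0.1 / D.N))]
      linarith
  have hW := W1 D.hq D.hq2 hmne hb1 hb2
  have hcard : P.card ≤ ((Finset.range R).filter
      (fun j => W D.q (m1 + j) = W D.q (m2 + j))).card := by
    refine Finset.card_le_card_of_injOn (fun x => x.1 % D.N - s1) ?_ ?_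
    · intro x hx
      rw [Finset.mem_coe] at hx
      obtain ⟨q0, q1, q2, q3⟩ := hx1 x hx
      rw [Finset.mem_coe, Finset.mem_filter, Finset.mem_range]
      refine ⟨q1, ?_⟩
      have hmx := D.S3_mem (hP hx)
      have z1 := D.hmode c x.1 hmx.1
      have z2 := D.hmode c' x.2 hmx.2.1
      have z3 := hmd x hx
      rw [z1, z2] at z3
      have y1 : m1 + (x.1 % D.N - s1) = (D.U * D.N) * D.md' c + x.1 := by omega
      have y2 : m2 + (x.1 % D.N - s1) = (D.U * D.N) * D.md' c' + x.2 := by omega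
      show W D.q (m1 + (x.1 % D.N - s1)) = W D.q (m2 + (x.1 % D.N - s1))
      rw [y1, y2]
      exact z3
    · intro x hx y hy hxy
      rw [Finset.mem_coe] at hx hy
      obtain ⟨q0, q1, q2, q3⟩ := hx1 x hx
      obtain ⟨p0, p1, p2, p3⟩ := hx1 y hy
      have hxy' : x.1 % D.N - s1 = y.1 % D.N - s1 := hxy
      refine Prod.ext ?_ ?_
      · rw [q2, p2, hxy']
      · rw [q3, p3, hxy']
  refine hcard.trans (hW.trans ?_)
  refine Nat.mul_le_mul_left _ (Nat.add_le_add_right ?_ _)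
  exact Nat.div_le_div_right (by omega)

/-- (S3) number of pairs with equal modes -/
theorem card_same_le (c c' : C') (t α β : ℤ) (h3 : α ≤ β)
    (hne : D.md' c ≠ D.md' c' ∨ (2 * D.S + D.h : ℤ) ≤ |t|) :
    (((D.pairs c c' t α β).filter (fun x => D.md (D.sub c x.1) = D.md (D.sub c' x.2))).card : ℝ) ≤
      (((β - α : ℤ) : ℝ) / D.l + 2) * (56 * (D.N / D.q + 2)) := by
  set P := (D.pairs c c' t α β).filter (fun x => D.md (D.sub c x.1) = D.md (D.sub c' x.2)) with hPd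
  have hP : P ⊆ D.pairs c c' t α β := Finset.filter_subset _ _
  have h1 := D.S3_img1 c c' t α β h3 P hP
  have h2 := D.S3_img2 c c' t α β P hP
  have h3' := D.S3_img3 c c' t α β P hP
  have h4 : P.card ≤ 14 * (D.N / D.q + 2) *
      (P.image (fun x => ((x.1 / D.N, x.2 / D.N), x.2 % D.N + (D.N - x.1 % D.N)))).card := by
    refine Finset.card_le_mul_card_image _ _ ?_
    intro w hw
    refine D.S3_fib c c' t α β hne w _ ((Finset.filter_subset _ _).trans hP) ?_ ?_ ?_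
    · intro x hx
      exact (Finset.mem_filter.1 (Finset.mem_filter.1 hx).1).2
    · intro x hx
      exact (Finset.mem_filter.1 hx).2
    · rw [Finset.mem_image] at hw
      obtain ⟨x, hx, hxw⟩ := hw
      exact ⟨x, Finset.mem_filter.2 ⟨hx, hxw⟩⟩
  have h5 : P.card ≤ 14 * (D.N / D.q + 2) * (2 * (2 * (P.image (fun x => x.1 / D.N)).card)) :=
    h4.trans (Nat.mul_le_mul_left _ (h3'.trans (Nat.mul_le_mul_left _ h2)))
  have h6 : (P.card : ℝ) ≤ 14 * (((D.N / D.q : ℕ) : ℝ) + 2) *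
      (2 * (2 * ((P.image (fun x => x.1 / D.N)).card : ℝ))) := by exact_mod_cast h5
  have h7 : ((D.N / D.q : ℕ) : ℝ) ≤ (D.N : ℝ) / D.q := Nat.cast_div_le
  calc (P.card : ℝ) ≤ 14 * (((D.N / D.q : ℕ) : ℝ) + 2) *
        (2 * (2 * ((P.image (fun x => x.1 / D.N)).card : ℝ))) := h6
    _ = ((P.image (fun x => x.1 / D.N)).card : ℝ) * (56 * (((D.N / D.q : ℕ) : ℝ) + 2)) := by ring
    _ ≤ (((β - α : ℤ) : ℝ) / D.l + 2) * (56 * (D.N / D.q + 2)) := by
      refine mul_le_mul h1 ?_ (by positivity) (le_trans (Nat.cast_nonneg _) h1)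
      linarith

end StepData
end abstract_step

end KAut
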