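import Mathlib
import Pool.Agent.Lib.MP_33914b_an.SepDef

/-!
# MP_33914b_an, file S4  (ROW ka-S4)
Paper: /team-store/kaut_paper.md

PROOF / HINTS:
cells are disjoint subsets of [alpha,beta); on cell(i,i') (an Ico interval [x,y)): B' c z = B (sub c i) (z - ps c i), B' c' (z-t) = B (sub c' i') (z - t - ps c' i') (hB'). Apply hsep to (sub c i, sub c' i') with shift t' = t + ps c' i' - ps c i and the interval
[x - ps c i, y - ps c i).
-/
set_option autoImplicit false

namespace KAut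

section abstract_step
variable {A C C' : Type} [DecidableEq A]
namespace StepData
variable (D : StepData A C C')

omit [DecidableEq A] in
theorem S4_ps_gap (c : C') {i j : ℕ} (hi : i < D.U * D.N) (hij : i < j) :
    D.ps c i + D.h ≤ D.ps c j := by
  have hN := D.hN
  have hu : i / D.N < D.U := Nat.div_lt_of_lt_mul (by rwa [Nat.mul_comm] at hi)
  have ho := D.ho c _ hu
  have hm : i % D.N < D.N := Nat.mod_lt _ hN
  unfold StepData.ps StepData.l
  rcases Nat.lt_or_ge (i / D.N) (j / D.N) with h1 | h1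
  · obtain ⟨d, hd⟩ : ∃ d, j / D.N = i / D.N + 1 + d := ⟨j / D.N - (i / D.N + 1), by omega⟩
    rw [hd]
    obtain ⟨e, he⟩ : ∃ e, D.N = i % D.N + 1 + e := ⟨D.N - (i % D.N + 1), by omega⟩
    have h2 : (i % D.N) * D.h + D.h ≤ D.N * D.h := by
      have : (i % D.N + 1) * D.h ≤ D.N * D.h := Nat.mul_le_mul_right _ hm
      nlinarith
    have h3 : (i / D.N + 1 + d) * (D.S + D.N * D.h) =
        (i / D.N) * (D.S + D.N * D.h) + (D.S + D.N * D.h) + d * (D.S + D.N * D.h) := by ring
    rw [h3]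
    have h4 := Nat.zero_le (d * (D.S + D.N * D.h))
    omega
  · have h2 : i / D.N = j / D.N := le_antisymm (Nat.div_le_div_right hij.le) h1
    have h3 : i % D.N < j % D.N := by
      have e1 := Nat.div_add_mod i D.N
      have e2 := Nat.div_add_mod j D.N
      rw [← h2] at e2
      omega
    rw [← h2]
    have h4 : (i % D.N) * D.h + D.h ≤ (j % D.N) * D.h := by
      have : (i % D.N + 1) * D.h ≤ (j % D.N) * D.h := Nat.mul_le_mul_right _ h3
      nlinarith
    omega

omit [DecidableEq A] in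
theorem S4_ps_inj (c : C') {i j : ℕ} (hi : i < D.U * D.N) (hj : j < D.U * D.N) {z : ℤ}
    (h1 : (D.ps c i : ℤ) ≤ z) (h2 : z < D.ps c i + D.h) (h3 : (D.ps c j : ℤ) ≤ z)
    (h4 : z < D.ps c j + D.h) : i = j := by
  rcases lt_trichotomy i j with h | h | h
  · have := D.S4_ps_gap c hi h
    omega
  · exact h
  · have := D.S4_ps_gap c hj h
    omega

omit [DecidableEq A] in
theorem S4_B' (c : C') {i : ℕ} (hi : i < D.U * D.N) {p : ℕ} (hp : p < D.h) :
    D.B' c (D.ps c i + p) = D.B (D.sub c i) p := by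
  have hu : i / D.N < D.U := Nat.div_lt_of_lt_mul (by rwa [Nat.mul_comm] at hi)
  have := D.hB' c (i / D.N) (i % D.N) p hu (Nat.mod_lt _ D.hN) hp
  have e1 : i / D.N * D.N + i % D.N = i := by
    rw [Nat.mul_comm]; exact Nat.div_add_mod i D.N
  rw [e1] at this
  exact this

/-- one cell -/
theorem S4_cell (c c' : C') (t α β : ℤ) (r e : ℝ) (hsep : Sep D.B D.md D.h r e)
    {i i' : ℕ} (hi : i < D.U * D.N) (hi' : i' < D.U * D.N)
    (hne : (D.cell c c' t α β i i').Nonempty)
    (hmd : D.md (D.sub c i) ≠ D.md (D.sub c' i'))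
    (hr : r ≤ (D.cell c c' t α β i i').card) :
    e * ((D.cell c c' t α β i i').card : ℝ) ≤
      (((D.cell c c' t α β i i').filter
        (fun z : ℤ => D.B' c z.toNat ≠ D.B' c' (z - t).toNat)).card : ℝ) := by
  unfold StepData.cell at hne hr ⊢
  set x : ℤ := max α (max (D.ps c i) (t + D.ps c' i')) with hx
  set y : ℤ := min β (min (D.ps c i + D.h) (t + D.ps c' i' + D.h)) with hy
  have hxy : x < y := by
    rw [Finset.nonempty_Ico] at hne
    exact hne
  have hx1 : (D.ps c i : ℤ) ≤ x := le_trans (le_max_left _ _) (le_max_right _ _)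
  have hx2 : t + (D.ps c' i' : ℤ) ≤ x := le_trans (le_max_right _ _) (le_max_right _ _)
  have hy1 : y ≤ (D.ps c i : ℤ) + D.h := le_trans (min_le_right _ _) (min_le_left _ _)
  have hy2 : y ≤ t + (D.ps c' i' : ℤ) + D.h := le_trans (min_le_right _ _) (min_le_right _ _)
  have hcard : ((Finset.Ico x y).card : ℝ) = ((y - x : ℤ) : ℝ) := by
    rw [Int.card_Ico]
    have : ((y - x).toNat : ℤ) = y - x := Int.toNat_of_nonneg (by omega)
    exact_mod_cast congrArg (fun z : ℤ => (z : ℝ)) this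
  have key := hsep (D.sub c i) (D.sub c' i') hmd (t + D.ps c' i' - D.ps c i)
    (x - D.ps c i) (y - D.ps c i) (by omega) (by omega) (by omega) (by omega) (by omega)
    (by
      rw [hcard] at hr
      push_cast at hr ⊢
      linarith)
  rw [hcard]
  have e1 : e * ((y - x : ℤ) : ℝ) =
      e * (((y - D.ps c i : ℤ) : ℝ) - ((x - D.ps c i : ℤ) : ℝ)) := by
    push_cast; ring
  rw [e1]
  refine key.trans ?_
  rw [Nat.cast_le]
  apply Finset.card_le_card_of_injOn (fun z => z + (D.ps c i : ℤ))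
  · intro z hz
    simp only [Finset.coe_filter, Finset.mem_Ico, Set.mem_ofPred_eq] at hz ⊢
    obtain ⟨⟨hz1, hz2⟩, hz3⟩ := hz
    refine ⟨⟨by omega, by omega⟩, ?_⟩
    have a1 : (z + (D.ps c i : ℤ)).toNat = D.ps c i + z.toNat := by omega
    have a2 : (z + (D.ps c i : ℤ) - t).toNat =
        D.ps c' i' + (z - (t + D.ps c' i' - D.ps c i)).toNat := by omega
    rw [a1, a2, D.S4_B' c hi (by omega), D.S4_B' c' hi' (by omega)]
    exact hz3
  · intro z _ w _ hzw
    simpa using hzw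

/-- (S4) the mismatches inside the cells add up -/
theorem mismatch_ge (c c' : C') (t α β : ℤ) (r e : ℝ) (he : 0 ≤ e) (hsep : Sep D.B D.md D.h r e) :
    ∑ x ∈ (D.pairs c c' t α β).filter (fun x => D.md (D.sub c x.1) ≠ D.md (D.sub c' x.2) ∧
        r ≤ (D.cell c c' t α β x.1 x.2).card), e * ((D.cell c c' t α β x.1 x.2).card : ℝ) ≤
      (((Finset.Ico α β).filter (fun z : ℤ => D.B' c z.toNat ≠ D.B' c' (z - t).toNat)).card : ℝ) := by
  classical
  set P := (D.pairs c c' t α β).filter (fun x => D.md (D.sub c x.1) ≠ D.md (D.sub c' x.2) ∧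
        r ≤ (D.cell c c' t α β x.1 x.2).card) with hP
  have hPm : ∀ x ∈ P, x.1 < D.U * D.N ∧ x.2 < D.U * D.N ∧
      (D.cell c c' t α β x.1 x.2).Nonempty ∧ D.md (D.sub c x.1) ≠ D.md (D.sub c' x.2) ∧
      r ≤ (D.cell c c' t α β x.1 x.2).card := by
    intro x hx
    rw [hP, Finset.mem_filter] at hx
    obtain ⟨hx1, hx2, hx3⟩ := hx
    unfold StepData.pairs at hx1
    rw [Finset.mem_filter, Finset.mem_product, Finset.mem_range, Finset.mem_range] at hx1
    exact ⟨hx1.1.1, hx1.1.2, hx1.2, hx2, hx3⟩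
  have h1 : ∑ x ∈ P, e * ((D.cell c c' t α β x.1 x.2).card : ℝ) ≤
      ∑ x ∈ P, ((((D.cell c c' t α β x.1 x.2)).filter
        (fun z : ℤ => D.B' c z.toNat ≠ D.B' c' (z - t).toNat)).card : ℝ) := by
    apply Finset.sum_le_sum
    intro x hx
    obtain ⟨a1, a2, a3, a4, a5⟩ := hPm x hx
    exact D.S4_cell c c' t α β r e hsep a1 a2 a3 a4 a5
  refine h1.trans ?_
  have hdisj : (P : Set (ℕ × ℕ)).PairwiseDisjoint (fun x => ((D.cell c c' t α β x.1 x.2)).filter
        (fun z : ℤ => D.B' c z.toNat ≠ D.B' c' (z - t).toNat)) := by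
    intro x hx y hy hxy
    rw [Function.onFun, Finset.disjoint_left]
    intro z hz1 hz2
    rw [Finset.mem_filter] at hz1 hz2
    obtain ⟨hz1, -⟩ := hz1
    obtain ⟨hz2, -⟩ := hz2
    obtain ⟨a1, a2, -⟩ := hPm x hx
    obtain ⟨b1, b2, -⟩ := hPm y hy
    unfold StepData.cell at hz1 hz2
    rw [Finset.mem_Ico] at hz1 hz2
    obtain ⟨c1, c2⟩ := hz1
    obtain ⟨d1, d2⟩ := hz2
    rw [max_le_iff, max_le_iff] at c1 d1
    rw [lt_min_iff, lt_min_iff] at c2 d2
    apply hxy
    have e1 : x.1 = y.1 := D.S4_ps_inj c a1 b1 c1.2.1 c2.2.1 d1.2.1 d2.2.1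
    have e2 : x.2 = y.2 := D.S4_ps_inj c' a2 b2 (z := z - t)
      (by linarith [c1.2.2]) (by linarith [c2.2.2]) (by linarith [d1.2.2]) (by linarith [d2.2.2])
    exact Prod.ext e1 e2
  rw [← Nat.cast_sum, ← Finset.card_biUnion (fun x hx y hy hxy => hdisj hx hy hxy)]
  norm_cast
  apply Finset.card_le_card
  intro z hz
  rw [Finset.mem_biUnion] at hz
  obtain ⟨x, hx, hz⟩ := hz
  rw [Finset.mem_filter] at hz ⊢
  refine ⟨?_, hz.2⟩
  have := hz.1
  unfold StepData.cell at this
  rw [Finset.mem_Ico] at this ⊢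
  exact ⟨(le_max_left _ _).trans this.1, this.2.trans_le (min_le_left _ _)⟩

end StepData
end abstract_step

end KAut
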