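import Mathlib
import Pool.Agent.Lib.MP_33914b_an.S1
import Pool.Agent.Lib.MP_33914b_an.S2
import Pool.Agent.Lib.MP_33914b_an.S3
import Pool.Agent.Lib.MP_33914b_an.S4

/-!
# MP_33914b_an, file S5  (ROW ka-S5)
Paper: /team-store/kaut_paper.md

PROOF / HINTS:
sum over pairs of card = (good) + (same mode) + (different mode, card<r). same mode pairs: card of a cell <= h each; card<r pairs: <= r each, number <= card_pairs_le. e>=0.
-/
set_option autoImplicit false

namespace KAut

section abstract_step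
variable {A C C' : Type} [DecidableEq A]
namespace StepData
variable (D : StepData A C C')

omit [DecidableEq A] in
theorem S5_cell_card (c c' : C') (t α β : ℤ) (i i' : ℕ) : (D.cell c c' t α β i i').card ≤ D.h := by
  have h1 : D.cell c c' t α β i i' ⊆ Finset.Ico (D.ps c i : ℤ) (D.ps c i + D.h) := by
    intro z hz
    unfold StepData.cell at hz
    rw [Finset.mem_Ico] at hz ⊢
    omega
  have h2 := Finset.card_le_card h1
  rw [Int.card_Ico] at h2
  omega

/-- one step -/
theorem step (r e : ℝ) (hr : 0 ≤ r) (he : 0 ≤ e) (hsep : Sep D.B D.md D.h r e)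
    (c c' : C') (t α β : ℤ) (h1 : 0 ≤ α) (h2 : t ≤ α) (h3 : α ≤ β) (h4 : β ≤ D.H')
    (h5 : β ≤ t + D.H') (hne : D.md' c ≠ D.md' c' ∨ (2 * D.S + D.h : ℤ) ≤ |t|) :
    e * (((β - α : ℤ) : ℝ) - 2 * (D.G + D.S * (((β - α : ℤ) : ℝ) / D.l + 2))
      - 2 * r * (((β - α : ℤ) : ℝ) / D.h + 2)
      - D.h * ((((β - α : ℤ) : ℝ) / D.l + 2) * (56 * (D.N / D.q + 2)))) ≤
    (((Finset.Ico α β).filter (fun z : ℤ => D.B' c z.toNat ≠ D.B' c' (z - t).toNat)).card : ℝ) := by
  have s1 := D.sum_cell_ge c c' t α β h1 h2 h3 h4 h5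
  have s2 := D.card_pairs_le c c' t α β h3
  have s3 := D.card_same_le c c' t α β h3 hne
  have s4 := D.mismatch_ge c c' t α β r e he hsep
  classical
  set P := D.pairs c c' t α β with hP
  set f : ℕ × ℕ → ℝ := fun x => ((D.cell c c' t α β x.1 x.2).card : ℝ) with hf
  have hf0 : ∀ x, 0 ≤ f x := fun x => Nat.cast_nonneg _
  have hfh : ∀ x, f x ≤ D.h := fun x => by
    have := S5_cell_card D c c' t α β x.1 x.2
    exact Nat.cast_le.2 this
  have e1 := Finset.sum_filter_add_sum_filter_not P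
    (fun x => D.md (D.sub c x.1) = D.md (D.sub c' x.2)) f
  have e2 : ∑ x ∈ P.filter (fun x => D.md (D.sub c x.1) = D.md (D.sub c' x.2)), f x ≤
      D.h * ((((β - α : ℤ) : ℝ) / D.l + 2) * (56 * (D.N / D.q + 2))) := by
    have h6 := Finset.sum_le_card_nsmul (P.filter (fun x => D.md (D.sub c x.1) = D.md (D.sub c' x.2)))
      f (D.h : ℝ) (fun x _ => hfh x)
    rw [nsmul_eq_mul, mul_comm] at h6
    exact h6.trans (mul_le_mul_of_nonneg_left s3 (Nat.cast_nonneg _))
  have e3 := Finset.sum_filter_add_sum_filter_not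
    (P.filter (fun x => ¬ D.md (D.sub c x.1) = D.md (D.sub c' x.2))) (fun x => r ≤ f x) f
  have e4 : ∑ x ∈ (P.filter (fun x => ¬ D.md (D.sub c x.1) = D.md (D.sub c' x.2))).filter
      (fun x => ¬ r ≤ f x), f x ≤ 2 * r * (((β - α : ℤ) : ℝ) / D.h + 2) := by
    have h6 := Finset.sum_le_card_nsmul
      ((P.filter (fun x => ¬ D.md (D.sub c x.1) = D.md (D.sub c' x.2))).filter (fun x => ¬ r ≤ f x))
      f r (fun x hx => (not_le.1 (Finset.mem_filter.1 hx).2).le)
    have h7 : (((P.filter (fun x => ¬ D.md (D.sub c x.1) = D.md (D.sub c' x.2))).filter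
        (fun x => ¬ r ≤ f x)).card : ℝ) ≤ P.card := by
      exact_mod_cast Finset.card_le_card ((Finset.filter_subset _ _).trans (Finset.filter_subset _ _))
    rw [nsmul_eq_mul] at h6
    have h8 := mul_le_mul_of_nonneg_right (h7.trans s2) hr
    linarith only [h6, h8]
  have e5 : (P.filter (fun x => ¬ D.md (D.sub c x.1) = D.md (D.sub c' x.2))).filter (fun x => r ≤ f x) =
      P.filter (fun x => D.md (D.sub c x.1) ≠ D.md (D.sub c' x.2) ∧
        r ≤ (D.cell c c' t α β x.1 x.2).card) := by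
    rw [Finset.filter_filter]
  rw [← Finset.mul_sum] at s4
  rw [e5] at e3
  refine le_trans (mul_le_mul_of_nonneg_left ?_ he) s4
  linarith only [s1, e1, e2, e3, e4]

end StepData
end abstract_step

end KAut
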