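import Mathlib
import Pool.Agent.Lib.MP_33914b_an.NmDef

/-!
# MP_33914b_an, file S7  (ROW ka-S7)
Paper: /team-store/kaut_paper.md

PROOF / HINTS:
numeric. Everything is explicit: S/ell = 1/(1+q), h/ell = 1/(q^4+q^5), G <= 3 sp', h' = (4H+3) sp', h' >= 4 q^6 h, H = 4^k*4097-1, q > 2^14 8^k. Right side is affine in len with slope >= ee (k+1), so the worst case is len = rr(k+1) h(k+1) (checked by computer for k<=8 with large margin):
loss fraction <= 2G/(rr' h') + 2S/ell + 4S/(rr' h') + 2 rr_k + 4 rr_k h/(rr' h') + 56 (h/ell)(N/q+2)(1+2 ell/(rr' h')) <= 2^-k (0.0118 + 0.0005 + 2^-3 [0 for k=0] + 0.01) <= 2^-k/4 <= 1 - ee(k+1)/ee(k).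
-/
set_option autoImplicit false

namespace KAut

/-- the numerical part of the induction -/
theorem loss_bound (k : ℕ) (len : ℝ) (hlen : rr (k + 1) * h (k + 1) ≤ len) :
    ee (k + 1) * len ≤ ee k * (len - 2 * (G k + S k * (len / ell k + 2))
      - 2 * (rr k * h k) * (len / h k + 2) - h k * ((len / ell k + 2) * (56 * (N k / q k + 2)))) := by
  -- notation
  obtain ⟨x, hx⟩ : ∃ x : ℝ, x = (1 / 2) ^ k := ⟨_, rfl⟩
  have hx0 : 0 < x := by rw [hx]; positivity
  have hx1 : x ≤ 1 := by rw [hx]; exact pow_le_one₀ (by norm_num) (by norm_num)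
  have hx2 : x * 2 ^ k = 1 := by rw [hx, ← mul_pow]; norm_num
  have hee : ee k = (1 + x) / 2 := by rw [hx]; rfl
  have hee' : ee (k + 1) = (1 + x / 2) / 2 := by
    rw [hx]
    unfold ee
    rw [pow_succ]
    ring
  have hrr' : rr (k + 1) = x / 32 := by
    rw [hx]
    unfold rr
    rw [if_neg (Nat.succ_ne_zero k), pow_succ, pow_add, pow_succ]
    ring
  have hrr : rr k ≤ x / 16 := by
    unfold rr
    split_ifs
    · positivity
    · rw [hx, pow_add]
      exact le_of_eq (by ring)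
  have hrr0 : 0 ≤ rr k := by
    unfold rr
    split_ifs
    · exact le_refl _
    · positivity
  obtain ⟨Q, hQ⟩ : ∃ Q : ℝ, Q = (q k : ℝ) := ⟨_, rfl⟩
  obtain ⟨hh, hhh⟩ : ∃ hh : ℝ, hh = (h k : ℝ) := ⟨_, rfl⟩
  have hh0 : 0 < hh := by rw [hhh]; exact_mod_cast h_pos k
  have hQ1 : (16384 : ℝ) ≤ x * Q := by
    have h1 : 2 ^ 14 * 8 ^ k ≤ q k := (two_pow_lt_q k).le
    have h2 : 2 ^ k ≤ 8 ^ k := Nat.pow_le_pow_left (by norm_num) k
    have h3 : 2 ^ 14 * 2 ^ k ≤ q k := (Nat.mul_le_mul_left _ h2).trans h1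
    have h4 : (2 : ℝ) ^ 14 * 2 ^ k ≤ Q := by rw [hQ]; exact_mod_cast h3
    have h5 := mul_le_mul_of_nonneg_left h4 hx0.le
    have h6 : x * ((2 : ℝ) ^ 14 * 2 ^ k) = 16384 * (x * 2 ^ k) := by ring
    rw [h6, hx2] at h5
    linarith only [h5]
  have hQ0 : 0 < Q := by
    rw [hQ]
    exact_mod_cast q_pos k
  have hQ2 : (16384 : ℝ) ≤ Q := by
    have h1 : x * Q ≤ 1 * Q := mul_le_mul_of_nonneg_right hx1 hQ0.le
    linarith only [h1, hQ1]
  obtain ⟨s, hs⟩ : ∃ s : ℝ, s = Q ^ 4 * hh := ⟨_, rfl⟩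
  have hs0 : 0 < s := by rw [hs]; positivity
  have eS : (S k : ℝ) = s := by
    rw [hs, hQ, hhh]
    unfold S
    push_cast
    rfl
  have eN : (N k : ℝ) = Q ^ 5 := by
    rw [hQ]
    unfold N
    push_cast
    rfl
  have eell : (ell k : ℝ) = s * (1 + Q) := by
    rw [ell_eq, hs, hQ, hhh]
    push_cast
    ring
  -- the length
  have hlen1 : x / 32 * (h (k + 1) : ℝ) ≤ len := by
    rw [← hrr']
    exact hlen
  obtain ⟨s', hs'⟩ : ∃ s' : ℝ, s' = (sp (k + 1) : ℝ) := ⟨_, rfl⟩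
  have hs'0 : 0 < s' := by rw [hs']; exact_mod_cast sp_pos (k + 1)
  have hG : (G k : ℝ) ≤ 3 * s' := by
    have h1 := US_add_G k
    have h2 : G k ≤ 3 * sp (k + 1) := by omega
    rw [hs']
    exact_mod_cast h2
  have f1 : 512 * s' ≤ x * len := by
    have h1 : 4 ^ (k + 1) * 4096 ≤ H (k + 1) := by
      have h2 := H_add_one (k + 1)
      have h3 : 1 ≤ 4 ^ (k + 1) := Nat.one_le_pow _ _ (by norm_num)
      omega
    have h4 : (4 : ℝ) ^ (k + 1) * 4096 ≤ (H (k + 1) : ℝ) := by exact_mod_cast h1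
    have h5 : (h (k + 1) : ℝ) = (H (k + 1) : ℝ) * s' := by
      rw [hs']
      unfold h
      push_cast
      rfl
    have h6 : (4 : ℝ) ^ (k + 1) * 4096 * s' ≤ (h (k + 1) : ℝ) := by
      rw [h5]
      exact mul_le_mul_of_nonneg_right h4 hs'0.le
    have h7 : x * (x / 32 * ((4 : ℝ) ^ (k + 1) * 4096 * s')) ≤ x * len := by
      refine mul_le_mul_of_nonneg_left ?_ hx0.le
      exact (mul_le_mul_of_nonneg_left h6 (by positivity)).trans hlen1
    have h8 : x * (x / 32 * ((4 : ℝ) ^ (k + 1) * 4096 * s')) = (x * 2 ^ k) ^ 2 * 512 * s' := by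
      have : (4 : ℝ) ^ (k + 1) = (2 ^ k) ^ 2 * 4 := by
        rw [pow_succ, ← pow_mul, mul_comm k 2, pow_mul]
        norm_num
      rw [this]
      ring
    rw [h8, hx2] at h7
    linarith only [h7]
  have f2 : x * (Q ^ 2 * s) ≤ 8 * len := by
    have h1 : (h (k + 1) : ℝ) = 4 * Q ^ 6 * hh + 3 * s' := by
      rw [h_succ', L_eq, hQ, hhh, hs']
      push_cast
      ring
    have h2 : 4 * (Q ^ 2 * s) ≤ (h (k + 1) : ℝ) := by
      rw [h1, hs]
      have : 4 * (Q ^ 2 * (Q ^ 4 * hh)) = 4 * Q ^ 6 * hh := by ring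
      rw [this]
      linarith only [hs'0]
    have h3 := (mul_le_mul_of_nonneg_left h2 (by positivity : 0 ≤ x / 32)).trans hlen1
    linarith only [h3]
  have hlen0 : 0 ≤ len := by
    have : 0 < x * (Q ^ 2 * s) := by positivity
    linarith only [this, f2]
  have f3 : 33554432 * s ≤ x * len := by
    have h1 : (16384 : ℝ) ^ 2 ≤ (x * Q) ^ 2 := pow_le_pow_left₀ (by norm_num) hQ1 2
    have h2 := mul_le_mul_of_nonneg_right h1 hs0.le
    have h3 : (x * Q) ^ 2 * s = x * (x * (Q ^ 2 * s)) := by ring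
    rw [h3] at h2
    have h4 := mul_le_mul_of_nonneg_left f2 hx0.le
    linarith only [h2, h4]
  -- `len / (1 + Q)`
  obtain ⟨m, hm⟩ : ∃ m : ℝ, m = len / (1 + Q) := ⟨_, rfl⟩
  have hm1 : 16384 * m ≤ x * len := by
    have h1 : (16384 : ℝ) ≤ x * (1 + Q) := by
      rw [mul_add]
      linarith only [hQ1, hx0]
    rw [hm, ← mul_div_assoc, div_le_iff₀ (by positivity)]
    have h2 := mul_le_mul_of_nonneg_right h1 hlen0
    linarith only [h2]
  have hm0 : 0 ≤ m := by rw [hm]; positivity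
  have g1 : s * (len / (s * (1 + Q))) = m := by
    rw [hm]
    field_simp
  have hhs : hh ≤ s := by
    rw [hs]
    have : 1 ≤ Q ^ 4 := one_le_pow₀ (by linarith only [hQ2])
    exact le_mul_of_one_le_left hh0.le this
  -- the three terms
  have a1 : 2 * ((G k : ℝ) + S k * (len / ell k + 2)) ≤ 6 * s' + 2 * m + 4 * s := by
    rw [eS, eell]
    have : s * (len / (s * (1 + Q)) + 2) = m + 2 * s := by rw [mul_add, g1]; ring
    rw [this]
    linarith only [hG]
  have a2 : 2 * (rr k * (h k : ℝ)) * (len / h k + 2) ≤ x / 8 * len + s := by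
    rw [← hhh]
    have h1 : 2 * (rr k * hh) * (len / hh + 2) = rr k * (2 * len + 4 * hh) := by
      field_simp
      ring
    rw [h1]
    have h2 : rr k * (2 * len + 4 * hh) ≤ x / 16 * (2 * len + 4 * hh) :=
      mul_le_mul_of_nonneg_right hrr (by positivity)
    have h3 : x / 4 * hh ≤ 1 / 4 * s := mul_le_mul (by linarith only [hx1]) hhs hh0.le (by norm_num)
    linarith only [h2, h3, hs0]
  have a3 : (h k : ℝ) * ((len / ell k + 2) * (56 * (N k / q k + 2))) ≤ 112 * m + 224 * s := by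
    rw [← hhh, eell, eN, ← hQ]
    have h1 : Q ^ 5 / Q = Q ^ 4 := by
      field_simp
    rw [h1]
    have h2 : hh * (Q ^ 4 + 2) ≤ 2 * s := by
      have : hh * (Q ^ 4 + 2) = s + 2 * hh := by rw [hs]; ring
      have h3 : 2 * hh ≤ s := by
        rw [hs]
        have : 2 ≤ Q ^ 4 := by
          have h4 : Q ≤ Q ^ 4 := le_self_pow₀ (by linarith only [hQ2]) (by norm_num)
          linarith only [h4, hQ2]
        exact mul_le_mul_of_nonneg_right this hh0.le
      linarith only [this, h3]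
    have h3 : 0 ≤ len / (s * (1 + Q)) + 2 := by positivity
    have h4 : hh * ((len / (s * (1 + Q)) + 2) * (56 * (Q ^ 4 + 2))) =
        56 * ((hh * (Q ^ 4 + 2)) * (len / (s * (1 + Q)) + 2)) := by ring
    rw [h4]
    have h5 := mul_le_mul_of_nonneg_right h2 h3
    have h6 : 2 * s * (len / (s * (1 + Q)) + 2) = 2 * m + 4 * s := by
      rw [← g1]
      ring
    rw [h6] at h5
    linarith only [h5]
  have hxl : 0 ≤ x * len := by positivity
  have tot : x / 4 * len ≥ 2 * ((G k : ℝ) + S k * (len / ell k + 2)) +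
      2 * (rr k * (h k : ℝ)) * (len / h k + 2) +
      (h k : ℝ) * ((len / ell k + 2) * (56 * (N k / q k + 2))) := by
    linarith only [a1, a2, a3, f1, f3, hm1, hxl]
  have he1 : ee k ≤ 1 := by rw [hee]; linarith only [hx1]
  have he0 : 0 ≤ ee k := by rw [hee]; linarith only [hx0]
  have t1 : ee k * (len - x / 4 * len) ≤ ee k * (len - 2 * (G k + S k * (len / ell k + 2))
      - 2 * (rr k * h k) * (len / h k + 2) - h k * ((len / ell k + 2) * (56 * (N k / q k + 2)))) :=
    mul_le_mul_of_nonneg_left (by linarith only [tot]) he0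
  refine le_trans ?_ t1
  have t2 : ee k * (x / 4 * len) ≤ 1 * (x / 4 * len) :=
    mul_le_mul_of_nonneg_right he1 (by positivity)
  have t3 : ee (k + 1) * len = ee k * len - x / 4 * len := by
    rw [hee, hee']
    ring
  rw [t3, mul_sub]
  linarith only [t2]

end KAut
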