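import Mathlib
import Pool.Agent.Lib.MP_33914b_an.S5
import Pool.Agent.Lib.MP_33914b_an.S7

/-!
# MP_33914b_an, file S6  (ROW ka-S6)
Paper: /team-store/kaut_paper.md

PROOF / HINTS:
nm_pos: down0 (k+1) = down0 k o down1, down1_pos. sep_zero: down0 a 0 = id, P0 = mode. sep_step: StepData with q k, h k, S k, U k, N k, G k, B = nm a (level k), md = mode, B' = nm a, md' = mode, g = offs.1, o c u = ofs (a k) (offs c) u, sub c i = sub c i if i<L (any column otherwise; C k nonempty),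
hmd' from L_mul_q_le; step with r = rr k * h k, e = ee k; loss_bound. sep_all: induction. ee >= 1/2.
-/
set_option autoImplicit false

namespace KAut

/-- the step data of level `k` -/
theorem nm_pos (a : ℕ → ℕ) {k : ℕ} (c : C (k + 1)) (i : Fin (L k)) (p : ℕ) (hp : p < h k) :
    nm a c (pos (a k) (offs c) i + p) = nm a (sub c i) p := by
  have h1 : pos (a k) (offs c) i + p < h (k + 1) := pos_add_lt (a k) (offs c) i ⟨p, hp⟩
  have h2 := down1_pos (a k) c i ⟨p, hp⟩
  unfold nm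
  rw [dif_pos h1, dif_pos hp]
  show P0 (down0 a k (down1 (a k) _)) = _
  congr 2

theorem sep_zero (a : ℕ → ℕ) : Sep (fun (c : C 0) z => nm a c z) (fun c => (c.1 : ℕ)) (h 0) 0 1 := by
  intro c c' hcc t α β h1 h2 h3 h4 h5 _
  have hall : (Finset.Ico α β).filter
      (fun z : ℤ => (fun (c : C 0) z => nm a c z) c z.toNat ≠ (fun (c : C 0) z => nm a c z) c' (z - t).toNat) =
      Finset.Ico α β := by
    rw [Finset.filter_eq_self]
    intro z hz
    rw [Finset.mem_Ico] at hz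
    have k1 : z.toNat < h 0 := by omega
    have k2 : (z - t).toNat < h 0 := by omega
    show nm a c z.toNat ≠ nm a c' (z - t).toNat
    unfold nm
    rw [dif_pos k1, dif_pos k2]
    intro he
    apply hcc
    have he' : (some c.1 : Option (Fin (q 0))) = some c'.1 := he
    rw [Option.some_inj] at he'
    show (c.1 : ℕ) = (c'.1 : ℕ)
    rw [he']
  rw [hall, Int.card_Ico, one_mul]
  have h6 : (((β - α).toNat : ℕ) : ℤ) = β - α := Int.toNat_of_nonneg (by omega)
  have h7 : (((β - α).toNat : ℕ) : ℝ) = ((β - α : ℤ) : ℝ) := by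
    exact_mod_cast congrArg (Int.cast (R := ℝ)) h6
  rw [h7]
  push_cast
  exact le_refl _

open Classical in
/-- the data -/
noncomputable def S6_data (a : ℕ → ℕ) (k : ℕ) : StepData (Option (Fin (q 0))) (C k) (C (k + 1)) where
  q := q k
  h := h k
  S := S k
  U := U k
  N := N k
  G := G k
  B := fun c z => nm a c z
  md := fun c => (c.1 : ℕ)
  B' := fun c z => nm a c z
  md' := fun c => (c.1 : ℕ)
  g := fun c => ((offs c).1 : ℕ)
  o := fun c u => ofs (a k) (offs c) u
  sub := fun c i => if hi : i < L k then sub c ⟨i, hi⟩ else sub c ⟨0, L_pos k⟩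
  hq := q_prime k
  hq2 := lt_trans (by norm_num) (q_ge k)
  hh := h_pos k
  hN := N_pos k
  hU := U_pos k
  hg := fun c => (offs c).1.2
  hSG := S_le_G k
  ho := fun c u _ => ofs_lt _ _ _
  hmode := by
    intro c i hi
    have hi' : i < L k := hi
    show (((if hi : i < L k then sub c ⟨i, hi⟩ else sub c ⟨0, L_pos k⟩ : C k).1 : Fin (q k)) : ℕ) = _
    rw [dif_pos hi']
    rfl
  hmd' := by
    intro c
    have h1 := L_mul_q_le k
    have h2 : (c.1 : ℕ) + 1 ≤ q (k + 1) := c.1.2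
    have h3 : L k * ((c.1 : ℕ) + 1) ≤ L k * q (k + 1) := Nat.mul_le_mul_left _ h2
    exact h3.trans h1
  hB' := by
    intro c u j p hu hj hp
    have hi : u * N k + j < L k := by
      have h1 : u * N k + j < (u + 1) * N k := by
        rw [add_mul, one_mul]
        omega
      exact lt_of_lt_of_le h1 (Nat.mul_le_mul_right _ hu)
    show nm a c _ = nm a (if hi : u * N k + j < L k then sub c ⟨u * N k + j, hi⟩ else sub c ⟨0, L_pos k⟩ : C k) p
    rw [dif_pos hi, ← nm_pos a c ⟨u * N k + j, hi⟩ p hp]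
    congr 1
    unfold pos ell
    have h1 : (u * N k + j) / N k = u := by
      rw [Nat.add_comm, Nat.add_mul_div_right _ _ (N_pos k), Nat.div_eq_of_lt hj, zero_add]
    have h2 : (u * N k + j) % N k = j := by
      rw [Nat.add_comm, Nat.add_mul_mod_self_right, Nat.mod_eq_of_lt hj]
    show _ = _ + ((u * N k + j) / N k) * _ + _ + ((u * N k + j) % N k) * _ + p
    rw [h1, h2]

theorem S6_rr_nonneg (k : ℕ) : 0 ≤ rr k := by
  unfold rr
  split_ifs
  · exact le_refl _
  · positivity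

theorem S6_ee_ge (k : ℕ) : 1 / 2 ≤ ee k := by
  unfold ee
  have : (0 : ℝ) < (1 / 2) ^ k := by positivity
  linarith

/-- one step of the construction -/
theorem sep_step (a : ℕ → ℕ) (k : ℕ)
    (hsep : Sep (fun (c : C k) z => nm a c z) (fun c => (c.1 : ℕ)) (h k) (rr k * h k) (ee k))
    (c c' : C (k + 1)) (t α β : ℤ) (h1 : 0 ≤ α) (h2 : t ≤ α) (h3 : α ≤ β) (h4 : β ≤ h (k + 1))
    (h5 : β ≤ t + h (k + 1)) (hne : (c.1 : ℕ) ≠ c'.1 ∨ (2 * S k + h k : ℤ) ≤ |t|)
    (hlen : rr (k + 1) * h (k + 1) ≤ (β - α : ℤ)) :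
    ee (k + 1) * (β - α : ℤ) ≤
      (((Finset.Ico α β).filter (fun z : ℤ => nm a c z.toNat ≠ nm a c' (z - t).toNat)).card : ℝ) := by
  have hH : (S6_data a k).H' = h (k + 1) := (h_succ k).symm
  have h6 := StepData.step (S6_data a k) (rr k * h k) (ee k)
    (mul_nonneg (S6_rr_nonneg k) (Nat.cast_nonneg _)) (le_trans (by norm_num) (S6_ee_ge k)) hsep
    c c' t α β h1 h2 h3 (by rw [hH]; exact h4) (by rw [hH]; exact h5) hne
  exact (loss_bound k _ hlen).trans h6

/-- (S_k) -/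
theorem sep_all (a : ℕ → ℕ) (k : ℕ) :
    Sep (fun (c : C k) z => nm a c z) (fun c => (c.1 : ℕ)) (h k) (rr k * h k) (ee k) := by
  induction k with
  | zero =>
    have h1 : rr 0 = 0 := if_pos rfl
    have h2 : ee 0 = 1 := by
      unfold ee
      norm_num
    rw [h1, h2, zero_mul]
    exact sep_zero a
  | succ k ih =>
    intro c c' hcc t α β h1 h2 h3 h4 h5 h6
    have h7 := sep_step a k ih c c' t α β h1 h2 h3 h4 h5 (Or.inl hcc) (by push_cast; exact h6)
    push_cast at h7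
    exact h7

/-- (S+_{k+1}) -/
theorem sep_plus (a : ℕ → ℕ) (k : ℕ) (c c' : C (k + 1)) (t α β : ℤ) (h1 : 0 ≤ α) (h2 : t ≤ α) (h3 : α ≤ β)
    (h4 : β ≤ h (k + 1)) (h5 : β ≤ t + h (k + 1)) (hne : (c.1 : ℕ) ≠ c'.1 ∨ (2 * S k + h k : ℤ) ≤ |t|)
    (hlen : rr (k + 1) * h (k + 1) ≤ (β - α : ℤ)) :
    (1 / 2 : ℝ) * (β - α : ℤ) ≤
      (((Finset.Ico α β).filter (fun z : ℤ => nm a c z.toNat ≠ nm a c' (z - t).toNat)).card : ℝ) := by
  have h6 := sep_step a k (sep_all a k) c c' t α β h1 h2 h3 h4 h5 hne hlen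
  have h7 : (0 : ℝ) ≤ ((β - α : ℤ) : ℝ) := by
    exact_mod_cast sub_nonneg.2 h3
  exact (mul_le_mul_of_nonneg_right (S6_ee_ge (k + 1)) h7).trans h6

end KAut
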