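import Mathlib
import Pool.Agent.Lib.MP_33914b_an.S6

/-!
# MP_33914b_an, file S8  (ROW ka-S8)
Paper: /team-store/kaut_paper.md

PROOF / HINTS:
Suppose 2S+h <= |pi-pi'| <= h' - (2S+h) (h' = h (k+1)), say pi < pi'. Window s in [0,h'): three intervals: [0,h'-pi'): c1 against d1, shift t = pi-pi'; [h'-pi', h'-pi): c1 against d2, t = pi - pi' + h'; [h'-pi,h'): c2 against d2, t = pi-pi'. sep_plus on each interval of length >= rr(k+1) h':
mismatches >= (1/2)(h' - 3 rr(k+1) h') > h'/8.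
-/
set_option autoImplicit false

namespace KAut

/-- transport of the mismatches of an interval -/
theorem S8_part (a : ℕ → ℕ) (k : ℕ) (c d : C (k + 1)) (F : Finset ℕ) (t α β m : ℤ)
    (hm : m ≤ α)
    (hF : ∀ z : ℤ, α ≤ z → z < β → nm a c z.toNat ≠ nm a d (z - t).toNat → (z - m).toNat ∈ F) :
    ((Finset.Ico α β).filter (fun z : ℤ => nm a c z.toNat ≠ nm a d (z - t).toNat)).card ≤
      (F.filter (fun s : ℕ => α - m ≤ s ∧ (s : ℤ) < β - m)).card := by
  refine Finset.card_le_card_of_injOn (fun z => (z - m).toNat) ?_ ?_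
  · intro z hz
    rw [Finset.mem_coe, Finset.mem_filter, Finset.mem_Ico] at hz
    rw [Finset.mem_coe, Finset.mem_filter]
    refine ⟨hF z hz.1.1 hz.1.2 hz.2, ?_, ?_⟩
    · show α - m ≤ ((z - m).toNat : ℤ)
      omega
    · show ((z - m).toNat : ℤ) < β - m
      omega
  · intro z hz z' hz' h
    rw [Finset.mem_coe, Finset.mem_filter, Finset.mem_Ico] at hz hz'
    have h' : (z - m).toNat = (z' - m).toNat := h
    omega

/-- the bound for one interval -/
theorem S8_bound (a : ℕ → ℕ) (k : ℕ) (c c' : C (k + 1)) (t α β : ℤ) (h1 : 0 ≤ α) (h2 : t ≤ α) (h3 : α ≤ β)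
    (h4 : β ≤ h (k + 1)) (h5 : β ≤ t + h (k + 1)) (hne : (2 * S k + h k : ℤ) ≤ |t|) :
    (1 / 2 : ℝ) * ((β - α : ℤ) - rr (k + 1) * h (k + 1)) ≤
      (((Finset.Ico α β).filter (fun z : ℤ => nm a c z.toNat ≠ nm a c' (z - t).toNat)).card : ℝ) := by
  have hr : 0 ≤ rr (k + 1) * h (k + 1) := mul_nonneg (S6_rr_nonneg _) (Nat.cast_nonneg _)
  by_cases hlen : rr (k + 1) * h (k + 1) ≤ (β - α : ℤ)
  · have h6 := sep_plus a k c c' t α β h1 h2 h3 h4 h5 (Or.inr hne) hlen
    refine le_trans ?_ h6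
    linarith only [hr]
  · rw [not_le] at hlen
    refine le_trans ?_ (Nat.cast_nonneg _)
    linarith only [hlen]

/-- the case `π < π'` -/
theorem S8_lt (a : ℕ → ℕ) (k : ℕ) (c1 c2 d1 d2 : C (k + 1)) (π π' : ℕ) (hπ' : π' < h (k + 1))
    (hlt : π < π') (g1 : (2 * S k + h k : ℤ) ≤ (π' : ℤ) - π)
    (g2 : (π' : ℤ) - π ≤ (h (k + 1) : ℤ) - (2 * S k + h k)) :
    (h (k + 1) : ℝ) / 8 <
      (((Finset.range (h (k + 1))).filter (fun s => win a c1 c2 π s ≠ win a d1 d2 π' s)).card : ℝ) := by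
  classical
  set F := (Finset.range (h (k + 1))).filter (fun s => win a c1 c2 π s ≠ win a d1 d2 π' s) with hF
  have hp : (0 : ℤ) < 2 * S k + h k := by
    have := h_pos k
    omega
  -- the three intervals
  have b1 := S8_bound a k c1 d1 ((π : ℤ) - π') π (π + (h (k + 1) - π')) (by omega) (by omega) (by omega)
    (by omega) (by omega) (by rw [abs_of_nonpos (by omega)]; omega)
  have b2 := S8_bound a k c1 d2 ((π : ℤ) - π' + h (k + 1)) (π + (h (k + 1) - π')) (h (k + 1)) (by omega)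
    (by omega) (by omega) (by omega) (by omega) (by rw [abs_of_nonneg (by omega)]; omega)
  have b3 := S8_bound a k c2 d2 ((π : ℤ) - π') 0 π (by omega) (by omega) (by omega)
    (by omega) (by omega) (by rw [abs_of_nonpos (by omega)]; omega)
  have p1 := S8_part a k c1 d1 F ((π : ℤ) - π') π (π + (h (k + 1) - π')) π le_rfl (by
    intro z hz1 hz2 hne
    rw [hF, Finset.mem_filter, Finset.mem_range]
    refine ⟨by omega, ?_⟩
    unfold win
    rw [if_pos (by omega), if_pos (by omega)]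
    have e1 : π + (z - (π : ℤ)).toNat = z.toNat := by omega
    have e2 : π' + (z - (π : ℤ)).toNat = (z - ((π : ℤ) - π')).toNat := by omega
    rw [e1, e2]
    exact hne)
  have p2 := S8_part a k c1 d2 F ((π : ℤ) - π' + h (k + 1)) (π + (h (k + 1) - π')) (h (k + 1)) π
    (by omega) (by
    intro z hz1 hz2 hne
    rw [hF, Finset.mem_filter, Finset.mem_range]
    refine ⟨by omega, ?_⟩
    unfold win
    rw [if_pos (by omega), if_neg (by omega)]
    have e1 : π + (z - (π : ℤ)).toNat = z.toNat := by omega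
    have e2 : π' + (z - (π : ℤ)).toNat - h (k + 1) = (z - ((π : ℤ) - π' + h (k + 1))).toNat := by omega
    rw [e1, e2]
    exact hne)
  have p3 := S8_part a k c2 d2 F ((π : ℤ) - π') 0 π ((π : ℤ) - h (k + 1)) (by omega) (by
    intro z hz1 hz2 hne
    rw [hF, Finset.mem_filter, Finset.mem_range]
    refine ⟨by omega, ?_⟩
    unfold win
    rw [if_neg (by omega), if_neg (by omega)]
    have e1 : π + (z - ((π : ℤ) - h (k + 1))).toNat - h (k + 1) = z.toNat := by omega
    have e2 : π' + (z - ((π : ℤ) - h (k + 1))).toNat - h (k + 1) = (z - ((π : ℤ) - π')).toNat := by omega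
    rw [e1, e2]
    exact hne)
  clear_value F
  have dj1 : Disjoint (F.filter (fun s : ℕ => (π : ℤ) - π ≤ s ∧ (s : ℤ) < π + (h (k + 1) - π') - π))
      (F.filter (fun s : ℕ => (π : ℤ) + (h (k + 1) - π') - π ≤ s ∧ (s : ℤ) < h (k + 1) - π)) := by
    rw [Finset.disjoint_left]
    intro s hs hs'
    rw [Finset.mem_filter] at hs hs'
    omega
  have dj2 : Disjoint ((F.filter (fun s : ℕ => (π : ℤ) - π ≤ s ∧ (s : ℤ) < π + (h (k + 1) - π') - π)) ∪
      (F.filter (fun s : ℕ => (π : ℤ) + (h (k + 1) - π') - π ≤ s ∧ (s : ℤ) < h (k + 1) - π)))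
      (F.filter (fun s : ℕ => (0 : ℤ) - ((π : ℤ) - h (k + 1)) ≤ s ∧ (s : ℤ) < π - ((π : ℤ) - h (k + 1)))) := by
    rw [Finset.disjoint_left]
    intro s hs hs'
    rw [Finset.mem_union, Finset.mem_filter, Finset.mem_filter] at hs
    rw [Finset.mem_filter] at hs'
    rcases hs with hs | hs <;> omega
  have hsub : ((F.filter (fun s : ℕ => (π : ℤ) - π ≤ s ∧ (s : ℤ) < π + (h (k + 1) - π') - π)) ∪
      (F.filter (fun s : ℕ => (π : ℤ) + (h (k + 1) - π') - π ≤ s ∧ (s : ℤ) < h (k + 1) - π))) ∪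
      (F.filter (fun s : ℕ => (0 : ℤ) - ((π : ℤ) - h (k + 1)) ≤ s ∧ (s : ℤ) < π - ((π : ℤ) - h (k + 1)))) ⊆ F :=
    Finset.union_subset (Finset.union_subset (Finset.filter_subset _ _) (Finset.filter_subset _ _))
      (Finset.filter_subset _ _)
  have hc := Finset.card_le_card hsub
  rw [Finset.card_union_of_disjoint dj2, Finset.card_union_of_disjoint dj1] at hc
  have hc' := (add_le_add (add_le_add p1 p2) p3).trans hc
  have hcR := (Nat.cast_le (α := ℝ)).2 hc'
  rw [Nat.cast_add, Nat.cast_add] at hcR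
  have hrr : rr (k + 1) ≤ 1 / 32 := by
    unfold rr
    rw [if_neg (Nat.succ_ne_zero k)]
    have : ((1 : ℝ) / 2) ^ (k + 1 + 4) = (1 / 2) ^ k * (1 / 32) := by
      rw [add_assoc, pow_add]
      norm_num
    rw [this]
    have h1 : ((1 : ℝ) / 2) ^ k ≤ 1 := pow_le_one₀ (by norm_num) (by norm_num)
    linarith only [h1]
  have hh : (0 : ℝ) < h (k + 1) := by exact_mod_cast h_pos (k + 1)
  have hrh : rr (k + 1) * h (k + 1) ≤ 1 / 32 * h (k + 1) := mul_le_mul_of_nonneg_right hrr hh.le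
  push_cast at b1 b2 b3 hcR
  linarith only [b1, b2, b3, hcR, hrh, hh]

/-- windows which differ in at most `1/8` of the places have nearly the same phase -/
theorem phase_close (a : ℕ → ℕ) (k : ℕ) (c1 c2 d1 d2 : C (k + 1)) (π π' : ℕ) (hπ : π < h (k + 1)) (hπ' : π' < h (k + 1))
    (hd : (((Finset.range (h (k + 1))).filter (fun s => win a c1 c2 π s ≠ win a d1 d2 π' s)).card : ℝ) ≤
      h (k + 1) / 8) :
    |(π : ℤ) - π'| < 2 * S k + h k ∨ (h (k + 1) : ℤ) - (2 * S k + h k) < |(π : ℤ) - π'| := by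
  classical
  by_contra hcon
  rw [not_or, not_lt, not_lt] at hcon
  obtain ⟨g1, g2⟩ := hcon
  rcases lt_trichotomy π π' with hlt | heq | hgt
  · have e1 : |(π : ℤ) - π'| = π' - π := by rw [abs_of_nonpos (by omega)]; ring
    rw [e1] at g1 g2
    have h1 := S8_lt a k c1 c2 d1 d2 π π' hπ' hlt g1 g2
    linarith only [h1, hd]
  · subst heq
    have := h_pos k
    rw [sub_self, abs_zero] at g1
    omega
  · have e1 : |(π : ℤ) - π'| = π - π' := abs_of_nonneg (by omega)
    rw [e1] at g1 g2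
    have h1 := S8_lt a k d1 d2 c1 c2 π' π hπ hgt g1 g2
    have h2 : (Finset.range (h (k + 1))).filter (fun s => win a d1 d2 π' s ≠ win a c1 c2 π s) =
        (Finset.range (h (k + 1))).filter (fun s => win a c1 c2 π s ≠ win a d1 d2 π' s) := by
      refine Finset.filter_congr fun s _ => ?_
      exact ne_comm
    rw [h2] at h1
    linarith only [h1, hd]

end KAut
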