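import Mathlib
import Pool.Agent.Lib.MP_33914b_an.N1
import Pool.Agent.Lib.MP_33914b_an.N3
import Pool.Agent.Lib.MP_33914b_an.N4
import Pool.Agent.Lib.MP_33914b_an.S8
import Pool.Agent.Lib.MP_33914b_an.F5

/-!
# MP_33914b_an, file N5  (ROW ka-N5)
Paper: /team-store/kaut_paper.md

PROOF / HINTS:
Section 6 of the paper. Q y = P0 (X a 0 (psi y)) (finite valued, measurable). delta = 1/3200; level_fun_dense for b and Q gives m0; choose k = k'+1 >= max(m0,...) with a k = 0, U k <= b k, large; F : E k -> values with lam{Q y != F (X b k y)} <= delta (take m = k).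
Good set GG: y in TypSet b k, psi y in TypSet a k, number of s<h k with Q(T_b^s y) != F(X b k (T_b^s y)) is <= h/16 and the same for s+ell; for all s: T_a^s (psi y) = psi (T_b^s y) (a.e., from hc, h1, h2), so P0 (X a 0 (T_a^s psi y)) = Q (T_b^s y). lam(GG^c) <= 32 delta + 6/H <= 1/50 (+ null sets).
Bad = pairs (al,al') with no y in GG with XiAt b k y al al'. lam_xi_pair_ge: for bad pairs {XiAt al al'} subset GG^c and these sets are disjoint: card Bad * (1-1/q)^2(1-3/H)/|Xi|^2 <= lam(GG^c). A0 = {y in GG : XiAt a k (psi y) be be', phase be < h/4}, A1: phase in [h/2,3h/4): lam >= 1/5 each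
(lam_phase_ge, psi measure preserving). {al : exists y in A0, XiAt b k y al _} has >= |Xi|/6 elements by lam_xi_le; same for second coordinates over A1. (|Xi|/6)^2 > card Bad, so y1 in A0, y2 in A1, y3 in GG with XiAt b k y1 al _, XiAt b k y2 _ al', XiAt b k y3 al al'. name_of_xi: F-names of y1,y3 agree on the first
window, so P0-names of psi y1, psi y3 differ in <= h/8 places there; P0_of_xi + phase_close (level k = k'+1): phases of psi y1, psi y3 are cyclically within 2S_{k'}+h_{k'}. Second window: same for y2,y3 and phases at time ell, which are the phases at time 0 (phase_eq, a k = 0).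
So the phases of psi y1 (in [0,h/4)) and psi y2 (in [h/2,3h/4)) are cyclically within 2(2S_{k'}+h_{k'}) <= 5 q^4 h_{k'} < h_k/8. Contradiction. (lam of non measurable sets: use outer measure / measure_mono; finite subadditivity is enough.)
-/
set_option autoImplicit false

open MeasureTheory

namespace KAut

/-- two names which follow a common name except at few places differ at few places -/
theorem N5_count {ι : Type} [DecidableEq ι] (n : ℕ) (w1 w2 w3 : ℕ → ι) (p1 p2 : Fin n → Prop)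
    (e1 : ∀ s : Fin n, ¬ p1 s → w1 s = w3 s) (e2 : ∀ s : Fin n, ¬ p2 s → w2 s = w3 s)
    (c1 : ¬ ((n : ℝ) / 16 < Nat.card {s : Fin n // p1 s}))
    (c2 : ¬ ((n : ℝ) / 16 < Nat.card {s : Fin n // p2 s})) :
    (((Finset.range n).filter (fun s => w1 s ≠ w2 s)).card : ℝ) ≤ n / 8 := by
  classical
  have k1 : Nat.card {s : Fin n // p1 s} = (Finset.univ.filter (fun s : Fin n => p1 s)).card := by
    rw [Nat.card_eq_fintype_card, Fintype.card_subtype]
  have k2 : Nat.card {s : Fin n // p2 s} = (Finset.univ.filter (fun s : Fin n => p2 s)).card := by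
    rw [Nat.card_eq_fintype_card, Fintype.card_subtype]
  have hsub : (Finset.range n).filter (fun s => w1 s ≠ w2 s) ⊆
      ((Finset.univ.filter (fun s : Fin n => p1 s)).image Fin.val) ∪
      ((Finset.univ.filter (fun s : Fin n => p2 s)).image Fin.val) := by
    intro s hs
    rw [Finset.mem_filter, Finset.mem_range] at hs
    rw [Finset.mem_union, Finset.mem_image, Finset.mem_image]
    by_cases q1 : p1 ⟨s, hs.1⟩
    · exact Or.inl ⟨⟨s, hs.1⟩, by simp [q1], rfl⟩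
    · by_cases q2 : p2 ⟨s, hs.1⟩
      · exact Or.inr ⟨⟨s, hs.1⟩, by simp [q2], rfl⟩
      · exact absurd ((e1 ⟨s, hs.1⟩ q1).trans (e2 ⟨s, hs.1⟩ q2).symm) hs.2
  have h3 := (Finset.card_le_card hsub).trans (Finset.card_union_le _ _)
  have h4 : (((Finset.univ.filter (fun s : Fin n => p1 s)).image Fin.val).card) ≤
      Nat.card {s : Fin n // p1 s} := by rw [k1]; exact Finset.card_image_le
  have h5 : (((Finset.univ.filter (fun s : Fin n => p2 s)).image Fin.val).card) ≤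
      Nat.card {s : Fin n // p2 s} := by rw [k2]; exact Finset.card_image_le
  have h6 : (((Finset.range n).filter (fun s => w1 s ≠ w2 s)).card : ℝ) ≤
      (Nat.card {s : Fin n // p1 s} : ℝ) + Nat.card {s : Fin n // p2 s} := by
    exact_mod_cast h3.trans (Nat.add_le_add h4 h5)
  rw [not_lt] at c1 c2
  linarith

/-- the intertwining relation along the orbits -/
theorem N5_inter (a b : ℕ → ℕ) (φ ψ : ℝ → ℝ)
    (hψ : MeasurePreserving ψ lam lam)
    (h1 : ∀ᵐ x ∂lam, ψ (φ x) = x) (h2 : ∀ᵐ x ∂lam, φ (ψ x) = x)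
    (hc : ∀ᵐ x ∂lam, φ (T a x) = T b (φ x)) :
    ∀ᵐ y ∂lam, ∀ s : ℕ, (T a)^[s] (ψ y) = ψ ((T b)^[s] y) := by
  have hTa : MeasurePreserving (T a) lam lam := (T_facts a).1
  have hTb : MeasurePreserving (T b) lam lam := (T_facts b).1
  have key : ∀ᵐ y ∂lam, T a (ψ y) = ψ (T b y) := by
    have e1 : ∀ᵐ y ∂lam, φ (T a (ψ y)) = T b (φ (ψ y)) :=
      hψ.quasiMeasurePreserving.ae hc
    have e2 : ∀ᵐ y ∂lam, ψ (φ (T a (ψ y))) = T a (ψ y) :=
      (hTa.comp hψ).quasiMeasurePreserving.ae h1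
    filter_upwards [e1, e2, h2] with y y1 y2 y3
    rw [← y2, y1, y3]
  have key2 : ∀ᵐ y ∂lam, ∀ s : ℕ, T a (ψ ((T b)^[s] y)) = ψ (T b ((T b)^[s] y)) := by
    rw [ae_all_iff]
    intro s
    exact (hTb.iterate s).quasiMeasurePreserving.ae key
  filter_upwards [key2] with y hy s
  induction s with
  | zero => rfl
  | succ s ih =>
    rw [Function.iterate_succ_apply', Function.iterate_succ_apply', ih, hy s]

/-- the window data are determined by the point -/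
theorem N5_unique {b : ℕ → ℕ} {k : ℕ} {y : ℝ} {α α' β β' : Xi k} (e1 : XiAt b k y α α')
    (e2 : XiAt b k y β β') : α = β ∧ α' = β' := by
  obtain ⟨-, c, p, hp, ht, hX, x1, x2⟩ := e1
  obtain ⟨-, c', p', hp', ht', hX', x1', x2'⟩ := e2
  rw [hX] at hX'
  obtain ⟨hc, hpp⟩ := Prod.mk.inj hX'
  have hpp' : p = p' := by
    have := Sum.inl.inj hpp
    exact congrArg Fin.val this
  subst hc
  subst hpp'
  exact ⟨x1.symm.trans x1', x2.symm.trans x2'⟩

theorem N5_measurable (b : ℕ → ℕ) (k : ℕ) (α α' : Xi k) : MeasurableSet {y | XiAt b k y α α'} := by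
  have : {y | XiAt b k y α α'} = Set.Ico (0 : ℝ) 1 ∩ {y | X b (k + 1) y ∈
      {e : E (k + 1) | ∃ (c : C (k + 1)) (p : ℕ) (hp : p < h (k + 1)) (ht : Typ k p),
        e = (c, Sum.inl ⟨p, hp⟩) ∧ xi (b k) c p ht.typW = α ∧
          xi (b k) c (p + ell k) ht.typW_add = α'}} := by
    ext y
    rfl
  rw [this]
  exact measurableSet_Ico.inter (measurable_X b (k + 1) _)

/-- counting: few bad pairs -/
theorem N5_bad (b : ℕ → ℕ) (k : ℕ) (hb : U k ≤ b k) (gg : Set ℝ)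
    (hgg : lam ggᶜ ≤ ENNReal.ofReal (1 / 50)) :
    (Nat.card {p : Xi k × Xi k // ¬ ∃ y ∈ gg, XiAt b k y p.1 p.2} : ℝ) < (Nat.card (Xi k) : ℝ) ^ 2 / 36 := by
  classical
  set bad : Finset (Xi k × Xi k) := Finset.univ.filter (fun p => ¬ ∃ y ∈ gg, XiAt b k y p.1 p.2)
    with hbad
  have hcard : Nat.card {p : Xi k × Xi k // ¬ ∃ y ∈ gg, XiAt b k y p.1 p.2} = bad.card := by
    rw [Nat.card_eq_fintype_card, Fintype.card_subtype]
  rw [hcard]
  have hX : (0 : ℝ) < Nat.card (Xi k) := by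
    have : NeZero (h k) := ⟨(h_pos k).ne'⟩
    have : 0 < Nat.card (Xi k) := Nat.card_pos
    exact_mod_cast this
  have hunion : lam (⋃ p ∈ bad, {y | XiAt b k y p.1 p.2}) = ∑ p ∈ bad, lam {y | XiAt b k y p.1 p.2} := by
    apply measure_biUnion_finset
    · intro p _ p' _ hne
      rw [Function.onFun, Set.disjoint_left]
      intro y y1 y2
      apply hne
      obtain ⟨z1, z2⟩ := N5_unique y1 y2
      exact Prod.ext z1 z2
    · intro p _
      exact N5_measurable b k p.1 p.2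
  have hle : lam (⋃ p ∈ bad, {y | XiAt b k y p.1 p.2}) ≤ lam ggᶜ := by
    apply measure_mono
    intro y hy
    rw [Set.mem_iUnion₂] at hy
    obtain ⟨p, hp, hy⟩ := hy
    intro hyg
    rw [hbad, Finset.mem_filter] at hp
    exact hp.2 ⟨y, hyg, hy⟩
  have hge : (bad.card : ENNReal) *
      ENNReal.ofReal ((1 - 1 / q k) ^ 2 * (1 - 3 / H k) / (Nat.card (Xi k) : ℝ) ^ 2) ≤
      ∑ p ∈ bad, lam {y | XiAt b k y p.1 p.2} := by
    rw [← nsmul_eq_mul]
    apply Finset.card_nsmul_le_sum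
    intro p _
    exact lam_xi_pair_ge b k hb p.1 p.2
  have htot := ((hge.trans hunion.ge).trans hle).trans hgg
  rw [← ENNReal.ofReal_natCast, ← ENNReal.ofReal_mul (by positivity),
    ENNReal.ofReal_le_ofReal_iff (by norm_num)] at htot
  have hq : (16384 : ℝ) ≤ q k := by
    have := q_ge k
    have h2 : 16384 ≤ q k := by norm_num at this; omega
    exact_mod_cast h2
  have hH : (4096 : ℝ) ≤ H k := by exact_mod_cast H_ge k
  have e1 : (1 : ℝ) / q k ≤ 1 / 100 := by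
    apply div_le_div_of_nonneg_left <;> linarith
  have e2 : (3 : ℝ) / H k ≤ 1 / 100 := by
    rw [div_le_div_iff₀ (by linarith) (by norm_num)]
    linarith
  have e3 : (97 / 100 : ℝ) ≤ (1 - 1 / q k) ^ 2 * (1 - 3 / H k) := by
    have h0 : (0 : ℝ) ≤ 1 / q k := by positivity
    have a1 : (99 / 100 : ℝ) ≤ 1 - 1 / q k := by linarith
    have a2 : (99 / 100 : ℝ) ≤ 1 - 3 / H k := by linarith
    have a3 : (99 / 100 : ℝ) ^ 2 ≤ (1 - 1 / q k) ^ 2 := pow_le_pow_left₀ (by norm_num) a1 2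
    calc (97 / 100 : ℝ) ≤ (99 / 100) ^ 2 * (99 / 100) := by norm_num
      _ ≤ _ := mul_le_mul a3 a2 (by norm_num) (by positivity)
  have hX2 : (0 : ℝ) < (Nat.card (Xi k) : ℝ) ^ 2 := by positivity
  rw [mul_div_assoc', div_le_iff₀ hX2] at htot
  have hb0 : (0 : ℝ) ≤ bad.card := Nat.cast_nonneg _
  have e4 : (bad.card : ℝ) * (97 / 100) ≤ 1 / 50 * (Nat.card (Xi k) : ℝ) ^ 2 :=
    (mul_le_mul_of_nonneg_left e3 hb0).trans htot
  rw [lt_div_iff₀ (by norm_num)]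
  linarith

/-- counting: many first window data over a set of measure at least `1/5` -/
theorem N5_many {ι : Type} [Fintype ι] (ff : ι → Set ℝ) (s : Set ℝ) (qq : ℝ) (hq : 100 ≤ qq)
    (hff : ∀ i, lam (ff i) ≤ ENNReal.ofReal ((1 + 1 / qq) / Nat.card ι))
    (hcov : ∀ y ∈ s, ∃ i, y ∈ ff i) (hs : ENNReal.ofReal (1 / 5) ≤ lam s) (hn : 0 < Nat.card ι) :
    (Nat.card ι : ℝ) / 6 ≤ Nat.card {i : ι // ∃ y ∈ s, y ∈ ff i} := by
  classical
  set good : Finset ι := Finset.univ.filter (fun i => ∃ y ∈ s, y ∈ ff i) with hgood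
  have hcard : Nat.card {i : ι // ∃ y ∈ s, y ∈ ff i} = good.card := by
    rw [Nat.card_eq_fintype_card, Fintype.card_subtype]
  rw [hcard]
  have hn' : (0 : ℝ) < Nat.card ι := by exact_mod_cast hn
  have h1 : lam s ≤ lam (⋃ i ∈ good, ff i) := by
    apply measure_mono
    intro y hy
    obtain ⟨i, hi⟩ := hcov y hy
    rw [Set.mem_iUnion₂]
    exact ⟨i, by rw [hgood, Finset.mem_filter]; exact ⟨Finset.mem_univ _, y, hy, hi⟩, hi⟩
  have h2 : lam (⋃ i ∈ good, ff i) ≤ ∑ i ∈ good, lam (ff i) := measure_biUnion_finset_le _ _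
  have h3 : ∑ i ∈ good, lam (ff i) ≤ good.card • ENNReal.ofReal ((1 + 1 / qq) / Nat.card ι) :=
    Finset.sum_le_card_nsmul _ _ _ (fun i _ => hff i)
  have h4 := ((hs.trans h1).trans h2).trans h3
  rw [nsmul_eq_mul, ← ENNReal.ofReal_natCast, ← ENNReal.ofReal_mul (by positivity),
    ENNReal.ofReal_le_ofReal_iff (by positivity), mul_div_assoc', le_div_iff₀ hn'] at h4
  have e1 : (1 : ℝ) / qq ≤ 1 / 100 := by
    apply div_le_div_of_nonneg_left <;> linarith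
  have hg : (0 : ℝ) ≤ good.card := Nat.cast_nonneg _
  have h5 : (good.card : ℝ) * (1 + 1 / qq) ≤ good.card * (6 / 5) :=
    mul_le_mul_of_nonneg_left (by linarith) hg
  linarith

/-- the abstract pigeonhole step -/
theorem N5_pick {ι : Type} [Fintype ι] (p1 p2 : ι → Prop) (p3 : ι × ι → Prop)
    (c1 : (Nat.card ι : ℝ) / 6 ≤ Nat.card {i : ι // p1 i})
    (c2 : (Nat.card ι : ℝ) / 6 ≤ Nat.card {i : ι // p2 i})
    (c3 : (Nat.card {p : ι × ι // ¬ p3 p} : ℝ) < (Nat.card ι : ℝ) ^ 2 / 36) :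
    ∃ i j, p1 i ∧ p2 j ∧ p3 (i, j) := by
  classical
  by_contra hcon
  push Not at hcon
  have h1 : Nat.card ({i : ι // p1 i} × {i : ι // p2 i}) ≤ Nat.card {p : ι × ι // ¬ p3 p} := by
    apply Nat.card_le_card_of_injective
      (fun x : {i : ι // p1 i} × {i : ι // p2 i} =>
        (⟨(x.1.1, x.2.1), hcon _ _ x.1.2 x.2.2⟩ : {p : ι × ι // ¬ p3 p}))
    rintro ⟨⟨x, hx⟩, ⟨y, hy⟩⟩ ⟨⟨x', hx'⟩, ⟨y', hy'⟩⟩ hxy
    simp only [Subtype.mk.injEq, Prod.mk.injEq] at hxy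
    obtain ⟨rfl, rfl⟩ := hxy
    rfl
  rw [Nat.card_prod] at h1
  have h2 : ((Nat.card {i : ι // p1 i} : ℝ)) * (Nat.card {i : ι // p2 i} : ℝ) ≤
      (Nat.card {p : ι × ι // ¬ p3 p} : ℝ) := by exact_mod_cast h1
  have h3 : (Nat.card ι : ℝ) / 6 * ((Nat.card ι : ℝ) / 6) ≤
      ((Nat.card {i : ι // p1 i} : ℝ)) * (Nat.card {i : ι // p2 i} : ℝ) :=
    mul_le_mul c1 c2 (by positivity) (by positivity)
  have h4 : (Nat.card ι : ℝ) / 6 * ((Nat.card ι : ℝ) / 6) = (Nat.card ι : ℝ) ^ 2 / 36 := by ring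
  linarith

/-- the parameters: phases in `[0,h/4)` and `[h/2,3h/4)` are far from each other -/
theorem N5_phase (hh d π1 π2 π3 : ℤ) (hd : 16 * d ≤ hh) (hd0 : 0 < d) (a1 : 0 ≤ π1) (a2 : 4 * π1 ≤ hh)
    (b1 : hh ≤ 2 * π2 + 2) (b2 : 4 * π2 ≤ 3 * hh) (c1 : 0 ≤ π3) (c2 : π3 < hh) (hh0 : 100 ≤ hh)
    (e1 : |π1 - π3| < d ∨ hh - d < |π1 - π3|) (e2 : |π2 - π3| < d ∨ hh - d < |π2 - π3|) : False := by
  rcases e1 with e1 | e1 <;> rcases e2 with e2 | e2
  · rw [abs_lt] at e1 e2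
    omega
  · rw [abs_lt] at e1
    rw [lt_abs] at e2
    rcases e2 with e2 | e2 <;> omega
  · rw [abs_lt] at e2
    rw [lt_abs] at e1
    rcases e1 with e1 | e1 <;> omega
  · rw [lt_abs] at e1 e2
    rcases e1 with e1 | e1 <;> rcases e2 with e2 | e2 <;> omega

/-- comparison of two windows -/
theorem N5_window (a b : ℕ → ℕ) (k : ℕ) (ψ : ℝ → ℝ) (F : E (k + 1) → Option (Fin (q 0)))
    (y y' : ℝ) (t0 : ℕ) (ww : ℕ → Option (Fin (q 0)))
    (i1 : ∀ s : ℕ, (T a)^[s] (ψ y) = ψ ((T b)^[s] y))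
    (i2 : ∀ s : ℕ, (T a)^[s] (ψ y') = ψ ((T b)^[s] y'))
    (n1 : ∀ s, s < h (k + 1) → F (X b (k + 1) ((T b)^[s + t0] y)) = ww s)
    (n2 : ∀ s, s < h (k + 1) → F (X b (k + 1) ((T b)^[s + t0] y')) = ww s)
    (c1 c2 d1 d2 : C (k + 1)) (π π' : Fin (h (k + 1)))
    (v1 : ∀ s, s < h (k + 1) → P0 (X a 0 ((T a)^[s + t0] (ψ y))) = win a c1 c2 π s)
    (v2 : ∀ s, s < h (k + 1) → P0 (X a 0 ((T a)^[s + t0] (ψ y'))) = win a d1 d2 π' s)
    (r1 : ¬ ((h (k + 1) : ℝ) / 16 < Nat.card {s : Fin (h (k + 1)) // (T b)^[(s : ℕ) + t0] y ∈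
      {x | P0 (X a 0 (ψ x)) ≠ F (X b (k + 1) x)}}))
    (r2 : ¬ ((h (k + 1) : ℝ) / 16 < Nat.card {s : Fin (h (k + 1)) // (T b)^[(s : ℕ) + t0] y' ∈
      {x | P0 (X a 0 (ψ x)) ≠ F (X b (k + 1) x)}})) :
    |((π : ℕ) : ℤ) - (π' : ℕ)| < 2 * S k + h k ∨
      (h (k + 1) : ℤ) - (2 * S k + h k) < |((π : ℕ) : ℤ) - (π' : ℕ)| := by
  apply phase_close a k c1 c2 d1 d2 π π' π.2 π'.2
  apply N5_count (h (k + 1)) (win a c1 c2 π) (win a d1 d2 π') ww _ _ _ _ r1 r2
  · intro s hs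
    rw [Set.mem_setOf_eq, not_not] at hs
    rw [← v1 s s.2, i1, hs, n1 s s.2]
  · intro s hs
    rw [Set.mem_setOf_eq, not_not] at hs
    rw [← v2 s s.2, i2, hs, n2 s s.2]

/-- measure of the set of good points with phases in a given interval -/
theorem N5_phase_set (a : ℕ → ℕ) (k lo hi : ℕ) (ψ : ℝ → ℝ) (hψ : MeasurePreserving ψ lam lam)
    (gg : Set ℝ) (hgg : lam ggᶜ ≤ ENNReal.ofReal (1 / 50)) (hlo : lo ≤ hi) (hhi : hi ≤ h k)
    (hlen : (h k : ℝ) / 4 - 2 ≤ (hi : ℝ) - lo) :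
    ENNReal.ofReal (1 / 5) ≤ lam {y | y ∈ gg ∧ ∃ α α', XiAt a k (ψ y) α α' ∧ lo ≤ (α.2.2 : ℕ) ∧
      (α.2.2 : ℕ) < hi} := by
  have h1 := lam_phase_ge a k lo hi hlo hhi
  have hmeas : MeasurableSet {x | ∃ α α', XiAt a k x α α' ∧ lo ≤ (α.2.2 : ℕ) ∧ (α.2.2 : ℕ) < hi} := by
    have : {x | ∃ α α', XiAt a k x α α' ∧ lo ≤ (α.2.2 : ℕ) ∧ (α.2.2 : ℕ) < hi} =
        ⋃ α : Xi k, ⋃ α' : Xi k, {x | XiAt a k x α α' ∧ lo ≤ (α.2.2 : ℕ) ∧ (α.2.2 : ℕ) < hi} := by
      ext x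
      simp only [Set.mem_setOf_eq, Set.mem_iUnion]
    rw [this]
    refine MeasurableSet.iUnion fun α => MeasurableSet.iUnion fun α' => ?_
    by_cases hα : lo ≤ (α.2.2 : ℕ) ∧ (α.2.2 : ℕ) < hi
    · have : {x | XiAt a k x α α' ∧ lo ≤ (α.2.2 : ℕ) ∧ (α.2.2 : ℕ) < hi} = {x | XiAt a k x α α'} := by
        ext x
        simp only [Set.mem_setOf_eq, hα, and_true]
      rw [this]
      exact N5_measurable a k α α'
    · have : {x | XiAt a k x α α' ∧ lo ≤ (α.2.2 : ℕ) ∧ (α.2.2 : ℕ) < hi} = ∅ := by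
        ext x
        simp only [Set.mem_setOf_eq, hα, and_false, Set.mem_empty_iff_false]
      rw [this]
      exact MeasurableSet.empty
  rw [← hψ.measure_preimage hmeas.nullMeasurableSet] at h1
  have h2 : lam (ψ ⁻¹' {x | ∃ α α', XiAt a k x α α' ∧ lo ≤ (α.2.2 : ℕ) ∧ (α.2.2 : ℕ) < hi}) ≤
      lam {y | y ∈ gg ∧ ∃ α α', XiAt a k (ψ y) α α' ∧ lo ≤ (α.2.2 : ℕ) ∧ (α.2.2 : ℕ) < hi} +
        lam ggᶜ := by
    refine (measure_mono ?_).trans (measure_union_le _ _)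
    intro y hy
    by_cases hyg : y ∈ gg
    · exact Or.inl ⟨hyg, hy⟩
    · exact Or.inr hyg
  have hH : (4096 : ℝ) ≤ H k := by exact_mod_cast H_ge k
  have hh : (4096 : ℝ) ≤ h k := by
    have : 4096 ≤ h k := by
      unfold h
      calc 4096 ≤ H k := H_ge k
        _ = H k * 1 := (mul_one _).symm
        _ ≤ H k * sp k := Nat.mul_le_mul_left _ (sp_pos k)
    exact_mod_cast this
  have e1 : (49 / 200 : ℝ) ≤ ((hi : ℝ) - lo) / h k := by
    rw [le_div_iff₀ (by linarith)]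
    linarith
  have e2 : (3 : ℝ) / H k ≤ 1 / 100 := by
    rw [div_le_div_iff₀ (by linarith) (by norm_num)]
    linarith
  have e3 : (24 / 100 : ℝ) ≤ ((hi : ℝ) - lo) / h k * (1 - 3 / H k) := by
    calc (24 / 100 : ℝ) ≤ 49 / 200 * (99 / 100) := by norm_num
      _ ≤ _ := mul_le_mul e1 (by linarith) (by norm_num) (by linarith)
  have h3 : ENNReal.ofReal (24 / 100) ≤
      lam {y | y ∈ gg ∧ ∃ α α', XiAt a k (ψ y) α α' ∧ lo ≤ (α.2.2 : ℕ) ∧ (α.2.2 : ℕ) < hi} +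
        ENNReal.ofReal (1 / 50) :=
    (ENNReal.ofReal_le_ofReal e3).trans (h1.trans (h2.trans (by gcongr)))
  have h4 : ENNReal.ofReal (24 / 100) = ENNReal.ofReal (22 / 100) + ENNReal.ofReal (1 / 50) := by
    rw [← ENNReal.ofReal_add (by norm_num) (by norm_num)]
    norm_num
  rw [h4] at h3
  have h5 := (ENNReal.add_le_add_iff_right ENNReal.ofReal_ne_top).1 h3
  exact (ENNReal.ofReal_le_ofReal (by norm_num)).trans h5

/-- (D) -/
theorem not_iso (a b : ℕ → ℕ) (hI : ∀ n : ℕ, ∃ k, n ≤ k ∧ a k = 0 ∧ U k ≤ b k) (φ ψ : ℝ → ℝ)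
    (hφ : MeasurePreserving φ lam lam) (hψ : MeasurePreserving ψ lam lam)
    (h1 : ∀ᵐ x ∂lam, ψ (φ x) = x) (h2 : ∀ᵐ x ∂lam, φ (ψ x) = x)
    (hc : ∀ᵐ x ∂lam, φ (T a x) = T b (φ x)) : False := by
  classical
  -- the partition
  set qf : ℝ → Option (Fin (q 0)) := fun y => P0 (X a 0 (ψ y)) with hqf
  have hqm : ∀ i, MeasurableSet (qf ⁻¹' {i}) := by
    intro i
    have : qf ⁻¹' {i} = ψ ⁻¹' {x | X a 0 x ∈ {e : E 0 | P0 e = i}} := rfl
    rw [this]
    exact hψ.measurable (measurable_X a 0 _)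
  obtain ⟨m0, hm0⟩ := level_fun_dense b qf hqm (1 / 3200) (by norm_num)
  obtain ⟨k, hk, hak, hbk⟩ := hI (m0 + 1)
  obtain ⟨k', rfl⟩ : ∃ k', k = k' + 1 := ⟨k - 1, by omega⟩
  obtain ⟨F, hF⟩ := hm0 (k' + 1) (by omega)
  obtain ⟨Ψ, hΨ⟩ := name_of_xi b (k' + 1) (k' + 1) le_rfl F
  set bb : Set ℝ := {x | qf x ≠ F (X b (k' + 1) x)} with hbb
  have hbm : MeasurableSet bb := by
    have : bb = (⋃ i, (qf ⁻¹' {i} ∩ {x | X b (k' + 1) x ∈ {e | F e = i}}))ᶜ := by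
      ext x
      simp only [hbb, Set.mem_setOf_eq, Set.mem_compl_iff, Set.mem_iUnion, Set.mem_inter_iff,
        Set.mem_preimage, Set.mem_singleton_iff, not_exists, not_and]
      constructor
      · rintro hx i rfl h3
        exact hx h3.symm
      · intro hx h3
        exact hx _ rfl h3.symm
    rw [this]
    exact (MeasurableSet.iUnion fun i => (hqm i).inter (measurable_X b (k' + 1) _)).compl
  have hTb : MeasurePreserving (T b) lam lam := (T_facts b).1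
  set er0 : Set ℝ := {y | (h (k' + 1) : ℝ) / 16 <
    Nat.card {s : Fin (h (k' + 1)) // (T b)^[(s : ℕ) + 0] y ∈ bb}} with her0
  set er1 : Set ℝ := {y | (h (k' + 1) : ℝ) / 16 <
    Nat.card {s : Fin (h (k' + 1)) // (T b)^[(s : ℕ) + ell (k' + 1)] y ∈ bb}} with her1
  set nul : Set ℝ := {y | ∀ s : ℕ, (T a)^[s] (ψ y) = ψ ((T b)^[s] y)}ᶜ with hnul
  have m0' : lam er0 ≤ ENNReal.ofReal (16 * (1 / 3200)) :=
    lam_err_le (ι := ℝ) (T b) hTb bb hbm (h (k' + 1)) 0 (h_pos _) (1 / 3200) hF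
  have m1' : lam er1 ≤ ENNReal.ofReal (16 * (1 / 3200)) :=
    lam_err_le (ι := ℝ) (T b) hTb bb hbm (h (k' + 1)) (ell (k' + 1)) (h_pos _) (1 / 3200) hF
  have m2' : lam nul = 0 := N5_inter a b φ ψ hψ h1 h2 hc
  have m3' : lam (TypSet b (k' + 1))ᶜ ≤ ENNReal.ofReal (3 / H (k' + 1)) := lam_TypSet b (k' + 1)
  have m4' : lam (ψ ⁻¹' (TypSet a (k' + 1)))ᶜ ≤ ENNReal.ofReal (3 / H (k' + 1)) := by
    rw [← Set.preimage_compl,
      hψ.measure_preimage (measurableSet_TypSet a (k' + 1)).compl.nullMeasurableSet]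
    exact lam_TypSet a (k' + 1)
  set gg : Set ℝ := er0ᶜ ∩ er1ᶜ ∩ nulᶜ ∩ TypSet b (k' + 1) ∩ ψ ⁻¹' (TypSet a (k' + 1)) with hgg
  have hgm : lam ggᶜ ≤ ENNReal.ofReal (1 / 50) := by
    have e1 : ggᶜ = er0 ∪ er1 ∪ nul ∪ (TypSet b (k' + 1))ᶜ ∪ (ψ ⁻¹' (TypSet a (k' + 1)))ᶜ := by
      rw [hgg]
      simp only [Set.compl_inter, compl_compl]
    rw [e1]
    have hH : (4096 : ℝ) ≤ H (k' + 1) := by exact_mod_cast H_ge (k' + 1)
    have e2 : (3 : ℝ) / H (k' + 1) ≤ 1 / 1000 := by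
      rw [div_le_div_iff₀ (by linarith) (by norm_num)]
      linarith
    calc lam (er0 ∪ er1 ∪ nul ∪ (TypSet b (k' + 1))ᶜ ∪ (ψ ⁻¹' (TypSet a (k' + 1)))ᶜ)
        ≤ lam er0 + lam er1 + lam nul + lam (TypSet b (k' + 1))ᶜ +
          lam (ψ ⁻¹' (TypSet a (k' + 1)))ᶜ := by
          refine (measure_union_le _ _).trans ?_
          gcongr
          refine (measure_union_le _ _).trans ?_
          gcongr
          refine (measure_union_le _ _).trans ?_
          gcongr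
          exact measure_union_le _ _
      _ ≤ ENNReal.ofReal (16 * (1 / 3200)) + ENNReal.ofReal (16 * (1 / 3200)) + 0 +
          ENNReal.ofReal (1 / 1000) + ENNReal.ofReal (1 / 1000) := by
          rw [m2']
          exact add_le_add (add_le_add (add_le_add (add_le_add m0' m1') le_rfl)
            (m3'.trans (ENNReal.ofReal_le_ofReal e2))) (m4'.trans (ENNReal.ofReal_le_ofReal e2))
      _ ≤ ENNReal.ofReal (1 / 50) := by
          rw [add_zero, ← ENNReal.ofReal_add (by norm_num) (by norm_num),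
            ← ENNReal.ofReal_add (by norm_num) (by norm_num),
            ← ENNReal.ofReal_add (by norm_num) (by norm_num)]
          exact ENNReal.ofReal_le_ofReal (by norm_num)
  -- the two sets of phases
  have hhk : 4096 ≤ h (k' + 1) := by
    unfold h
    calc 4096 ≤ H (k' + 1) := H_ge (k' + 1)
      _ = H (k' + 1) * 1 := (mul_one _).symm
      _ ≤ H (k' + 1) * sp (k' + 1) := Nat.mul_le_mul_left _ (sp_pos (k' + 1))
  have A0 := N5_phase_set a (k' + 1) 0 (h (k' + 1) / 4) ψ hψ gg hgm (by omega) (by omega) (by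
    have e : h (k' + 1) ≤ 4 * (h (k' + 1) / 4) + 4 := by omega
    have e' : (h (k' + 1) : ℝ) ≤ 4 * ((h (k' + 1) / 4 : ℕ) : ℝ) + 4 := by exact_mod_cast e
    push_cast at e' ⊢
    linarith)
  have A1 := N5_phase_set a (k' + 1) (h (k' + 1) / 2) (3 * h (k' + 1) / 4) ψ hψ gg hgm (by omega) (by omega) (by
    have e : h (k' + 1) + 4 * (h (k' + 1) / 2) ≤ 4 * (3 * h (k' + 1) / 4) + 8 := by omega
    have e' : (h (k' + 1) : ℝ) + 4 * ((h (k' + 1) / 2 : ℕ) : ℝ) ≤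
      4 * ((3 * h (k' + 1) / 4 : ℕ) : ℝ) + 8 := by exact_mod_cast e
    linarith)
  have hq100 : (100 : ℝ) ≤ q (k' + 1) := by
    have := q_ge (k' + 1)
    have h2 : 100 ≤ q (k' + 1) := by norm_num at this; omega
    exact_mod_cast h2
  have hne : 0 < Nat.card (Xi (k' + 1)) := by
    have : NeZero (h (k' + 1)) := ⟨(h_pos _).ne'⟩
    exact Nat.card_pos
  have P1 := N5_many (ι := Xi (k' + 1)) (fun α => {y | ∃ α', XiAt b (k' + 1) y α α'}) _ (q (k' + 1))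
    hq100 (fun α => lam_xi_le b (k' + 1) α)
    (fun y hy => by
      obtain ⟨α, α', hα⟩ := exists_xiAt (b := b) (k := k' + 1) (y := y) hy.1.1.2
      exact ⟨α, α', hα⟩) A0 hne
  have P2 := N5_many (ι := Xi (k' + 1)) (fun α' => {y | ∃ α, XiAt b (k' + 1) y α α'}) _ (q (k' + 1))
    hq100 (fun α' => lam_xi_le' b (k' + 1) α')
    (fun y hy => by
      obtain ⟨α, α', hα⟩ := exists_xiAt (b := b) (k := k' + 1) (y := y) hy.1.1.2
      exact ⟨α', α, hα⟩) A1 hne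
  obtain ⟨α, α', ⟨y1, ⟨g1, β1, β1', hβ1, lo1, hi1⟩, γ1, x1⟩, ⟨y2, ⟨g2, β2, β2', hβ2, lo2, hi2⟩, γ2, x2⟩,
    ⟨y3, g3, x3⟩⟩ := N5_pick _ _ (fun p : Xi (k' + 1) × Xi (k' + 1) => ∃ y ∈ gg, XiAt b (k' + 1) y p.1 p.2)
      P1 P2 (N5_bad b (k' + 1) hbk gg hgm)
  obtain ⟨β3, β3', hβ3⟩ := exists_xiAt (b := a) (k := k' + 1) (y := ψ y3) g3.2
  have ii : ∀ y ∈ gg, ∀ s : ℕ, (T a)^[s] (ψ y) = ψ ((T b)^[s] y) := fun y hy => by
    have := hy.1.1.2
    rw [hnul, compl_compl] at this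
    exact this
  -- first window
  have w1 := N5_window a b k' ψ F y1 y3 0 (Ψ α) (ii y1 g1) (ii y3 g3)
    (fun s hs => (hΨ y1 α γ1 x1 s hs).1) (fun s hs => (hΨ y3 α α' x3 s hs).1)
    β1.1 β1.2.1 β3.1 β3.2.1 β1.2.2 β3.2.2
    (fun s hs => (P0_of_xi a (k' + 1) (ψ y1) β1 β1' hβ1 s hs).1)
    (fun s hs => (P0_of_xi a (k' + 1) (ψ y3) β3 β3' hβ3 s hs).1)
    g1.1.1.1.1 g3.1.1.1.1
  -- second window
  have w2 := N5_window a b k' ψ F y2 y3 (ell (k' + 1)) (Ψ α') (ii y2 g2) (ii y3 g3)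
    (fun s hs => (hΨ y2 γ2 α' x2 s hs).2) (fun s hs => (hΨ y3 α α' x3 s hs).2)
    β2'.1 β2'.2.1 β3'.1 β3'.2.1 β2'.2.2 β3'.2.2
    (fun s hs => (P0_of_xi a (k' + 1) (ψ y2) β2 β2' hβ2 s hs).2)
    (fun s hs => (P0_of_xi a (k' + 1) (ψ y3) β3 β3' hβ3 s hs).2)
    g2.1.1.1.2 g3.1.1.1.2
  rw [phase_eq hak hβ2, phase_eq hak hβ3] at w2
  have hd : 16 * (2 * S k' + h k') ≤ h (k' + 1) := by
    have e1 : h (k' + 1) = L k' * h k' + 3 * sp (k' + 1) := h_succ' k'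
    have e2 : L k' = 4 * q k' ^ 6 := L_eq k'
    have e3 := q_ge k'
    have e4 : 16384 ≤ q k' := by norm_num at e3; omega
    have e5 : 16 * (2 * q k' ^ 4 + 1) ≤ 4 * q k' ^ 6 := by
      have f1 : 1 ≤ q k' ^ 4 := Nat.one_le_pow _ _ (by omega)
      have f2 : 16 ≤ q k' ^ 2 := by nlinarith
      calc 16 * (2 * q k' ^ 4 + 1) ≤ 4 * (16 * q k' ^ 4) := by omega
        _ ≤ 4 * (q k' ^ 2 * q k' ^ 4) := by
          apply Nat.mul_le_mul_left
          exact Nat.mul_le_mul_right _ f2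
        _ = 4 * q k' ^ 6 := by ring
    calc 16 * (2 * S k' + h k') = 16 * (2 * q k' ^ 4 + 1) * h k' := by unfold S; ring
      _ ≤ 4 * q k' ^ 6 * h k' := Nat.mul_le_mul_right _ e5
      _ ≤ h (k' + 1) := by rw [e1, e2]; exact Nat.le_add_right _ _
  have hd0 : 0 < 2 * S k' + h k' := by have := h_pos k'; omega
  refine N5_phase (h (k' + 1)) ((2 * S k' + h k' : ℕ)) (β1.2.2 : ℕ) (β2.2.2 : ℕ) (β3.2.2 : ℕ)
    (by exact_mod_cast hd) (by exact_mod_cast hd0) (by positivity) ?_ ?_ ?_ (by positivity)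
    (by have := β3.2.2.2; exact_mod_cast this) ?_ ?_ ?_
  · have := Nat.mul_div_le (h (k' + 1)) 4
    have : 4 * (β1.2.2 : ℕ) ≤ h (k' + 1) := by omega
    exact_mod_cast this
  · have : h (k' + 1) ≤ 2 * (β2.2.2 : ℕ) + 2 := by omega
    exact_mod_cast this
  · have : 4 * (β2.2.2 : ℕ) ≤ 3 * h (k' + 1) := by omega
    exact_mod_cast this
  · have : 100 ≤ h (k' + 1) := by omega
    exact_mod_cast this
  · push_cast
    exact w1
  · push_cast
    exact w2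

end KAut
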