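import Mathlib
import Pool.Agent.Lib.MP_33914b_an.T2
import Pool.Agent.Lib.MP_33914b_an.T3

/-!
# MP_33914b_an, file T4  (ROW ka-T4)
Paper: /team-store/kaut_paper.md

PROOF / HINTS:
lam_Phik_ne: for x in [0,1): Phik a b k x and Phik a b (k+1) x have the same fr (k+1) (= that of x); X b (k+1) (Phik a b (k+1) x) = X a (k+1) x = up (a k) (X a k x, digit k x), X b (k+1) (Phik a b k x) =
up (b k) (X b k (Phik a b k x), digit) = up (b k) (X a k x, digit k x). So they are equal if up (a k) and up (b k) agree at (X a k x, digit k x); (X a k x, digit k x) is the image of Y (NN (k+1)) x under a bijection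
Fin (NN (k+1)) = E k x Z k, so the measure is Nat.card{up a != up b}/Nat.card(E x Z) <= |a-b|/U (up_ne_card, symmetric in a,b).
iso_of_summable: lim_lemma for Phi = Phik a b, Psi = Phik b a (inverse to each other: IE_comp). Intertwining: for a.e. x, for all large k: Phi a b x = Phik a b k x, X a k x = (c, inl p), p+1<h (T2: exceptional sets summable or ae_good-like),
T a x = Tk a k x, Phi a b (T a x) = Phik a b k (T a x) [a.e. x, because T a preserves null sets], T b (Phi a b x) = Tk b k (Phik a b k x); both sides have X b k = (c, inl (p+1)) and the same fr k; ext_X.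
-/
set_option autoImplicit false

open MeasureTheory

namespace KAut

theorem T4_mem (a b : ℕ → ℕ) (k : ℕ) {x : ℝ} (hx : x ∈ Set.Ico (0 : ℝ) 1) :
    Phik a b k x ∈ Set.Ico (0 : ℝ) 1 := IE_mem _ hx

theorem T4_X (a b : ℕ → ℕ) (k : ℕ) {x : ℝ} (hx : x ∈ Set.Ico (0 : ℝ) 1) :
    X b k (Phik a b k x) = X a k x := by
  unfold X Phik
  rw [Y_IE _ hx]
  simp

theorem T4_fr (a b : ℕ → ℕ) (k : ℕ) {x : ℝ} (hx : x ∈ Set.Ico (0 : ℝ) 1) :
    fr k (Phik a b k x) = fr k x := fract_IE _ hx

theorem T4_out (a b : ℕ → ℕ) (k : ℕ) {x : ℝ} (hx : x ∉ Set.Ico (0 : ℝ) 1) :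
    Phik a b k x = x := by
  unfold Phik IE
  rw [if_neg hx]

theorem T4_eq (a b : ℕ → ℕ) (k : ℕ) {x : ℝ} (hx : x ∈ Set.Ico (0 : ℝ) 1)
    (hup : up (a k) k (X a k x, digit k x) = up (b k) k (X a k x, digit k x)) :
    Phik a b k x = Phik a b (k + 1) x := by
  have hm := T4_mem a b k hx
  have hf : fr k (Phik a b k x) = fr k x := T4_fr a b k hx
  apply ext_X b (k + 1) hm (T4_mem a b (k + 1) hx)
  · rw [X_succ b k hm, T4_X a b (k + 1) hx, X_succ a k hx, T4_X a b k hx, digit_congr k hf]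
    exact hup.symm
  · rw [T4_fr a b (k + 1) hx]
    exact fr_succ_congr k hf

/-- number of `(e,z)` on which `up a` and `up b` differ -/
theorem T4_card (a b k : ℕ) :
    (Nat.card {x : E k × Z k // up a k x ≠ up b k x} : ℝ) * U k ≤
      |(a : ℝ) - b| * Nat.card (E k × Z k) := by
  rcases le_total a b with hab | hab
  · have h1 := up_ne_card a b k hab
    have h2 : ((Nat.card {x : E k × Z k // up a k x ≠ up b k x} * U k : ℕ) : ℝ) ≤
        (((b - a) * Nat.card (E k × Z k) : ℕ) : ℝ) := by exact_mod_cast h1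
    rw [Nat.cast_mul, Nat.cast_mul, Nat.cast_sub hab] at h2
    have h3 : |(a : ℝ) - b| = b - a := by
      rw [abs_sub_comm, abs_of_nonneg]
      have : (a : ℝ) ≤ b := by exact_mod_cast hab
      linarith
    rw [h3]
    exact h2
  · have h1 := up_ne_card b a k hab
    have h0 : Nat.card {x : E k × Z k // up a k x ≠ up b k x} =
        Nat.card {x : E k × Z k // up b k x ≠ up a k x} :=
      Nat.card_congr (Equiv.subtypeEquivRight fun x => ne_comm)
    rw [h0]
    have h2 : ((Nat.card {x : E k × Z k // up b k x ≠ up a k x} * U k : ℕ) : ℝ) ≤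
        (((a - b) * Nat.card (E k × Z k) : ℕ) : ℝ) := by exact_mod_cast h1
    rw [Nat.cast_mul, Nat.cast_mul, Nat.cast_sub hab] at h2
    have h3 : |(a : ℝ) - b| = a - b := by
      rw [abs_of_nonneg]
      have : (b : ℝ) ≤ a := by exact_mod_cast hab
      linarith
    rw [h3]
    exact h2

theorem lam_Phik_ne (a b : ℕ → ℕ) (k : ℕ) :
    lam {x | Phik a b k x ≠ Phik a b (k + 1) x} ≤ ENNReal.ofReal (|(a k : ℝ) - b k| / U k) := by
  classical
  let s : Set (E (k + 1)) := {e | e ≠ up (b k) k ((up (a k) k).symm e)}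
  have h1 : {x | Phik a b k x ≠ Phik a b (k + 1) x} ⊆ {x | X a (k + 1) x ∈ s} := by
    intro x hx
    by_cases hx1 : x ∈ Set.Ico (0 : ℝ) 1
    · show X a (k + 1) x ≠ up (b k) k ((up (a k) k).symm (X a (k + 1) x))
      intro h
      apply hx
      apply T4_eq a b k hx1
      rw [X_succ a k hx1, Equiv.symm_apply_apply] at h
      exact h
    · exact absurd (by rw [T4_out a b k hx1, T4_out a b (k + 1) hx1]) hx
  refine (measure_mono h1).trans ?_
  rw [lam_X]
  have hs : Nat.card s = Nat.card {x : E k × Z k // up (a k) k x ≠ up (b k) k x} := by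
    refine Nat.card_congr (Equiv.symm ?_)
    refine Equiv.subtypeEquiv (up (a k) k) fun x => ?_
    show _ ↔ up (a k) k x ≠ up (b k) k ((up (a k) k).symm (up (a k) k x))
    rw [Equiv.symm_apply_apply]
  have hE : Nat.card (E (k + 1)) = Nat.card (E k × Z k) := Nat.card_congr (up (a k) k).symm
  have hc := T4_card (a k) (b k) k
  rw [← hs, ← hE] at hc
  have hE0 : (0 : ℝ) < Nat.card (E (k + 1)) := by
    have : 0 < Nat.card (E (k + 1)) := Nat.card_pos
    exact_mod_cast this
  have hU : (0 : ℝ) < U k := by exact_mod_cast U_pos k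
  have h2 : ((Nat.card s : ℝ)) / Nat.card (E (k + 1)) ≤ |(a k : ℝ) - b k| / U k := by
    rw [div_le_div_iff₀ hE0 hU]
    exact hc
  have h3 : (Nat.card s : ENNReal) / Nat.card (E (k + 1)) =
      ENNReal.ofReal ((Nat.card s : ℝ) / Nat.card (E (k + 1))) := by
    rw [ENNReal.ofReal_div_of_pos hE0, ENNReal.ofReal_natCast, ENNReal.ofReal_natCast]
  rw [h3]
  exact ENNReal.ofReal_le_ofReal h2

theorem T4_inv (a b : ℕ → ℕ) (k : ℕ) (x : ℝ) : Phik b a k (Phik a b k x) = x := by
  unfold Phik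
  rw [IE_comp]
  have : ((coord a k).trans (coord b k).symm).trans ((coord b k).trans (coord a k).symm) =
      Equiv.refl _ := by
    ext y
    simp
  rw [this, IE_refl]

/-- (C) `ℓ^1`-close parameters give isomorphic transformations -/
theorem iso_of_summable (a b : ℕ → ℕ) (hs : Summable (fun k => |(a k : ℝ) - b k| / U k)) :
    MeasurePreserving (Phi a b) lam lam ∧ MeasurePreserving (Phi b a) lam lam ∧
      (∀ᵐ x ∂lam, Phi b a (Phi a b x) = x) ∧ (∀ᵐ x ∂lam, Phi a b (Phi b a x) = x) ∧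
      (∀ᵐ x ∂lam, Phi a b (T a x) = T b (Phi a b x)) := by
  have hsum : ∑' k, lam {x | Phik a b k x ≠ Phik a b (k + 1) x} ≠ ⊤ := by
    refine ne_top_of_le_ne_top ?_ (ENNReal.tsum_le_tsum fun k => lam_Phik_ne a b k)
    rw [← ENNReal.ofReal_tsum_of_nonneg (fun k => by positivity) hs]
    exact ENNReal.ofReal_ne_top
  obtain ⟨h1, h2, h3, h4, h5, -⟩ := lim_lemma lam (Phik a b) (Phik b a)
    (fun k => measurePreserving_IE _ _) (fun k => measurePreserving_IE _ _)
    (fun k x => T4_inv a b k x) (fun k x => T4_inv b a k x) hsum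
  refine ⟨h1, h2, h3, h4, ?_⟩
  have h6 : ∀ᵐ x ∂lam, ∃ k, ∀ j, k ≤ j → Phik a b j (T a x) = evLim (Phik a b) (T a x) :=
    (T_facts a).1.quasiMeasurePreserving.ae h5
  filter_upwards [ae_good a, h5, h6] with x hx hx5 hx6
  obtain ⟨hx1, hgood⟩ := hx
  obtain ⟨k5, hk5⟩ := hx5
  obtain ⟨k6, hk6⟩ := hx6
  obtain ⟨k, hk, c, p, hp, hX⟩ := hgood 1 (max k5 k6)
  have e5 : Phi a b x = Phik a b k x := (hk5 k (le_trans (le_max_left _ _) hk)).symm
  have e6 : Phi a b (T a x) = Phik a b k (T a x) := (hk6 k (le_trans (le_max_right _ _) hk)).symm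
  have eT : T a x = Tk a k x := T_eq_Tk a hx1 c p hp hX
  have hm : Phik a b k x ∈ Set.Ico (0 : ℝ) 1 := T4_mem a b k hx1
  have hXb : X b k (Phik a b k x) = (c, Sum.inl ⟨p, by omega⟩) := by rw [T4_X a b k hx1, hX]
  have eTb : T b (Phik a b k x) = Tk b k (Phik a b k x) := T_eq_Tk b hm c p hp hXb
  rw [e6, e5, eT, eTb]
  have hTm : Tk a k x ∈ Set.Ico (0 : ℝ) 1 := act_mem a k _ hx1
  apply ext_X b k (T4_mem a b k hTm) (act_mem b k _ hm)
  · rw [T4_X a b k hTm]
    show X a k (act a k (tk k) x) = X b k (act b k (tk k) (Phik a b k x))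
    rw [X_act a k _ hx1, X_act b k _ hm, hX, hXb]
  · rw [T4_fr a b k hTm]
    show fr k (act a k (tk k) x) = fr k (act b k (tk k) (Phik a b k x))
    rw [fr_act a k _ hx1, fr_act b k _ hm, T4_fr a b k hx1]

end KAut
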