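import Mathlib
import Pool.Agent.Lib.MP_33914b_an.MDef
import Pool.Agent.Lib.MP_33914b_an.T4
import Pool.Agent.Lib.MP_33914b_an.N5

/-!
# MP_33914b_an, file M3  (ROW ka-M3)
Paper: /team-store/kaut_paper.md

PROOF / HINTS:
TQ_iso: r = Phi a b. TQ_not_iso: from representatives s ~ T a, t ~ T b, r with inverse r': a.e. equalities transported (measure preserving maps pull back null sets); not_iso with phi = r, psi = r'.
-/
set_option autoImplicit false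

open MeasureTheory Topology Filter Set

namespace KAut

theorem TQ_iso (a b : ℕ → ℕ) (hs : Summable (fun k => |(a k : ℝ) - b k| / U k)) : Aut.Iso (TQ a) (TQ b) := by
  obtain ⟨h1, h2, h3, h4, h5⟩ := iso_of_summable a b hs
  exact ⟨TA a, TA b, ⟨Phi a b, h1, Phi b a, h2, h3, h4⟩, rfl, rfl, h5⟩

theorem TQ_not_iso (a b : ℕ → ℕ) (hI : ∀ n : ℕ, ∃ k, n ≤ k ∧ a k = 0 ∧ U k ≤ b k) : ¬ Aut.Iso (TQ a) (TQ b) := by
  rintro ⟨s, t, r, hs, ht, hr⟩
  have hs' : ∀ᵐ x ∂lam, s.1 x = T a x := Quotient.exact hs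
  have ht' : ∀ᵐ x ∂lam, t.1 x = T b x := Quotient.exact ht
  obtain ⟨φ, hφ, ψ, hψ, h1, h2⟩ := r
  have hr' : ∀ᵐ x ∂lam, φ (s.1 x) = t.1 (φ x) := hr
  have ht'' : ∀ᵐ x ∂lam, t.1 (φ x) = T b (φ x) := hφ.quasiMeasurePreserving.ae ht'
  refine not_iso a b hI φ ψ hφ hψ h1 h2 ?_
  filter_upwards [hs', hr', ht''] with x e1 e2 e3
  rw [← e1, e2, e3]

end KAut
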