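import Mathlib
import Pool.Agent.Lib.MP_33914b_an.MDef

/-!
# MP_33914b_an, file M4  (ROW ka-M4)
Paper: /team-store/kaut_paper.md

PROOF / HINTS:
summable_prm: |floor(U|s|) - floor(U|t|)| <= U|s-t| + 1, sum 1/U_k converges (U_k >= 2^k). exists_pair: {x : exists k>=n, |x_k| < 1/U_k} open dense, so generic x has infinitely many k with prm x k = 0; for this x the set of y with |y_k| >= 1 .. (> 1) for infinitely many of those k is comeagre. (N->R) is a Baire space.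
-/
set_option autoImplicit false

open MeasureTheory Topology Filter Set

namespace KAut

theorem measurable_prm : Measurable prm := by
  refine measurable_pi_lambda _ (fun k => ?_)
  exact Nat.measurable_floor.comp
    ((measurable_const.mul ((measurable_pi_apply k).norm)))

theorem M4_U_ge (k : ℕ) : 2 ^ k ≤ U k := by
  have h1 := two_pow_lt_q k
  have h2 : 2 ^ k ≤ 8 ^ k := Nat.pow_le_pow_left (by norm_num) k
  unfold U
  have h3 : 8 ^ k ≤ 2 ^ 14 * 8 ^ k := Nat.le_mul_of_pos_left _ (by norm_num)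
  omega

theorem M4_floor (M s t : ℝ) (hM : 0 ≤ M) :
    |((⌊M * |s|⌋₊ : ℕ) : ℝ) - ((⌊M * |t|⌋₊ : ℕ) : ℝ)| ≤ M * |t - s| + 1 := by
  have hs : 0 ≤ M * |s| := mul_nonneg hM (abs_nonneg _)
  have ht : 0 ≤ M * |t| := mul_nonneg hM (abs_nonneg _)
  have h1 := Nat.floor_le hs
  have h2 := Nat.lt_floor_add_one (M * |s|)
  have h3 := Nat.floor_le ht
  have h4 := Nat.lt_floor_add_one (M * |t|)
  have h5 : abs (M * abs t - M * abs s) ≤ M * abs (t - s) := by
    rw [← mul_sub, abs_mul, abs_of_nonneg hM]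
    exact mul_le_mul_of_nonneg_left (abs_abs_sub_abs_le_abs_sub t s) hM
  rw [abs_le] at h5 ⊢
  constructor <;> linarith [h5.1, h5.2]

theorem summable_prm (x x' : ℕ → ℝ) (hs : Summable (fun k => |x' k - x k|)) :
    Summable (fun k => |(prm x k : ℝ) - prm x' k| / U k) := by
  have hgeo : Summable (fun k : ℕ => ((1 : ℝ) / 2) ^ k) := summable_geometric_two
  refine Summable.of_nonneg_of_le (fun k => div_nonneg (abs_nonneg _) (Nat.cast_nonneg _)) ?_
    (hs.add hgeo)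
  intro k
  have hU : (0 : ℝ) < (U k : ℝ) := by exact_mod_cast U_pos k
  rw [div_le_iff₀ hU]
  have h1 := M4_floor (U k : ℝ) (x k) (x' k) hU.le
  have h2 : (1 : ℝ) ≤ (1 / 2) ^ k * U k := by
    rw [one_div, inv_pow, inv_mul_eq_div, le_div_iff₀ (by positivity), one_mul]
    exact_mod_cast M4_U_ge k
  calc |(prm x k : ℝ) - prm x' k| ≤ U k * |x' k - x k| + 1 := h1
    _ ≤ (|x' k - x k| + (1 / 2) ^ k) * U k := by rw [add_mul]; linarith

theorem M4_dense (P : ℕ → Set ℝ) (hP : ∀ k, (P k).Nonempty) (K : Set ℕ)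
    (hK : ∀ n, ∃ k, n ≤ k ∧ k ∈ K) (n : ℕ) :
    Dense {x : ℕ → ℝ | ∃ k, n ≤ k ∧ k ∈ K ∧ x k ∈ P k} := by
  intro x
  choose r hr hrK using fun j => hK (max n j)
  choose p hp using hP
  refine mem_closure_of_tendsto (f := fun j => Function.update x (r j) (p (r j)))
    (b := atTop) ?_ (Eventually.of_forall (fun j => ?_))
  · rw [tendsto_pi_nhds]
    intro i
    refine Tendsto.congr' ?_ (tendsto_const_nhds (x := x i))
    filter_upwards [eventually_gt_atTop i] with j hj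
    rw [Function.update_of_ne]
    have := hr j
    have h2 : j ≤ max n j := le_max_right _ _
    omega
  · refine ⟨r j, (le_max_left n j).trans (hr j), hrK j, ?_⟩
    rw [Function.update_self]
    exact hp _

theorem M4_residual (P : ℕ → Set ℝ) (hP : ∀ k, (P k).Nonempty) (hO : ∀ k, IsOpen (P k)) (K : Set ℕ)
    (hK : ∀ n, ∃ k, n ≤ k ∧ k ∈ K) :
    {x : ℕ → ℝ | ∀ n, ∃ k, n ≤ k ∧ k ∈ K ∧ x k ∈ P k} ∈ residual (ℕ → ℝ) := by
  have : {x : ℕ → ℝ | ∀ n, ∃ k, n ≤ k ∧ k ∈ K ∧ x k ∈ P k} =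
      ⋂ n : ℕ, {x : ℕ → ℝ | ∃ k, n ≤ k ∧ k ∈ K ∧ x k ∈ P k} := by
    ext x; simp
  rw [this, countable_iInter_mem]
  intro n
  refine residual_of_dense_open ?_ (M4_dense P hP K hK n)
  have h2 : {x : ℕ → ℝ | ∃ k, n ≤ k ∧ k ∈ K ∧ x k ∈ P k} =
      ⋃ k, ⋃ (_ : n ≤ k ∧ k ∈ K), {x : ℕ → ℝ | x k ∈ P k} := by
    ext x; simp [and_assoc]
  rw [h2]
  exact isOpen_iUnion (fun k => isOpen_iUnion (fun _ => (hO k).preimage (continuous_apply k)))

/-- in every comeagre set there are two points whose parameters are `0`, resp. `≥ U k`, for infinitely many common `k` -/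
theorem exists_pair (GG : Set (ℕ → ℝ)) (hGG : GG ∈ residual (ℕ → ℝ)) :
    ∃ x ∈ GG, ∃ y ∈ GG, ∀ n : ℕ, ∃ k, n ≤ k ∧ prm x k = 0 ∧ U k ≤ prm y k := by
  have : BaireSpace (ℕ → ℝ) := by
    let := TopologicalSpace.upgradeIsCompletelyMetrizable (ℕ → ℝ)
    infer_instance
  have hA := M4_residual (fun k => {t : ℝ | (U k : ℝ) * |t| < 1})
    (fun k => ⟨0, by simp⟩)
    (fun k => isOpen_lt (by fun_prop) continuous_const) Set.univ (fun n => ⟨n, le_rfl, trivial⟩)
  obtain ⟨x, hx, hxA⟩ := (dense_of_mem_residual (inter_mem hGG hA)).nonempty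
  have hB := M4_residual (fun _ => {t : ℝ | 1 < |t|})
    (fun k => ⟨2, by norm_num⟩)
    (fun k => isOpen_lt continuous_const (by fun_prop)) {k | prm x k = 0} (by
      intro n
      obtain ⟨k, hk, -, hk2⟩ := hxA n
      refine ⟨k, hk, ?_⟩
      change ⌊(U k : ℝ) * |x k|⌋₊ = 0
      rw [Nat.floor_eq_zero]
      exact hk2)
  obtain ⟨y, hy, hyB⟩ := (dense_of_mem_residual (inter_mem hGG hB)).nonempty
  refine ⟨x, hx, y, hy, fun n => ?_⟩
  obtain ⟨k, hk, hk1, hk2⟩ := hyB n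
  refine ⟨k, hk, hk1, ?_⟩
  change U k ≤ ⌊(U k : ℝ) * |y k|⌋₊
  apply Nat.le_floor
  have h1 : (1 : ℝ) < |y k| := hk2
  have h2 : (0 : ℝ) ≤ (U k : ℝ) := Nat.cast_nonneg _
  nlinarith

end KAut
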