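import Mathlib
import Pool.Agent.Lib.MP_33914b_an.Erg
import Pool.Agent.Lib.MP_33914b_an.M2
import Pool.Agent.Lib.MP_33914b_an.M3
import Pool.Agent.Lib.MP_33914b_an.M4

/-!
# MP_33914b_an, file Main
Paper: /team-store/kaut_paper.md
-/
set_option autoImplicit false

open MeasureTheory Topology Filter Set

namespace KAut

/-- THEOREM. The isomorphism relation on K-automorphisms is not Borel reducible to the orbit equivalence relation of
any Borel action of `S_∞` on a standard Borel space. -/
theorem main (Y : Type*) [MeasurableSpace Y] [StandardBorelSpace Y] [MulAction (Equiv.Perm ℕ) Y]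
    (hY : Measurable (fun p : Equiv.Perm ℕ × Y => p.1 • p.2)) :
    ¬ ∃ f : KAutos → Y, Measurable f ∧
      ∀ S T : KAutos, Aut.Iso S.1 T.1 ↔ ∃ σ : Equiv.Perm ℕ, σ • f S = f T := by
  rintro ⟨f, hf, hred⟩
  obtain ⟨GG, h1, h2⟩ := hjorth Y hY (fun x => f (TK (prm x)))
    (hf.comp (measurable_TK.comp measurable_prm)) (fun x x' hs => (hred _ _).1 (TQ_iso _ _ (summable_prm x x' hs)))
  obtain ⟨x, hx, y, hy, hxy⟩ := exists_pair GG h1
  exact TQ_not_iso _ _ hxy ((hred (TK (prm x)) (TK (prm y))).2 (h2 x hx y hy))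

end KAut
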